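import Mathlib

/-!
Diffeomorphisms and homeomorphisms of an open set onto an open set, as maps of the ambient space.
-/

set_option linter.unusedSectionVars false

namespace Pool.Agent.H93.Exo

open MeasureTheory Metric Set Filter Topology Module Function
open scoped ENNReal ContDiff

variable {E : Type*} [NormedAddCommGroup E] [NormedSpace ℝ E]

/-- `g` maps `Ω` diffeomorphically onto the open set `g(Ω)`: it is `C^∞` and injective on `Ω`,
its image is open and the inverse `g(Ω) → Ω` is `C^∞`. -/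
def IsDiffeoOn (Ω : Set E) (g : E → E) : Prop :=
  ContDiffOn ℝ ∞ g Ω ∧ InjOn g Ω ∧ IsOpen (g '' Ω) ∧ ContDiffOn ℝ ∞ (invFunOn g Ω) (g '' Ω)

/-- `f` maps `Ω` homeomorphically onto the open set `f(Ω)`. -/
def IsHomeoOn (Ω : Set E) (f : E → E) : Prop :=
  ContinuousOn f Ω ∧ InjOn f Ω ∧ IsOpen (f '' Ω) ∧ ContinuousOn (invFunOn f Ω) (f '' Ω)

theorem IsDiffeoOn.isHomeoOn {Ω : Set E} {g : E → E} (h : IsDiffeoOn Ω g) : IsHomeoOn Ω g :=
  ⟨h.1.continuousOn, h.2.1, h.2.2.1, h.2.2.2.continuousOn⟩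

/-- the open partial homeomorphism of a homeomorphism onto the image -/
noncomputable def IsHomeoOn.toOPH {Ω : Set E} (hΩ : IsOpen Ω) {f : E → E} (h : IsHomeoOn Ω f) :
    OpenPartialHomeomorph E E where
  toPartialEquiv := h.2.1.toPartialEquiv
  open_source := hΩ
  open_target := h.2.2.1
  continuousOn_toFun := h.1
  continuousOn_invFun := h.2.2.2

theorem IsHomeoOn.isOpen_image {Ω : Set E} {f : E → E} (h : IsHomeoOn Ω f) (hΩ : IsOpen Ω)
    {V : Set E} (hV : IsOpen V) (hVΩ : V ⊆ Ω) : IsOpen (f '' V) :=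
  (h.toOPH hΩ).isOpen_image_of_subset_source hV hVΩ

theorem IsDiffeoOn.exists_equiv {Ω : Set E} (hΩ : IsOpen Ω) {g : E → E} (h : IsDiffeoOn Ω g)
    {x : E} (hx : x ∈ Ω) : ∃ e : E ≃L[ℝ] E, HasFDerivAt g (e : E →L[ℝ] E) x := by
  obtain ⟨h1, h2, h3, h4⟩ := h
  have hy : g x ∈ g '' Ω := mem_image_of_mem g hx
  have hg : DifferentiableAt ℝ g x :=
    (h1.contDiffAt (hΩ.mem_nhds hx)).differentiableAt (by simp)
  have hi : DifferentiableAt ℝ (invFunOn g Ω) (g x) :=
    (h4.contDiffAt (h3.mem_nhds hy)).differentiableAt (by simp)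
  have hinv : ∀ y ∈ Ω, invFunOn g Ω (g y) = y := fun y hy => h2.leftInvOn_invFunOn hy
  set A := fderiv ℝ g x with hA
  set B := fderiv ℝ (invFunOn g Ω) (g x) with hB
  have hBA : B.comp A = ContinuousLinearMap.id ℝ E := by
    have e1 : HasFDerivAt (fun y => invFunOn g Ω (g y)) (B.comp A) x :=
      hi.hasFDerivAt.comp x hg.hasFDerivAt
    have e2 : HasFDerivAt (fun y => invFunOn g Ω (g y)) (ContinuousLinearMap.id ℝ E) x := by
      refine (hasFDerivAt_id x).congr_of_eventuallyEq ?_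
      filter_upwards [hΩ.mem_nhds hx] with y hy using hinv y hy
    exact e1.unique e2
  have hAB : A.comp B = ContinuousLinearMap.id ℝ E := by
    have hx' : invFunOn g Ω (g x) = x := hinv x hx
    have hg' : HasFDerivAt g A (invFunOn g Ω (g x)) := by rw [hx']; exact hg.hasFDerivAt
    have e1 : HasFDerivAt (fun y => g (invFunOn g Ω y)) (A.comp B) (g x) :=
      hg'.comp (g x) hi.hasFDerivAt
    have e2 : HasFDerivAt (fun y => g (invFunOn g Ω y)) (ContinuousLinearMap.id ℝ E) (g x) := by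
      refine (hasFDerivAt_id (g x)).congr_of_eventuallyEq ?_
      filter_upwards [h3.mem_nhds hy] with y hy
      exact invFunOn_eq hy
    exact e1.unique e2
  refine ⟨ContinuousLinearEquiv.equivOfInverse A B (fun v => ?_) (fun v => ?_), ?_⟩
  · simpa using congrArg (fun T : E →L[ℝ] E => T v) hBA
  · simpa using congrArg (fun T : E →L[ℝ] E => T v) hAB
  · exact hg.hasFDerivAt

theorem isDiffeoOn_of [CompleteSpace E] {Ω : Set E} (hΩ : IsOpen Ω) {g : E → E}
    (hg : ContDiffOn ℝ ∞ g Ω) (hinj : InjOn g Ω)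
    (hder : ∀ x ∈ Ω, ∃ e : E ≃L[ℝ] E, HasFDerivAt g (e : E →L[ℝ] E) x) : IsDiffeoOn Ω g := by
  have hmap : ∀ x ∈ Ω, map g (𝓝 x) = 𝓝 (g x) := by
    intro x hx
    obtain ⟨e, he⟩ := hder x hx
    have h1 : ContDiffAt ℝ 1 g x := (hg.contDiffAt (hΩ.mem_nhds hx)).of_le (by norm_cast)
    have h2 : HasStrictFDerivAt g (e : E →L[ℝ] E) x := by
      have := h1.hasStrictFDerivAt (by norm_num)
      rwa [he.fderiv] at this
    exact h2.map_nhds_eq_of_equiv
  have hop : ∀ V ⊆ Ω, IsOpen V → IsOpen (g '' V) := by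
    intro V hVΩ hV
    rw [isOpen_iff_mem_nhds]
    rintro _ ⟨x, hx, rfl⟩
    rw [← hmap x (hVΩ hx)]
    exact image_mem_map (hV.mem_nhds hx)
  have hopen : IsOpen (g '' Ω) := hop Ω le_rfl hΩ
  have hcont : ContinuousOn (invFunOn g Ω) (g '' Ω) := by
    rintro _ ⟨x, hx, rfl⟩
    refine ContinuousAt.continuousWithinAt ?_
    have hx' : invFunOn g Ω (g x) = x := hinj.leftInvOn_invFunOn hx
    rw [ContinuousAt, hx']
    intro V hV
    rw [mem_map]
    obtain ⟨W, hWV, hW, hxW⟩ := _root_.mem_nhds_iff.1 (inter_mem hV (hΩ.mem_nhds hx))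
    refine mem_of_superset ((hop W (fun z hz => (hWV hz).2) hW).mem_nhds (mem_image_of_mem g hxW)) ?_
    rintro _ ⟨z, hz, rfl⟩
    rw [mem_preimage, hinj.leftInvOn_invFunOn (hWV hz).2]
    exact (hWV hz).1
  have hH : IsHomeoOn Ω g := ⟨hg.continuousOn, hinj, hopen, hcont⟩
  refine ⟨hg, hinj, hopen, ?_⟩
  rintro y ⟨x, hx, rfl⟩
  obtain ⟨e, he⟩ := hder x hx
  have hx' : invFunOn g Ω (g x) = x := hinj.leftInvOn_invFunOn hx
  have := (hH.toOPH hΩ).contDiffAt_symm (n := ∞) (f₀' := e) (a := g x) (mem_image_of_mem g hx)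
    (by
      change HasFDerivAt g (e : E →L[ℝ] E) (invFunOn g Ω (g x))
      rw [hx']; exact he)
    (by
      change ContDiffAt ℝ ∞ g (invFunOn g Ω (g x))
      rw [hx']; exact hg.contDiffAt (hΩ.mem_nhds hx))
  exact this.contDiffWithinAt

theorem IsDiffeoOn.mono [CompleteSpace E] {Ω V : Set E} {g : E → E} (h : IsDiffeoOn Ω g)
    (hΩ : IsOpen Ω) (hV : IsOpen V) (hVΩ : V ⊆ Ω) : IsDiffeoOn V g :=
  isDiffeoOn_of hV (h.1.mono hVΩ) (h.2.1.mono hVΩ) fun _ hx => h.exists_equiv hΩ (hVΩ hx)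

end Pool.Agent.H93.Exo
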