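import Mathlib

/-!
A map which is smooth off the origin and positively homogeneous of degree `d + 1` is `C^d`.
-/

set_option linter.unusedSectionVars false

namespace Pool.Agent.H93.Exo

open Metric Set Filter Topology
open scoped ContDiff

universe u

variable {E : Type u} [NormedAddCommGroup E] [NormedSpace ℝ E] [FiniteDimensional ℝ E]

theorem homogeneous_bound {F : Type u} [NormedAddCommGroup F] [NormedSpace ℝ F] {u : E → F}
    {d : ℕ} (hu : ∀ x, x ≠ 0 → ContinuousAt u x)
    (hh : ∀ (t : ℝ) (x : E), 0 < t → u (t • x) = t ^ (d + 1) • u x) :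
    ∃ M : ℝ, 0 ≤ M ∧ ∀ x, ‖u x‖ ≤ M * ‖x‖ ^ (d + 1) := by
  have hc : ContinuousOn u (sphere (0 : E) 1) := fun x hx =>
    (hu x (ne_zero_of_mem_unit_sphere ⟨x, hx⟩)).continuousWithinAt
  obtain ⟨M, hM⟩ := (isCompact_sphere (0 : E) 1).exists_bound_of_continuousOn hc
  have hu0 : u 0 = 0 := by
    have h1 := hh 2 0 two_pos
    rw [smul_zero] at h1
    have h2 : ((2 : ℝ) ^ (d + 1) - 1) • u 0 = 0 := by
      rw [sub_smul, one_smul, ← h1, sub_self]
    have h3 : (2 : ℝ) ^ (d + 1) - 1 ≠ 0 := by
      have : (1 : ℝ) < 2 ^ (d + 1) := one_lt_pow₀ one_lt_two (Nat.succ_ne_zero d)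
      linarith
    exact (smul_eq_zero.1 h2).resolve_left h3
  refine ⟨|M|, abs_nonneg M, fun x => ?_⟩
  by_cases hx : x = 0
  · rw [hx, hu0, norm_zero, norm_zero]; simp
  have hx' : 0 < ‖x‖ := norm_pos_iff.2 hx
  have h4 : u x = ‖x‖ ^ (d + 1) • u (‖x‖⁻¹ • x) := by
    rw [← hh _ _ hx', smul_smul, mul_inv_cancel₀ hx'.ne', one_smul]
  have h5 : ‖x‖⁻¹ • x ∈ sphere (0 : E) 1 := by
    rw [mem_sphere_zero_iff_norm, norm_smul, norm_inv, norm_norm, inv_mul_cancel₀ hx'.ne']
  rw [h4, norm_smul, norm_pow, norm_norm, mul_comm]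
  gcongr
  exact (hM _ h5).trans (le_abs_self M)

theorem homogeneous_contDiff (d : ℕ) : ∀ {F : Type u} [NormedAddCommGroup F] [NormedSpace ℝ F]
    {u : E → F}, (∀ x, x ≠ 0 → ContDiffAt ℝ ∞ u x) →
    (∀ (t : ℝ) (x : E), 0 < t → u (t • x) = t ^ (d + 1) • u x) → ContDiff ℝ d u := by
  induction d with
  | zero =>
    intro F _ _ u hu hh
    obtain ⟨M, hM, hb⟩ := homogeneous_bound (fun x hx => (hu x hx).continuousAt) hh
    rw [Nat.cast_zero, contDiff_zero, continuous_iff_continuousAt]
    intro x
    by_cases hx : x = 0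
    · subst hx
      have hu0 : u 0 = 0 := by
        have := hb 0
        rw [norm_zero] at this
        simpa using this
      rw [ContinuousAt, hu0]
      refine squeeze_zero_norm (a := fun x => M * ‖x‖ ^ (0 + 1)) hb ?_
      have : Continuous fun x : E => M * ‖x‖ ^ (0 + 1) := by fun_prop
      have h := this.tendsto 0
      simpa using h
    · exact (hu x hx).continuousAt
  | succ d ih =>
    intro F _ _ u hu hh
    obtain ⟨M, hM, hb⟩ := homogeneous_bound (fun x hx => (hu x hx).continuousAt) hh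
    have hu0 : u 0 = 0 := by
      have := hb 0
      rw [norm_zero] at this
      simpa using this
    have hd0 : HasFDerivAt u (0 : E →L[ℝ] F) 0 := by
      rw [hasFDerivAt_iff_isLittleO_nhds_zero]
      have h1 : (fun h : E => u (0 + h) - u 0 - (0 : E →L[ℝ] F) h) = u := by
        ext h; simp [hu0]
      rw [h1]
      have h2 : u =O[𝓝 0] fun h : E => ‖h‖ ^ (d + 1 + 1) :=
        Asymptotics.IsBigO.of_bound M (Eventually.of_forall fun x => by
          rw [norm_pow, norm_norm]; exact hb x)
      refine h2.trans_isLittleO ?_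
      have h3 : (fun h : E => ‖h‖ ^ (d + 1 + 1)) =o[𝓝 0] fun h : E => ‖h‖ ^ 1 :=
        (Asymptotics.isLittleO_pow_pow (𝕜 := ℝ) (by omega : 1 < d + 1 + 1)).comp_tendsto
          (by simpa using (continuous_norm (E := E)).tendsto 0)
      simp only [pow_one] at h3
      exact h3.of_norm_right
    have hd : Differentiable ℝ u := fun x => by
      by_cases hx : x = 0
      · rw [hx]; exact hd0.differentiableAt
      · exact (hu x hx).differentiableAt (by simp)
    have hfd : ContDiff ℝ d (fderiv ℝ u) := by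
      refine ih (fun x hx => (hu x hx).fderiv_right (m := ∞) (by simp)) ?_
      intro t x ht
      have h4 : HasFDerivAt (fun y : E => u (t • y)) ((fderiv ℝ u (t • x)).comp
          (t • ContinuousLinearMap.id ℝ E)) x :=
        (hd (t • x)).hasFDerivAt.comp x ((hasFDerivAt_id x).const_smul t)
      have h5 : HasFDerivAt (fun y : E => u (t • y)) (t ^ (d + 1 + 1) • fderiv ℝ u x) x := by
        have : (fun y : E => u (t • y)) = fun y => t ^ (d + 1 + 1) • u y := by
          ext y; exact hh t y ht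
        rw [this]
        exact (hd x).hasFDerivAt.const_smul _
      have h6 := h4.unique h5
      have h7 : t • fderiv ℝ u (t • x) = t ^ (d + 1 + 1) • fderiv ℝ u x := by
        rw [← h6]
        ext v
        simp
      have h8 : t • fderiv ℝ u (t • x) = t • (t ^ (d + 1) • fderiv ℝ u x) := by
        rw [h7, smul_smul, ← pow_succ']
      exact smul_right_injective _ ht.ne' h8
    have := contDiff_succ_iff_fderiv (𝕜 := ℝ) (f := u) (n := (d : ℕ∞ω))
    rw [Nat.cast_succ, this]
    exact ⟨hd, by simp, hfd⟩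

end Pool.Agent.H93.Exo
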