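import Mathlib
import Pool.Agent.H93.Exo.Homog
import Pool.Agent.H93.Exo.Diffeo

/-!
Homogeneous extensions of maps of the unit sphere.
-/

set_option linter.unusedSectionVars false

namespace Pool.Agent.H93.Exo

open Metric Set Filter Topology Function Module
open scoped ContDiff Manifold

/-- The Euclidean space of dimension `n`. -/
abbrev Euc (n : ℕ) : Type := EuclideanSpace ℝ (Fin n)

/-- The unit sphere of the Euclidean space of dimension `m + 1`. -/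
abbrev Sph (m : ℕ) : Type := sphere (0 : EuclideanSpace ℝ (Fin (m + 1))) 1

variable {m : ℕ}

theorem inv_norm_smul_mem {x : Euc (m + 1)} (hx : x ≠ 0) :
    ‖x‖⁻¹ • x ∈ sphere (0 : EuclideanSpace ℝ (Fin (m + 1))) 1 := by
  rw [mem_sphere_zero_iff_norm, norm_smul, norm_inv, norm_norm,
    inv_mul_cancel₀ (norm_ne_zero_iff.2 hx)]

/-- The homogeneous extension of degree `k` of a map `φ` of the unit sphere to itself:
`x ↦ ‖x‖^k φ(x/‖x‖)`, and `0 ↦ 0`. -/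
noncomputable def homExt (k : ℕ) (φ : Sph m → Sph m) (x : Euc (m + 1)) : Euc (m + 1) :=
  if h : x = 0 then 0 else ‖x‖ ^ k • (φ ⟨‖x‖⁻¹ • x, inv_norm_smul_mem h⟩ : Euc (m + 1))

theorem homExt_zero (k : ℕ) (φ : Sph m → Sph m) : homExt k φ 0 = 0 := by
  simp [homExt]

theorem homExt_of_ne (k : ℕ) (φ : Sph m → Sph m) {x : Euc (m + 1)} (hx : x ≠ 0) :
    homExt k φ x = ‖x‖ ^ k • (φ ⟨‖x‖⁻¹ • x, inv_norm_smul_mem hx⟩ : Euc (m + 1)) := by
  simp [homExt, hx]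

theorem norm_homExt (k : ℕ) (φ : Sph m → Sph m) (x : Euc (m + 1)) :
    ‖homExt (k + 1) φ x‖ = ‖x‖ ^ (k + 1) := by
  by_cases hx : x = 0
  · rw [hx, homExt_zero, norm_zero]; simp
  · rw [homExt_of_ne _ φ hx, norm_smul, norm_pow, norm_norm]
    rw [norm_eq_of_mem_sphere, mul_one]

theorem homExt_smul (k : ℕ) (φ : Sph m → Sph m) (t : ℝ) (x : Euc (m + 1)) (ht : 0 < t) :
    homExt k φ (t • x) = t ^ k • homExt k φ x := by
  by_cases hx : x = 0
  · rw [hx, smul_zero, homExt_zero, smul_zero]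
  · have htx : t • x ≠ 0 := smul_ne_zero ht.ne' hx
    have e : (⟨‖t • x‖⁻¹ • t • x, inv_norm_smul_mem htx⟩ : Sph m) =
        ⟨‖x‖⁻¹ • x, inv_norm_smul_mem hx⟩ := by
      apply Subtype.ext
      change ‖t • x‖⁻¹ • t • x = ‖x‖⁻¹ • x
      rw [norm_smul, Real.norm_of_nonneg ht.le, smul_smul, mul_inv, mul_comm t⁻¹, mul_assoc,
        inv_mul_cancel₀ ht.ne', mul_one]
    rw [homExt_of_ne k φ hx, homExt_of_ne k φ htx, e, norm_smul, Real.norm_of_nonneg ht.le,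
      mul_pow, smul_smul]

theorem homExt_add (k l : ℕ) (φ : Sph m → Sph m) (x : Euc (m + 1)) :
    homExt (k + l) φ x = ‖x‖ ^ k • homExt l φ x := by
  by_cases hx : x = 0
  · rw [hx, homExt_zero, homExt_zero, smul_zero]
  · rw [homExt_of_ne _ φ hx, homExt_of_ne _ φ hx, smul_smul, pow_add]

/-- `homExt 1` is functorial. -/
theorem homExt_one_comp (φ ψ : Sph m → Sph m) (x : Euc (m + 1)) :
    homExt 1 ψ (homExt 1 φ x) = homExt 1 (ψ ∘ φ) x := by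
  by_cases hx : x = 0
  · rw [hx, homExt_zero, homExt_zero, homExt_zero]
  · have hn : ‖homExt 1 φ x‖ = ‖x‖ := by simpa using norm_homExt 0 φ x
    have hne : homExt 1 φ x ≠ 0 := by
      rw [← norm_ne_zero_iff, hn]; exact norm_ne_zero_iff.2 hx
    have e : (⟨‖homExt 1 φ x‖⁻¹ • homExt 1 φ x, inv_norm_smul_mem hne⟩ : Sph m) =
        φ ⟨‖x‖⁻¹ • x, inv_norm_smul_mem hx⟩ := by
      apply Subtype.ext
      change ‖homExt 1 φ x‖⁻¹ • homExt 1 φ x = _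
      rw [hn, homExt_of_ne 1 φ hx, pow_one, smul_smul,
        inv_mul_cancel₀ (norm_ne_zero_iff.2 hx), one_smul]
    rw [homExt_of_ne 1 ψ hne, homExt_of_ne 1 (ψ ∘ φ) hx, e, hn, comp_apply]

theorem homExt_one_id (x : Euc (m + 1)) : homExt 1 (id : Sph m → Sph m) x = x := by
  by_cases hx : x = 0
  · rw [hx, homExt_zero]
  · rw [homExt_of_ne 1 _ hx, pow_one, id]
    change ‖x‖ • ‖x‖⁻¹ • x = x
    rw [smul_smul, mul_inv_cancel₀ (norm_ne_zero_iff.2 hx), one_smul]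

theorem contDiffAt_homExt (k : ℕ) {φ : Sph m → Sph m} (hφ : ContMDiff (𝓡 m) (𝓡 m) ∞ φ)
    {x₀ : Euc (m + 1)} (hx₀ : x₀ ≠ 0) : ContDiffAt ℝ ∞ (homExt k φ) x₀ := by
  have := Fact.mk (@finrank_euclideanSpace_fin ℝ _ (m + 1))
  have hr : 0 < ‖x₀‖ := norm_pos_iff.2 hx₀
  -- a smooth nowhere vanishing field equal to the identity near `x₀`
  let χ : ContDiffBump x₀ := ⟨‖x₀‖ / 4, ‖x₀‖ / 2, by positivity, by linarith⟩
  set v : Euc (m + 1) → Euc (m + 1) := fun x => x₀ + χ x • (x - x₀) with hv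
  have hv0 : ∀ x, v x ≠ 0 := by
    intro x h0
    have h1 : ‖χ x • (x - x₀)‖ ≤ ‖x₀‖ / 2 := by
      by_cases hx : dist x x₀ < ‖x₀‖ / 2
      · rw [norm_smul, Real.norm_of_nonneg χ.nonneg]
        rw [dist_eq_norm] at hx
        calc χ x * ‖x - x₀‖ ≤ 1 * ‖x - x₀‖ := by gcongr; exact χ.le_one
          _ ≤ ‖x₀‖ / 2 := by rw [one_mul]; exact hx.le
      · rw [χ.zero_of_le_dist (not_lt.1 hx), zero_smul, norm_zero]; positivity
    have h2 : x₀ = - (χ x • (x - x₀)) := eq_neg_of_add_eq_zero_left h0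
    have h3 : ‖x₀‖ ≤ ‖x₀‖ / 2 := by
      calc ‖x₀‖ = ‖- (χ x • (x - x₀))‖ := by rw [← h2]
        _ ≤ ‖x₀‖ / 2 := by rw [norm_neg]; exact h1
    linarith
  have hvs : ContDiff ℝ ∞ v := contDiff_const.add (χ.contDiff.smul (contDiff_id.sub contDiff_const))
  have hvx : ∀ᶠ x in 𝓝 x₀, v x = x := by
    filter_upwards [closedBall_mem_nhds x₀ (by positivity : 0 < ‖x₀‖ / 4)] with x hx
    simp only [hv]
    rw [χ.one_of_mem_closedBall hx, one_smul]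
    abel
  have hnorm : ContDiff ℝ ∞ fun x => ‖v x‖ := hvs.norm ℝ hv0
  have hinv : ContDiff ℝ ∞ fun x => ‖v x‖⁻¹ := hnorm.inv fun x => norm_ne_zero_iff.2 (hv0 x)
  have hun : ContDiff ℝ ∞ fun x => ‖v x‖⁻¹ • v x := hinv.smul hvs
  have hmem : ∀ x, ‖v x‖⁻¹ • v x ∈ sphere (0 : EuclideanSpace ℝ (Fin (m + 1))) 1 := fun x =>
    inv_norm_smul_mem (hv0 x)
  have h1 : ContMDiff 𝓘(ℝ, Euc (m + 1)) (𝓡 m) ∞
      (Set.codRestrict (fun x => ‖v x‖⁻¹ • v x) (sphere (0 : Euc (m + 1)) 1) hmem) :=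
    ContMDiff.codRestrict_sphere hun.contMDiff hmem
  have h2 : ContMDiff 𝓘(ℝ, Euc (m + 1)) 𝓘(ℝ, Euc (m + 1)) ∞
      (fun x => ((φ (Set.codRestrict (fun x => ‖v x‖⁻¹ • v x)
        (sphere (0 : Euc (m + 1)) 1) hmem x) : Sph m) : Euc (m + 1))) :=
    contMDiff_coe_sphere.comp (hφ.comp h1)
  have h3 := h2.contDiff
  have h4 : ContDiff ℝ ∞ fun x => ‖v x‖ ^ k • ((φ (Set.codRestrict (fun x => ‖v x‖⁻¹ • v x)
        (sphere (0 : Euc (m + 1)) 1) hmem x) : Sph m) : Euc (m + 1)) :=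
    (hnorm.pow k).smul h3
  refine h4.contDiffAt.congr_of_eventuallyEq ?_
  filter_upwards [hvx, isOpen_compl_singleton.mem_nhds hx₀] with x hx hx0
  rw [homExt_of_ne k φ hx0, hx]
  congr 3
  apply Subtype.ext
  change ‖x‖⁻¹ • x = ‖v x‖⁻¹ • v x
  rw [hx]

end Pool.Agent.H93.Exo
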