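import Mathlib
import Pool.Agent.H93.Exo.Radial

/-!
The homeomorphism `x ↦ ‖x‖^3 φ(x/‖x‖)`.
-/

set_option linter.unusedSectionVars false

namespace Pool.Agent.H93.Exo

open Metric Set Filter Topology Function Module
open scoped ContDiff Manifold

theorem exists_equiv_of_left_inverse {E : Type*} [NormedAddCommGroup E] [NormedSpace ℝ E]
    [FiniteDimensional ℝ E] {f h : E → E} {A B : E →L[ℝ] E} {x : E} (hA : HasFDerivAt f A x)
    (hB : HasFDerivAt h B (f x)) (hhf : ∀ᶠ y in 𝓝 x, h (f y) = y) :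
    ∃ e : E ≃L[ℝ] E, HasFDerivAt f (e : E →L[ℝ] E) x := by
  have e1 : HasFDerivAt (fun y => h (f y)) (B.comp A) x := hB.comp x hA
  have e2 : HasFDerivAt (fun y => h (f y)) (ContinuousLinearMap.id ℝ E) x :=
    (hasFDerivAt_id x).congr_of_eventuallyEq hhf
  have e3 : B.comp A = ContinuousLinearMap.id ℝ E := e1.unique e2
  have hinj : Injective A := fun a b hab => by
    have h1 := congrArg (fun T : E →L[ℝ] E => T a) e3
    have h2 := congrArg (fun T : E →L[ℝ] E => T b) e3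
    simp only [ContinuousLinearMap.comp_apply, ContinuousLinearMap.id_apply] at h1 h2
    rw [← h1, ← h2, hab]
  let e : E ≃L[ℝ] E := (LinearEquiv.ofInjectiveEndo (A : E →ₗ[ℝ] E) hinj).toContinuousLinearEquiv
  have he : (e : E →L[ℝ] E) = A := by ext v; rfl
  exact ⟨e, by rw [he]; exact hA⟩

theorem isHomeoOn_of_homeomorph {E : Type*} [NormedAddCommGroup E] [NormedSpace ℝ E]
    (e : E ≃ₜ E) {Ω : Set E} (hΩ : IsOpen Ω) : IsHomeoOn Ω e := by
  refine ⟨e.continuous.continuousOn, e.injective.injOn, e.isOpenMap _ hΩ, ?_⟩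
  refine e.symm.continuous.continuousOn.congr ?_
  rintro _ ⟨x, hx, rfl⟩
  rw [e.injective.injOn.leftInvOn_invFunOn hx, e.symm_apply_apply]

variable {m : ℕ} (φ : Sph m ≃ₘ⟮𝓡 m, 𝓡 m⟯ Sph m)

theorem homExt_symm_left (x : Euc (m + 1)) : homExt 1 φ.symm (homExt 1 φ x) = x := by
  rw [homExt_one_comp]
  have : (⇑φ.symm ∘ ⇑φ) = id := by ext x; simp
  rw [this, homExt_one_id]

theorem homExt_symm_right (x : Euc (m + 1)) : homExt 1 φ (homExt 1 φ.symm x) = x := by
  rw [homExt_one_comp]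
  have : (⇑φ ∘ ⇑φ.symm) = id := by ext x; simp
  rw [this, homExt_one_id]

theorem homExt_three (ψ : Sph m → Sph m) (x : Euc (m + 1)) :
    homExt 3 ψ x = ‖x‖ ^ 2 • homExt 1 ψ x := homExt_add 2 1 ψ x

/-- the inverse of `homExt 3 φ` -/
noncomputable def coneInv (z : Euc (m + 1)) : Euc (m + 1) :=
  ‖z‖ ^ (-2 / 3 : ℝ) • homExt 1 φ.symm z

theorem coneInv_cone (x : Euc (m + 1)) : coneInv φ (homExt 3 φ x) = x := by
  by_cases hx : x = 0
  · rw [hx, homExt_zero, coneInv, homExt_zero, smul_zero]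
  have hx' : 0 < ‖x‖ := norm_pos_iff.2 hx
  have h1 : ‖homExt 3 φ x‖ = ‖x‖ ^ 3 := norm_homExt 2 φ x
  rw [coneInv, h1, homExt_three, homExt_smul 1 _ _ _ (by positivity), homExt_symm_left, pow_one,
    smul_smul]
  have h2 : (‖x‖ ^ 3) ^ (-2 / 3 : ℝ) * ‖x‖ ^ 2 = 1 := by
    rw [← Real.rpow_natCast, ← Real.rpow_mul hx'.le, ← Real.rpow_natCast ‖x‖ 2,
      ← Real.rpow_add hx']
    norm_num
  rw [h2, one_smul]

theorem cone_coneInv (z : Euc (m + 1)) : homExt 3 φ (coneInv φ z) = z := by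
  by_cases hz : z = 0
  · rw [hz, coneInv, homExt_zero, smul_zero, homExt_zero]
  have hz' : 0 < ‖z‖ := norm_pos_iff.2 hz
  have h1 : ‖homExt 1 φ.symm z‖ = ‖z‖ := by simpa using norm_homExt 0 φ.symm z
  rw [coneInv, homExt_smul 3 _ _ _ (by positivity), homExt_three, h1, homExt_symm_right, smul_smul]
  have h2 : (‖z‖ ^ (-2 / 3 : ℝ)) ^ 3 * ‖z‖ ^ 2 = 1 := by
    rw [← Real.rpow_natCast, ← Real.rpow_mul hz'.le, ← Real.rpow_natCast ‖z‖ 2,
      ← Real.rpow_add hz']
    norm_num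
  rw [h2, one_smul]

theorem contDiff_cone : ContDiff ℝ 2 (homExt 3 φ) :=
  homogeneous_contDiff 2 (fun _ hx => contDiffAt_homExt 3 φ.contMDiff hx)
    fun t x ht => homExt_smul 3 φ t x ht

theorem differentiableAt_coneInv {z : Euc (m + 1)} (hz : z ≠ 0) :
    DifferentiableAt ℝ (coneInv φ) z := by
  have h1 : DifferentiableAt ℝ (fun z : Euc (m + 1) => ‖z‖ ^ (-2 / 3 : ℝ)) z :=
    (differentiableAt_id.norm ℝ hz).rpow_const (Or.inl (norm_ne_zero_iff.2 hz))
  exact h1.smul ((contDiffAt_homExt 1 φ.symm.contMDiff hz).differentiableAt (by simp))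

theorem continuous_coneInv : Continuous (coneInv φ) := by
  rw [continuous_iff_continuousAt]
  intro z
  by_cases hz : z = 0
  · subst hz
    have h0 : coneInv φ 0 = 0 := by rw [coneInv, homExt_zero, smul_zero]
    rw [ContinuousAt, h0]
    refine squeeze_zero_norm (a := fun z => ‖z‖ ^ (1 / 3 : ℝ)) (fun z => ?_) ?_
    · by_cases hz : z = 0
      · rw [hz, h0, norm_zero]; positivity
      · have hz' : 0 < ‖z‖ := norm_pos_iff.2 hz
        have h1 : ‖homExt 1 φ.symm z‖ = ‖z‖ := by simpa using norm_homExt 0 φ.symm z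
        rw [coneInv, norm_smul, h1, Real.norm_of_nonneg (by positivity)]
        nth_rewrite 2 [← Real.rpow_one ‖z‖]
        rw [← Real.rpow_add hz']
        norm_num
    · have h2 : Continuous fun z : Euc (m + 1) => ‖z‖ ^ (1 / 3 : ℝ) :=
        continuous_norm.rpow_const fun _ => Or.inr (by norm_num)
      have := h2.tendsto 0
      simpa using this
  · exact (differentiableAt_coneInv φ hz).continuousAt

/-- `homExt 3 φ` as a homeomorphism -/
noncomputable def coneHomeo : Euc (m + 1) ≃ₜ Euc (m + 1) where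
  toFun := homExt 3 φ
  invFun := coneInv φ
  left_inv := coneInv_cone φ
  right_inv := cone_coneInv φ
  continuous_toFun := (contDiff_cone φ).continuous
  continuous_invFun := continuous_coneInv φ

theorem cone_bijective : Bijective (homExt 3 φ) := (coneHomeo φ).bijective

theorem cone_isHomeoOn {Ω : Set (Euc (m + 1))} (hΩ : IsOpen Ω) : IsHomeoOn Ω (homExt 3 φ) :=
  isHomeoOn_of_homeomorph (coneHomeo φ) hΩ

theorem cone_exists_equiv {x : Euc (m + 1)} (hx : x ≠ 0) :
    ∃ e : Euc (m + 1) ≃L[ℝ] Euc (m + 1),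
      HasFDerivAt (homExt 3 φ) (e : Euc (m + 1) →L[ℝ] Euc (m + 1)) x := by
  have hfx : homExt 3 φ x ≠ 0 := by
    rw [← norm_ne_zero_iff]
    have h1 : ‖homExt 3 φ x‖ = ‖x‖ ^ 3 := norm_homExt 2 φ x
    rw [h1]
    exact pow_ne_zero 3 (norm_ne_zero_iff.2 hx)
  exact exists_equiv_of_left_inverse
    ((contDiff_cone φ).contDiffAt.differentiableAt (by simp)).hasFDerivAt
    (differentiableAt_coneInv φ hfx).hasFDerivAt (Eventually.of_forall (coneInv_cone φ))

theorem cone_isDiffeoOn {Ω : Set (Euc (m + 1))} (hΩ : IsOpen Ω) :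
    IsDiffeoOn (Ω \ {0}) (homExt 3 φ) :=
  isDiffeoOn_of (hΩ.sdiff isClosed_singleton)
    (fun _ hx => (contDiffAt_homExt 3 φ.contMDiff hx.2).contDiffWithinAt)
    (cone_bijective φ).1.injOn fun _ hx => cone_exists_equiv φ hx.2

end Pool.Agent.H93.Exo
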