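import Mathlib
import Pool.Agent.H93.Exo.Cone

/-!
Global diffeomorphisms; the radial diffeomorphism equal to `‖y‖^2 y` off the unit ball.
-/

set_option linter.unusedSectionVars false

namespace Pool.Agent.H93.Exo

open Metric Set Filter Topology Function Module
open scoped ContDiff Manifold InnerProductSpace

section general

variable {E : Type*} [NormedAddCommGroup E] [NormedSpace ℝ E] [FiniteDimensional ℝ E]

theorem isDiffeoOn_univ_of_antilipschitz {h : E → E} (hs : ContDiff ℝ ∞ h) {c : ℝ} (hc : 0 < c)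
    (ha : ∀ x y, c * ‖x - y‖ ≤ ‖h x - h y‖) : IsDiffeoOn univ h ∧ Surjective h := by
  have hinj : Injective h := fun x y hxy => by
    have := ha x y
    rw [hxy, sub_self, norm_zero] at this
    have h2 : ‖x - y‖ ≤ 0 := by
      by_contra hcon
      push Not at hcon
      have : 0 < c * ‖x - y‖ := mul_pos hc hcon
      linarith
    exact sub_eq_zero.1 (norm_le_zero_iff.1 h2)
  have hd : IsDiffeoOn univ h := by
    refine isDiffeoOn_of isOpen_univ hs.contDiffOn hinj.injOn fun x _ => ?_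
    have hA : HasFDerivAt h (fderiv ℝ h x) x :=
      (hs.contDiffAt.differentiableAt (by simp)).hasFDerivAt
    have hAinj : Injective (fderiv ℝ h x) := by
      intro a b hab
      by_contra hne
      set v := a - b with hv
      have hv0 : v ≠ 0 := sub_ne_zero.2 hne
      have hAv : fderiv ℝ h x v = 0 := by rw [hv, map_sub, hab, sub_self]
      have h1 := (hasFDerivAt_iff_isLittleO_nhds_zero.1 hA).def (half_pos hc)
      obtain ⟨r, hr, hrb⟩ := Metric.eventually_nhds_iff_ball.1 h1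
      have hvn : 0 < ‖v‖ := norm_pos_iff.2 hv0
      set t : ℝ := r / (2 * ‖v‖) with ht
      have ht0 : 0 < t := by positivity
      have h2 : ‖t • v‖ = r / 2 := by
        rw [norm_smul, Real.norm_of_nonneg ht0.le, ht]; field_simp
      have h3 := hrb (t • v) (by rw [mem_ball_zero_iff, h2]; linarith)
      rw [map_smul, hAv, smul_zero, sub_zero, h2] at h3
      have h4 := ha (x + t • v) x
      rw [add_sub_cancel_left, h2] at h4
      nlinarith
    let e : E ≃L[ℝ] E :=
      (LinearEquiv.ofInjectiveEndo (fderiv ℝ h x : E →ₗ[ℝ] E) hAinj).toContinuousLinearEquiv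
    have he : (e : E →L[ℝ] E) = fderiv ℝ h x := by ext v; rfl
    exact ⟨e, by rw [he]; exact hA⟩
  refine ⟨hd, ?_⟩
  have hopen : IsOpen (range h) := by rw [← image_univ]; exact hd.2.2.1
  have hclosed : IsClosed (range h) := by
    refine isClosed_of_closure_subset fun y hy => ?_
    obtain ⟨z, hz, hzy⟩ := mem_closure_iff_seq_limit.1 hy
    choose x hx using hz
    have hcau : CauchySeq x := by
      have hz' : CauchySeq z := hzy.cauchySeq
      rw [Metric.cauchySeq_iff] at hz' ⊢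
      intro ε hε
      obtain ⟨N, hN⟩ := hz' (c * ε) (mul_pos hc hε)
      refine ⟨N, fun k hk l hl => ?_⟩
      have h1 := hN k hk l hl
      rw [dist_eq_norm, ← hx k, ← hx l] at h1
      have h2 := ha (x k) (x l)
      rw [dist_eq_norm]
      exact lt_of_mul_lt_mul_left (h2.trans_lt h1) hc.le
    obtain ⟨x₀, hx₀⟩ := cauchySeq_tendsto_of_complete hcau
    have h1 : Tendsto (fun k => h (x k)) atTop (𝓝 (h x₀)) := (hs.continuous.tendsto x₀).comp hx₀
    have h2 : (fun k => h (x k)) = z := funext hx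
    rw [h2] at h1
    exact ⟨x₀, tendsto_nhds_unique h1 hzy⟩
  rw [← range_eq_univ]
  exact IsClopen.eq_univ ⟨hclosed, hopen⟩ ⟨h 0, mem_range_self 0⟩

/-- A global diffeomorphism from a map which is a diffeomorphism onto the whole space. -/
noncomputable def toDiffeomorph {h : E → E} (hd : IsDiffeoOn univ h) (hs : Surjective h) :
    E ≃ₘ⟮𝓘(ℝ, E), 𝓘(ℝ, E)⟯ E where
  toEquiv := Equiv.ofBijective h ⟨injOn_univ.1 hd.2.1, hs⟩
  contMDiff_toFun := (contDiffOn_univ.1 hd.1).contMDiff
  contMDiff_invFun := by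
    have h1 : ContDiff ℝ ∞ (invFunOn h univ) := by
      have := hd.2.2.2
      rwa [image_univ, hs.range_eq, contDiffOn_univ] at this
    have h2 : ((Equiv.ofBijective h ⟨injOn_univ.1 hd.2.1, hs⟩).symm : E → E) =
        invFunOn h univ := by
      ext y
      obtain ⟨x, rfl⟩ := hs y
      rw [Equiv.ofBijective_symm_apply_apply, hd.2.1.leftInvOn_invFunOn (mem_univ x)]
    have h3 := h1.contMDiff
    rw [← h2] at h3
    exact h3

theorem toDiffeomorph_apply {h : E → E} (hd : IsDiffeoOn univ h) (hs : Surjective h) (x : E) :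
    toDiffeomorph hd hs x = h x := rfl

theorem isDiffeoOn_of_diffeomorph (Φ : E ≃ₘ⟮𝓘(ℝ, E), 𝓘(ℝ, E)⟯ E) {Ω : Set E} (hΩ : IsOpen Ω) :
    IsDiffeoOn Ω Φ := by
  refine isDiffeoOn_of hΩ Φ.contMDiff.contDiff.contDiffOn Φ.injective.injOn fun x _ => ?_
  exact exists_equiv_of_left_inverse
    (Φ.contMDiff.contDiff.contDiffAt.differentiableAt (by simp)).hasFDerivAt
    (Φ.symm.contMDiff.contDiff.contDiffAt.differentiableAt (by simp)).hasFDerivAt
    (Eventually.of_forall fun y => Φ.symm_apply_apply y)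

/-- scaling -/
noncomputable def scaleDiffeo (c : ℝ) (hc : c ≠ 0) : E ≃ₘ⟮𝓘(ℝ, E), 𝓘(ℝ, E)⟯ E :=
  (ContinuousLinearEquiv.smulLeft (Units.mk0 c hc) : E ≃L[ℝ] E).toDiffeomorph

theorem scaleDiffeo_apply (c : ℝ) (hc : c ≠ 0) (x : E) : scaleDiffeo c hc x = c • x := rfl

end general

section inner

variable {E : Type*} [NormedAddCommGroup E] [InnerProductSpace ℝ E] [FiniteDimensional ℝ E]

/-- a smooth nondecreasing function, at least `1/4`, equal to `s` for `s ≥ 1/2` -/
noncomputable def sig (s : ℝ) : ℝ := 1 / 4 + Real.smoothTransition (4 * s - 1) * (s - 1 / 4)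

theorem contDiff_sig : ContDiff ℝ ∞ sig := by
  unfold sig
  exact contDiff_const.add ((Real.smoothTransition.contDiff.comp
    ((contDiff_const.mul contDiff_id).sub contDiff_const)).mul (contDiff_id.sub contDiff_const))

theorem sig_of_ge {s : ℝ} (hs : 1 / 2 ≤ s) : sig s = s := by
  rw [sig, Real.smoothTransition.one_of_one_le (by linarith)]; ring

theorem sig_of_le {s : ℝ} (hs : s ≤ 1 / 4) : sig s = 1 / 4 := by
  rw [sig, Real.smoothTransition.zero_of_nonpos (by linarith)]; ring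

theorem sig_ge (s : ℝ) : 1 / 4 ≤ sig s := by
  rcases le_total s (1 / 4) with h | h
  · rw [sig_of_le h]
  · rw [sig]
    have := mul_nonneg (Real.smoothTransition.nonneg (4 * s - 1)) (sub_nonneg.2 h)
    linarith

theorem monotone_sig : Monotone sig := by
  intro s t hst
  rcases le_total s (1 / 4) with h | h
  · rw [sig_of_le h]; exact sig_ge t
  · rw [sig, sig]
    have h1 : Real.smoothTransition (4 * s - 1) ≤ Real.smoothTransition (4 * t - 1) :=
      Real.smoothTransition.monotone (by linarith)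
    have := mul_le_mul h1 (by linarith : s - 1 / 4 ≤ t - 1 / 4) (by linarith)
      (Real.smoothTransition.nonneg _)
    linarith

/-- the radial map `y ↦ sig(‖y‖^2) y` -/
noncomputable def str (y : E) : E := sig (‖y‖ ^ 2) • y

theorem str_of_ge {y : E} (hy : 1 ≤ ‖y‖) : str y = ‖y‖ ^ 2 • y := by
  rw [str, sig_of_ge]
  nlinarith

theorem contDiff_str : ContDiff ℝ ∞ (str : E → E) :=
  (contDiff_sig.comp (contDiff_norm_sq ℝ)).smul contDiff_id

theorem str_antilipschitz (x y : E) : 1 / 4 * ‖x - y‖ ≤ ‖str x - str y‖ := by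
  set a := sig (‖x‖ ^ 2) with ha
  set b := sig (‖y‖ ^ 2) with hb
  have ha4 : 1 / 4 ≤ a := sig_ge _
  have hb4 : 1 / 4 ≤ b := sig_ge _
  have hab : 0 ≤ (a - b) * (‖x‖ ^ 2 - ‖y‖ ^ 2) := by
    rcases le_total (‖x‖ ^ 2) (‖y‖ ^ 2) with h | h
    · have := monotone_sig h
      exact mul_nonneg_of_nonpos_of_nonpos (by linarith) (by linarith)
    · have := monotone_sig h
      exact mul_nonneg (by linarith) (by linarith)
  have key : ⟪str x - str y, x - y⟫_ℝ =
      (a + b) / 2 * ‖x - y‖ ^ 2 + (a - b) * (‖x‖ ^ 2 - ‖y‖ ^ 2) / 2 := by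
    have e1 : ‖x - y‖ ^ 2 = ‖x‖ ^ 2 - 2 * ⟪x, y⟫_ℝ + ‖y‖ ^ 2 := norm_sub_sq_real x y
    have e2 : ⟪str x - str y, x - y⟫_ℝ =
        a * ‖x‖ ^ 2 - a * ⟪x, y⟫_ℝ - b * ⟪x, y⟫_ℝ + b * ‖y‖ ^ 2 := by
      simp only [str, inner_sub_left, inner_sub_right, inner_smul_left, real_inner_self_eq_norm_sq]
      rw [real_inner_comm x y]
      simp
      ring
    rw [e2, e1]; ring
  have h1 : 1 / 4 * ‖x - y‖ ^ 2 ≤ ‖str x - str y‖ * ‖x - y‖ := by
    calc 1 / 4 * ‖x - y‖ ^ 2 ≤ ⟪str x - str y, x - y⟫_ℝ := by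
          rw [key]
          have : 1 / 4 * ‖x - y‖ ^ 2 ≤ (a + b) / 2 * ‖x - y‖ ^ 2 :=
            mul_le_mul_of_nonneg_right (by linarith) (sq_nonneg _)
          linarith
      _ ≤ ‖str x - str y‖ * ‖x - y‖ := real_inner_le_norm _ _
  by_cases hxy : ‖x - y‖ = 0
  · rw [hxy]; simp
  · have hpos : 0 < ‖x - y‖ := lt_of_le_of_ne (norm_nonneg _) (Ne.symm hxy)
    nlinarith

/-- the radial diffeomorphism -/
noncomputable def strDiffeo : E ≃ₘ⟮𝓘(ℝ, E), 𝓘(ℝ, E)⟯ E :=
  toDiffeomorph (isDiffeoOn_univ_of_antilipschitz contDiff_str (by norm_num) str_antilipschitz).1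
    (isDiffeoOn_univ_of_antilipschitz contDiff_str (by norm_num) str_antilipschitz).2

theorem strDiffeo_apply (y : E) : strDiffeo y = str y := rfl

end inner

end Pool.Agent.H93.Exo
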