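import Mathlib
import Pool.Agent.H93.Exo.Straight

/-!
Positively homogeneous maps, slow cut-off functions.
-/

set_option linter.unusedSectionVars false

namespace Pool.Agent.H93.Exo

open Metric Set Filter Topology Function Module
open scoped ContDiff InnerProductSpace

section hom

variable {E F : Type*} [NormedAddCommGroup E] [NormedSpace ℝ E] [FiniteDimensional ℝ E]
  [NormedAddCommGroup F] [NormedSpace ℝ F]

/-- positively homogeneous of degree `d` off the origin -/
def HomDeg (d : ℤ) (w : E → F) : Prop :=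
  ∀ (t : ℝ) (x : E), 0 < t → x ≠ 0 → w (t • x) = t ^ d • w x

theorem HomDeg.bound {d : ℤ} {w : E → F} (h : HomDeg d w) (hc : ∀ x, x ≠ 0 → ContinuousAt w x) :
    ∃ C : ℝ, 0 ≤ C ∧ ∀ x, x ≠ 0 → ‖w x‖ ≤ C * ‖x‖ ^ d := by
  have hcs : ContinuousOn w (sphere (0 : E) 1) := fun x hx =>
    (hc x (ne_zero_of_mem_unit_sphere ⟨x, hx⟩)).continuousWithinAt
  obtain ⟨M, hM⟩ := (isCompact_sphere (0 : E) 1).exists_bound_of_continuousOn hcs
  refine ⟨|M|, abs_nonneg M, fun x hx => ?_⟩
  have hx' : 0 < ‖x‖ := norm_pos_iff.2 hx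
  have h5 : ‖x‖⁻¹ • x ∈ sphere (0 : E) 1 := by
    rw [mem_sphere_zero_iff_norm, norm_smul, norm_inv, norm_norm, inv_mul_cancel₀ hx'.ne']
  have hne : ‖x‖⁻¹ • x ≠ 0 := ne_zero_of_mem_unit_sphere ⟨_, h5⟩
  have h4 : w x = ‖x‖ ^ d • w (‖x‖⁻¹ • x) := by
    rw [← h _ _ hx' hne, smul_smul, mul_inv_cancel₀ hx'.ne', one_smul]
  rw [h4, norm_smul, norm_zpow, norm_norm, mul_comm]
  gcongr
  exact (hM _ h5).trans (le_abs_self M)

theorem HomDeg.fderiv {d : ℤ} {w : E → F} (h : HomDeg d w)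
    (hd : ∀ x, x ≠ 0 → DifferentiableAt ℝ w x) : HomDeg (d - 1) (fderiv ℝ w) := by
  intro t x ht hx
  have htx : t • x ≠ 0 := smul_ne_zero ht.ne' hx
  have h4 : HasFDerivAt (fun y : E => w (t • y)) ((_root_.fderiv ℝ w (t • x)).comp
      (t • ContinuousLinearMap.id ℝ E)) x :=
    (hd (t • x) htx).hasFDerivAt.comp x ((hasFDerivAt_id x).const_smul t)
  have h5 : HasFDerivAt (fun y : E => w (t • y)) (t ^ d • _root_.fderiv ℝ w x) x := by
    have h6 : HasFDerivAt (fun y : E => t ^ d • w y) (t ^ d • _root_.fderiv ℝ w x) x :=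
      (hd x hx).hasFDerivAt.const_smul _
    refine h6.congr_of_eventuallyEq ?_
    filter_upwards [isOpen_compl_singleton.mem_nhds hx] with y hy using h t y ht hy
  have h6 := h4.unique h5
  have h7 : t • _root_.fderiv ℝ w (t • x) = t ^ d • _root_.fderiv ℝ w x := by
    rw [← h6]
    ext v
    simp
  have h8 : t • _root_.fderiv ℝ w (t • x) = t • (t ^ (d - 1) • _root_.fderiv ℝ w x) := by
    rw [h7, smul_smul]
    congr 1
    rw [← zpow_one_add₀ ht.ne']
    congr 1
    ring
  exact smul_right_injective _ ht.ne' h8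

theorem HomDeg.euler {w : E → F} (h : HomDeg 1 w) {x : E} (hx : x ≠ 0)
    (hd : DifferentiableAt ℝ w x) : _root_.fderiv ℝ w x x = w x := by
  have h1 : HasDerivAt (fun t : ℝ => t • x) x 1 := by
    simpa using (hasDerivAt_id (1 : ℝ)).smul_const x
  have hd' : HasFDerivAt w (_root_.fderiv ℝ w x) ((1 : ℝ) • x) := by
    rw [one_smul]; exact hd.hasFDerivAt
  have h2 : HasDerivAt (fun t : ℝ => w (t • x)) (_root_.fderiv ℝ w x x) 1 :=
    hd'.comp_hasDerivAt 1 h1
  have h3 : HasDerivAt (fun t : ℝ => w (t • x)) (w x) 1 := by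
    have h4 : HasDerivAt (fun t : ℝ => t • w x) (w x) 1 := by
      simpa using (hasDerivAt_id (1 : ℝ)).smul_const (w x)
    refine h4.congr_of_eventuallyEq ?_
    filter_upwards [eventually_gt_nhds (zero_lt_one (α := ℝ))] with t ht
    rw [h t x ht hx, zpow_one]
  exact h2.unique h3

theorem homDeg_one_of {w : E → F} (h : ∀ (t : ℝ) (x : E), 0 < t → w (t • x) = t • w x) :
    HomDeg 1 w := fun t x ht _ => by rw [h t x ht, zpow_one]

theorem hom_zero {w : E → F} (h : ∀ (t : ℝ) (x : E), 0 < t → w (t • x) = t • w x) : w 0 = 0 := by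
  have h1 := h 2 0 two_pos
  rw [smul_zero, two_smul] at h1
  exact left_eq_add.1 h1

theorem hom_bound {w : E → F} (h : ∀ (t : ℝ) (x : E), 0 < t → w (t • x) = t • w x)
    (hc : ∀ x, x ≠ 0 → ContinuousAt w x) : ∃ C : ℝ, 0 < C ∧ ∀ x, ‖w x‖ ≤ C * ‖x‖ := by
  obtain ⟨C, hC, hb⟩ := (homDeg_one_of h).bound hc
  refine ⟨C + 1, by positivity, fun x => ?_⟩
  by_cases hx : x = 0
  · rw [hx, hom_zero h]; simp
  · have := hb x hx
    rw [zpow_one] at this
    have hx' : 0 ≤ ‖x‖ := norm_nonneg x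
    linarith

end hom

section cutoff

variable {E : Type*} [NormedAddCommGroup E] [InnerProductSpace ℝ E] [FiniteDimensional ℝ E]

theorem exists_deriv_smoothTransition_le :
    ∃ M : ℝ, 0 < M ∧ ∀ t, |deriv Real.smoothTransition t| ≤ M := by
  have hs : ContDiff ℝ ∞ Real.smoothTransition := Real.smoothTransition.contDiff
  have hc : HasCompactSupport (deriv Real.smoothTransition) := by
    refine HasCompactSupport.intro (isCompact_Icc (a := (0 : ℝ)) (b := 1)) fun x hx => ?_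
    rw [mem_Icc, not_and_or, not_le, not_le] at hx
    rcases hx with hx | hx
    · have : Real.smoothTransition =ᶠ[𝓝 x] fun _ => 0 := by
        filter_upwards [eventually_lt_nhds hx] with y hy
        exact Real.smoothTransition.zero_of_nonpos hy.le
      rw [this.deriv_eq, deriv_const]
    · have : Real.smoothTransition =ᶠ[𝓝 x] fun _ => 1 := by
        filter_upwards [eventually_gt_nhds hx] with y hy
        exact Real.smoothTransition.one_of_one_le hy.le
      rw [this.deriv_eq, deriv_const]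
  obtain ⟨C, hC⟩ := (hs.continuous_deriv (by simp)).bounded_above_of_compact_support hc
  exact ⟨|C| + 1, by positivity, fun t => (hC t).trans (by linarith [le_abs_self C])⟩

/-- A cut-off function which varies slowly in the logarithmic scale. -/
theorem exists_slow_cutoff {c : ℝ} (hc : 0 < c) : ∃ (lam : E → ℝ) (R : ℝ), ContDiff ℝ ∞ lam ∧
    (∀ x, ‖x‖ ≤ 1 → lam x = 0) ∧ (∀ x, R ≤ ‖x‖ → lam x = 1) ∧ (∀ x, 0 ≤ lam x ∧ lam x ≤ 1) ∧
    ∀ x, ‖fderiv ℝ lam x‖ * ‖x‖ ≤ c := by
  obtain ⟨M, hM, hMb⟩ := exists_deriv_smoothTransition_le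
  set ε : ℝ := c / (2 * M) with hε
  have hε0 : 0 < ε := by positivity
  set lam : E → ℝ := fun x => Real.smoothTransition (ε * Real.log (‖x‖ ^ 2)) with hlam
  have h0 : ∀ x, ‖x‖ ≤ 1 → lam x = 0 := by
    intro x hx
    refine Real.smoothTransition.zero_of_nonpos ?_
    have : Real.log (‖x‖ ^ 2) ≤ 0 := Real.log_nonpos (by positivity) (by
      have := norm_nonneg x; nlinarith)
    nlinarith
  have hder : ∀ x : E, x ≠ 0 → HasFDerivAt lam ((deriv Real.smoothTransition
      (ε * Real.log (‖x‖ ^ 2))) • (ε • ((‖x‖ ^ 2)⁻¹ • (2 • innerSL ℝ x)))) x := by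
    intro x hx
    have hx' : 0 < ‖x‖ := norm_pos_iff.2 hx
    have h1 : HasFDerivAt (fun x : E => ‖x‖ ^ 2) (2 • innerSL ℝ x) x :=
      (hasStrictFDerivAt_norm_sq x).hasFDerivAt
    have h2 : HasFDerivAt (fun x : E => Real.log (‖x‖ ^ 2)) ((‖x‖ ^ 2)⁻¹ • (2 • innerSL ℝ x)) x :=
      (Real.hasDerivAt_log (by positivity)).comp_hasFDerivAt x h1
    have h3 : HasFDerivAt (fun x : E => ε * Real.log (‖x‖ ^ 2))
        (ε • ((‖x‖ ^ 2)⁻¹ • (2 • innerSL ℝ x))) x := h2.const_mul ε
    have hs : HasDerivAt Real.smoothTransition (deriv Real.smoothTransition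
        (ε * Real.log (‖x‖ ^ 2))) (ε * Real.log (‖x‖ ^ 2)) :=
      ((Real.smoothTransition.contDiffAt (n := 1)).differentiableAt one_ne_zero).hasDerivAt
    exact hs.comp_hasFDerivAt x h3
  refine ⟨lam, Real.exp (1 / ε), ?_, h0, ?_, ?_, ?_⟩
  · rw [contDiff_iff_contDiffAt]
    intro x
    by_cases hx : x = 0
    · have : lam =ᶠ[𝓝 x] fun _ => 0 := by
        filter_upwards [Metric.ball_mem_nhds x one_pos] with y hy
        rw [hx, mem_ball_zero_iff] at hy
        exact h0 y hy.le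
      exact contDiffAt_const.congr_of_eventuallyEq this
    · have h1 : ContDiffAt ℝ ∞ (fun x : E => ε * Real.log (‖x‖ ^ 2)) x :=
        contDiffAt_const.mul ((contDiff_norm_sq ℝ).contDiffAt.log
          (by have := norm_pos_iff.2 hx; positivity))
      exact Real.smoothTransition.contDiffAt.comp x h1
  · intro x hx
    have hx' : 0 < ‖x‖ := (Real.exp_pos _).trans_le hx
    refine Real.smoothTransition.one_of_one_le ?_
    have h1 : 1 / ε ≤ Real.log ‖x‖ := by
      rw [Real.le_log_iff_exp_le hx']; exact hx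
    rw [Real.log_pow]
    have h2 : 1 ≤ ε * Real.log ‖x‖ := by
      rw [div_le_iff₀ hε0] at h1; linarith
    push_cast
    nlinarith
  · intro x
    exact ⟨Real.smoothTransition.nonneg _, Real.smoothTransition.le_one _⟩
  · intro x
    by_cases hx : x = 0
    · rw [hx, norm_zero, mul_zero]; exact hc.le
    · have hx' : 0 < ‖x‖ := norm_pos_iff.2 hx
      rw [(hder x hx).fderiv, norm_smul, norm_smul, norm_smul, norm_inv, norm_pow, norm_norm,
        Real.norm_of_nonneg hε0.le, two_smul]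
      have h1 : ‖innerSL ℝ x + innerSL ℝ x‖ ≤ 2 * ‖x‖ := by
        calc _ ≤ ‖innerSL ℝ x‖ + ‖innerSL ℝ x‖ := norm_add_le _ _
          _ = 2 * ‖x‖ := by rw [innerSL_apply_norm]; ring
      calc ‖deriv Real.smoothTransition (ε * Real.log (‖x‖ ^ 2))‖ *
            (ε * ((‖x‖ ^ 2)⁻¹ * ‖innerSL ℝ x + innerSL ℝ x‖)) * ‖x‖
          ≤ M * (ε * ((‖x‖ ^ 2)⁻¹ * (2 * ‖x‖))) * ‖x‖ := by
            gcongr
            exact hMb _
        _ = c := by rw [hε]; field_simp

end cutoff

end Pool.Agent.H93.Exo
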