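import Mathlib
import Pool.Agent.H93.Exo.HomDeg

/-!
Homogeneous homeomorphisms smooth off the origin; extendability and flatness.
-/

set_option linter.unusedSectionVars false

namespace Pool.Agent.H93.Exo

open Metric Set Filter Topology Function Module
open scoped ContDiff InnerProductSpace Manifold

/-- a `C^∞` diffeomorphism of the whole space, with its inverse -/
structure Dif (E : Type*) [NormedAddCommGroup E] [NormedSpace ℝ E] where
  f : E → E
  g : E → E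
  gf : ∀ x, g (f x) = x
  fg : ∀ x, f (g x) = x
  hf : ContDiff ℝ ∞ f
  hg : ContDiff ℝ ∞ g

/-- a positively homogeneous bijection of degree one, `C^∞` off the origin with its inverse -/
structure Con (E : Type*) [NormedAddCommGroup E] [NormedSpace ℝ E] where
  f : E → E
  g : E → E
  gf : ∀ x, g (f x) = x
  fg : ∀ x, f (g x) = x
  hom : ∀ (t : ℝ) (x : E), 0 < t → f (t • x) = t • f x
  hf : ∀ x, x ≠ 0 → ContDiffAt ℝ ∞ f x
  hg : ∀ x, x ≠ 0 → ContDiffAt ℝ ∞ g x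

section basic

variable {E : Type*} [NormedAddCommGroup E] [NormedSpace ℝ E] [FiniteDimensional ℝ E]

/-- composition -/
def Dif.comp (A B : Dif E) : Dif E where
  f := fun x => A.f (B.f x)
  g := fun x => B.g (A.g x)
  gf := fun x => by rw [A.gf, B.gf]
  fg := fun x => by rw [B.fg, A.fg]
  hf := A.hf.comp B.hf
  hg := B.hg.comp A.hg

/-- inverse -/
def Dif.symm (A : Dif E) : Dif E := ⟨A.g, A.f, A.fg, A.gf, A.hg, A.hf⟩

/-- identity -/
def Dif.refl (E : Type*) [NormedAddCommGroup E] [NormedSpace ℝ E] : Dif E :=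
  ⟨id, id, fun _ => rfl, fun _ => rfl, contDiff_id, contDiff_id⟩

theorem Dif.isDiffeoOn (A : Dif E) {Ω : Set E} (hΩ : IsOpen Ω) : IsDiffeoOn Ω A.f := by
  refine isDiffeoOn_of hΩ A.hf.contDiffOn (LeftInverse.injective A.gf).injOn fun x _ => ?_
  exact exists_equiv_of_left_inverse (A.hf.contDiffAt.differentiableAt (by simp)).hasFDerivAt
    (A.hg.contDiffAt.differentiableAt (by simp)).hasFDerivAt (Eventually.of_forall A.gf)

theorem exists_dif_of_isDiffeoOn {h : E → E} (hd : IsDiffeoOn univ h) (hs : Surjective h) :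
    ∃ A : Dif E, A.f = h := by
  set Φ := toDiffeomorph hd hs with hΦ
  exact ⟨⟨Φ, Φ.symm, Φ.symm_apply_apply, Φ.apply_symm_apply, Φ.contMDiff.contDiff,
    Φ.symm.contMDiff.contDiff⟩, rfl⟩

theorem Con.f_zero (G : Con E) : G.f 0 = 0 := hom_zero G.hom

theorem Con.g_zero (G : Con E) : G.g 0 = 0 := by
  have := G.gf 0
  rwa [G.f_zero] at this

theorem Con.g_hom (G : Con E) (t : ℝ) (x : E) (ht : 0 < t) : G.g (t • x) = t • G.g x := by
  have h1 : G.f (t • G.g x) = t • x := by rw [G.hom _ _ ht, G.fg]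
  rw [← h1, G.gf]

/-- inverse -/
def Con.symm (G : Con E) : Con E := ⟨G.g, G.f, G.fg, G.gf, G.g_hom, G.hg, G.hf⟩

theorem Con.f_ne (G : Con E) {x : E} (hx : x ≠ 0) : G.f x ≠ 0 := fun h => hx (by
  rw [← G.gf x, h, G.g_zero])

theorem Con.g_ne (G : Con E) {x : E} (hx : x ≠ 0) : G.g x ≠ 0 := G.symm.f_ne hx

/-- composition -/
def Con.comp (A B : Con E) : Con E where
  f := fun x => A.f (B.f x)
  g := fun x => B.g (A.g x)
  gf := fun x => by rw [A.gf, B.gf]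
  fg := fun x => by rw [B.fg, A.fg]
  hom := fun t x ht => by rw [B.hom t x ht, A.hom t _ ht]
  hf := fun x hx => (A.hf _ (B.f_ne hx)).comp x (B.hf x hx)
  hg := fun x hx => (B.hg _ (A.g_ne hx)).comp x (A.hg x hx)

theorem Con.upper (G : Con E) : ∃ C : ℝ, 0 < C ∧ ∀ x, ‖G.f x‖ ≤ C * ‖x‖ :=
  hom_bound G.hom fun x hx => (G.hf x hx).continuousAt

theorem Con.lower (G : Con E) : ∃ c : ℝ, 0 < c ∧ ∀ x, c * ‖x‖ ≤ ‖G.f x‖ := by
  obtain ⟨C, hC, h⟩ := G.symm.upper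
  refine ⟨C⁻¹, by positivity, fun x => ?_⟩
  have h1 : ‖x‖ ≤ C * ‖G.f x‖ := by
    have := h (G.f x)
    change ‖G.g (G.f x)‖ ≤ C * ‖G.f x‖ at this
    rwa [G.gf] at this
  rw [inv_mul_le_iff₀ hC]
  exact h1

/-- a continuous linear automorphism -/
def Con.ofLin (A : E ≃L[ℝ] E) : Con E where
  f := A
  g := A.symm
  gf := A.symm_apply_apply
  fg := A.apply_symm_apply
  hom := fun t x _ => by rw [map_smul]
  hf := fun _ _ => A.contDiff.contDiffAt
  hg := fun _ _ => A.symm.contDiff.contDiffAt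

/-- `w` agrees with a diffeomorphism of the space off a ball -/
def ExtF (w : E → E) : Prop := ∃ (Φ : Dif E) (R : ℝ), ∀ x, R ≤ ‖x‖ → Φ.f x = w x

/-- `w` agrees off a ball with a diffeomorphism which is the identity near the origin -/
def FlatF (w : E → E) : Prop := ∃ (Φ : Dif E) (r R : ℝ), 0 < r ∧ (∀ x, ‖x‖ ≤ r → Φ.f x = x) ∧
  ∀ x, R ≤ ‖x‖ → Φ.f x = w x

theorem FlatF.extF {w : E → E} (h : FlatF w) : ExtF w := by
  obtain ⟨Φ, r, R, _, _, h3⟩ := h
  exact ⟨Φ, R, h3⟩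

theorem extF_ofLin (A : E ≃L[ℝ] E) : ExtF (A : E → E) :=
  ⟨⟨A, A.symm, A.symm_apply_apply, A.apply_symm_apply, A.contDiff, A.symm.contDiff⟩, 0,
    fun _ _ => rfl⟩

theorem ExtF.comp {w : E → E} (hw : ExtF w) (G : Con E) (hG : ExtF G.f) :
    ExtF (fun x => w (G.f x)) := by
  obtain ⟨Φ, R, h⟩ := hw
  obtain ⟨Ψ, R', h'⟩ := hG
  obtain ⟨c, hc, hlow⟩ := G.lower
  refine ⟨Φ.comp Ψ, max R' (|R| / c), fun x hx => ?_⟩
  have h1 : R' ≤ ‖x‖ := (le_max_left _ _).trans hx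
  have h2 : |R| / c ≤ ‖x‖ := (le_max_right _ _).trans hx
  have h3 : R ≤ ‖G.f x‖ := by
    refine le_trans (le_abs_self R) (le_trans ?_ (hlow x))
    rwa [div_le_iff₀' hc] at h2
  change Φ.f (Ψ.f x) = w (G.f x)
  rw [h' x h1, h _ h3]

theorem FlatF.comp {w : E → E} (hw : FlatF w) (G : Con E) (hG : FlatF G.f) :
    FlatF (fun x => w (G.f x)) := by
  obtain ⟨Φ, r, R, hr, h0, h⟩ := hw
  obtain ⟨Ψ, r', R', hr', h0', h'⟩ := hG
  obtain ⟨c, hc, hlow⟩ := G.lower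
  refine ⟨Φ.comp Ψ, min r r', max R' (|R| / c), lt_min hr hr', fun x hx => ?_, fun x hx => ?_⟩
  · change Φ.f (Ψ.f x) = x
    rw [h0' x (hx.trans (min_le_right _ _)), h0 x (hx.trans (min_le_left _ _))]
  · have h1 : R' ≤ ‖x‖ := (le_max_left _ _).trans hx
    have h2 : |R| / c ≤ ‖x‖ := (le_max_right _ _).trans hx
    have h3 : R ≤ ‖G.f x‖ := by
      refine le_trans (le_abs_self R) (le_trans ?_ (hlow x))
      rwa [div_le_iff₀' hc] at h2
    change Φ.f (Ψ.f x) = w (G.f x)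
    rw [h' x h1, h _ h3]

/-- commutators with flat maps extend -/
theorem extF_commutator (α N : Con E) (hN : FlatF N.f) :
    ExtF (fun x => α.f (N.f (α.g (N.g x)))) := by
  obtain ⟨Λ, r, R, hr, h0, h⟩ := hN
  have hg0 : ∀ x, ‖x‖ ≤ r → Λ.g x = x := fun x hx => by
    have := Λ.gf x
    rwa [h0 x hx] at this
  have hΛ0 : ∀ x, x ≠ 0 → Λ.f x ≠ 0 := fun x hx h1 => hx (by
    rw [← Λ.gf x, h1, hg0 0 (by rw [norm_zero]; exact hr.le)])
  have hΛg0 : ∀ x, x ≠ 0 → Λ.g x ≠ 0 := fun x hx h1 => hx (by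
    rw [← Λ.fg x, h1, h0 0 (by rw [norm_zero]; exact hr.le)])
  obtain ⟨C, hC, hup⟩ := α.symm.upper
  have hup' : ∀ x, ‖α.g x‖ ≤ C * ‖x‖ := hup
  -- near the origin
  have hn1 : ∀ x, ‖x‖ < min r (r / C) → α.f (Λ.f (α.g (Λ.g x))) = x := by
    intro x hx
    have h1 : ‖x‖ ≤ r := hx.le.trans (min_le_left _ _)
    have h2 : ‖α.g x‖ ≤ r := by
      refine (hup' x).trans ?_
      have := hx.le.trans (min_le_right _ _)
      rwa [le_div_iff₀' hC] at this
    rw [hg0 x h1, h0 _ h2, α.fg]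
  have hn2 : ∀ x, ‖x‖ < min r (r / C) → Λ.f (α.f (Λ.g (α.g x))) = x := by
    intro x hx
    have h1 : ‖x‖ ≤ r := hx.le.trans (min_le_left _ _)
    have h2 : ‖α.g x‖ ≤ r := by
      refine (hup' x).trans ?_
      have := hx.le.trans (min_le_right _ _)
      rwa [le_div_iff₀' hC] at this
    rw [hg0 _ h2, α.fg, h0 x h1]
  have hpos : 0 < min r (r / C) := lt_min hr (by positivity)
  have hs1 : ContDiff ℝ ∞ fun x => α.f (Λ.f (α.g (Λ.g x))) := by
    rw [contDiff_iff_contDiffAt]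
    intro x
    by_cases hx : x = 0
    · refine contDiffAt_id.congr_of_eventuallyEq ?_
      filter_upwards [Metric.ball_mem_nhds x hpos] with y hy
      rw [hx, mem_ball_zero_iff] at hy
      exact hn1 y hy
    · have a1 := hΛg0 x hx
      have a2 := α.g_ne a1
      have a3 := hΛ0 _ a2
      exact (α.hf _ a3).comp x (Λ.hf.contDiffAt.comp x ((α.hg _ a1).comp x Λ.hg.contDiffAt))
  have hs2 : ContDiff ℝ ∞ fun x => Λ.f (α.f (Λ.g (α.g x))) := by
    rw [contDiff_iff_contDiffAt]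
    intro x
    by_cases hx : x = 0
    · refine contDiffAt_id.congr_of_eventuallyEq ?_
      filter_upwards [Metric.ball_mem_nhds x hpos] with y hy
      rw [hx, mem_ball_zero_iff] at hy
      exact hn2 y hy
    · have a1 := α.g_ne hx
      have a2 := hΛg0 _ a1
      exact Λ.hf.contDiffAt.comp x ((α.hf _ a2).comp x (Λ.hg.contDiffAt.comp x (α.hg x hx)))
  -- far away
  obtain ⟨c1, hc1, hlow1⟩ := N.symm.lower
  have hlow1' : ∀ x, c1 * ‖x‖ ≤ ‖N.g x‖ := hlow1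
  obtain ⟨c2, hc2, hlow2⟩ := α.symm.lower
  have hlow2' : ∀ x, c2 * ‖x‖ ≤ ‖α.g x‖ := hlow2
  refine ⟨⟨fun x => α.f (Λ.f (α.g (Λ.g x))), fun x => Λ.f (α.f (Λ.g (α.g x))),
    fun x => by rw [α.gf, Λ.gf, α.fg, Λ.fg], fun x => by rw [Λ.gf, α.gf, Λ.fg, α.fg], hs1, hs2⟩,
    max (|R| / c1) (|R| / (c2 * c1)), fun x hx => ?_⟩
  have h1 : |R| ≤ c1 * ‖x‖ := by
    have := (le_max_left _ _).trans hx
    rwa [div_le_iff₀' hc1] at this
  have h2 : |R| ≤ (c2 * c1) * ‖x‖ := by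
    have := (le_max_right _ _).trans hx
    rwa [div_le_iff₀' (mul_pos hc2 hc1)] at this
  have h3 : Λ.g x = N.g x := by
    have h4 : Λ.f (N.g x) = x := by
      rw [h _ ((le_abs_self R).trans (h1.trans (hlow1' x))), N.fg]
    rw [← h4, Λ.gf, h4]
  have h5 : R ≤ ‖α.g (N.g x)‖ := by
    refine (le_abs_self R).trans (h2.trans ?_)
    calc c2 * c1 * ‖x‖ = c2 * (c1 * ‖x‖) := by ring
      _ ≤ c2 * ‖N.g x‖ := by gcongr; exact hlow1' x
      _ ≤ _ := hlow2' _
  change α.f (Λ.f (α.g (Λ.g x))) = α.f (N.f (α.g (N.g x)))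
  rw [h3, h _ h5]

/-- a homogeneous map which agrees off a ball with a diffeomorphism is a `Con` -/
theorem exists_con_of_dif {N : E → E} (hN : ∀ x, x ≠ 0 → ContDiffAt ℝ ∞ N x)
    (hom : ∀ (t : ℝ) (x : E), 0 < t → N (t • x) = t • N x) (Λ : Dif E) {R : ℝ}
    (hR : ∀ x, R ≤ ‖x‖ → Λ.f x = N x) : ∃ G : Con E, G.f = N := by
  have hN0 : N 0 = 0 := hom_zero hom
  have hbig : ∀ x : E, x ≠ 0 → ∀ᶠ t : ℝ in atTop, Λ.f (t • x) = t • N x := by
    intro x hx
    have hx' : 0 < ‖x‖ := norm_pos_iff.2 hx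
    filter_upwards [eventually_ge_atTop (|R| / ‖x‖), eventually_gt_atTop 0] with t ht ht0
    rw [hR, hom t x ht0]
    rw [norm_smul, Real.norm_of_nonneg ht0.le]
    rw [div_le_iff₀ hx'] at ht
    exact (le_abs_self R).trans ht
  have hne : ∀ x : E, x ≠ 0 → N x ≠ 0 := by
    intro x hx hNx
    obtain ⟨t, ht, ht0⟩ := ((hbig x hx).and (eventually_gt_atTop (0 : ℝ))).exists
    obtain ⟨t', ht', ht0'⟩ := ((hbig x hx).and (eventually_gt_atTop t)).exists
    rw [hNx, smul_zero] at ht ht'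
    have h1 : t • x = t' • x := by
      rw [← Λ.gf (t • x), ht, ← ht', Λ.gf]
    have h2 : (t' - t) • x = 0 := by rw [sub_smul, h1, sub_self]
    rcases smul_eq_zero.1 h2 with h3 | h3
    · linarith
    · exact hx h3
  have hinj : Injective N := by
    intro x y hxy
    by_cases hx : x = 0
    · rw [hx, hN0] at hxy
      by_contra hcon
      exact hne y (fun h => hcon (by rw [hx, h])) hxy.symm
    · have hy : y ≠ 0 := fun h => hne x hx (by rw [hxy, h, hN0])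
      obtain ⟨t, ⟨h1, h2⟩, ht⟩ := (((hbig x hx).and (hbig y hy)).and
        (eventually_gt_atTop (0 : ℝ))).exists
      have h3 : t • x = t • y := by
        rw [← Λ.gf (t • x), h1, hxy, ← h2, Λ.gf]
      exact smul_right_injective _ ht.ne' h3
  -- the radius
  obtain ⟨B, hB⟩ : ∃ B : ℝ, ∀ x, ‖x‖ ≤ |R| → ‖Λ.f x‖ ≤ B := by
    obtain ⟨B, hB⟩ := (isCompact_closedBall (0 : E) |R|).exists_bound_of_continuousOn
      Λ.hf.continuous.continuousOn
    exact ⟨B, fun x hx => hB x (by simpa using hx)⟩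
  set R1 : ℝ := |B| + 1 with hR1
  have hR1p : 0 < R1 := by positivity
  have hfar : ∀ z : E, ‖z‖ = R1 → R ≤ ‖Λ.g z‖ := by
    intro z hz
    by_contra hcon
    push Not at hcon
    have h1 := hB (Λ.g z) (hcon.le.trans (le_abs_self R))
    rw [Λ.fg, hz, hR1] at h1
    linarith [le_abs_self B]
  have hpt : ∀ y : E, y ≠ 0 → ‖(R1 * ‖y‖⁻¹) • y‖ = R1 := by
    intro y hy
    have hy' : 0 < ‖y‖ := norm_pos_iff.2 hy
    rw [norm_smul, norm_mul, norm_inv, norm_norm, Real.norm_of_nonneg hR1p.le, mul_assoc,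
      inv_mul_cancel₀ hy'.ne', mul_one]
  set g : E → E := fun y => (‖y‖ * R1⁻¹) • Λ.g ((R1 * ‖y‖⁻¹) • y) with hg
  have hNg : ∀ y, N (g y) = y := by
    intro y
    by_cases hy : y = 0
    · simp only [hg, hy, norm_zero, zero_mul, zero_smul, hN0]
    · have hy' : 0 < ‖y‖ := norm_pos_iff.2 hy
      simp only [hg]
      rw [hom _ _ (by positivity), ← hR _ (hfar _ (hpt y hy)), Λ.fg, smul_smul]
      have : ‖y‖ * R1⁻¹ * (R1 * ‖y‖⁻¹) = 1 := by field_simp
      rw [this, one_smul]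
  refine ⟨⟨N, g, fun x => hinj (hNg _), hNg, hom, hN, fun y hy => ?_⟩, rfl⟩
  have hy' : 0 < ‖y‖ := norm_pos_iff.2 hy
  -- near `y`, a local formula with constant radius
  set t : ℝ := (2 * R1) * ‖y‖⁻¹ with ht
  have ht0 : 0 < t := by positivity
  have hloc : ∀ᶠ y' in 𝓝 y, g y' = t⁻¹ • Λ.g (t • y') := by
    have hcy : ∀ᶠ y' in 𝓝 y, R1 < ‖t • y'‖ := by
      have hc : Continuous fun y' : E => ‖t • y'‖ := by fun_prop
      refine hc.continuousAt.eventually_const_lt ?_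
      change R1 < ‖t • y‖
      rw [norm_smul, Real.norm_of_nonneg ht0.le, ht, mul_assoc, inv_mul_cancel₀ hy'.ne', mul_one]
      linarith
    filter_upwards [hcy] with y' hy1
    apply hinj
    rw [hNg, hom _ _ (by positivity)]
    have h2 : R ≤ ‖Λ.g (t • y')‖ := by
      by_contra hcon
      push Not at hcon
      have h1 := hB (Λ.g (t • y')) (hcon.le.trans (le_abs_self R))
      rw [Λ.fg] at h1
      rw [hR1] at hy1
      linarith [le_abs_self B]
    rw [← hR _ h2, Λ.fg, smul_smul, inv_mul_cancel₀ ht0.ne', one_smul]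
  have h3 : ContDiffAt ℝ ∞ (fun y' : E => t⁻¹ • Λ.g (t • y')) y := by
    have h4 : ContDiff ℝ ∞ fun y' : E => t • y' := contDiff_id.const_smul t
    exact ((Λ.hg.comp h4).const_smul t⁻¹).contDiffAt
  exact h3.congr_of_eventuallyEq hloc

end basic

section mon

variable {E : Type*} [NormedAddCommGroup E] [InnerProductSpace ℝ E] [FiniteDimensional ℝ E]

theorem antilipschitz_of_mon {h : E → E} (hs : ContDiff ℝ 1 h) {μ : ℝ}
    (hmon : ∀ x v : E, μ * ‖v‖ ^ 2 ≤ ⟪fderiv ℝ h x v, v⟫_ℝ) (x y : E) :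
    μ * ‖x - y‖ ≤ ‖h x - h y‖ := by
  set v : E := x - y with hv
  set u : ℝ → ℝ := fun t => ⟪h (y + t • v), v⟫_ℝ with hu
  have hd : ∀ t, HasDerivAt u ⟪fderiv ℝ h (y + t • v) v, v⟫_ℝ t := by
    intro t
    have h1 : HasDerivAt (fun t : ℝ => y + t • v) v t := by
      simpa using ((hasDerivAt_id t).smul_const v).const_add y
    have h2 : HasDerivAt (fun t : ℝ => h (y + t • v)) (fderiv ℝ h (y + t • v) v) t :=
      ((hs.contDiffAt.differentiableAt one_ne_zero).hasFDerivAt).comp_hasDerivAt t h1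
    have h3 : HasDerivAt u (⟪h (y + t • v), (0 : E)⟫_ℝ + ⟪fderiv ℝ h (y + t • v) v, v⟫_ℝ) t :=
      h2.inner ℝ (hasDerivAt_const t v)
    rw [inner_zero_right, zero_add] at h3
    exact h3
  have h4 : μ * ‖v‖ ^ 2 * (1 - 0) ≤ u 1 - u 0 := by
    refine (convex_univ (𝕜 := ℝ) (E := ℝ)).mul_sub_le_image_sub_of_le_deriv
      (fun t _ => (hd t).continuousAt.continuousWithinAt)
      (fun t _ => (hd t).differentiableAt.differentiableWithinAt) (fun t _ => ?_) 0 (mem_univ _) 1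
      (mem_univ _) zero_le_one
    rw [(hd t).deriv]
    exact hmon _ _
  have h5 : u 1 - u 0 = ⟪h x - h y, v⟫_ℝ := by
    simp only [hu, one_smul, zero_smul, add_zero, hv, add_sub_cancel]
    rw [inner_sub_left]
  rw [h5] at h4
  have h6 : ⟪h x - h y, v⟫_ℝ ≤ ‖h x - h y‖ * ‖v‖ := real_inner_le_norm _ _
  by_cases hv0 : ‖v‖ = 0
  · rw [hv0, mul_zero]; exact norm_nonneg _
  · have hpos : 0 < ‖v‖ := lt_of_le_of_ne (norm_nonneg _) (Ne.symm hv0)
    nlinarith

/-- A homogeneous map whose derivatives are uniformly positive definite is flat. -/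
theorem exists_dif_of_mon {N : E → E} (hN : ∀ x, x ≠ 0 → ContDiffAt ℝ ∞ N x)
    (hom : ∀ (t : ℝ) (x : E), 0 < t → N (t • x) = t • N x) {μ : ℝ} (hμ : 0 < μ) (hμ1 : μ ≤ 1)
    (hmon : ∀ x : E, x ≠ 0 → ∀ v : E, μ * ‖v‖ ^ 2 ≤ ⟪fderiv ℝ N x v, v⟫_ℝ) :
    ∃ (Λ : Dif E) (R : ℝ), (∀ x, ‖x‖ ≤ 1 → Λ.f x = x) ∧ ∀ x, R ≤ ‖x‖ → Λ.f x = N x := by
  obtain ⟨C, hC, hup⟩ := hom_bound (w := fun x => N x - x)
    (fun t x ht => by simp only [hom t x ht, smul_sub])
    (fun x hx => (hN x hx).continuousAt.sub continuousAt_id)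
  obtain ⟨lam, R, hlam, hlam0, hlam1, hlam01, hlamd⟩ :=
    exists_slow_cutoff (E := E) (c := μ / (2 * C)) (by positivity)
  set h : E → E := fun x => x + lam x • (N x - x) with hh
  have h0 : ∀ x, ‖x‖ ≤ 1 → h x = x := fun x hx => by simp [hh, hlam0 x hx]
  have h1 : ∀ x, R ≤ ‖x‖ → h x = N x := fun x hx => by simp [hh, hlam1 x hx]
  have hs : ContDiff ℝ ∞ h := by
    rw [contDiff_iff_contDiffAt]
    intro x
    by_cases hx : x = 0
    · refine contDiffAt_id.congr_of_eventuallyEq ?_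
      filter_upwards [Metric.ball_mem_nhds x one_pos] with y hy
      rw [hx, mem_ball_zero_iff] at hy
      exact h0 y hy.le
    · exact contDiffAt_id.add (hlam.contDiffAt.smul ((hN x hx).sub contDiffAt_id))
  have hm : ∀ x v : E, μ / 2 * ‖v‖ ^ 2 ≤ ⟪fderiv ℝ h x v, v⟫_ℝ := by
    intro x v
    by_cases hx : x = 0
    · have : h =ᶠ[𝓝 x] id := by
        filter_upwards [Metric.ball_mem_nhds x one_pos] with y hy
        rw [hx, mem_ball_zero_iff] at hy
        exact h0 y hy.le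
      rw [this.fderiv_eq, fderiv_id, ContinuousLinearMap.id_apply, real_inner_self_eq_norm_sq]
      have := sq_nonneg ‖v‖
      nlinarith
    · have hNd : HasFDerivAt N (fderiv ℝ N x) x :=
        ((hN x hx).differentiableAt (by simp)).hasFDerivAt
      have hld : HasFDerivAt lam (fderiv ℝ lam x) x :=
        (hlam.contDiffAt.differentiableAt (by simp)).hasFDerivAt
      have hd : HasFDerivAt h (ContinuousLinearMap.id ℝ E +
          (lam x • (fderiv ℝ N x - ContinuousLinearMap.id ℝ E) +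
          (fderiv ℝ lam x).smulRight (N x - x))) x :=
        (hasFDerivAt_id x).add (hld.smul (hNd.sub (hasFDerivAt_id x)))
      have e1 : ⟪fderiv ℝ h x v, v⟫_ℝ = (1 - lam x) * ‖v‖ ^ 2 +
          lam x * ⟪fderiv ℝ N x v, v⟫_ℝ + (fderiv ℝ lam x v) * ⟪N x - x, v⟫_ℝ := by
        rw [hd.fderiv]
        simp only [ContinuousLinearMap.add_apply, ContinuousLinearMap.id_apply,
          ContinuousLinearMap.smul_apply, ContinuousLinearMap.sub_apply,
          ContinuousLinearMap.smulRight_apply, inner_add_left, real_inner_smul_left,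
          inner_sub_left (fderiv ℝ N x v) v v, real_inner_self_eq_norm_sq]
        ring
      have e2 : |fderiv ℝ lam x v * ⟪N x - x, v⟫_ℝ| ≤ μ / 2 * ‖v‖ ^ 2 := by
        rw [abs_mul]
        calc |fderiv ℝ lam x v| * |⟪N x - x, v⟫_ℝ|
            ≤ (‖fderiv ℝ lam x‖ * ‖v‖) * (‖N x - x‖ * ‖v‖) := by
              gcongr
              · exact (fderiv ℝ lam x).le_opNorm v
              · exact abs_real_inner_le_norm _ _
          _ ≤ (‖fderiv ℝ lam x‖ * ‖v‖) * ((C * ‖x‖) * ‖v‖) := by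
              gcongr
              exact hup x
          _ = (‖fderiv ℝ lam x‖ * ‖x‖) * (C * ‖v‖ ^ 2) := by ring
          _ ≤ μ / (2 * C) * (C * ‖v‖ ^ 2) := by
              gcongr
              exact hlamd x
          _ = μ / 2 * ‖v‖ ^ 2 := by field_simp
      have e3 := hmon x hx v
      have e4 := (hlam01 x).1
      have e5 := (hlam01 x).2
      have e6 := neg_abs_le (fderiv ℝ lam x v * ⟪N x - x, v⟫_ℝ)
      have e7 := sq_nonneg ‖v‖
      have e8 : μ * ‖v‖ ^ 2 ≤ (1 - lam x) * ‖v‖ ^ 2 + lam x * ⟪fderiv ℝ N x v, v⟫_ℝ := by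
        have a1 : (1 - lam x) * (μ * ‖v‖ ^ 2) ≤ (1 - lam x) * ‖v‖ ^ 2 := by
          apply mul_le_mul_of_nonneg_left _ (by linarith)
          nlinarith
        have a2 : lam x * (μ * ‖v‖ ^ 2) ≤ lam x * ⟪fderiv ℝ N x v, v⟫_ℝ :=
          mul_le_mul_of_nonneg_left e3 e4
        linarith
      rw [e1]
      linarith
  have hanti := antilipschitz_of_mon (hs.of_le (by norm_cast)) hm
  obtain ⟨hd, hsurj⟩ := isDiffeoOn_univ_of_antilipschitz hs (half_pos hμ) hanti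
  obtain ⟨Λ, hΛ⟩ := exists_dif_of_isDiffeoOn hd hsurj
  exact ⟨Λ, R, fun x hx => by rw [hΛ]; exact h0 x hx, fun x hx => by rw [hΛ]; exact h1 x hx⟩

theorem exists_con_of_mon {N : E → E} (hN : ∀ x, x ≠ 0 → ContDiffAt ℝ ∞ N x)
    (hom : ∀ (t : ℝ) (x : E), 0 < t → N (t • x) = t • N x) {μ : ℝ} (hμ : 0 < μ) (hμ1 : μ ≤ 1)
    (hmon : ∀ x : E, x ≠ 0 → ∀ v : E, μ * ‖v‖ ^ 2 ≤ ⟪fderiv ℝ N x v, v⟫_ℝ) :
    ∃ G : Con E, G.f = N ∧ FlatF N := by
  obtain ⟨Λ, R, h0, h1⟩ := exists_dif_of_mon hN hom hμ hμ1 hmon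
  obtain ⟨G, hG⟩ := exists_con_of_dif hN hom Λ h1
  exact ⟨G, hG, Λ, 1, R, one_pos, h0, h1⟩

/-- maps near the identity -/
theorem exists_con_of_near {N : E → E} (hN : ∀ x, x ≠ 0 → ContDiffAt ℝ ∞ N x)
    (hom : ∀ (t : ℝ) (x : E), 0 < t → N (t • x) = t • N x)
    (hnear : ∀ x : E, x ≠ 0 → ‖fderiv ℝ N x - ContinuousLinearMap.id ℝ E‖ ≤ 1 / 2) :
    ∃ G : Con E, G.f = N ∧ FlatF N := by
  refine exists_con_of_mon hN hom (μ := 1 / 2) (by norm_num) (by norm_num) fun x hx v => ?_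
  have h1 : ⟪fderiv ℝ N x v, v⟫_ℝ = ‖v‖ ^ 2 +
      ⟪(fderiv ℝ N x - ContinuousLinearMap.id ℝ E) v, v⟫_ℝ := by
    rw [ContinuousLinearMap.sub_apply, ContinuousLinearMap.id_apply, inner_sub_left,
      real_inner_self_eq_norm_sq]
    ring
  have h2 : |⟪(fderiv ℝ N x - ContinuousLinearMap.id ℝ E) v, v⟫_ℝ| ≤ 1 / 2 * ‖v‖ ^ 2 := by
    calc _ ≤ ‖(fderiv ℝ N x - ContinuousLinearMap.id ℝ E) v‖ * ‖v‖ := abs_real_inner_le_norm _ _
      _ ≤ (1 / 2 * ‖v‖) * ‖v‖ := by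
          gcongr
          exact ((fderiv ℝ N x - ContinuousLinearMap.id ℝ E).le_opNorm v).trans
            (mul_le_mul_of_nonneg_right (hnear x hx) (norm_nonneg v))
      _ = 1 / 2 * ‖v‖ ^ 2 := by ring
  have h3 := neg_abs_le ⟪(fderiv ℝ N x - ContinuousLinearMap.id ℝ E) v, v⟫_ℝ
  rw [h1]
  linarith

end mon

end Pool.Agent.H93.Exo
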