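import Mathlib

/-!
Rescaled maps and their derivatives.
-/

set_option linter.unusedSectionVars false

namespace Pool.Agent.H93.Exo

open MeasureTheory Set Filter Topology
open scoped ENNReal ContDiff

variable {E F : Type*} [NormedAddCommGroup E] [NormedSpace ℝ E]
    [NormedAddCommGroup F] [NormedSpace ℝ F]

theorem fderiv_const_smul_comp_smul {w : E → F} (hw : Differentiable ℝ w) (c a : ℝ) :
    fderiv ℝ (fun x => c • w (a • x)) = fun x => (c * a) • fderiv ℝ w (a • x) := by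
  ext x v
  have h1 : HasFDerivAt (fun y : E => w (a • y)) ((fderiv ℝ w (a • x)).comp
      (a • ContinuousLinearMap.id ℝ E)) x :=
    (hw (a • x)).hasFDerivAt.comp x ((hasFDerivAt_id x).const_smul a)
  have h2 : HasFDerivAt (fun y : E => c • w (a • y)) (c • (fderiv ℝ w (a • x)).comp
      (a • ContinuousLinearMap.id ℝ E)) x := h1.const_smul c
  rw [h2.fderiv]
  simp [smul_smul]

theorem eLpNorm_const_smul_comp_smul_le [MeasurableSpace E] (μ : Measure E) (p : ℝ≥0∞)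
    {w : E → F} {M : ℝ} (hM : ∀ x, ‖w x‖ ≤ M) {c : ℝ} (hc : 0 ≤ c) (a : ℝ) :
    eLpNorm (fun x => c • w (a • x)) p μ ≤ μ univ ^ p.toReal⁻¹ * ENNReal.ofReal (c * M) := by
  refine eLpNorm_le_of_ae_bound (Eventually.of_forall fun x => ?_)
  rw [norm_smul, Real.norm_of_nonneg hc]
  exact mul_le_mul_of_nonneg_left (hM _) hc

theorem fderiv_fun_sub_eq {g f : E → F} (hg : Differentiable ℝ g) (hf : Differentiable ℝ f) :
    fderiv ℝ g - fderiv ℝ f = fderiv ℝ (g - f) := by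
  ext1 x
  rw [Pi.sub_apply, fderiv_sub (hg x) (hf x)]

/-- first derivative of a rescaled difference -/
theorem scaled_fderiv {g f w : E → F} {ε : ℝ} (hε : 0 < ε) (hw : Differentiable ℝ w)
    (hg : Differentiable ℝ g) (hf : Differentiable ℝ f) (k : ℕ)
    (h : g - f = fun x => ε ^ (k + 1) • w (ε⁻¹ • x)) :
    fderiv ℝ g - fderiv ℝ f = fun x => ε ^ k • fderiv ℝ w (ε⁻¹ • x) := by
  rw [fderiv_fun_sub_eq hg hf, h, fderiv_const_smul_comp_smul hw]
  have : ε ^ (k + 1) * ε⁻¹ = ε ^ k := by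
    rw [pow_succ, mul_assoc, mul_inv_cancel₀ hε.ne', mul_one]
  rw [this]

/-- bounds for a rescaled difference and its derivatives -/
theorem scaled_bounds [MeasurableSpace E] (μ : Measure E) (p : ℝ≥0∞) {g f w : E → F} {ε : ℝ}
    (hε : 0 < ε) (hw : ContDiff ℝ 2 w) (hg : ContDiff ℝ 2 g) (hf : ContDiff ℝ 2 f)
    (h : g - f = fun x => ε ^ 3 • w (ε⁻¹ • x)) {M0 M1 M2 : ℝ} (h0 : ∀ x, ‖w x‖ ≤ M0)
    (h1 : ∀ x, ‖fderiv ℝ w x‖ ≤ M1) (h2 : ∀ x, ‖fderiv ℝ (fderiv ℝ w) x‖ ≤ M2) :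
    eLpNorm (g - f) p μ + eLpNorm (fderiv ℝ g - fderiv ℝ f) p μ +
      eLpNorm (fderiv ℝ (fderiv ℝ g) - fderiv ℝ (fderiv ℝ f)) p μ ≤
      μ univ ^ p.toReal⁻¹ * ENNReal.ofReal (ε ^ 3 * M0) +
      μ univ ^ p.toReal⁻¹ * ENNReal.ofReal (ε ^ 2 * M1) +
      μ univ ^ p.toReal⁻¹ * ENNReal.ofReal (ε * M2) := by
  have hw1 : ContDiff ℝ 1 (fderiv ℝ w) := hw.fderiv_right (by norm_num)
  have hg1 : ContDiff ℝ 1 (fderiv ℝ g) := hg.fderiv_right (by norm_num)
  have hf1 : ContDiff ℝ 1 (fderiv ℝ f) := hf.fderiv_right (by norm_num)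
  have e1 := scaled_fderiv hε (hw.differentiable (by simp)) (hg.differentiable (by simp))
    (hf.differentiable (by simp)) 2 h
  have e2 := scaled_fderiv hε (hw1.differentiable one_ne_zero) (hg1.differentiable one_ne_zero)
    (hf1.differentiable one_ne_zero) 1 e1
  rw [e2, e1, h]
  refine add_le_add (add_le_add ?_ ?_) ?_
  · exact eLpNorm_const_smul_comp_smul_le μ p h0 (by positivity) _
  · exact eLpNorm_const_smul_comp_smul_le μ p h1 (by positivity) _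
  · have := eLpNorm_const_smul_comp_smul_le (F := E →L[ℝ] E →L[ℝ] F) μ p
      (w := fderiv ℝ (fderiv ℝ w)) (M := M2) h2 (c := ε ^ 1) (by positivity) ε⁻¹
    simp only [pow_one] at this ⊢
    exact this

theorem exists_bound_fderiv {w : E → F} (hw : ContDiff ℝ 1 w) (hc : HasCompactSupport w) :
    HasCompactSupport (fderiv ℝ w) ∧ ∃ M : ℝ, ∀ x, ‖fderiv ℝ w x‖ ≤ M := by
  have hw0 : Continuous (fderiv ℝ w) := hw.continuous_fderiv one_ne_zero
  have hc1 : HasCompactSupport (fderiv ℝ w) := hc.fderiv ℝ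
  obtain ⟨M, hM⟩ := hw0.bounded_above_of_compact_support hc1
  exact ⟨hc1, M, hM⟩

theorem exists_bounds {w : E → F} (hw : ContDiff ℝ 2 w) (hc : HasCompactSupport w) :
    ∃ M0 M1 M2 : ℝ, (∀ x, ‖w x‖ ≤ M0) ∧ (∀ x, ‖fderiv ℝ w x‖ ≤ M1) ∧
      ∀ x, ‖fderiv ℝ (fderiv ℝ w) x‖ ≤ M2 := by
  have hw1 : ContDiff ℝ 1 (fderiv ℝ w) := hw.fderiv_right (by norm_num)
  obtain ⟨M0, hM0⟩ := hw.continuous.bounded_above_of_compact_support hc
  obtain ⟨hc1, M1, hM1⟩ := exists_bound_fderiv (hw.of_le one_le_two) hc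
  obtain ⟨hc2, M2, hM2⟩ := exists_bound_fderiv (F := E →L[ℝ] F) hw1 hc1
  exact ⟨M0, M1, M2, hM0, hM1, hM2⟩

theorem tendsto_bounds {V : ℝ≥0∞} (hV : V ≠ ⊤) {ε : ℕ → ℝ} (hε : Tendsto ε atTop (𝓝 0))
    (M0 M1 M2 : ℝ) : Tendsto (fun k => V * ENNReal.ofReal (ε k ^ 3 * M0) +
      V * ENNReal.ofReal (ε k ^ 2 * M1) + V * ENNReal.ofReal (ε k * M2)) atTop (𝓝 0) := by
  have t3 : Tendsto (fun k => ENNReal.ofReal (ε k ^ 3 * M0)) atTop (𝓝 0) := by
    have := ENNReal.tendsto_ofReal ((hε.pow 3).mul_const M0)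
    simpa using this
  have t2 : Tendsto (fun k => ENNReal.ofReal (ε k ^ 2 * M1)) atTop (𝓝 0) := by
    have := ENNReal.tendsto_ofReal ((hε.pow 2).mul_const M1)
    simpa using this
  have t1 : Tendsto (fun k => ENNReal.ofReal (ε k * M2)) atTop (𝓝 0) := by
    have := ENNReal.tendsto_ofReal (hε.mul_const M2)
    simpa using this
  have := ((ENNReal.Tendsto.const_mul t3 (Or.inr hV)).add
    (ENNReal.Tendsto.const_mul t2 (Or.inr hV))).add
    (ENNReal.Tendsto.const_mul t1 (Or.inr hV))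
  simpa using this

end Pool.Agent.H93.Exo
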