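import Mathlib

/-!
Morrey's inequality: pointwise bound by the `L^q` norms of the function and of its derivative.
-/

set_option linter.unusedSectionVars false

namespace Pool.Agent.H93.Exo

open MeasureTheory Metric Set Filter Topology Module
open scoped ENNReal

variable {E : Type*} [NormedAddCommGroup E] [NormedSpace ℝ E] [FiniteDimensional ℝ E]
  [MeasurableSpace E] [BorelSpace E] (μ : Measure E) [μ.IsAddHaarMeasure]
  {F : Type*} [NormedAddCommGroup F] [NormedSpace ℝ F] [CompleteSpace F]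

theorem lintegral_homothety (G : E → ℝ≥0∞) (x : E) (r : ℝ) {t : ℝ} (ht : 0 < t) :
    ENNReal.ofReal (t ^ finrank ℝ E) * ∫⁻ y in ball x r, G (x + t • (y - x)) ∂μ
      = ∫⁻ z in ball x (t * r), G z ∂μ := by
  have himg : (fun y => x + t • (y - x)) '' ball x r = ball x (t * r) := by
    ext z
    constructor
    · rintro ⟨y, hy, rfl⟩
      rw [mem_ball, dist_eq_norm] at hy ⊢
      rw [add_sub_cancel_left, norm_smul, Real.norm_of_nonneg ht.le]
      exact mul_lt_mul_of_pos_left hy ht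
    · intro hz
      refine ⟨x + t⁻¹ • (z - x), ?_, ?_⟩
      · rw [mem_ball, dist_eq_norm] at hz ⊢
        rw [add_sub_cancel_left, norm_smul, Real.norm_of_nonneg (inv_nonneg.2 ht.le)]
        rw [inv_mul_lt_iff₀ ht]
        exact hz
      · simp only [add_sub_cancel_left]
        rw [smul_smul, mul_inv_cancel₀ ht.ne', one_smul, add_sub_cancel]
  have hder : ∀ y ∈ ball x r, HasFDerivWithinAt (fun y => x + t • (y - x))
      (t • ContinuousLinearMap.id ℝ E) (ball x r) y := by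
    intro y _
    have : HasFDerivAt (fun y => x + t • (y - x)) (t • ContinuousLinearMap.id ℝ E) y :=
      (((hasFDerivAt_id y).sub_const x).const_smul t).const_add x
    exact this.hasFDerivWithinAt
  have hinj : InjOn (fun y => x + t • (y - x)) (ball x r) := by
    intro y _ z _ h
    simp only [add_right_inj] at h
    have := smul_right_injective E ht.ne' h
    simpa using this
  rw [← himg, lintegral_image_eq_lintegral_abs_det_fderiv_mul μ measurableSet_ball hder hinj]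
  rw [lintegral_const_mul' _ _ ENNReal.ofReal_ne_top |>.symm]
  congr 1
  ext y
  congr 2
  rw [show ((t • ContinuousLinearMap.id ℝ E : E →L[ℝ] E)).det = t ^ finrank ℝ E from ?_]
  · rw [abs_of_pos (pow_pos ht _)]
  · rw [ContinuousLinearMap.det]
    simp [LinearMap.det_smul]

theorem enorm_sub_le_lintegral (u : E → F) (x y : E)
    (hu : ∀ t ∈ Icc (0 : ℝ) 1, ContDiffAt ℝ 1 u (x + t • (y - x))) :
    ‖u y - u x‖ₑ ≤ ‖y - x‖ₑ * ∫⁻ t in Ioc (0 : ℝ) 1, ‖fderiv ℝ u (x + t • (y - x))‖ₑ := by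
  have hd : ∀ t ∈ uIcc (0 : ℝ) 1, HasDerivAt (fun t : ℝ => u (x + t • (y - x)))
      (fderiv ℝ u (x + t • (y - x)) (y - x)) t := by
    intro t ht
    rw [uIcc_of_le zero_le_one] at ht
    have h1 : HasFDerivAt u (fderiv ℝ u (x + t • (y - x))) (x + t • (y - x)) :=
      ((hu t ht).differentiableAt one_ne_zero).hasFDerivAt
    have h2 : HasDerivAt (fun t : ℝ => x + t • (y - x)) (y - x) t := by
      have := ((hasDerivAt_id t).smul_const (y - x)).const_add x
      simpa using this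
    exact h1.comp_hasDerivAt t h2
  have hc : ContinuousOn (fun t : ℝ => fderiv ℝ u (x + t • (y - x)) (y - x)) (uIcc 0 1) := by
    rw [uIcc_of_le zero_le_one]
    intro t ht
    have h1 : ContinuousAt (fderiv ℝ u) (x + t • (y - x)) :=
      (hu t ht).fderiv_right (m := 0) le_rfl |>.continuousAt
    have h2 : ContinuousAt (fun t : ℝ => x + t • (y - x)) t := by fun_prop
    have h3 : ContinuousAt (fun t : ℝ => fderiv ℝ u (x + t • (y - x))) t :=
      ContinuousAt.comp (f := fun t : ℝ => x + t • (y - x)) (g := fderiv ℝ u) h1 h2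
    exact (h3.clm_apply continuousAt_const).continuousWithinAt
  have hint : IntervalIntegrable (fun t : ℝ => fderiv ℝ u (x + t • (y - x)) (y - x))
      volume 0 1 := hc.intervalIntegrable
  have hFTC := intervalIntegral.integral_eq_sub_of_hasDerivAt hd hint
  have e1 : u (x + (1 : ℝ) • (y - x)) - u (x + (0 : ℝ) • (y - x)) = u y - u x := by simp
  rw [e1] at hFTC
  rw [← hFTC, intervalIntegral.integral_of_le zero_le_one]
  refine (enorm_integral_le_lintegral_enorm _).trans ?_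
  rw [← lintegral_const_mul' _ _ enorm_ne_top]
  refine lintegral_mono (fun t => ?_)
  rw [mul_comm]
  exact ContinuousLinearMap.le_opENorm _ _

/-- Hoelder's inequality on a set. -/
theorem lintegral_enorm_le_eLpNorm {G : Type*} [NormedAddCommGroup G] {q : ℝ} (hq1 : 1 ≤ q)
    (w : E → G) (s : Set E) (hw : AEStronglyMeasurable w (μ.restrict s)) :
    ∫⁻ z in s, ‖w z‖ₑ ∂μ ≤
      eLpNorm w (ENNReal.ofReal q) (μ.restrict s) * μ s ^ (1 - 1 / q) := by
  have h1 : (1 : ℝ≥0∞) ≤ ENNReal.ofReal q := by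
    rw [← ENNReal.ofReal_one]; exact ENNReal.ofReal_le_ofReal hq1
  have := eLpNorm_le_eLpNorm_mul_rpow_measure_univ (μ := μ.restrict s) h1 hw
  rw [eLpNorm_one_eq_lintegral_enorm, Measure.restrict_apply_univ, ENNReal.toReal_one,
    ENNReal.toReal_ofReal (by linarith)] at this
  simpa using this

/-- Morrey's inequality in the form needed here. -/
theorem morrey {q : ℝ} (hq : (finrank ℝ E : ℝ) < q) (hq1 : 1 ≤ q) {r : ℝ} (hr : 0 < r) :
    ∃ C : ℝ≥0∞, C ≠ ∞ ∧ ∀ (u : E → F) (x : E), (∀ y ∈ ball x r, ContDiffAt ℝ 1 u y) →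
      ‖u x‖ₑ ≤ C * (eLpNorm u (ENNReal.ofReal q) (μ.restrict (ball x r)) +
        eLpNorm (fderiv ℝ u) (ENNReal.ofReal q) (μ.restrict (ball x r))) := by
  have hq0 : 0 < q := by linarith
  set n : ℕ := finrank ℝ E with hn
  -- volume of the ball
  set V : ℝ≥0∞ := μ (ball (0 : E) r) with hV
  have hV0 : V ≠ 0 := (measure_ball_pos μ 0 hr).ne'
  have hVt : V ≠ ∞ := measure_ball_lt_top.ne
  have hVx : ∀ x : E, μ (ball x r) = V := fun x => Measure.addHaar_ball_center μ x r
  have hVtx : ∀ (x : E) (t : ℝ), 0 < t → μ (ball x (t * r)) = ENNReal.ofReal (t ^ n) * V := by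
    intro x t ht
    rw [Measure.addHaar_ball_mul_of_pos μ x ht r]
  -- exponent
  set e : ℝ := 1 - 1 / q with he
  have he0 : 0 ≤ e := by
    rw [he, sub_nonneg, div_le_one hq0]; exact hq1
  set J : ℝ≥0∞ := ∫⁻ t in Ioc (0 : ℝ) 1, ENNReal.ofReal (t ^ (-((n : ℝ) / q))) with hJ
  have hJt : J ≠ ∞ := by
    have h1 : IntervalIntegrable (fun t : ℝ => t ^ (-((n : ℝ) / q))) volume 0 1 := by
      apply intervalIntegral.intervalIntegrable_rpow'
      rw [neg_lt_neg_iff, div_lt_one hq0]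
      exact hq
    rw [intervalIntegrable_iff_integrableOn_Ioc_of_le zero_le_one] at h1
    exact h1.lintegral_lt_top.ne
  refine ⟨V⁻¹ * (V ^ e * (1 + ENNReal.ofReal r * J)), ?_, ?_⟩
  · refine ENNReal.mul_ne_top (ENNReal.inv_ne_top.2 hV0) (ENNReal.mul_ne_top ?_ ?_)
    · exact ENNReal.rpow_ne_top_of_nonneg he0 hVt
    · exact ENNReal.add_ne_top.2 ⟨ENNReal.one_ne_top, ENNReal.mul_ne_top ENNReal.ofReal_ne_top hJt⟩
  intro u x hu
  set N0 := eLpNorm u (ENNReal.ofReal q) (μ.restrict (ball x r)) with hN0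
  set N1 := eLpNorm (fderiv ℝ u) (ENNReal.ofReal q) (μ.restrict (ball x r)) with hN1
  have hu0 : AEStronglyMeasurable u (μ.restrict (ball x r)) := by
    have : ContinuousOn u (ball x r) := fun y hy => (hu y hy).continuousAt.continuousWithinAt
    exact this.aestronglyMeasurable measurableSet_ball
  have hu1 : ∀ s ≤ r, AEStronglyMeasurable (fderiv ℝ u) (μ.restrict (ball x s)) := by
    intro s hs
    have : ContinuousOn (fderiv ℝ u) (ball x s) := fun y hy =>
      ((hu y (ball_subset_ball hs hy)).fderiv_right (m := 0) le_rfl).continuousAt.continuousWithinAt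
    exact this.aestronglyMeasurable measurableSet_ball
  -- pointwise bound
  have key : ∀ y ∈ ball x r, ‖u x‖ₑ ≤ ‖u y‖ₑ +
      ENNReal.ofReal r * ∫⁻ t in Ioc (0 : ℝ) 1, ‖fderiv ℝ u (x + t • (y - x))‖ₑ := by
    intro y hy
    have h1 : ‖u x‖ₑ ≤ ‖u y‖ₑ + ‖u y - u x‖ₑ := by
      calc ‖u x‖ₑ = ‖u y - (u y - u x)‖ₑ := by congr 1; abel
        _ ≤ ‖u y‖ₑ + ‖u y - u x‖ₑ := enorm_sub_le
    refine h1.trans (add_le_add le_rfl ?_)
    have hseg : ∀ t ∈ Icc (0 : ℝ) 1, ContDiffAt ℝ 1 u (x + t • (y - x)) := by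
      intro t ht
      apply hu
      rw [mem_ball, dist_eq_norm] at hy ⊢
      rw [add_sub_cancel_left, norm_smul, Real.norm_of_nonneg ht.1]
      calc t * ‖y - x‖ ≤ 1 * ‖y - x‖ := mul_le_mul_of_nonneg_right ht.2 (norm_nonneg _)
        _ < r := by rw [one_mul]; exact hy
    refine (enorm_sub_le_lintegral u x y hseg).trans ?_
    refine mul_le_mul_left ?_ _
    rw [mem_ball, dist_eq_norm] at hy
    rw [← ofReal_norm]
    exact ENNReal.ofReal_le_ofReal hy.le
  -- integrate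
  have h2 : V * ‖u x‖ₑ ≤ (∫⁻ y in ball x r, ‖u y‖ₑ ∂μ) + ENNReal.ofReal r *
      ∫⁻ y in ball x r, ∫⁻ t in Ioc (0 : ℝ) 1, ‖fderiv ℝ u (x + t • (y - x))‖ₑ ∂volume ∂μ := by
    rw [← lintegral_const_mul' _ _ ENNReal.ofReal_ne_top, ← lintegral_add_left' hu0.enorm]
    calc V * ‖u x‖ₑ = ∫⁻ _ in ball x r, ‖u x‖ₑ ∂μ := by
          rw [lintegral_const, Measure.restrict_apply_univ, hVx x, mul_comm]
      _ ≤ _ := setLIntegral_mono' measurableSet_ball key
  -- Tonelli
  have hmeas : Measurable fun p : E × ℝ => ‖fderiv ℝ u (x + p.2 • (p.1 - x))‖ₑ := by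
    have h3 : Measurable fun p : E × ℝ => x + p.2 • (p.1 - x) :=
      (continuous_const.add (continuous_snd.smul (continuous_fst.sub continuous_const))).measurable
    exact ((measurable_fderiv ℝ u).comp h3).enorm
  have h3 : ∫⁻ y in ball x r, ∫⁻ t in Ioc (0 : ℝ) 1,
      ‖fderiv ℝ u (x + t • (y - x))‖ₑ ∂volume ∂μ =
      ∫⁻ t in Ioc (0 : ℝ) 1, ∫⁻ y in ball x r, ‖fderiv ℝ u (x + t • (y - x))‖ₑ ∂μ ∂volume :=
    lintegral_lintegral_swap hmeas.aemeasurable
  have h4 : ∀ t ∈ Ioc (0 : ℝ) 1, ∫⁻ y in ball x r, ‖fderiv ℝ u (x + t • (y - x))‖ₑ ∂μ ≤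
      N1 * V ^ e * ENNReal.ofReal (t ^ (-((n : ℝ) / q))) := by
    intro t ht
    have htr : t * r ≤ r := by nlinarith [ht.2]
    have h5 := lintegral_homothety μ (fun z => ‖fderiv ℝ u z‖ₑ) x r ht.1
    have h6 := lintegral_enorm_le_eLpNorm μ hq1 (fderiv ℝ u) (ball x (t * r)) (hu1 _ htr)
    have h7 : eLpNorm (fderiv ℝ u) (ENNReal.ofReal q) (μ.restrict (ball x (t * r))) ≤ N1 :=
      eLpNorm_mono_measure _ (Measure.restrict_mono (ball_subset_ball htr) le_rfl)
    have htn : 0 < t ^ n := pow_pos ht.1 n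
    have ht0 : ENNReal.ofReal (t ^ n) ≠ 0 := by simpa using htn
    have h8 : ∫⁻ y in ball x r, ‖fderiv ℝ u (x + t • (y - x))‖ₑ ∂μ =
        (ENNReal.ofReal (t ^ n))⁻¹ * ∫⁻ z in ball x (t * r), ‖fderiv ℝ u z‖ₑ ∂μ := by
      rw [← h5, ← mul_assoc, ENNReal.inv_mul_cancel ht0 ENNReal.ofReal_ne_top, one_mul]
    rw [h8]
    calc (ENNReal.ofReal (t ^ n))⁻¹ * ∫⁻ z in ball x (t * r), ‖fderiv ℝ u z‖ₑ ∂μ
        ≤ (ENNReal.ofReal (t ^ n))⁻¹ * (N1 * (ENNReal.ofReal (t ^ n) * V) ^ e) := by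
          gcongr
          refine h6.trans ?_
          rw [hVtx x t ht.1]
          gcongr
      _ = N1 * V ^ e * ((ENNReal.ofReal (t ^ n))⁻¹ * ENNReal.ofReal (t ^ n) ^ e) := by
          rw [ENNReal.mul_rpow_of_nonneg _ _ he0]
          ring
      _ = N1 * V ^ e * ENNReal.ofReal (t ^ (-((n : ℝ) / q))) := by
          congr 1
          rw [← ENNReal.rpow_neg_one, ← ENNReal.rpow_add _ _ ht0 ENNReal.ofReal_ne_top,
            ENNReal.ofReal_rpow_of_pos htn]
          congr 1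
          rw [← Real.rpow_natCast, ← Real.rpow_mul ht.1.le]
          congr 1
          rw [he]; field_simp; ring
  have h9 : V * ‖u x‖ₑ ≤ N0 * V ^ e + ENNReal.ofReal r * (N1 * V ^ e * J) := by
    refine h2.trans (add_le_add ?_ ?_)
    · have := lintegral_enorm_le_eLpNorm μ hq1 u (ball x r) hu0
      rw [hVx x] at this
      exact this
    · gcongr
      rw [h3, hJ, ← lintegral_const_mul _ (by fun_prop)]
      exact setLIntegral_mono' measurableSet_Ioc h4
  calc ‖u x‖ₑ = V⁻¹ * (V * ‖u x‖ₑ) := by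
        rw [← mul_assoc, ENNReal.inv_mul_cancel hV0 hVt, one_mul]
    _ ≤ V⁻¹ * (N0 * V ^ e + ENNReal.ofReal r * (N1 * V ^ e * J)) := by gcongr
    _ ≤ V⁻¹ * (V ^ e * (1 + ENNReal.ofReal r * J) * (N0 + N1)) := by
        gcongr
        calc N0 * V ^ e + ENNReal.ofReal r * (N1 * V ^ e * J)
            ≤ (N0 + N1) * V ^ e + ENNReal.ofReal r * ((N0 + N1) * V ^ e * J) := by
              gcongr
              · exact le_self_add
              · exact le_add_self
          _ = V ^ e * (1 + ENNReal.ofReal r * J) * (N0 + N1) := by ring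
    _ = V⁻¹ * (V ^ e * (1 + ENNReal.ofReal r * J)) * (N0 + N1) := by rw [mul_assoc V⁻¹]

end Pool.Agent.H93.Exo
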