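import Mathlib
import Pool.Agent.H93.Exo.Morrey

/-!
For `q > n`, `W^{2,q}` convergence of smooth maps to a continuous map is locally uniform, together
with the first derivatives.
-/

set_option linter.unusedSectionVars false

namespace Pool.Agent.H93.Exo

open MeasureTheory Metric Set Filter Topology Module
open scoped ENNReal

variable {E : Type*} [NormedAddCommGroup E] [NormedSpace ℝ E] [FiniteDimensional ℝ E]
  [MeasurableSpace E] [BorelSpace E] (μ : Measure E) [μ.IsAddHaarMeasure]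
  {F : Type*} [NormedAddCommGroup F] [NormedSpace ℝ F] [CompleteSpace F]

theorem exists_tendstoLocallyUniformlyOn {q : ℝ} (hq : (finrank ℝ E : ℝ) < q) (hq1 : 1 ≤ q)
    {Ω : Set E} (hΩ : IsOpen Ω) {g : ℕ → E → F} (hg : ∀ k, ContDiffOn ℝ 1 (g k) Ω)
    {f0 : E → F} {f1 : E → E →L[ℝ] F}
    (hf0 : AEStronglyMeasurable f0 (μ.restrict Ω)) (hf1 : AEStronglyMeasurable f1 (μ.restrict Ω))
    (h0 : Tendsto (fun k => eLpNorm (g k - f0) (ENNReal.ofReal q) (μ.restrict Ω)) atTop (𝓝 0))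
    (h1 : Tendsto (fun k => eLpNorm (fderiv ℝ (g k) - f1) (ENNReal.ofReal q) (μ.restrict Ω))
      atTop (𝓝 0)) :
    ∃ h : E → F, TendstoLocallyUniformlyOn g h atTop Ω ∧ ContinuousOn h Ω ∧
      h =ᵐ[μ.restrict Ω] f0 := by
  have hq1' : (1 : ℝ≥0∞) ≤ ENNReal.ofReal q := by
    rw [← ENNReal.ofReal_one]; exact ENNReal.ofReal_le_ofReal hq1
  have hgd : ∀ k, ∀ x ∈ Ω, ContDiffAt ℝ 1 (g k) x := fun k x hx =>
    (hg k).contDiffAt (hΩ.mem_nhds hx)
  have hgc : ∀ k, ContinuousOn (g k) Ω := fun k => (hg k).continuousOn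
  have hgm : ∀ k, AEStronglyMeasurable (g k) (μ.restrict Ω) := fun k =>
    (hgc k).aestronglyMeasurable hΩ.measurableSet
  have hgm' : ∀ k, AEStronglyMeasurable (fderiv ℝ (g k)) (μ.restrict Ω) := fun k => by
    have : ContinuousOn (fderiv ℝ (g k)) Ω := fun y hy =>
      ((hgd k y hy).fderiv_right (m := 0) le_rfl).continuousAt.continuousWithinAt
    exact this.aestronglyMeasurable hΩ.measurableSet
  set a : ℕ → ℝ≥0∞ := fun k => eLpNorm (g k - f0) (ENNReal.ofReal q) (μ.restrict Ω) with ha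
  set b : ℕ → ℝ≥0∞ := fun k =>
    eLpNorm (fderiv ℝ (g k) - f1) (ENNReal.ofReal q) (μ.restrict Ω) with hb
  have hab : Tendsto (fun k => a k + b k) atTop (𝓝 0) := by simpa using h0.add h1
  have hcauchy : ∀ K ⊆ Ω, IsCompact K → UniformCauchySeqOn g atTop K := by
    intro K hKΩ hK
    obtain ⟨r, hr, hrΩ⟩ := hK.exists_thickening_subset_open hΩ hKΩ
    obtain ⟨C, hC, hM⟩ := morrey (F := F) μ hq hq1 hr
    have hball : ∀ x ∈ K, ball x r ⊆ Ω := fun x hx =>
      (ball_subset_thickening hx r).trans hrΩ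
    have hC2 : Tendsto (fun k => C * (a k + b k)) atTop (𝓝 0) := by
      simpa using ENNReal.Tendsto.const_mul hab (Or.inr hC)
    have hest : ∀ k l, ∀ x ∈ K, edist (g k x) (g l x) ≤ C * (a k + b k) + C * (a l + b l) := by
      intro k l x hx
      have h3 := hM (g k - g l) x (fun y hy =>
        (hgd k y (hball x hx hy)).sub (hgd l y (hball x hx hy)))
      rw [edist_eq_enorm_sub]
      refine h3.trans ?_
      have h4 : eLpNorm (g k - g l) (ENNReal.ofReal q) (μ.restrict (ball x r)) ≤ a k + a l := by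
        refine (eLpNorm_mono_measure _ (Measure.restrict_mono (hball x hx) le_rfl)).trans ?_
        have : g k - g l = (g k - f0) - (g l - f0) := by abel
        rw [this]
        exact eLpNorm_sub_le ((hgm k).sub hf0) ((hgm l).sub hf0) hq1'
      have h5 : eLpNorm (fderiv ℝ (g k - g l)) (ENNReal.ofReal q) (μ.restrict (ball x r)) ≤
          b k + b l := by
        refine (eLpNorm_mono_measure _ (Measure.restrict_mono (hball x hx) le_rfl)).trans ?_
        have : fderiv ℝ (g k - g l) =ᵐ[μ.restrict Ω]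
            (fderiv ℝ (g k) - f1) - (fderiv ℝ (g l) - f1) := by
          filter_upwards [ae_restrict_mem hΩ.measurableSet] with y hy
          simp only [Pi.sub_apply]
          rw [fderiv_sub ((hgd k y hy).differentiableAt one_ne_zero)
            ((hgd l y hy).differentiableAt one_ne_zero)]
          abel
        rw [eLpNorm_congr_ae this]
        exact eLpNorm_sub_le ((hgm' k).sub hf1) ((hgm' l).sub hf1) hq1'
      calc C * (eLpNorm (g k - g l) (ENNReal.ofReal q) (μ.restrict (ball x r)) +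
          eLpNorm (fderiv ℝ (g k - g l)) (ENNReal.ofReal q) (μ.restrict (ball x r)))
          ≤ C * ((a k + a l) + (b k + b l)) := by gcongr
        _ = C * (a k + b k) + C * (a l + b l) := by ring
    rw [Metric.uniformCauchySeqOn_iff]
    intro ε hε
    have hε2 : (0 : ℝ≥0∞) < ENNReal.ofReal (ε / 2) := by
      rw [ENNReal.ofReal_pos]; linarith
    obtain ⟨N, hN⟩ := eventually_atTop.1 (hC2.eventually_lt_const hε2)
    refine ⟨N, fun k hk l hl x hx => ?_⟩
    have h6 : edist (g k x) (g l x) < ENNReal.ofReal ε := by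
      calc edist (g k x) (g l x) ≤ C * (a k + b k) + C * (a l + b l) := hest k l x hx
        _ < ENNReal.ofReal (ε / 2) + ENNReal.ofReal (ε / 2) := ENNReal.add_lt_add (hN k hk) (hN l hl)
        _ = ENNReal.ofReal ε := by
            rw [← ENNReal.ofReal_add (by linarith) (by linarith)]; congr 1; ring
    rwa [edist_dist, ENNReal.ofReal_lt_ofReal_iff hε] at h6
  -- pointwise limit
  have hlim : ∀ x, ∃ y, x ∈ Ω → Tendsto (fun k => g k x) atTop (𝓝 y) := by
    intro x
    by_cases hx : x ∈ Ω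
    · have := (hcauchy {x} (singleton_subset_iff.2 hx) isCompact_singleton).cauchySeq
        (mem_singleton x)
      obtain ⟨y, hy⟩ := cauchySeq_tendsto_of_complete this
      exact ⟨y, fun _ => hy⟩
    · exact ⟨0, fun h => absurd h hx⟩
  choose h hh using hlim
  have hunif : TendstoLocallyUniformlyOn g h atTop Ω := by
    rw [tendstoLocallyUniformlyOn_iff_forall_isCompact hΩ]
    intro K hKΩ hK
    exact (hcauchy K hKΩ hK).tendstoUniformlyOn_of_tendsto (fun x hx => hh x (hKΩ hx))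
  refine ⟨h, hunif, hunif.continuousOn (Frequently.of_forall hgc), ?_⟩
  have hmeas := tendstoInMeasure_of_tendsto_eLpNorm (μ := μ.restrict Ω)
    (by intro h; rw [h] at hq1'; exact absurd hq1' (by simp)) hgm hf0 h0
  obtain ⟨ns, hns, hae⟩ := hmeas.exists_seq_tendsto_ae
  filter_upwards [hae, ae_restrict_mem hΩ.measurableSet] with x hx hxΩ
  exact tendsto_nhds_unique ((hh x hxΩ).comp hns.tendsto_atTop) hx

/-- `W^{2,q}` convergence with `q > n` implies `C^1_loc` convergence. -/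
theorem c1_conv {q : ℝ} (hq : (finrank ℝ E : ℝ) < q) (hq1 : 1 ≤ q)
    {Ω : Set E} (hΩ : IsOpen Ω) {g : ℕ → E → F} (hg : ∀ k, ContDiffOn ℝ 2 (g k) Ω)
    {f0 : E → F} {f1 : E → E →L[ℝ] F} {f2 : E → E →L[ℝ] E →L[ℝ] F}
    (hf0 : ContinuousOn f0 Ω) (hf1 : AEStronglyMeasurable f1 (μ.restrict Ω))
    (hf2 : AEStronglyMeasurable f2 (μ.restrict Ω))
    (h0 : Tendsto (fun k => eLpNorm (g k - f0) (ENNReal.ofReal q) (μ.restrict Ω)) atTop (𝓝 0))
    (h1 : Tendsto (fun k => eLpNorm (fderiv ℝ (g k) - f1) (ENNReal.ofReal q) (μ.restrict Ω))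
      atTop (𝓝 0))
    (h2 : Tendsto (fun k => eLpNorm (fderiv ℝ (fderiv ℝ (g k)) - f2) (ENNReal.ofReal q)
      (μ.restrict Ω)) atTop (𝓝 0)) :
    TendstoLocallyUniformlyOn g f0 atTop Ω ∧
      ∃ h1 : E → E →L[ℝ] F, ContinuousOn h1 Ω ∧
        TendstoLocallyUniformlyOn (fun k => fderiv ℝ (g k)) h1 atTop Ω ∧
        ∀ x ∈ Ω, HasFDerivAt f0 (h1 x) x := by
  have hg1 : ∀ k, ContDiffOn ℝ 1 (g k) Ω := fun k => (hg k).of_le one_le_two
  have hg2 : ∀ k, ContDiffOn ℝ 1 (fderiv ℝ (g k)) Ω := fun k =>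
    (hg k).fderiv_of_isOpen hΩ (by norm_num)
  obtain ⟨h, hh, hhc, hhae⟩ := exists_tendstoLocallyUniformlyOn μ hq hq1 hΩ hg1
    (hf0.aestronglyMeasurable hΩ.measurableSet) hf1 h0 h1
  obtain ⟨h', hh', hhc', -⟩ := exists_tendstoLocallyUniformlyOn μ hq hq1 hΩ hg2 hf1 hf2 h1 h2
  have heq : EqOn h f0 Ω := Measure.eqOn_open_of_ae_eq hhae hΩ hhc hf0
  have hh0 : TendstoLocallyUniformlyOn g f0 atTop Ω := hh.congr_right heq
  refine ⟨hh0, h', hhc', hh', fun x hx => ?_⟩
  exact hasFDerivAt_of_tendstoLocallyUniformlyOn hΩ hh'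
    (fun k y hy => (((hg1 k).contDiffAt (hΩ.mem_nhds hy)).differentiableAt
      one_ne_zero).hasFDerivAt) (fun y hy => hh0.tendsto_at hy) hx

end Pool.Agent.H93.Exo
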