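import Mathlib
import Pool.Agent.H93.Exo.Diffeo

/-!
If a homeomorphism which is a diffeomorphism off a compact set is a `C^1_loc` limit of
diffeomorphisms, then it can be changed near the compact set to a diffeomorphism.
-/

set_option linter.unusedSectionVars false

namespace Pool.Agent.H93.Exo

open MeasureTheory Metric Set Filter Topology Module Function
open scoped ENNReal ContDiff Manifold

variable {E : Type*} [NormedAddCommGroup E] [NormedSpace ℝ E] [FiniteDimensional ℝ E]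

theorem eventually_forall_of_isCompact {X : Type*} [TopologicalSpace X] {K : Set X}
    (hK : IsCompact K) {ι : Type*} {l : Filter ι} {P : ι → X → Prop}
    (h : ∀ x ∈ K, ∃ V ∈ 𝓝 x, ∀ᶠ k in l, ∀ y ∈ V, P k y) : ∀ᶠ k in l, ∀ y ∈ K, P k y := by
  refine hK.induction_on (p := fun s => ∀ᶠ k in l, ∀ y ∈ s, P k y) (by simp) ?_ ?_ ?_
  · intro s t hst ht
    exact ht.mono fun k hk y hy => hk y (hst hy)
  · intro s t hs ht
    filter_upwards [hs, ht] with k h1 h2 y hy
    exact hy.elim (h1 y) (h2 y)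
  · intro x hx
    obtain ⟨V, hV, hP⟩ := h x hx
    exact ⟨V, mem_nhdsWithin_of_mem_nhds hV, hP⟩

theorem exists_equiv_of_injective (A : E →L[ℝ] E) (hA : Injective A) :
    ∃ e : E ≃L[ℝ] E, (e : E →L[ℝ] E) = A := by
  refine ⟨(LinearEquiv.ofInjectiveEndo (A : E →ₗ[ℝ] E) hA).toContinuousLinearEquiv, ?_⟩
  ext v
  rfl

/-- Local stability of diffeomorphisms under `C^1`-small perturbations. -/
theorem local_stable {f : E → E} {O : Set E} (hO : IsOpen O) (hfO : ContDiffOn ℝ 1 f O) {x : E}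
    (hx : x ∈ O) {e : E ≃L[ℝ] E} (he : HasFDerivAt f (e : E →L[ℝ] E) x) {W : ℕ → E → E}
    (hW : ∀ k, ∀ y ∈ O, DifferentiableAt ℝ (W k) y)
    (hW' : ∀ K ⊆ O, IsCompact K → ∀ ε > 0, ∀ᶠ k in atTop, ∀ y ∈ K, ‖fderiv ℝ (W k) y‖ ≤ ε) :
    ∃ V ∈ 𝓝 x, ∀ᶠ k in atTop, InjOn (fun y => f y + W k y) V ∧
      ∀ y ∈ V, ∃ e' : E ≃L[ℝ] E, HasFDerivAt (fun y => f y + W k y) (e' : E →L[ℝ] E) y := by
  set N : ℝ := ‖(e.symm : E →L[ℝ] E)‖ + 1 with hN
  have hN0 : 0 < N := by positivity
  have hev : ∀ v : E, ‖v‖ ≤ N * ‖e v‖ := by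
    intro v
    calc ‖v‖ = ‖(e.symm : E →L[ℝ] E) (e v)‖ := by simp
      _ ≤ ‖(e.symm : E →L[ℝ] E)‖ * ‖e v‖ := ContinuousLinearMap.le_opNorm _ _
      _ ≤ N * ‖e v‖ := by
          gcongr
          rw [hN]; linarith
  set c : ℝ := 1 / (4 * N) with hc
  have hc0 : 0 < c := by positivity
  have hcN : N * c = 1 / 4 := by rw [hc]; field_simp
  have hfx : ContDiffAt ℝ 1 f x := hfO.contDiffAt (hO.mem_nhds hx)
  have hcf : ContinuousAt (fderiv ℝ f) x := (hfx.fderiv_right (m := 0) le_rfl).continuousAt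
  have hnear : ∀ᶠ y in 𝓝 x, ‖fderiv ℝ f y - e‖ ≤ c := by
    have : Tendsto (fun y => ‖fderiv ℝ f y - e‖) (𝓝 x) (𝓝 ‖fderiv ℝ f x - e‖) :=
      (hcf.sub continuousAt_const).norm
    rw [he.fderiv, sub_self, norm_zero] at this
    exact this.eventually_le_const hc0
  obtain ⟨r, hr, hrs⟩ := Metric.eventually_nhds_iff_ball.1 (hnear.and (hO.mem_nhds hx))
  have hK : IsCompact (closedBall x (r / 2)) := isCompact_closedBall _ _
  have hKr : closedBall x (r / 2) ⊆ ball x r := closedBall_subset_ball (by linarith)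
  have hKO : closedBall x (r / 2) ⊆ O := fun y hy => (hrs y (hKr hy)).2
  refine ⟨closedBall x (r / 2), closedBall_mem_nhds x (by linarith), ?_⟩
  filter_upwards [hW' _ hKO hK c hc0] with k hk
  have hfd : ∀ y ∈ closedBall x (r / 2), DifferentiableAt ℝ f y := fun y hy =>
    (hfO.contDiffAt (hO.mem_nhds (hKO hy))).differentiableAt one_ne_zero
  constructor
  · intro a ha b hb hab
    by_contra hne
    have hpos : 0 < ‖a - b‖ := norm_pos_iff.2 (sub_ne_zero.2 hne)
    -- derivative of `f - e + W` is at most `2c` on the ball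
    have hmv : ‖(f a + W k a - e a) - (f b + W k b - e b)‖ ≤ 2 * c * ‖a - b‖ := by
      refine Convex.norm_image_sub_le_of_norm_hasFDerivWithin_le
        (f := fun y => f y + W k y - e y) (f' := fun y => fderiv ℝ f y + fderiv ℝ (W k) y - (e : E →L[ℝ] E))
        (s := closedBall x (r / 2)) (C := 2 * c) (fun y hy => ?_) (fun y hy => ?_)
        (convex_closedBall _ _) hb ha
      · exact (((hfd y hy).hasFDerivAt.add (hW k y (hKO hy)).hasFDerivAt).sub
          e.hasFDerivAt).hasFDerivWithinAt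
      · calc ‖fderiv ℝ f y + fderiv ℝ (W k) y - e‖
            = ‖(fderiv ℝ f y - e) + fderiv ℝ (W k) y‖ := by congr 1; abel
          _ ≤ ‖fderiv ℝ f y - e‖ + ‖fderiv ℝ (W k) y‖ := norm_add_le _ _
          _ ≤ c + c := add_le_add (hrs y (hKr hy)).1 (hk y hy)
          _ = 2 * c := by ring
    have h1 : (f a + W k a - e a) - (f b + W k b - e b) = - e (a - b) := by
      rw [map_sub]
      have : f a + W k a = f b + W k b := hab
      rw [this]; abel
    rw [h1, norm_neg] at hmv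
    have h2 := hev (a - b)
    nlinarith
  · intro y hy
    set A : E →L[ℝ] E := fderiv ℝ f y + fderiv ℝ (W k) y with hA
    have hAd : HasFDerivAt (fun y => f y + W k y) A y :=
      (hfd y hy).hasFDerivAt.add (hW k y (hKO hy)).hasFDerivAt
    have hAe : ‖A - e‖ ≤ 2 * c := by
      calc ‖A - e‖ = ‖(fderiv ℝ f y - e) + fderiv ℝ (W k) y‖ := by
            congr 1; rw [hA]; abel
        _ ≤ ‖fderiv ℝ f y - e‖ + ‖fderiv ℝ (W k) y‖ := norm_add_le _ _
        _ ≤ c + c := add_le_add (hrs y (hKr hy)).1 (hk y hy)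
        _ = 2 * c := by ring
    have hAinj : Injective A := by
      intro a b hab
      by_contra hne
      have hpos : 0 < ‖a - b‖ := norm_pos_iff.2 (sub_ne_zero.2 hne)
      have h3 : (A - e) (a - b) = - e (a - b) := by
        simp [map_sub, hab]
      have h4 : ‖e (a - b)‖ ≤ 2 * c * ‖a - b‖ := by
        rw [← norm_neg, ← h3]
        exact ((A - (e : E →L[ℝ] E)).le_opNorm _).trans
          (mul_le_mul_of_nonneg_right hAe (norm_nonneg _))
      have h2 := hev (a - b)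
      nlinarith
    obtain ⟨e', he'⟩ := exists_equiv_of_injective A hAinj
    exact ⟨e', by rw [he']; exact hAd⟩

/-- Modification of a `C^1_loc`-limit of diffeomorphisms near a compact set. -/
theorem obstruction_C1 {Ω Z U : Set E} (hΩ : IsOpen Ω) (hZ : IsCompact Z) (hU : IsOpen U)
    (hZU : Z ⊆ U) (hUΩ : U ⊆ Ω) {f : E → E} (hf : IsHomeoOn Ω f) (hfZ : IsDiffeoOn (Ω \ Z) f)
    {g : ℕ → E → E} (hg : ∀ k, IsDiffeoOn Ω (g k)) (h0 : TendstoLocallyUniformlyOn g f atTop Ω)
    {f' : E → E →L[ℝ] E} (h1 : TendstoLocallyUniformlyOn (fun k => fderiv ℝ (g k)) f' atTop Ω)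
    (hff' : ∀ x ∈ Ω, HasFDerivAt f (f' x) x) :
    ∃ H : E → E, IsDiffeoOn Ω H ∧ H '' Ω = f '' Ω ∧ ∀ x ∈ Ω \ U, H x = f x := by
  set O : Set E := Ω \ Z with hO_def
  have hO : IsOpen O := hΩ.sdiff hZ.isClosed
  have hOΩ : O ⊆ Ω := sdiff_subset
  -- compact neighbourhoods
  obtain ⟨K2, hK2, hZK2, hK2U⟩ := exists_compact_between hZ hU hZU
  obtain ⟨K1, hK1, hZK1, hK1K2⟩ := exists_compact_between hZ isOpen_interior hZK2
  obtain ⟨K3, hK3, hK2K3, hK3Ω⟩ := exists_compact_between hK2 hΩ (hK2U.trans hUΩ)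
  have hK2Ω : K2 ⊆ Ω := hK2U.trans hUΩ
  have hiK2 : interior K2 ⊆ K2 := interior_subset
  -- cut-off function
  obtain ⟨χ0, hχ0, hχ1, hχ01⟩ := exists_contMDiffMap_zero_one_of_isClosed (n := ⊤) 𝓘(ℝ, E)
    (isOpen_interior (s := K2)).isClosed_compl hK1.isClosed
    (disjoint_left.2 fun x hx hx1 => hx (hK1K2 hx1))
  set χ : E → ℝ := fun x => χ0 x with hχ
  have hχs : ContDiff ℝ ∞ χ := χ0.contMDiff.contDiff
  have hχd : ∀ x, DifferentiableAt ℝ χ x := fun x => hχs.contDiffAt.differentiableAt (by simp)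
  have hχK1 : ∀ x ∈ K1, χ x = 1 := fun x hx => hχ1 hx
  have hχK2 : ∀ x, x ∉ interior K2 → χ x = 0 := fun x hx => hχ0 hx
  have hχabs : ∀ x, ‖χ x‖ ≤ 1 := fun x => by
    rw [Real.norm_of_nonneg (hχ01 x).1]; exact (hχ01 x).2
  set W : ℕ → E → E := fun k x => χ x • (g k x - f x) with hWdef
  set H : ℕ → E → E := fun k x => f x + W k x with hHdef
  have hHK1 : ∀ k, ∀ x ∈ K1, H k x = g k x := by
    intro k x hx
    simp only [hHdef, hWdef, hχK1 x hx, one_smul]
    abel
  have hHf : ∀ k, ∀ x, x ∉ interior K2 → H k x = f x := by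
    intro k x hx
    simp only [hHdef, hWdef, hχK2 x hx, zero_smul, add_zero]
  have hgd : ∀ k, ∀ x ∈ Ω, HasFDerivAt (g k) (fderiv ℝ (g k) x) x := fun k x hx =>
    (((hg k).1.contDiffAt (hΩ.mem_nhds hx)).differentiableAt (by simp)).hasFDerivAt
  have hWd : ∀ k, ∀ x ∈ Ω, HasFDerivAt (W k)
      (χ x • (fderiv ℝ (g k) x - f' x) + (fderiv ℝ χ x).smulRight (g k x - f x)) x := by
    intro k x hx
    exact (hχd x).hasFDerivAt.smul ((hgd k x hx).sub (hff' x hx))
  -- uniform convergence on compact sets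
  have hU0 : ∀ K ⊆ Ω, IsCompact K → ∀ ε > 0, ∀ᶠ k in atTop, ∀ y ∈ K, ‖g k y - f y‖ < ε := by
    intro K hKΩ hK ε hε
    have := (tendstoLocallyUniformlyOn_iff_forall_isCompact hΩ).1 h0 K hKΩ hK
    rw [Metric.tendstoUniformlyOn_iff] at this
    filter_upwards [this ε hε] with k hk y hy
    rw [← dist_eq_norm, dist_comm]; exact hk y hy
  have hU1 : ∀ K ⊆ Ω, IsCompact K → ∀ ε > 0, ∀ᶠ k in atTop, ∀ y ∈ K,
      ‖fderiv ℝ (g k) y - f' y‖ < ε := by
    intro K hKΩ hK ε hε
    have := (tendstoLocallyUniformlyOn_iff_forall_isCompact hΩ).1 h1 K hKΩ hK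
    rw [Metric.tendstoUniformlyOn_iff] at this
    filter_upwards [this ε hε] with k hk y hy
    rw [← dist_eq_norm, dist_comm]; exact hk y hy
  have hUH : ∀ K ⊆ Ω, IsCompact K → ∀ ε > 0, ∀ᶠ k in atTop, ∀ y ∈ K, ‖H k y - f y‖ < ε := by
    intro K hKΩ hK ε hε
    filter_upwards [hU0 K hKΩ hK ε hε] with k hk y hy
    have : H k y - f y = χ y • (g k y - f y) := by simp [hHdef, hWdef]
    rw [this, norm_smul]
    calc ‖χ y‖ * ‖g k y - f y‖ ≤ 1 * ‖g k y - f y‖ := by gcongr; exact hχabs y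
      _ < ε := by rw [one_mul]; exact hk y hy
  have hUW : ∀ K ⊆ O, IsCompact K → ∀ ε > 0, ∀ᶠ k in atTop, ∀ y ∈ K,
      ‖fderiv ℝ (W k) y‖ ≤ ε := by
    intro K hKO hK ε hε
    obtain ⟨M, hM⟩ := hK.exists_bound_of_continuousOn
      (hχs.continuous_fderiv (by simp)).continuousOn
    have hε' : 0 < ε / (1 + |M|) := by positivity
    filter_upwards [hU0 K (hKO.trans hOΩ) hK _ hε', hU1 K (hKO.trans hOΩ) hK _ hε'] with k hk0 hk1 y hy
    rw [(hWd k y (hOΩ (hKO hy))).fderiv]
    calc ‖χ y • (fderiv ℝ (g k) y - f' y) + (fderiv ℝ χ y).smulRight (g k y - f y)‖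
        ≤ ‖χ y • (fderiv ℝ (g k) y - f' y)‖ + ‖(fderiv ℝ χ y).smulRight (g k y - f y)‖ :=
          norm_add_le _ _
      _ = ‖χ y‖ * ‖fderiv ℝ (g k) y - f' y‖ + ‖fderiv ℝ χ y‖ * ‖g k y - f y‖ := by
          rw [norm_smul, ContinuousLinearMap.norm_smulRight_apply]
      _ ≤ 1 * (ε / (1 + |M|)) + |M| * (ε / (1 + |M|)) := by
          gcongr
          · exact hχabs y
          · exact (hk1 y hy).le
          · exact (hM y hy).trans (le_abs_self M)
          · exact (hk0 y hy).le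
      _ = ε := by field_simp
  -- local statement
  have hlocal : ∀ x ∈ Ω, ∃ V ∈ 𝓝 x, ∀ᶠ k in atTop, InjOn (H k) V ∧
      ∀ y ∈ V, ∃ e' : E ≃L[ℝ] E, HasFDerivAt (H k) (e' : E →L[ℝ] E) y := by
    intro x hx
    by_cases hxK : x ∈ interior K1
    · refine ⟨interior K1, isOpen_interior.mem_nhds hxK, Eventually.of_forall fun k => ⟨?_, ?_⟩⟩
      · intro a ha b hb hab
        rw [hHK1 k a (interior_subset ha), hHK1 k b (interior_subset hb)] at hab
        exact (hg k).2.1 (hK2Ω (hiK2 (hK1K2 (interior_subset ha))))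
          (hK2Ω (hiK2 (hK1K2 (interior_subset hb)))) hab
      · intro y hy
        obtain ⟨e', he'⟩ := (hg k).exists_equiv hΩ (hK2Ω (hiK2 (hK1K2 (interior_subset hy))))
        refine ⟨e', he'.congr_of_eventuallyEq ?_⟩
        filter_upwards [isOpen_interior.mem_nhds hy] with z hz using hHK1 k z (interior_subset hz)
    · have hxO : x ∈ O := ⟨hx, fun h => hxK (hZK1 h)⟩
      obtain ⟨e, he⟩ := hfZ.exists_equiv hO hxO
      exact local_stable hO (hfZ.1.of_le (by norm_cast)) hxO he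
        (fun k y hy => (hWd k y (hOΩ hy)).differentiableAt) hUW
  -- smoothness
  have hsmooth : ∀ k, ContDiffOn ℝ ∞ (H k) Ω := by
    intro k x hx
    by_cases hxK : x ∈ interior K1
    · have h2 : ContDiffAt ℝ ∞ (g k) x := (hg k).1.contDiffAt (hΩ.mem_nhds hx)
      refine (h2.congr_of_eventuallyEq ?_).contDiffWithinAt
      filter_upwards [isOpen_interior.mem_nhds hxK] with z hz using hHK1 k z (interior_subset hz)
    · have hxO : x ∈ O := ⟨hx, fun h => hxK (hZK1 h)⟩
      have h2 : ContDiffAt ℝ ∞ (g k) x := (hg k).1.contDiffAt (hΩ.mem_nhds hx)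
      have h3 : ContDiffAt ℝ ∞ f x := hfZ.1.contDiffAt (hO.mem_nhds hxO)
      exact (h3.add (hχs.contDiffAt.smul (h2.sub h3))).contDiffWithinAt
  -- invertible derivative
  have hinv : ∀ᶠ k in atTop, ∀ y ∈ Ω, ∃ e' : E ≃L[ℝ] E,
      HasFDerivAt (H k) (e' : E →L[ℝ] E) y := by
    have h2 : ∀ᶠ k in atTop, ∀ y ∈ K2, ∃ e' : E ≃L[ℝ] E,
        HasFDerivAt (H k) (e' : E →L[ℝ] E) y :=
      eventually_forall_of_isCompact hK2 fun x hx => by
        obtain ⟨V, hV, hk⟩ := hlocal x (hK2Ω hx)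
        exact ⟨V, hV, hk.mono fun k hk => hk.2⟩
    filter_upwards [h2] with k hk y hy
    by_cases hyK : y ∈ K2
    · exact hk y hyK
    · obtain ⟨e, he⟩ := hfZ.exists_equiv hO (x := y) ⟨hy, fun h => hyK (hiK2 (hZK2 h))⟩
      refine ⟨e, he.congr_of_eventuallyEq ?_⟩
      filter_upwards [hK2.isClosed.isOpen_compl.mem_nhds hyK] with z hz
      exact hHf k z fun h => hz (hiK2 h)
  -- injectivity
  have hinj : ∀ᶠ k in atTop, InjOn (H k) Ω := by
    -- pairs in a compact set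
    have h2 : ∀ᶠ k in atTop, ∀ p ∈ K2 ×ˢ K3, p.1 ∈ K3 → p.2 ∈ K3 →
        H k p.1 = H k p.2 → p.1 = p.2 := by
      refine eventually_forall_of_isCompact (hK2.prod hK3) ?_
      rintro ⟨a, b⟩ ⟨ha, hb⟩
      simp only at ha hb
      by_cases hab : a = b
      · subst hab
        obtain ⟨V, hV, hk⟩ := hlocal a (hK2Ω ha)
        refine ⟨V ×ˢ V, prod_mem_nhds hV hV, hk.mono fun k hk => ?_⟩
        rintro ⟨a', b'⟩ ⟨ha', hb'⟩ - - h
        exact hk.1 ha' hb' h
      · have haΩ := hK2Ω ha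
        have hbΩ := hK3Ω hb
        have hne : f a ≠ f b := fun h => hab (hf.2.1 haΩ hbΩ h)
        set η : ℝ := dist (f a) (f b) / 4 with hη
        have hη0 : 0 < η := by have := dist_pos.2 hne; positivity
        have hca : ContinuousAt f a := hf.1.continuousAt (hΩ.mem_nhds haΩ)
        have hcb : ContinuousAt f b := hf.1.continuousAt (hΩ.mem_nhds hbΩ)
        refine ⟨(f ⁻¹' ball (f a) η) ×ˢ (f ⁻¹' ball (f b) η),
          prod_mem_nhds (hca (ball_mem_nhds _ hη0)) (hcb (ball_mem_nhds _ hη0)), ?_⟩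
        filter_upwards [hUH K3 hK3Ω hK3 η hη0] with k hk
        rintro ⟨a', b'⟩ ⟨ha', hb'⟩ ha3 hb3 h
        exfalso
        simp only [mem_preimage, mem_ball] at ha' hb' ha3 hb3 h
        have e1 := hk a' ha3
        have e2 := hk b' hb3
        rw [← dist_eq_norm] at e1 e2
        have e3 : dist (f a) (f b) ≤ dist (f a) (f a') + dist (f a') (H k a') +
            dist (H k a') (f b) := dist_triangle4 _ _ _ _
        have e4 : dist (H k a') (f b) ≤ dist (H k b') (f b') + dist (f b') (f b) := by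
          rw [h]; exact dist_triangle _ _ _
        rw [dist_comm] at ha'
        rw [dist_comm (f a') (H k a')] at e3
        have : dist (f a) (f b) = 4 * η := by rw [hη]; ring
        linarith
    -- far away pairs
    have hopen3 : IsOpen (f '' interior K3) :=
      hf.isOpen_image hΩ isOpen_interior (interior_subset.trans hK3Ω)
    have hfK2 : IsCompact (f '' K2) := hK2.image_of_continuousOn (hf.1.mono hK2Ω)
    obtain ⟨δ, hδ, hδ3⟩ := hfK2.exists_thickening_subset_open hopen3 (image_mono hK2K3)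
    have hnear : ∀ᶠ k in atTop, ∀ a ∈ K2, H k a ∈ f '' interior K3 := by
      filter_upwards [hUH K2 hK2Ω hK2 δ hδ] with k hk a ha
      refine hδ3 (mem_thickening_iff.2 ⟨f a, mem_image_of_mem f ha, ?_⟩)
      rw [dist_eq_norm]; exact hk a ha
    have key : ∀ᶠ k in atTop, ∀ a ∈ K2, ∀ b ∈ Ω, H k a = H k b → a = b := by
      filter_upwards [h2, hnear] with k hk2 hkn a ha b hb hab
      by_cases hbK : b ∈ K3
      · exact hk2 (a, b) ⟨ha, hbK⟩ (interior_subset (hK2K3 ha)) hbK hab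
      · exfalso
        have hbf : H k b = f b := hHf k b fun h => hbK (interior_subset (hK2K3 (hiK2 h)))
        obtain ⟨c, hc, hcf⟩ := hkn a ha
        rw [hab, hbf] at hcf
        have := hf.2.1 (hK3Ω (interior_subset hc)) hb hcf
        rw [this] at hc
        exact hbK (interior_subset hc)
    filter_upwards [key] with k hk a ha b hb hab
    by_cases haK : a ∈ K2
    · exact hk a haK b hb hab
    · by_cases hbK : b ∈ K2
      · exact (hk b hbK a ha hab.symm).symm
      · have e1 : H k a = f a := hHf k a fun h => haK (hiK2 h)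
        have e2 : H k b = f b := hHf k b fun h => hbK (hiK2 h)
        rw [e1, e2] at hab
        exact hf.2.1 ha hb hab
  -- the image
  have hfK2 : IsCompact (f '' K2) := hK2.image_of_continuousOn (hf.1.mono hK2Ω)
  obtain ⟨δ, hδ, hδΩ⟩ := hfK2.exists_thickening_subset_open hf.2.2.1 (image_mono hK2Ω)
  obtain ⟨k, hkinv, hkinj, hkclose⟩ := (hinv.and (hinj.and (hUH K2 hK2Ω hK2 δ hδ))).exists
  have hHd : IsDiffeoOn Ω (H k) := isDiffeoOn_of hΩ (hsmooth k) hkinj hkinv
  have hbK2 : ∀ x ∈ K2, ball (f x) δ ⊆ f '' Ω := fun x hx =>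
    (ball_subset_thickening (mem_image_of_mem f hx) δ).trans hδΩ
  have hsub : H k '' Ω ⊆ f '' Ω := by
    rintro _ ⟨x, hx, rfl⟩
    by_cases hxK : x ∈ K2
    · apply hbK2 x hxK
      rw [mem_ball, dist_eq_norm]
      exact hkclose x hxK
    · rw [hHf k x fun h => hxK (hiK2 h)]
      exact mem_image_of_mem f hx
  have hcompl : IsOpen (f '' Ω \ H k '' Ω) := by
    have e1 : f '' Ω \ H k '' Ω = f '' interior K2 \ H k '' K2 := by
      ext y
      constructor
      · rintro ⟨⟨x, hx, rfl⟩, hy⟩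
        have hxK : x ∈ interior K2 := by
          by_contra hxK
          exact hy ⟨x, hx, hHf k x hxK⟩
        exact ⟨mem_image_of_mem f hxK, fun h => hy (image_mono hK2Ω h)⟩
      · rintro ⟨⟨x, hx, rfl⟩, hy⟩
        refine ⟨mem_image_of_mem f (hK2Ω (hiK2 hx)), ?_⟩
        rintro ⟨z, hz, hzx⟩
        by_cases hzK : z ∈ K2
        · exact hy ⟨z, hzK, hzx⟩
        · rw [hHf k z fun h => hzK (hiK2 h)] at hzx
          have := hf.2.1 hz (hK2Ω (hiK2 hx)) hzx
          rw [this] at hzK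
          exact hzK (hiK2 hx)
    rw [e1]
    have hc : IsCompact (H k '' K2) :=
      hK2.image_of_continuousOn ((hsmooth k).continuousOn.mono hK2Ω)
    exact (hf.isOpen_image hΩ isOpen_interior (hiK2.trans hK2Ω)).sdiff hc.isClosed
  refine ⟨H k, hHd, hsub.antisymm ?_, ?_⟩
  · rintro _ ⟨x, hx, rfl⟩
    by_cases hxK : x ∈ K2
    · have hconn : IsPreconnected (ball (f x) δ) := (convex_ball _ _).isPreconnected
      have hcover : ball (f x) δ ⊆ H k '' Ω ∪ (f '' Ω \ H k '' Ω) := fun y hy => by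
        by_cases hyH : y ∈ H k '' Ω
        · exact Or.inl hyH
        · exact Or.inr ⟨hbK2 x hxK hy, hyH⟩
      have hmem : (ball (f x) δ ∩ H k '' Ω).Nonempty := by
        refine ⟨H k x, ?_, mem_image_of_mem _ hx⟩
        rw [mem_ball, dist_eq_norm]
        exact hkclose x hxK
      have := hconn.subset_left_of_subset_union hHd.2.2.1 hcompl disjoint_sdiff_right hcover hmem
      exact this (mem_ball_self hδ)
    · exact ⟨x, hx, hHf k x fun h => hxK (hiK2 h)⟩
  · intro x hx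
    exact hHf k x fun h => hx.2 (hK2U (hiK2 h))

end Pool.Agent.H93.Exo
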