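import Mathlib
import Pool.Agent.H93.Exo.Conv
import Pool.Agent.H93.Exo.Obst

/-!
Weak derivatives, `W^{2,q}` and the general obstruction.
-/

set_option linter.unusedSectionVars false

namespace Pool.Agent.H93.Exo

open MeasureTheory Metric Set Filter Topology Module Function
open scoped ENNReal ContDiff Manifold

section general

variable {E : Type*} [NormedAddCommGroup E] [NormedSpace ℝ E] [FiniteDimensional ℝ E]
  [MeasurableSpace E] [BorelSpace E] (μ : Measure E) [μ.IsAddHaarMeasure]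
  {F : Type*} [NormedAddCommGroup F] [NormedSpace ℝ F] [CompleteSpace F]

theorem continuous_smul_of_tsupport {Ω : Set E} (hΩ : IsOpen Ω) {w : E → F}
    (hw : ContinuousOn w Ω) {ψ : E → ℝ} (hψ : Continuous ψ) (hs : tsupport ψ ⊆ Ω) :
    Continuous fun x => ψ x • w x := by
  refine continuous_of_tsupport fun x hx => ?_
  have hx' : x ∈ tsupport ψ := tsupport_smul_subset_left ψ w hx
  exact hψ.continuousAt.smul (hw.continuousAt (hΩ.mem_nhds (hs hx')))

theorem integrable_smul_of_tsupport {Ω : Set E} (hΩ : IsOpen Ω) {w : E → F}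
    (hw : ContinuousOn w Ω) {ψ : E → ℝ} (hψ : Continuous ψ) (hc : HasCompactSupport ψ)
    (hs : tsupport ψ ⊆ Ω) : Integrable (fun x => ψ x • w x) μ :=
  (continuous_smul_of_tsupport hΩ hw hψ hs).integrable_of_hasCompactSupport
    (hc.smul_right (f' := w))

theorem integrable_smul_of_locallyIntegrableOn {G : Type*} [NormedAddCommGroup G]
    [NormedSpace ℝ G] {Ω : Set E} {w : E → G}
    (hw : LocallyIntegrableOn w Ω μ) {ψ : E → ℝ} (hψ : Continuous ψ) (hc : HasCompactSupport ψ)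
    (hs : tsupport ψ ⊆ Ω) : Integrable (fun x => ψ x • w x) μ := by
  have hK : IsCompact (tsupport ψ) := hc
  have h1 : IntegrableOn w (tsupport ψ) μ := hw.integrableOn_compact_subset hs hK
  have h2 : IntegrableOn (fun x => ψ x • w x) (tsupport ψ) μ :=
    h1.continuousOn_smul hψ.continuousOn hK
  have h3 : (tsupport ψ).indicator (fun x => ψ x • w x) = fun x => ψ x • w x := by
    refine indicator_eq_self.2 fun x hx => subset_tsupport ψ fun h0 => hx ?_
    simp [h0]
  rw [← h3]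
  exact h2.integrable_indicator hK.measurableSet

theorem setIntegral_smul_of_tsupport {Ω : Set E} {w : E → F}
    {ψ : E → ℝ} (hs : tsupport ψ ⊆ Ω) :
    ∫ x in Ω, ψ x • w x ∂μ = ∫ x, ψ x • w x ∂μ := by
  refine setIntegral_eq_integral_of_forall_compl_eq_zero fun x hx => ?_
  rw [image_eq_zero_of_notMem_tsupport fun h => hx (hs h), zero_smul]

theorem tsupport_fderiv_apply_subset' (ψ : E → ℝ) (v : E) :
    tsupport (fun x => fderiv ℝ ψ x v) ⊆ tsupport ψ := by
  refine closure_minimal (fun x hx => ?_) (isClosed_tsupport ψ)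
  by_contra h
  apply hx
  have : fderiv ℝ ψ x = 0 := by
    have h2 : ψ =ᶠ[𝓝 x] fun _ => 0 := notMem_tsupport_iff_eventuallyEq.1 h
    rw [h2.fderiv_eq]; simp
  simp [this]

theorem weak_of_contDiffOn {Ω : Set E} (hΩ : IsOpen Ω) {u : E → F} (hu : ContDiffOn ℝ 1 u Ω)
    {ψ : E → ℝ} (hψ : ContDiff ℝ ∞ ψ) (hc : HasCompactSupport ψ) (hs : tsupport ψ ⊆ Ω) (v : E) :
    ∫ x in Ω, fderiv ℝ ψ x v • u x ∂μ = - ∫ x in Ω, ψ x • fderiv ℝ u x v ∂μ := by
  have hud : ContinuousOn (fun x => fderiv ℝ u x v) Ω :=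
    (hu.continuousOn_fderiv_of_isOpen hΩ le_rfl).clm_apply continuousOn_const
  have hψ' : Continuous fun x => fderiv ℝ ψ x v :=
    (hψ.continuous_fderiv (by simp)).clm_apply continuous_const
  have hs' : tsupport (fun x => fderiv ℝ ψ x v) ⊆ Ω :=
    (tsupport_fderiv_apply_subset' ψ v).trans hs
  have hc' : HasCompactSupport (fun x => fderiv ℝ ψ x v) :=
    hc.of_isClosed_subset (isClosed_tsupport _) (tsupport_fderiv_apply_subset' ψ v)
  have key := integral_smul_fderiv_eq_neg_fderiv_smul_of_integrable (μ := μ) (f := ψ) (g := u)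
    (v := v)
    (integrable_smul_of_tsupport μ hΩ hu.continuousOn hψ' hc' hs')
    (integrable_smul_of_tsupport μ hΩ hud hψ.continuous hc hs)
    (integrable_smul_of_tsupport μ hΩ hu.continuousOn hψ.continuous hc hs)
    (fun x _ => hψ.contDiffAt.differentiableAt (by simp))
    (fun x hx => (hu.contDiffAt (hΩ.mem_nhds (hs hx))).differentiableAt one_ne_zero)
  rw [setIntegral_smul_of_tsupport μ hs, setIntegral_smul_of_tsupport μ hs', key, neg_neg]

theorem weak_unique {Ω : Set E} (hΩ : IsOpen Ω) {u : E → F} (hu : ContDiffOn ℝ 1 u Ω)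
    {u1 : E → E →L[ℝ] F} (hu1 : LocallyIntegrableOn u1 Ω μ)
    (h : ∀ ψ : E → ℝ, ContDiff ℝ ∞ ψ → HasCompactSupport ψ → tsupport ψ ⊆ Ω → ∀ v,
      ∫ x in Ω, fderiv ℝ ψ x v • u x ∂μ = - ∫ x in Ω, ψ x • u1 x v ∂μ) :
    u1 =ᵐ[μ.restrict Ω] fderiv ℝ u := by
  have hud : ContinuousOn (fderiv ℝ u) Ω := hu.continuousOn_fderiv_of_isOpen hΩ le_rfl
  have hloc : LocallyIntegrableOn (fun x => u1 x - fderiv ℝ u x) Ω μ :=
    hu1.sub (hud.locallyIntegrableOn hΩ.measurableSet)
  have key := hΩ.ae_eq_zero_of_integral_contDiff_smul_eq_zero (μ := μ) hloc ?_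
  · filter_upwards [ae_restrict_mem hΩ.measurableSet, ae_restrict_of_ae key] with x hx hx'
    exact sub_eq_zero.1 (hx' hx)
  intro ψ hψ hc hs
  have hi1 : Integrable (fun x => ψ x • u1 x) μ :=
    integrable_smul_of_locallyIntegrableOn μ hu1 hψ.continuous hc hs
  have hi2 : Integrable (fun x => ψ x • fderiv ℝ u x) μ :=
    integrable_smul_of_tsupport μ hΩ hud hψ.continuous hc hs
  have e1 : ∫ x, ψ x • (u1 x - fderiv ℝ u x) ∂μ =
      ∫ x, ψ x • u1 x ∂μ - ∫ x, ψ x • fderiv ℝ u x ∂μ := by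
    simp_rw [smul_sub]
    exact integral_sub hi1 hi2
  rw [e1, sub_eq_zero]
  ext v
  rw [ContinuousLinearMap.integral_apply hi1, ContinuousLinearMap.integral_apply hi2]
  have h1 := h ψ hψ hc hs v
  rw [weak_of_contDiffOn μ hΩ hu hψ hc hs v, setIntegral_smul_of_tsupport μ hs,
    setIntegral_smul_of_tsupport μ hs] at h1
  simpa using (neg_inj.1 h1).symm

end general

end Pool.Agent.H93.Exo
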