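import Mathlib
import Pool.Agent.H93.Exo.Weak

/-!
The space `W^{2,q}`, limits of diffeomorphisms in `W^{2,q}` and in `C^1_loc`.
-/

set_option linter.unusedSectionVars false

namespace Pool.Agent.H93.Exo

open MeasureTheory Metric Set Filter Topology Module Function
open scoped ENNReal ContDiff

section defs

variable {E : Type*} [NormedAddCommGroup E] [NormedSpace ℝ E] [MeasureSpace E]
  {F : Type*} [NormedAddCommGroup F] [NormedSpace ℝ F]

/-- The `L^q(Ω)` norm. -/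
noncomputable def lqNorm (q : ℝ) (Ω : Set E) (u : E → F) : ℝ≥0∞ :=
  eLpNorm u (ENNReal.ofReal q) (volume.restrict Ω)

/-- `u ∈ L^q(Ω)`. -/
def InLq (q : ℝ) (Ω : Set E) (u : E → F) : Prop :=
  MemLp u (ENNReal.ofReal q) (volume.restrict Ω)

/-- `u'` is the weak derivative of `u` on the open set `Ω`, tested against all `C^∞` functions
with compact support in `Ω` and all directions `v`. -/
def IsWeakDeriv (Ω : Set E) (u : E → F) (u' : E → E →L[ℝ] F) : Prop :=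
  ∀ ψ : E → ℝ, ContDiff ℝ ∞ ψ → HasCompactSupport ψ → tsupport ψ ⊆ Ω → ∀ v : E,
    ∫ x in Ω, fderiv ℝ ψ x v • u x = - ∫ x in Ω, ψ x • u' x v

/-- `f` lies in `W^{2,q}(Ω)` and its weak first and second derivatives on `Ω` are `f1` and `f2`. -/
def IsJet (q : ℝ) (Ω : Set E) (f : E → E) (f1 : E → E →L[ℝ] E)
    (f2 : E → E →L[ℝ] E →L[ℝ] E) : Prop :=
  (InLq q Ω f ∧ InLq q Ω f1 ∧ InLq q Ω f2) ∧ IsWeakDeriv Ω f f1 ∧ IsWeakDeriv Ω f1 f2

/-- `f ∈ W^{2,q}(Ω)` maps `Ω` homeomorphically onto an open set. -/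
def IsW2Homeo (q : ℝ) (Ω : Set E) (f : E → E) : Prop :=
  IsHomeoOn Ω f ∧ ∃ f1 f2, IsJet q Ω f f1 f2

/-- `f` is the limit in `W^{2,q}(Ω)` of a sequence of diffeomorphisms from `Ω` onto open sets
which are in `W^{2,q}(Ω)`. -/
def IsW2Limit (q : ℝ) (Ω : Set E) (f : E → E) : Prop :=
  ∃ f1 f2, IsJet q Ω f f1 f2 ∧ ∃ (g : ℕ → E → E) (g1 : ℕ → E → E →L[ℝ] E)
    (g2 : ℕ → E → E →L[ℝ] E →L[ℝ] E),
    (∀ k, IsDiffeoOn Ω (g k) ∧ IsJet q Ω (g k) (g1 k) (g2 k)) ∧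
    Tendsto (fun k => lqNorm q Ω (g k - f) + lqNorm q Ω (g1 k - f1) + lqNorm q Ω (g2 k - f2))
      atTop (𝓝 0)

end defs

/-- `f` is a `C^1_loc` limit of diffeomorphisms from `Ω` onto open sets. -/
def IsC1Limit {E : Type*} [NormedAddCommGroup E] [NormedSpace ℝ E] (Ω : Set E) (f : E → E) :
    Prop :=
  ContDiffOn ℝ 1 f Ω ∧ ∃ g : ℕ → E → E, (∀ k, IsDiffeoOn Ω (g k)) ∧
    TendstoLocallyUniformlyOn g f atTop Ω ∧
    TendstoLocallyUniformlyOn (fun k => fderiv ℝ (g k)) (fderiv ℝ f) atTop Ω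

variable {E : Type*} [NormedAddCommGroup E] [NormedSpace ℝ E] [FiniteDimensional ℝ E]
  [MeasureSpace E] [BorelSpace E] [(volume : Measure E).IsAddHaarMeasure]

theorem locallyIntegrableOn_of_inLq {G : Type*} [NormedAddCommGroup G] [NormedSpace ℝ G]
    {q : ℝ} (hq : 1 ≤ q) {Ω : Set E} {w : E → G} (h : InLq q Ω w) :
    LocallyIntegrableOn w Ω volume := by
  have hq1 : (1 : ℝ≥0∞) ≤ ENNReal.ofReal q := by
    rw [← ENNReal.ofReal_one]; exact ENNReal.ofReal_le_ofReal hq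
  exact locallyIntegrableOn_of_locallyIntegrable_restrict (MemLp.locallyIntegrable h hq1)

theorem IsWeakDeriv.ae_eq {F : Type*} [NormedAddCommGroup F] [NormedSpace ℝ F] [CompleteSpace F]
    {q : ℝ} (hq : 1 ≤ q) {Ω : Set E} (hΩ : IsOpen Ω) {u w : E → F} {u1 : E → E →L[ℝ] F}
    (h : IsWeakDeriv Ω u u1) (hu1 : InLq q Ω u1) (huw : u =ᵐ[volume.restrict Ω] w)
    (hw : ContDiffOn ℝ 1 w Ω) : u1 =ᵐ[volume.restrict Ω] fderiv ℝ w := by
  refine weak_unique volume hΩ hw (locallyIntegrableOn_of_inLq hq hu1) ?_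
  intro ψ hψ hc hs v
  rw [← h ψ hψ hc hs v]
  refine integral_congr_ae ?_
  filter_upwards [huw] with x hx
  rw [hx]

theorem IsJet.ae_eq1 {q : ℝ} (hq : 1 ≤ q) {Ω : Set E} (hΩ : IsOpen Ω)
    {f : E → E} {f1 : E → E →L[ℝ] E} {f2 : E → E →L[ℝ] E →L[ℝ] E} (h : IsJet q Ω f f1 f2)
    (hf : ContDiffOn ℝ 2 f Ω) : f1 =ᵐ[volume.restrict Ω] fderiv ℝ f :=
  h.2.1.ae_eq hq hΩ h.1.2.1 (ae_eq_refl f) (hf.of_le one_le_two)

theorem IsJet.ae_eq2 {q : ℝ} (hq : 1 ≤ q) {Ω : Set E} (hΩ : IsOpen Ω)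
    {f : E → E} {f1 : E → E →L[ℝ] E} {f2 : E → E →L[ℝ] E →L[ℝ] E} (h : IsJet q Ω f f1 f2)
    (hf : ContDiffOn ℝ 2 f Ω) : f2 =ᵐ[volume.restrict Ω] fderiv ℝ (fderiv ℝ f) :=
  h.2.2.ae_eq hq hΩ h.1.2.2 (h.ae_eq1 hq hΩ hf) (hf.fderiv_of_isOpen hΩ (by norm_num))

theorem inLq_of_continuous {G : Type*} [NormedAddCommGroup G] [NormedSpace ℝ G]
    (q : ℝ) {Ω : Set E} (hΩ : IsOpen Ω) (hb : Bornology.IsBounded Ω) {w : E → G}
    (hw : Continuous w) : InLq q Ω w := by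
  have hfin : IsFiniteMeasure (volume.restrict Ω) := ⟨by
    rw [Measure.restrict_apply_univ]; exact hb.measure_lt_top⟩
  obtain ⟨C, hC⟩ := (hb.isCompact_closure).exists_bound_of_continuousOn hw.continuousOn
  refine MemLp.of_bound hw.aestronglyMeasurable C ?_
  filter_upwards [ae_restrict_mem hΩ.measurableSet] with x hx using hC x (subset_closure hx)

/-- A `C^2` map on the whole space is in `W^{2,q}` of every bounded open set. -/
theorem isJet_of_contDiff {q : ℝ} {Ω : Set E} (hΩ : IsOpen Ω)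
    (hb : Bornology.IsBounded Ω) {f : E → E} (hf : ContDiff ℝ 2 f) :
    IsJet q Ω f (fderiv ℝ f) (fderiv ℝ (fderiv ℝ f)) := by
  have hf1 : ContDiff ℝ 1 (fderiv ℝ f) := hf.fderiv_right (by norm_num)
  have hf2 : Continuous (fderiv ℝ (fderiv ℝ f)) := hf1.continuous_fderiv one_ne_zero
  refine ⟨⟨inLq_of_continuous q hΩ hb hf.continuous, inLq_of_continuous q hΩ hb hf1.continuous,
    inLq_of_continuous q hΩ hb hf2⟩, ?_, ?_⟩
  · intro ψ hψ hc hs v
    exact weak_of_contDiffOn volume hΩ (hf.of_le one_le_two).contDiffOn hψ hc hs v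
  · intro ψ hψ hc hs v
    exact weak_of_contDiffOn volume hΩ hf1.contDiffOn hψ hc hs v

/-- A `W^{2,q}` limit of diffeomorphisms, `q > n`, is a `C^1_loc` limit. -/
theorem IsW2Limit.isC1Limit {q : ℝ} (hq : (finrank ℝ E : ℝ) < q) (hq1 : 1 ≤ q) {Ω : Set E}
    (hΩ : IsOpen Ω) {f : E → E} (hf : ContinuousOn f Ω) (h : IsW2Limit q Ω f) :
    IsC1Limit Ω f := by
  obtain ⟨f1, f2, hfj, g, g1, g2, hg, hlim⟩ := h
  have hg2 : ∀ k, ContDiffOn ℝ 2 (g k) Ω := fun k => (hg k).1.1.of_le (by norm_cast)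
  have h0 : Tendsto (fun k => eLpNorm (g k - f) (ENNReal.ofReal q) (volume.restrict Ω))
      atTop (𝓝 0) :=
    tendsto_of_tendsto_of_tendsto_of_le_of_le tendsto_const_nhds hlim (fun _ => zero_le)
      (fun k => by simp only [lqNorm, add_assoc]; exact le_self_add)
  have h1 : Tendsto (fun k => eLpNorm (fderiv ℝ (g k) - f1) (ENNReal.ofReal q)
      (volume.restrict Ω)) atTop (𝓝 0) := by
    refine tendsto_of_tendsto_of_tendsto_of_le_of_le tendsto_const_nhds hlim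
      (fun _ => zero_le) (fun k => ?_)
    have : fderiv ℝ (g k) - f1 =ᵐ[volume.restrict Ω] g1 k - f1 := by
      filter_upwards [(hg k).2.ae_eq1 hq1 hΩ (hg2 k)] with x hx
      simp [hx]
    simp only [lqNorm]
    rw [eLpNorm_congr_ae this, add_comm (eLpNorm (g k - f) _ _), add_assoc]
    exact le_self_add
  have h2 : Tendsto (fun k => eLpNorm (fderiv ℝ (fderiv ℝ (g k)) - f2) (ENNReal.ofReal q)
      (volume.restrict Ω)) atTop (𝓝 0) := by
    refine tendsto_of_tendsto_of_tendsto_of_le_of_le tendsto_const_nhds hlim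
      (fun _ => zero_le) (fun k => ?_)
    have : fderiv ℝ (fderiv ℝ (g k)) - f2 =ᵐ[volume.restrict Ω] g2 k - f2 := by
      filter_upwards [(hg k).2.ae_eq2 hq1 hΩ (hg2 k)] with x hx
      simp [hx]
    simp only [lqNorm]
    rw [eLpNorm_congr_ae this]
    exact le_add_self
  obtain ⟨hu0, h', hc', hu1, hd⟩ := c1_conv volume hq hq1 hΩ hg2 hf hfj.1.2.1.1 hfj.1.2.2.1
    h0 h1 h2
  have heq : EqOn h' (fderiv ℝ f) Ω := fun x hx => (hd x hx).fderiv.symm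
  have hC1 : ContDiffOn ℝ 1 f Ω := by
    rw [show (1 : ℕ∞ω) = 0 + 1 by norm_num, contDiffOn_succ_iff_fderiv_of_isOpen hΩ]
    refine ⟨fun x hx => (hd x hx).differentiableAt.differentiableWithinAt, by simp, ?_⟩
    rw [contDiffOn_zero]
    exact hc'.congr fun x hx => (heq hx).symm
  exact ⟨hC1, g, fun k => (hg k).1, hu0, hu1.congr_right heq⟩

/-- If a homeomorphism of `Ω` onto an open set is a diffeomorphism off a compact set `Z` and a
`C^1_loc` limit of diffeomorphisms, it can be changed inside any neighbourhood `U ⊆ Ω` of `Z` to a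
diffeomorphism with the same image. -/
theorem IsC1Limit.modify {Ω Z U : Set E} (hΩ : IsOpen Ω) (hZ : IsCompact Z)
    (hU : IsOpen U) (hZU : Z ⊆ U) (hUΩ : U ⊆ Ω) {f : E → E} (hf : IsHomeoOn Ω f)
    (hfZ : IsDiffeoOn (Ω \ Z) f) (h : IsC1Limit Ω f) :
    ∃ H : E → E, IsDiffeoOn Ω H ∧ H '' Ω = f '' Ω ∧ ∀ x ∈ Ω \ U, H x = f x := by
  obtain ⟨hC1, g, hg, h0, h1⟩ := h
  exact obstruction_C1 hΩ hZ hU hZU hUΩ hf hfZ hg h0 h1 fun x hx =>
    ((hC1.contDiffAt (hΩ.mem_nhds hx)).differentiableAt one_ne_zero).hasFDerivAt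

end Pool.Agent.H93.Exo
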