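import Mathlib
import Pool.Agent.H93.Exo.Sob
import Pool.Agent.H93.Exo.Straight
import Pool.Agent.H93.Exo.Scale

/-!
`‖x‖^3 φ(x/‖x‖)` is a `W^{2,q}` limit of diffeomorphisms iff `φ` extends over the ball.
-/

set_option linter.unusedSectionVars false

namespace Pool.Agent.H93.Exo

open MeasureTheory Metric Set Filter Topology Module Function
open scoped ENNReal ContDiff Manifold

variable {m : ℕ}

/-- `φ` extends to a `C^∞` diffeomorphism of the closed unit ball which near the boundary is the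
radial extension of `φ`: stated as the existence of a `C^∞` diffeomorphism `Φ` of the whole space
onto itself with `Φ(x) = ‖x‖ φ(x/‖x‖)` for `‖x‖ ≥ 1`. -/
def Extends (φ : Sph m → Sph m) : Prop :=
  ∃ Φ : Euc (m + 1) → Euc (m + 1), IsDiffeoOn univ Φ ∧ Surjective Φ ∧
    ∀ x : Euc (m + 1), 1 ≤ ‖x‖ → Φ x = homExt 1 φ x

/-- The `C^∞` diffeomorphisms of the unit sphere. -/
abbrev SphDiffeo (m : ℕ) : Type := Sph m ≃ₘ⟮𝓡 m, 𝓡 m⟯ Sph m

theorem extends_of_isC1Limit (φ : Sph m ≃ₘ⟮𝓡 m, 𝓡 m⟯ Sph m) {Ω : Set (Euc (m + 1))}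
    (hΩ : IsOpen Ω) (h0 : (0 : Euc (m + 1)) ∈ Ω) (h : IsC1Limit Ω (homExt 3 φ)) : Extends φ := by
  set f := homExt 3 φ with hf
  obtain ⟨r, hr, hrΩ⟩ := Metric.isOpen_iff.1 hΩ 0 h0
  set ρ : ℝ := r / 2 with hρ
  have hρ0 : 0 < ρ := by positivity
  have hρr : ρ < r := by rw [hρ]; linarith
  obtain ⟨H, hH, hHim, hHf⟩ := h.modify hΩ isCompact_singleton (isOpen_ball (x := 0) (ε := ρ))
    (singleton_subset_iff.2 (mem_ball_self hρ0)) ((ball_subset_ball hρr.le).trans hrΩ)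
    (cone_isHomeoOn φ hΩ) (cone_isDiffeoOn φ hΩ)
  classical
  -- extend `H` by `f`
  set Φ₁ : Euc (m + 1) → Euc (m + 1) := fun x => if x ∈ Ω then H x else f x with hΦ₁
  have hin : ∀ x ∈ Ω, Φ₁ x = H x := fun x hx => by simp [hΦ₁, hx]
  have hout : ∀ x, x ∉ ball (0 : Euc (m + 1)) ρ → Φ₁ x = f x := fun x hx => by
    by_cases hxΩ : x ∈ Ω
    · rw [hin x hxΩ, hHf x ⟨hxΩ, hx⟩]
    · simp [hΦ₁, hxΩ]
  have hloc : ∀ x, (∀ᶠ y in 𝓝 x, Φ₁ y = H y) ∧ x ∈ Ω ∨ (∀ᶠ y in 𝓝 x, Φ₁ y = f y) ∧ x ≠ 0 := by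
    intro x
    by_cases hx : x ∈ Ω
    · left
      exact ⟨by filter_upwards [hΩ.mem_nhds hx] with y hy using hin y hy, hx⟩
    · right
      have hx' : x ∈ (closedBall (0 : Euc (m + 1)) ρ)ᶜ := fun h =>
        hx (hrΩ ((closedBall_subset_ball hρr) h))
      refine ⟨?_, fun h => hx (by rw [h]; exact h0)⟩
      filter_upwards [isClosed_closedBall.isOpen_compl.mem_nhds hx'] with y hy
      exact hout y fun h => hy (ball_subset_closedBall h)
  have hbij := cone_bijective φ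
  have hinj : Injective Φ₁ := by
    have haux : ∀ x y, x ∈ Ω → y ∉ Ω → Φ₁ x ≠ Φ₁ y := by
      intro x y hx hy hxy
      have h1 : Φ₁ x ∈ f '' Ω := by
        rw [← hHim, hin x hx]; exact mem_image_of_mem H hx
      have h2 : Φ₁ y = f y := hout y fun h => hy (hrΩ (ball_subset_ball hρr.le h))
      rw [hxy, h2] at h1
      obtain ⟨z, hz, hzy⟩ := h1
      rw [hbij.1 hzy] at hz
      exact hy hz
    intro x y hxy
    by_cases hx : x ∈ Ω
    · by_cases hy : y ∈ Ω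
      · rw [hin x hx, hin y hy] at hxy
        exact hH.2.1 hx hy hxy
      · exact absurd hxy (haux x y hx hy)
    · by_cases hy : y ∈ Ω
      · exact absurd hxy.symm (haux y x hy hx)
      · rw [hout x fun h => hx (hrΩ (ball_subset_ball hρr.le h)),
          hout y fun h => hy (hrΩ (ball_subset_ball hρr.le h))] at hxy
        exact hbij.1 hxy
  have hsurj : Surjective Φ₁ := by
    intro z
    obtain ⟨x, rfl⟩ := hbij.2 z
    by_cases hx : x ∈ Ω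
    · have : f x ∈ H '' Ω := by rw [hHim]; exact mem_image_of_mem f hx
      obtain ⟨y, hy, hyx⟩ := this
      exact ⟨y, by rw [hin y hy, hyx]⟩
    · exact ⟨x, hout x fun h => hx (hrΩ (ball_subset_ball hρr.le h))⟩
  have hΦ₁d : IsDiffeoOn univ Φ₁ := by
    refine isDiffeoOn_of isOpen_univ (fun x _ => ?_) hinj.injOn fun x _ => ?_
    · rcases hloc x with ⟨h1, h2⟩ | ⟨h1, h2⟩
      · exact ((hH.1.contDiffAt (hΩ.mem_nhds h2)).congr_of_eventuallyEq h1).contDiffWithinAt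
      · exact ((contDiffAt_homExt 3 φ.contMDiff h2).congr_of_eventuallyEq h1).contDiffWithinAt
    · rcases hloc x with ⟨h1, h2⟩ | ⟨h1, h2⟩
      · obtain ⟨e, he⟩ := hH.exists_equiv hΩ h2
        exact ⟨e, he.congr_of_eventuallyEq h1⟩
      · obtain ⟨e, he⟩ := cone_exists_equiv φ h2
        exact ⟨e, he.congr_of_eventuallyEq h1⟩
  -- rescale and straighten
  have hρ3 : (ρ ^ 3)⁻¹ ≠ 0 := by positivity
  set Φ := (((scaleDiffeo ρ hρ0.ne').trans (toDiffeomorph hΦ₁d hsurj)).trans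
    (scaleDiffeo (ρ ^ 3)⁻¹ hρ3)).trans strDiffeo.symm with hΦ
  refine ⟨Φ, isDiffeoOn_of_diffeomorph Φ isOpen_univ, Φ.surjective, fun x hx => ?_⟩
  have e1 : Φ₁ (ρ • x) = ρ ^ 3 • f x := by
    rw [hout _ (fun h => ?_)]
    · exact homExt_smul 3 φ ρ x hρ0
    · rw [mem_ball_zero_iff, norm_smul, Real.norm_of_nonneg hρ0.le] at h
      nlinarith
  have e2 : str (homExt 1 φ x) = f x := by
    have h1 : ‖homExt 1 φ x‖ = ‖x‖ := by simpa using norm_homExt 0 φ x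
    rw [str_of_ge (by rw [h1]; exact hx), h1, hf, homExt_three]
  change strDiffeo.symm ((ρ ^ 3)⁻¹ • Φ₁ (ρ • x)) = homExt 1 φ x
  rw [e1, smul_smul, inv_mul_cancel₀ (by positivity), one_smul, ← e2, ← strDiffeo_apply]
  exact strDiffeo.symm_apply_apply _

theorem isW2Limit_of_extends (φ : Sph m ≃ₘ⟮𝓡 m, 𝓡 m⟯ Sph m) (h : Extends φ) {q : ℝ} {Ω : Set (Euc (m + 1))} (hΩ : IsOpen Ω) (hb : Bornology.IsBounded Ω) :
    IsW2Limit q Ω (homExt 3 φ) := by
  obtain ⟨Φ', hd, hs, hΦ'⟩ := h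
  set Φ := toDiffeomorph hd hs with hΦdef
  have hΦ : ∀ x : Euc (m + 1), 1 ≤ ‖x‖ → Φ x = homExt 1 φ x := hΦ'
  set f := homExt 3 φ with hf
  have hfc : ContDiff ℝ 2 f := contDiff_cone φ
  set Ψ : Euc (m + 1) → Euc (m + 1) := fun x => str (Φ x) with hΨ
  have hΨs : ContDiff ℝ ∞ Ψ := contDiff_str.comp Φ.contMDiff.contDiff
  have hΨf : ∀ x : Euc (m + 1), 1 ≤ ‖x‖ → Ψ x = f x := by
    intro x hx
    have h1 : ‖homExt 1 φ x‖ = ‖x‖ := by simpa using norm_homExt 0 φ x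
    simp only [hΨ]
    rw [hΦ x hx, str_of_ge (by rw [h1]; exact hx), h1, hf, homExt_three]
  set w : Euc (m + 1) → Euc (m + 1) := fun x => Ψ x - f x with hw
  have hΨ2 : ContDiff ℝ 2 Ψ := hΨs.of_le (by norm_cast)
  have hw2 : ContDiff ℝ 2 w := hΨ2.sub hfc
  have hwc : HasCompactSupport w := by
    refine HasCompactSupport.intro (isCompact_closedBall (0 : Euc (m + 1)) 1) fun x hx => ?_
    rw [mem_closedBall_zero_iff, not_le] at hx
    simp only [hw]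
    rw [hΨf x hx.le, sub_self]
  obtain ⟨M0, M1, M2, hM0, hM1, hM2⟩ := exists_bounds hw2 hwc
  -- the approximating maps
  set ε : ℕ → ℝ := fun k => 1 / ((k : ℝ) + 1) with hε
  have hε0 : ∀ k, 0 < ε k := fun k => by simp only [hε]; positivity
  have hε1 : ∀ k, ε k ≤ 1 := fun k => by
    simp only [hε]
    rw [div_le_one (by positivity)]
    linarith [(Nat.cast_nonneg k : (0 : ℝ) ≤ k)]
  have hεlim : Tendsto ε atTop (𝓝 0) := tendsto_one_div_add_atTop_nhds_zero_nat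
  set g : ℕ → Euc (m + 1) → Euc (m + 1) := fun k x => (ε k) ^ 3 • Ψ ((ε k)⁻¹ • x) with hg
  have hgd : ∀ k, IsDiffeoOn Ω (g k) := fun k =>
    isDiffeoOn_of_diffeomorph ((((scaleDiffeo (ε k)⁻¹ (inv_ne_zero (hε0 k).ne')).trans Φ).trans
      strDiffeo).trans (scaleDiffeo ((ε k) ^ 3) (pow_ne_zero 3 (hε0 k).ne'))) hΩ
  have hg2 : ∀ k, ContDiff ℝ 2 (g k) := fun k => by
    have h1 : ContDiff ℝ 2 (fun x : Euc (m + 1) => (ε k)⁻¹ • x) := contDiff_id.const_smul _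
    exact (hΨ2.comp h1).const_smul ((ε k) ^ 3)
  have hgf : ∀ k, ∀ x, g k x - f x = (ε k) ^ 3 • w ((ε k)⁻¹ • x) := by
    intro k x
    have e1 : f x = (ε k) ^ 3 • f ((ε k)⁻¹ • x) := by
      rw [hf, ← homExt_smul 3 _ _ _ (hε0 k), smul_smul, mul_inv_cancel₀ (hε0 k).ne', one_smul]
    simp only [hg, hw]
    rw [smul_sub, ← e1]
  have hgf0 : ∀ k, g k - f = fun x => (ε k) ^ 3 • w ((ε k)⁻¹ • x) := fun k => funext (hgf k)
  refine ⟨fderiv ℝ f, fderiv ℝ (fderiv ℝ f), isJet_of_contDiff hΩ hb hfc, g,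
    fun k => fderiv ℝ (g k), fun k => fderiv ℝ (fderiv ℝ (g k)),
    fun k => ⟨hgd k, isJet_of_contDiff hΩ hb (hg2 k)⟩, ?_⟩
  have hVt : (volume.restrict Ω) univ ^ (ENNReal.ofReal q).toReal⁻¹ ≠ ⊤ := by
    rw [Measure.restrict_apply_univ]
    exact ENNReal.rpow_ne_top_of_nonneg (by positivity) hb.measure_lt_top.ne
  exact tendsto_of_tendsto_of_tendsto_of_le_of_le tendsto_const_nhds
    (tendsto_bounds hVt hεlim M0 M1 M2) (fun _ => zero_le) fun k =>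
      scaled_bounds (volume.restrict Ω) (ENNReal.ofReal q) (hε0 k) hw2 (hg2 k) hfc (hgf0 k)
        hM0 hM1 hM2

theorem cone_tfae (φ : SphDiffeo m) {Ω : Set (Euc (m + 1))} (hΩ : IsOpen Ω)
    (hb : Bornology.IsBounded Ω) (h0 : (0 : Euc (m + 1)) ∈ Ω) :
    (∀ q : ℝ, 1 ≤ q → IsW2Homeo q Ω (homExt 3 φ)) ∧
    List.TFAE [Extends φ,
      ∀ q : ℝ, 1 ≤ q → IsW2Limit q Ω (homExt 3 φ),
      ∃ q : ℝ, (m : ℝ) + 1 < q ∧ IsW2Limit q Ω (homExt 3 φ),
      IsC1Limit Ω (homExt 3 φ)] := by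
  constructor
  · intro q _
    exact ⟨cone_isHomeoOn φ hΩ, _, _, isJet_of_contDiff hΩ hb (contDiff_cone φ)⟩
  · tfae_have 1 → 2 := fun h q _ => isW2Limit_of_extends φ h hΩ hb
    tfae_have 2 → 3 := fun h => ⟨m + 2, by linarith, h _ (by
      have : (0 : ℝ) ≤ m := Nat.cast_nonneg m
      linarith)⟩
    tfae_have 3 → 4 := fun ⟨q, hq, h⟩ => h.isC1Limit (by
      rw [finrank_euclideanSpace_fin]; push_cast; exact hq) (by
      have : (0 : ℝ) ≤ m := Nat.cast_nonneg m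
      linarith) hΩ (contDiff_cone φ).continuous.continuousOn
    tfae_have 4 → 1 := fun h => extends_of_isC1Limit φ hΩ h0 h
    tfae_finish

/-- `φ` is a `C^∞` map of the unit sphere to itself. -/
def IsSmoothSph (φ : Sph m → Sph m) : Prop := ContMDiff (𝓡 m) (𝓡 m) ∞ φ

/-- `φ` is a `C^∞` diffeomorphism of the unit sphere. -/
def IsSphDiffeo (φ : Sph m → Sph m) : Prop :=
  IsSmoothSph φ ∧ ∃ ψ : Sph m → Sph m, IsSmoothSph ψ ∧ LeftInverse ψ φ ∧ RightInverse ψ φ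

/-- The homeomorphism `x ↦ ‖x‖^3 φ(x/‖x‖)`. -/
noncomputable def cone (φ : Sph m → Sph m) : Euc (m + 1) → Euc (m + 1) := homExt 3 φ

/-- `W^{2,q}` homeomorphisms of open subsets of the Euclidean space. -/
def W2Homeo {n : ℕ} (q : ℝ) (Ω : Set (Euc n)) (f : Euc n → Euc n) : Prop := IsW2Homeo q Ω f

/-- `W^{2,q}` limits of diffeomorphisms of open subsets of the Euclidean space. -/
def W2Limit {n : ℕ} (q : ℝ) (Ω : Set (Euc n)) (f : Euc n → Euc n) : Prop := IsW2Limit q Ω f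

/-- `C^1_loc` limits of diffeomorphisms of open subsets of the Euclidean space. -/
def C1Limit {n : ℕ} (Ω : Set (Euc n)) (f : Euc n → Euc n) : Prop := IsC1Limit Ω f

/-- Diffeomorphisms of open subsets of the Euclidean space onto open subsets. -/
def DiffeoOn {n : ℕ} (Ω : Set (Euc n)) (f : Euc n → Euc n) : Prop := IsDiffeoOn Ω f

/-- Bounded open neighbourhoods of the origin. -/
def IsBddNhd {n : ℕ} (Ω : Set (Euc n)) : Prop :=
  IsOpen Ω ∧ Bornology.IsBounded Ω ∧ (0 : Euc n) ∈ Ω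

theorem criterion {φ : Sph m → Sph m} (hφ : IsSphDiffeo φ) {Ω : Set (Euc (m + 1))}
    (hΩ : IsBddNhd Ω) :
    (∀ q : ℝ, 1 ≤ q → W2Homeo q Ω (cone φ)) ∧
    List.TFAE [Extends φ, ∀ q : ℝ, 1 ≤ q → W2Limit q Ω (cone φ),
      ∃ q : ℝ, (m : ℝ) + 1 < q ∧ W2Limit q Ω (cone φ), C1Limit Ω (cone φ)] := by
  obtain ⟨h1, ψ, h2, h3, h4⟩ := hφ
  let Φ : SphDiffeo m :=
    { toEquiv := ⟨φ, ψ, h3, h4⟩
      contMDiff_toFun := h1
      contMDiff_invFun := h2 }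
  exact cone_tfae Φ hΩ.1 hΩ.2.1 hΩ.2.2

end Pool.Agent.H93.Exo
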