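import Mathlib
import Pool.Agent.H93.Exo.Main
import Pool.Agent.H93.Exo.Cono

/-!
Approximation of homogeneous maps which agree with diffeomorphisms near infinity.
-/

set_option linter.unusedSectionVars false

namespace Pool.Agent.H93.Exo

open MeasureTheory Metric Set Filter Topology Function Module
open scoped ENNReal ContDiff InnerProductSpace Manifold

section general

variable {E : Type*} [NormedAddCommGroup E] [InnerProductSpace ℝ E] [FiniteDimensional ℝ E]

/-- `str` as a diffeomorphism of the space -/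
noncomputable def strDif (E : Type*) [NormedAddCommGroup E] [InnerProductSpace ℝ E]
    [FiniteDimensional ℝ E] : Dif E :=
  ⟨strDiffeo, strDiffeo.symm, strDiffeo.symm_apply_apply, strDiffeo.apply_symm_apply,
    strDiffeo.contMDiff.contDiff, strDiffeo.symm.contMDiff.contDiff⟩

theorem strDif_f (y : E) : (strDif E).f y = str y := rfl

/-- a linear scaling as a diffeomorphism -/
noncomputable def sclDif (E : Type*) [NormedAddCommGroup E] [InnerProductSpace ℝ E]
    [FiniteDimensional ℝ E] (c : ℝ) (hc : c ≠ 0) : Dif E where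
  f := fun x => c • x
  g := fun x => c⁻¹ • x
  gf := fun x => by rw [smul_smul, inv_mul_cancel₀ hc, one_smul]
  fg := fun x => by rw [smul_smul, mul_inv_cancel₀ hc, one_smul]
  hf := contDiff_id.const_smul _
  hg := contDiff_id.const_smul _

end general

section approx

variable {E : Type*} [NormedAddCommGroup E] [InnerProductSpace ℝ E] [FiniteDimensional ℝ E]
  [MeasurableSpace E] [BorelSpace E]

/-- the `W^{2,q}` distance of two maps of class `C^2` -/
noncomputable def nrm (q : ℝ) (Ω : Set E) (g f : E → E) : ℝ≥0∞ :=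
  eLpNorm (g - f) (ENNReal.ofReal q) (volume.restrict Ω) +
    eLpNorm (fderiv ℝ g - fderiv ℝ f) (ENNReal.ofReal q) (volume.restrict Ω) +
    eLpNorm (fderiv ℝ (fderiv ℝ g) - fderiv ℝ (fderiv ℝ f)) (ENNReal.ofReal q)
      (volume.restrict Ω)

theorem nrm_triangle {q : ℝ} (hq : 1 ≤ q) {Ω : Set E} {g h f : E → E} (hg : ContDiff ℝ 2 g)
    (hh : ContDiff ℝ 2 h) (hf : ContDiff ℝ 2 f) : nrm q Ω g f ≤ nrm q Ω g h + nrm q Ω h f := by
  have hq1 : (1 : ℝ≥0∞) ≤ ENNReal.ofReal q := by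
    rw [← ENNReal.ofReal_one]; exact ENNReal.ofReal_le_ofReal hq
  have cg1 : ContDiff ℝ 1 (fderiv ℝ g) := hg.fderiv_right (by norm_num)
  have ch1 : ContDiff ℝ 1 (fderiv ℝ h) := hh.fderiv_right (by norm_num)
  have cf1 : ContDiff ℝ 1 (fderiv ℝ f) := hf.fderiv_right (by norm_num)
  have cg2 : Continuous (fderiv ℝ (fderiv ℝ g)) := cg1.continuous_fderiv one_ne_zero
  have ch2 : Continuous (fderiv ℝ (fderiv ℝ h)) := ch1.continuous_fderiv one_ne_zero
  have cf2 : Continuous (fderiv ℝ (fderiv ℝ f)) := cf1.continuous_fderiv one_ne_zero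
  have key : ∀ {X : Type _} [NormedAddCommGroup X] {a b c : E → X}, Continuous a → Continuous b →
      Continuous c → eLpNorm (a - c) (ENNReal.ofReal q) (volume.restrict Ω) ≤
        eLpNorm (a - b) (ENNReal.ofReal q) (volume.restrict Ω) +
        eLpNorm (b - c) (ENNReal.ofReal q) (volume.restrict Ω) := by
    intro X _ a b c ha hb hc
    have e : a - c = (a - b) + (b - c) := by abel
    rw [e]
    exact eLpNorm_add_le (ha.sub hb).aestronglyMeasurable (hb.sub hc).aestronglyMeasurable hq1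
  have k0 := key hg.continuous hh.continuous hf.continuous
  have k1 := key cg1.continuous ch1.continuous cf1.continuous
  have k2 := key (X := E →L[ℝ] E →L[ℝ] E) cg2 ch2 cf2
  unfold nrm
  calc _ ≤ _ := add_le_add (add_le_add k0 k1) k2
    _ = _ := by ring

theorem nrm_tendsto_scaled {q : ℝ} {Ω : Set E} (hb : Bornology.IsBounded Ω) {H : E → E}
    (hH : ContDiff ℝ 2 H) (hom : ∀ (t : ℝ) (x : E), 0 < t → H (t • x) = t ^ 3 • H x) (Ψ : Dif E)
    {R : ℝ} (hΨ : ∀ x, R ≤ ‖x‖ → Ψ.f x = H x) {η : ℝ≥0∞} (hη : 0 < η) :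
    ∃ A : Dif E, nrm q Ω A.f H < η := by
  set w : E → E := fun x => Ψ.f x - H x with hw
  have hΨ2 : ContDiff ℝ 2 Ψ.f := Ψ.hf.of_le (by norm_cast)
  have hw2 : ContDiff ℝ 2 w := hΨ2.sub hH
  have hwc : HasCompactSupport w := by
    refine HasCompactSupport.intro (isCompact_closedBall (0 : E) R) fun x hx => ?_
    rw [mem_closedBall_zero_iff, not_le] at hx
    simp only [hw]
    rw [hΨ x hx.le, sub_self]
  obtain ⟨M0, M1, M2, hM0, hM1, hM2⟩ := exists_bounds hw2 hwc
  set ε : ℕ → ℝ := fun k => 1 / ((k : ℝ) + 1) with hε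
  have hε0 : ∀ k, 0 < ε k := fun k => by simp only [hε]; positivity
  have hεlim : Tendsto ε atTop (𝓝 0) := tendsto_one_div_add_atTop_nhds_zero_nat
  set g : ℕ → Dif E := fun k => (sclDif E ((ε k) ^ 3) (pow_ne_zero 3 (hε0 k).ne')).comp
    (Ψ.comp (sclDif E (ε k)⁻¹ (inv_ne_zero (hε0 k).ne'))) with hg
  have hgx : ∀ k x, (g k).f x = (ε k) ^ 3 • Ψ.f ((ε k)⁻¹ • x) := fun k x => rfl
  have hg2 : ∀ k, ContDiff ℝ 2 (g k).f := fun k => (g k).hf.of_le (by norm_cast)
  have hgf0 : ∀ k, (g k).f - H = fun x => (ε k) ^ 3 • w ((ε k)⁻¹ • x) := by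
    intro k
    ext1 x
    have e1 : H x = (ε k) ^ 3 • H ((ε k)⁻¹ • x) := by
      rw [← hom _ _ (hε0 k), smul_smul, mul_inv_cancel₀ (hε0 k).ne', one_smul]
    rw [Pi.sub_apply, hgx]
    simp only [hw]
    rw [smul_sub, ← e1]
  have hVt : (volume.restrict Ω) univ ^ (ENNReal.ofReal q).toReal⁻¹ ≠ ⊤ := by
    rw [Measure.restrict_apply_univ]
    exact ENNReal.rpow_ne_top_of_nonneg (by positivity) hb.measure_lt_top.ne
  have ht : Tendsto (fun k => nrm q Ω (g k).f H) atTop (𝓝 0) :=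
    tendsto_of_tendsto_of_tendsto_of_le_of_le tendsto_const_nhds
      (tendsto_bounds hVt hεlim M0 M1 M2) (fun _ => zero_le) fun k =>
      scaled_bounds (volume.restrict Ω) (ENNReal.ofReal q) (hε0 k) hw2 (hg2 k) hH (hgf0 k)
        hM0 hM1 hM2
  obtain ⟨k, hk⟩ := (ht.eventually_lt_const hη).exists
  exact ⟨g k, hk⟩

theorem isW2Limit_of_approx {q : ℝ} {Ω : Set E} (hΩ : IsOpen Ω) (hb : Bornology.IsBounded Ω)
    {f : E → E} (hf : ContDiff ℝ 2 f) (h : ∀ η : ℝ≥0∞, 0 < η → ∃ A : Dif E, nrm q Ω A.f f < η) :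
    IsW2Limit q Ω f := by
  have h1 : ∀ k : ℕ, ∃ A : Dif E, nrm q Ω A.f f < ((k : ℝ≥0∞) + 1)⁻¹ := fun k =>
    h _ (ENNReal.inv_pos.2 (by simp))
  choose A hA using h1
  have hA2 : ∀ k, ContDiff ℝ 2 (A k).f := fun k => (A k).hf.of_le (by norm_cast)
  refine ⟨fderiv ℝ f, fderiv ℝ (fderiv ℝ f), isJet_of_contDiff hΩ hb hf, fun k => (A k).f,
    fun k => fderiv ℝ (A k).f, fun k => fderiv ℝ (fderiv ℝ (A k).f),
    fun k => ⟨(A k).isDiffeoOn hΩ, isJet_of_contDiff hΩ hb (hA2 k)⟩, ?_⟩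
  refine tendsto_of_tendsto_of_tendsto_of_le_of_le tendsto_const_nhds ?_ (fun _ => zero_le)
    fun k => (hA k).le
  have h2 : Tendsto (fun k : ℕ => ((k : ℝ≥0∞))⁻¹) atTop (𝓝 0) := ENNReal.tendsto_inv_nat_nhds_zero
  have h3 := (tendsto_add_atTop_iff_nat 1).2 h2
  simpa using h3

end approx

end Pool.Agent.H93.Exo
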