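import Mathlib

/-!
Second derivatives of compositions and products: bounds.
-/

set_option linter.unusedSectionVars false

namespace Pool.Agent.H93.Exo

open Metric Set Filter Topology Function
open scoped ContDiff

variable {E F G : Type*} [NormedAddCommGroup E] [NormedSpace ℝ E]
  [NormedAddCommGroup F] [NormedSpace ℝ F] [NormedAddCommGroup G] [NormedSpace ℝ G]

theorem hasFDerivAt_two {f : E → F} {x : E} (hf : ContDiffAt ℝ 2 f x) :
    (∀ᶠ y in 𝓝 x, HasFDerivAt f (fderiv ℝ f y) y) ∧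
      HasFDerivAt (fderiv ℝ f) (fderiv ℝ (fderiv ℝ f) x) x := by
  constructor
  · have h1 : ∀ᶠ y in 𝓝 x, ContDiffAt ℝ 2 f y := hf.eventually (by norm_num)
    filter_upwards [h1] with y hy
    exact (hy.differentiableAt (by norm_num)).hasFDerivAt
  · exact ((hf.fderiv_right (m := 1) (by norm_num)).differentiableAt one_ne_zero).hasFDerivAt

theorem norm_fderiv_comp_le {f : E → F} {g : F → G} {x : E} (hf : DifferentiableAt ℝ f x)
    (hg : DifferentiableAt ℝ g (f x)) :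
    ‖fderiv ℝ (fun y => g (f y)) x‖ ≤ ‖fderiv ℝ g (f x)‖ * ‖fderiv ℝ f x‖ := by
  have h1 : HasFDerivAt (fun y => g (f y)) ((fderiv ℝ g (f x)).comp (fderiv ℝ f x)) x :=
    hg.hasFDerivAt.comp x hf.hasFDerivAt
  rw [h1.fderiv]
  exact ContinuousLinearMap.opNorm_comp_le _ _

theorem norm_fderiv2_comp_le {f : E → F} {g : F → G} {x : E} (hf : ContDiffAt ℝ 2 f x)
    (hg : ContDiffAt ℝ 2 g (f x)) :
    ‖fderiv ℝ (fderiv ℝ (fun y => g (f y))) x‖ ≤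
      ‖fderiv ℝ (fderiv ℝ g) (f x)‖ * ‖fderiv ℝ f x‖ ^ 2 +
        ‖fderiv ℝ g (f x)‖ * ‖fderiv ℝ (fderiv ℝ f) x‖ := by
  obtain ⟨hf1, hf2⟩ := hasFDerivAt_two hf
  obtain ⟨hg1, hg2⟩ := hasFDerivAt_two hg
  have h1 : fderiv ℝ (fun y => g (f y)) =ᶠ[𝓝 x] fun y => (fderiv ℝ g (f y)).comp (fderiv ℝ f y) := by
    filter_upwards [hf1, hf.continuousAt.eventually hg1] with y hy1 hy2
    exact (hy2.comp y hy1).fderiv
  have h2 : HasFDerivAt (fun y => fderiv ℝ g (f y))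
      ((fderiv ℝ (fderiv ℝ g) (f x)).comp (fderiv ℝ f x)) x :=
    hg2.comp x hf1.self_of_nhds
  have h3 := h2.clm_comp hf2
  rw [h1.fderiv_eq, h3.fderiv]
  refine ContinuousLinearMap.opNorm_le_bound _ (by positivity) fun v => ?_
  rw [add_apply]
  refine (norm_add_le _ _).trans ?_
  have e1 : ‖(ContinuousLinearMap.compL ℝ E F G (fderiv ℝ g (f x))).comp
      (fderiv ℝ (fderiv ℝ f) x) v‖ ≤ ‖fderiv ℝ g (f x)‖ * ‖fderiv ℝ (fderiv ℝ f) x‖ * ‖v‖ := by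
    calc _ ≤ ‖fderiv ℝ g (f x)‖ * ‖fderiv ℝ (fderiv ℝ f) x v‖ :=
          ContinuousLinearMap.opNorm_comp_le _ _
      _ ≤ ‖fderiv ℝ g (f x)‖ * (‖fderiv ℝ (fderiv ℝ f) x‖ * ‖v‖) := by
          gcongr
          exact ContinuousLinearMap.le_opNorm _ _
      _ = _ := by ring
  have e2 : ‖((ContinuousLinearMap.compL ℝ E F G).flip (fderiv ℝ f x)).comp
      ((fderiv ℝ (fderiv ℝ g) (f x)).comp (fderiv ℝ f x)) v‖ ≤
      ‖fderiv ℝ (fderiv ℝ g) (f x)‖ * ‖fderiv ℝ f x‖ ^ 2 * ‖v‖ := by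
    calc _ ≤ ‖fderiv ℝ (fderiv ℝ g) (f x) (fderiv ℝ f x v)‖ * ‖fderiv ℝ f x‖ :=
          ContinuousLinearMap.opNorm_comp_le _ _
      _ ≤ (‖fderiv ℝ (fderiv ℝ g) (f x)‖ * (‖fderiv ℝ f x‖ * ‖v‖)) * ‖fderiv ℝ f x‖ := by
          gcongr
          exact (ContinuousLinearMap.le_opNorm _ _).trans (by
            gcongr; exact ContinuousLinearMap.le_opNorm _ _)
      _ = _ := by ring
  linarith

theorem norm_fderiv_smul_le {c : E → ℝ} {w : E → F} {x : E} (hc : DifferentiableAt ℝ c x)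
    (hw : DifferentiableAt ℝ w x) :
    ‖fderiv ℝ (fun y => c y • w y) x‖ ≤ |c x| * ‖fderiv ℝ w x‖ + ‖fderiv ℝ c x‖ * ‖w x‖ := by
  have h1 : HasFDerivAt (fun y => c y • w y) (c x • fderiv ℝ w x +
      (fderiv ℝ c x).smulRight (w x)) x := hc.hasFDerivAt.smul hw.hasFDerivAt
  rw [h1.fderiv]
  refine (norm_add_le _ _).trans ?_
  rw [norm_smul, ContinuousLinearMap.norm_smulRight_apply, Real.norm_eq_abs]

theorem norm_fderiv2_smul_le {c : E → ℝ} {w : E → F} {x : E} (hc : ContDiffAt ℝ 2 c x)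
    (hw : ContDiffAt ℝ 2 w x) :
    ‖fderiv ℝ (fderiv ℝ (fun y => c y • w y)) x‖ ≤ |c x| * ‖fderiv ℝ (fderiv ℝ w) x‖ +
      2 * (‖fderiv ℝ c x‖ * ‖fderiv ℝ w x‖) + ‖fderiv ℝ (fderiv ℝ c) x‖ * ‖w x‖ := by
  obtain ⟨hc1, hc2⟩ := hasFDerivAt_two hc
  obtain ⟨hw1, hw2⟩ := hasFDerivAt_two hw
  have h1 : fderiv ℝ (fun y => c y • w y) =ᶠ[𝓝 x] fun y => c y • fderiv ℝ w y +
      ContinuousLinearMap.smulRightL ℝ E F (fderiv ℝ c y) (w y) := by
    filter_upwards [hc1, hw1] with y hy1 hy2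
    exact (hy1.smul hy2).fderiv
  have h2 : HasFDerivAt (fun y => c y • fderiv ℝ w y +
      ContinuousLinearMap.smulRightL ℝ E F (fderiv ℝ c y) (w y)) _ x :=
    (hc1.self_of_nhds.smul hw2).add
    ((ContinuousLinearMap.smulRightL ℝ E F).hasFDerivAt_of_bilinear hc2 hw1.self_of_nhds)
  rw [h1.fderiv_eq, h2.fderiv]
  refine ContinuousLinearMap.opNorm_le_bound _ (by positivity) fun v => ?_
  have e0 : ∀ (f : E →L[ℝ] ℝ) (z : F), ‖ContinuousLinearMap.smulRightL ℝ E F f z‖ ≤ ‖f‖ * ‖z‖ := by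
    intro f z
    change ‖f.smulRight z‖ ≤ _
    rw [ContinuousLinearMap.norm_smulRight_apply]
  have e1 : ‖(c x • fderiv ℝ (fderiv ℝ w) x) v‖ ≤ |c x| * ‖fderiv ℝ (fderiv ℝ w) x‖ * ‖v‖ := by
    rw [smul_apply, norm_smul, Real.norm_eq_abs, mul_assoc]
    gcongr
    exact ContinuousLinearMap.le_opNorm _ _
  have e2 : ‖(fderiv ℝ c x).smulRight (fderiv ℝ w x) v‖ ≤ ‖fderiv ℝ c x‖ * ‖fderiv ℝ w x‖ * ‖v‖ := by
    rw [ContinuousLinearMap.smulRight_apply, norm_smul]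
    calc _ ≤ (‖fderiv ℝ c x‖ * ‖v‖) * ‖fderiv ℝ w x‖ := by
          gcongr; exact ContinuousLinearMap.le_opNorm _ _
      _ = _ := by ring
  have e3 : ‖ContinuousLinearMap.smulRightL ℝ E F (fderiv ℝ c x) (fderiv ℝ w x v)‖ ≤
      ‖fderiv ℝ c x‖ * ‖fderiv ℝ w x‖ * ‖v‖ := by
    refine (e0 _ _).trans ?_
    rw [mul_assoc]
    gcongr
    exact ContinuousLinearMap.le_opNorm _ _
  have e4 : ‖ContinuousLinearMap.smulRightL ℝ E F (fderiv ℝ (fderiv ℝ c) x v) (w x)‖ ≤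
      ‖fderiv ℝ (fderiv ℝ c) x‖ * ‖w x‖ * ‖v‖ := by
    refine (e0 _ _).trans ?_
    calc _ ≤ (‖fderiv ℝ (fderiv ℝ c) x‖ * ‖v‖) * ‖w x‖ := by
          gcongr; exact ContinuousLinearMap.le_opNorm _ _
      _ = _ := by ring
  have e5 : ∀ T : E →L[ℝ] F, (ContinuousLinearMap.precompR E
      (ContinuousLinearMap.smulRightL ℝ E F) (fderiv ℝ c x) T) v =
      ContinuousLinearMap.smulRightL ℝ E F (fderiv ℝ c x) (T v) := fun T => rfl
  have e6 : ∀ T : E →L[ℝ] E →L[ℝ] ℝ, (ContinuousLinearMap.precompL E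
      (ContinuousLinearMap.smulRightL ℝ E F) T (w x)) v =
      ContinuousLinearMap.smulRightL ℝ E F (T v) (w x) := fun T => rfl
  calc _ ≤ (‖(c x • fderiv ℝ (fderiv ℝ w) x) v‖ + ‖(fderiv ℝ c x).smulRight (fderiv ℝ w x) v‖) +
        (‖ContinuousLinearMap.smulRightL ℝ E F (fderiv ℝ c x) (fderiv ℝ w x v)‖ +
        ‖ContinuousLinearMap.smulRightL ℝ E F (fderiv ℝ (fderiv ℝ c) x v) (w x)‖) := by
        refine (norm_add_le _ _).trans ?_
        gcongr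
        · exact norm_add_le _ _
        · exact norm_add_le _ _
    _ ≤ _ := by linarith

end Pool.Agent.H93.Exo
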