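import Mathlib
import Pool.Agent.H93.Exo.Cono

/-!
Examples of flat maps: radial dilations, squeezing maps, a map near the identity.
-/

set_option linter.unusedSectionVars false

namespace Pool.Agent.H93.Exo

open Metric Set Filter Topology Function Module
open scoped ContDiff InnerProductSpace Manifold

section basic

variable {E : Type*} [NormedAddCommGroup E] [NormedSpace ℝ E] [FiniteDimensional ℝ E]

theorem FlatF.symm {G : Con E} (h : FlatF G.f) : FlatF G.g := by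
  obtain ⟨Φ, r, R, hr, h0, h⟩ := h
  obtain ⟨c, hc, hlow⟩ := G.symm.lower
  have hlow' : ∀ x, c * ‖x‖ ≤ ‖G.g x‖ := hlow
  refine ⟨Φ.symm, r, |R| / c, hr, fun x hx => ?_, fun x hx => ?_⟩
  · change Φ.g x = x
    have := Φ.gf x
    rwa [h0 x hx] at this
  · change Φ.g x = G.g x
    have h1 : R ≤ ‖G.g x‖ := by
      refine (le_abs_self R).trans (le_trans ?_ (hlow' x))
      rwa [div_le_iff₀' hc] at hx
    have h2 : Φ.f (G.g x) = x := by rw [h _ h1, G.fg]
    rw [← h2, Φ.gf, h2]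

theorem flatF_id : FlatF (fun x : E => x) :=
  ⟨Dif.refl E, 1, 0, one_pos, fun _ _ => rfl, fun _ _ => rfl⟩

/-- the dilation `x ↦ ν(x) x` -/
noncomputable def Con.dil (ν : E → ℝ) (hpos : ∀ x, x ≠ 0 → 0 < ν x)
    (hdeg : ∀ (t : ℝ) (x : E), 0 < t → x ≠ 0 → ν (t • x) = ν x)
    (hsm : ∀ x, x ≠ 0 → ContDiffAt ℝ ∞ ν x) : Con E where
  f := fun x => ν x • x
  g := fun x => (ν x)⁻¹ • x
  gf := fun x => by
    by_cases hx : x = 0
    · simp [hx]
    · rw [hdeg _ _ (hpos x hx) hx, smul_smul, inv_mul_cancel₀ (hpos x hx).ne', one_smul]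
  fg := fun x => by
    by_cases hx : x = 0
    · simp [hx]
    · rw [hdeg _ _ (inv_pos.2 (hpos x hx)) hx, smul_smul, mul_inv_cancel₀ (hpos x hx).ne', one_smul]
  hom := fun t x ht => by
    by_cases hx : x = 0
    · simp [hx]
    · rw [hdeg _ _ ht hx, smul_comm]
  hf := fun x hx => (hsm x hx).smul contDiffAt_id
  hg := fun x hx => ((hsm x hx).inv (hpos x hx).ne').smul contDiffAt_id

end basic

section mon

variable {E : Type*} [NormedAddCommGroup E] [InnerProductSpace ℝ E] [FiniteDimensional ℝ E]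

theorem flatF_dil (ν : E → ℝ) (hpos : ∀ x, x ≠ 0 → 0 < ν x)
    (hdeg : ∀ (t : ℝ) (x : E), 0 < t → x ≠ 0 → ν (t • x) = ν x)
    (hsm : ∀ x, x ≠ 0 → ContDiffAt ℝ ∞ ν x) : FlatF (fun x => ν x • x) := by
  set ell : E → ℝ := fun x => Real.log (ν x) with hell
  have hls : ∀ x, x ≠ 0 → ContDiffAt ℝ ∞ ell x := fun x hx => (hsm x hx).log (hpos x hx).ne'
  have hld : HomDeg 0 ell := fun t x ht hx => by
    simp only [hell, hdeg t x ht hx, zpow_zero, one_smul]
  obtain ⟨C0, hC0, hb0⟩ := hld.bound fun x hx => (hls x hx).continuousAt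
  obtain ⟨C1, hC1, hb1⟩ := (hld.fderiv fun x hx => (hls x hx).differentiableAt (by simp)).bound
    fun x hx => ((hls x hx).fderiv_right (m := ∞) (by simp)).continuousAt
  -- the small parameter
  have hcont : Continuous fun a : ℝ => (Real.exp (C0 * a) - 1) + Real.exp (C0 * a) * (C1 * a) := by
    fun_prop
  have hev : ∀ᶠ a in 𝓝 (0 : ℝ), (Real.exp (C0 * a) - 1) + Real.exp (C0 * a) * (C1 * a) < 1 / 2 := by
    refine hcont.continuousAt.eventually_lt_const ?_
    simp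
  have hev2 : ∀ᶠ k : ℕ in atTop, (Real.exp (C0 * (1 / ((k : ℝ) + 1))) - 1) +
      Real.exp (C0 * (1 / ((k : ℝ) + 1))) * (C1 * (1 / ((k : ℝ) + 1))) < 1 / 2 :=
    tendsto_one_div_add_atTop_nhds_zero_nat.eventually hev
  obtain ⟨k, hk⟩ := hev2.exists
  set a : ℝ := 1 / ((k : ℝ) + 1) with ha
  have ha0 : 0 < a := by positivity
  set lam : E → ℝ := fun x => Real.exp (a * ell x) with hlam
  have hlpos : ∀ x, 0 < lam x := fun x => Real.exp_pos _
  have hldeg : ∀ (t : ℝ) (x : E), 0 < t → x ≠ 0 → lam (t • x) = lam x := fun t x ht hx => by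
    simp only [hlam, hell, hdeg t x ht hx]
  have hlsm : ∀ x, x ≠ 0 → ContDiffAt ℝ ∞ lam x := fun x hx =>
    Real.contDiff_exp.contDiffAt.comp x (contDiffAt_const.mul (hls x hx))
  have hlb : ∀ x, x ≠ 0 → lam x ≤ Real.exp (C0 * a) := fun x hx => by
    have h1 := hb0 x hx
    rw [zpow_zero, mul_one, Real.norm_eq_abs] at h1
    refine Real.exp_le_exp.2 ?_
    rw [mul_comm]
    exact mul_le_mul_of_nonneg_right ((le_abs_self _).trans h1) ha0.le
  have hlb' : ∀ x, x ≠ 0 → |lam x - 1| ≤ Real.exp (C0 * a) - 1 := fun x hx => by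
    have h1 := hb0 x hx
    rw [zpow_zero, mul_one, Real.norm_eq_abs] at h1
    have h2 : |a * ell x| ≤ C0 * a := by
      rw [abs_mul, abs_of_pos ha0, mul_comm]; gcongr
    have h3 := (abs_le.1 h2).1
    have h4 : Real.exp (-(C0 * a)) ≤ lam x := Real.exp_le_exp.2 h3
    have h5 : 2 ≤ Real.exp (C0 * a) + Real.exp (-(C0 * a)) := by
      have h6 := Real.add_one_le_exp (C0 * a)
      have h7 := Real.add_one_le_exp (-(C0 * a))
      linarith
    rw [abs_le]
    constructor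
    · linarith
    · linarith [hlb x hx]
  obtain ⟨D, hD, hDf⟩ := exists_con_of_near (N := fun x => lam x • x)
    (fun x hx => (hlsm x hx).smul contDiffAt_id) (fun t x ht => by
      by_cases hx : x = 0
      · simp [hx]
      · simp only [hldeg t x ht hx]; rw [smul_comm]) (fun x hx => by
      have hx' : 0 < ‖x‖ := norm_pos_iff.2 hx
      have h1 : HasFDerivAt ell (fderiv ℝ ell x) x :=
        ((hls x hx).differentiableAt (by simp)).hasFDerivAt
      have h2 : HasFDerivAt lam (lam x • (a • fderiv ℝ ell x)) x :=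
        (h1.const_mul a).exp
      have h3 : HasFDerivAt (fun x => lam x • x) (lam x • ContinuousLinearMap.id ℝ E +
          (lam x • (a • fderiv ℝ ell x)).smulRight x) x := h2.smul (hasFDerivAt_id x)
      rw [h3.fderiv]
      have h4 : lam x • ContinuousLinearMap.id ℝ E +
          (lam x • (a • fderiv ℝ ell x)).smulRight x - ContinuousLinearMap.id ℝ E =
          (lam x - 1) • ContinuousLinearMap.id ℝ E +
          (lam x • (a • fderiv ℝ ell x)).smulRight x := by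
        rw [sub_smul, one_smul]; abel
      rw [h4]
      have h5 : ‖fderiv ℝ ell x‖ * ‖x‖ ≤ C1 := by
        have := hb1 x hx
        rw [zero_sub, zpow_neg_one] at this
        calc _ ≤ C1 * ‖x‖⁻¹ * ‖x‖ := by gcongr
          _ = C1 := by rw [mul_assoc, inv_mul_cancel₀ hx'.ne', mul_one]
      calc _ ≤ ‖(lam x - 1) • ContinuousLinearMap.id ℝ E‖ +
            ‖(lam x • (a • fderiv ℝ ell x)).smulRight x‖ := norm_add_le _ _
        _ ≤ |lam x - 1| * 1 + (lam x * (a * ‖fderiv ℝ ell x‖)) * ‖x‖ := by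
            gcongr
            · rw [norm_smul, Real.norm_eq_abs]
              gcongr
              exact ContinuousLinearMap.norm_id_le
            · rw [ContinuousLinearMap.norm_smulRight_apply, norm_smul, norm_smul,
                Real.norm_of_nonneg (hlpos x).le, Real.norm_of_nonneg ha0.le]
        _ = |lam x - 1| + lam x * (a * (‖fderiv ℝ ell x‖ * ‖x‖)) := by ring
        _ ≤ (Real.exp (C0 * a) - 1) + Real.exp (C0 * a) * (a * C1) := by
            gcongr
            · exact hlb' x hx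
            · exact hlb x hx
        _ ≤ 1 / 2 := by rw [mul_comm a C1]; exact hk.le)
  have hpow : ∀ j : ℕ, FlatF (fun x => (lam x) ^ j • x) := by
    intro j
    induction j with
    | zero => simpa using (flatF_id (E := E))
    | succ j ih =>
      have h1 := ih.comp D (by rw [hD]; exact hDf)
      rw [hD] at h1
      have h2 : (fun x : E => lam x ^ (j + 1) • x) =
          fun x => lam (lam x • x) ^ j • lam x • x := by
        ext1 x
        by_cases hx : x = 0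
        · simp [hx]
        · rw [hldeg _ _ (hlpos x) hx, smul_smul, pow_succ]
      rw [h2]
      exact h1
  have h1 := hpow (k + 1)
  obtain ⟨Φ, r, R, hr, h2, h3⟩ := h1
  refine ⟨Φ, r, max R 1, hr, h2, fun x hx => ?_⟩
  have hx0 : x ≠ 0 := by
    rintro rfl
    rw [norm_zero] at hx
    have := (le_max_right R 1).trans hx
    linarith
  rw [h3 x ((le_max_left _ _).trans hx)]
  simp only [hlam, hell]
  rw [← Real.exp_nat_mul]
  have : ((k + 1 : ℕ) : ℝ) * (a * Real.log (ν x)) = Real.log (ν x) := by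
    rw [ha]; push_cast; field_simp
  rw [this, Real.exp_log (hpos x hx0)]

/-- the component orthogonal to `p` -/
noncomputable def pr (p : E) : E →L[ℝ] E :=
  ContinuousLinearMap.id ℝ E - (innerSL ℝ p).smulRight p

/-- the squeezing map `x' + s p ↦ κ x' + s p` -/
noncomputable def lk (p : E) (κ : ℝ) : E →L[ℝ] E := κ • pr p + (innerSL ℝ p).smulRight p

theorem pr_apply (p x : E) : pr p x = x - ⟪p, x⟫_ℝ • p := by
  simp [pr]

theorem lk_apply (p : E) (κ : ℝ) (x : E) : lk p κ x = κ • pr p x + ⟪p, x⟫_ℝ • p := by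
  simp [lk]

variable {p : E} (hp : ‖p‖ = 1)

include hp

theorem inner_pr (x : E) : ⟪p, pr p x⟫_ℝ = 0 := by
  rw [pr_apply, inner_sub_right, inner_smul_right, real_inner_self_eq_norm_sq, hp]; ring

theorem inner_pr' (x : E) : ⟪pr p x, p⟫_ℝ = 0 := by
  rw [real_inner_comm]; exact inner_pr hp x

theorem inner_lk (κ : ℝ) (x : E) : ⟪p, lk p κ x⟫_ℝ = ⟪p, x⟫_ℝ := by
  rw [lk_apply, inner_add_right, inner_smul_right, inner_smul_right, inner_pr hp,
    real_inner_self_eq_norm_sq, hp]; ring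

theorem pr_lk (κ : ℝ) (x : E) : pr p (lk p κ x) = κ • pr p x := by
  rw [pr_apply, inner_lk hp, lk_apply]; abel

theorem lk_one (x : E) : lk p 1 x = x := by
  rw [lk_apply, one_smul, pr_apply]; abel

theorem lk_lk (κ μ : ℝ) (x : E) : lk p κ (lk p μ x) = lk p (κ * μ) x := by
  rw [lk_apply, inner_lk hp, pr_lk hp, lk_apply, smul_smul]

theorem norm_sq_pr (x : E) : ‖x‖ ^ 2 = ‖pr p x‖ ^ 2 + ⟪p, x⟫_ℝ ^ 2 := by
  rw [pr_apply, norm_sub_sq_real, inner_smul_right, norm_smul, hp, real_inner_comm p x,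
    mul_pow, Real.norm_eq_abs, sq_abs]
  ring

theorem norm_sq_lk (κ : ℝ) (x : E) : ‖lk p κ x‖ ^ 2 = κ ^ 2 * ‖pr p x‖ ^ 2 + ⟪p, x⟫_ℝ ^ 2 := by
  rw [norm_sq_pr hp (lk p κ x), inner_lk hp, pr_lk hp, norm_smul, mul_pow, Real.norm_eq_abs, sq_abs]

theorem norm_pr_le (x : E) : ‖pr p x‖ ≤ ‖x‖ := by
  refine le_of_sq_le_sq ?_ (norm_nonneg x)
  rw [norm_sq_pr hp x]
  nlinarith [sq_nonneg ⟪p, x⟫_ℝ]

theorem norm_pr_op : ‖pr p‖ ≤ 1 :=
  ContinuousLinearMap.opNorm_le_bound _ zero_le_one fun x => by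
    rw [one_mul]; exact norm_pr_le hp x

theorem abs_inner_le (x : E) : |⟪p, x⟫_ℝ| ≤ ‖x‖ := by
  have := abs_real_inner_le_norm p x
  rwa [hp, one_mul] at this

theorem norm_lk_le {κ : ℝ} (h0 : 0 ≤ κ) (h1 : κ ≤ 1) (x : E) : ‖lk p κ x‖ ≤ ‖x‖ := by
  refine le_of_sq_le_sq ?_ (norm_nonneg x)
  rw [norm_sq_pr hp x, norm_sq_lk hp]
  have : κ ^ 2 ≤ 1 := by nlinarith
  nlinarith [sq_nonneg ‖pr p x‖]

theorem norm_lk_op {κ : ℝ} (h0 : 0 ≤ κ) (h1 : κ ≤ 1) : ‖lk p κ‖ ≤ 1 :=
  ContinuousLinearMap.opNorm_le_bound _ zero_le_one fun x => by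
    rw [one_mul]; exact norm_lk_le hp h0 h1 x

theorem norm_lk_inv_ge {κ : ℝ} (h0 : 0 < κ) (h1 : κ ≤ 1) (x : E) : ‖x‖ ≤ ‖lk p κ⁻¹ x‖ := by
  have h2 := norm_lk_le hp h0.le h1 (lk p κ⁻¹ x)
  rwa [lk_lk hp, mul_inv_cancel₀ h0.ne', lk_one hp] at h2

theorem norm_lk_inv_le {κ : ℝ} (h0 : 0 < κ) (h1 : κ ≤ 1) (x : E) :
    ‖lk p κ⁻¹ x‖ ≤ κ⁻¹ * ‖x‖ := by
  refine le_of_sq_le_sq ?_ (by positivity)
  rw [norm_sq_lk hp, mul_pow, norm_sq_pr hp x]
  have h3 : 1 ≤ κ⁻¹ := (one_le_inv₀ h0).2 h1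
  have : 1 ≤ κ⁻¹ ^ 2 := by nlinarith
  nlinarith [sq_nonneg ⟪p, x⟫_ℝ]

theorem norm_lk_inv_op {κ : ℝ} (h0 : 0 < κ) (h1 : κ ≤ 1) : ‖lk p κ⁻¹‖ ≤ κ⁻¹ :=
  ContinuousLinearMap.opNorm_le_bound _ (by positivity) (norm_lk_inv_le hp h0 h1)

/-- the squeezing map as an automorphism -/
noncomputable def lke {κ : ℝ} (h : κ ≠ 0) : E ≃L[ℝ] E :=
  ContinuousLinearEquiv.equivOfInverse (lk p κ) (lk p κ⁻¹)
    (fun x => by rw [lk_lk hp, inv_mul_cancel₀ h, lk_one hp])
    (fun x => by rw [lk_lk hp, mul_inv_cancel₀ h, lk_one hp])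

/-- the squeezing map -/
noncomputable def Lk {κ : ℝ} (h : κ ≠ 0) : Con E := Con.ofLin (lke hp h)

theorem Lk_f {κ : ℝ} (h : κ ≠ 0) (x : E) : (Lk hp h).f x = lk p κ x := rfl

theorem Lk_g {κ : ℝ} (h : κ ≠ 0) (x : E) : (Lk hp h).g x = lk p κ⁻¹ x := rfl

theorem flatF_Lk {κ : ℝ} (h0 : 0 < κ) (h1 : κ ≤ 1) : FlatF (Lk hp h0.ne').f := by
  have hd : ∀ x : E, fderiv ℝ (Lk hp h0.ne').f x = lk p κ := fun x => (lk p κ).hasFDerivAt.fderiv
  obtain ⟨G, hG, hF⟩ := exists_con_of_mon (N := (Lk hp h0.ne').f) (Lk hp h0.ne').hf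
    (Lk hp h0.ne').hom h0 h1 fun x _ v => by
      rw [hd, norm_sq_pr hp v, lk_apply, inner_add_left, inner_smul_left, inner_smul_left]
      have e1 : ⟪pr p v, v⟫_ℝ = ‖pr p v‖ ^ 2 := by
        have : v = pr p v + ⟪p, v⟫_ℝ • p := by rw [pr_apply]; abel
        nth_rewrite 2 [this]
        rw [inner_add_right, inner_smul_right, inner_pr' hp, real_inner_self_eq_norm_sq]; ring
      rw [e1]
      simp only [conj_trivial]
      nlinarith [sq_nonneg ⟪p, v⟫_ℝ]
  exact hF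

theorem exists_push : ∃ Q : Con E, (∀ x, Q.f x = x + (1 / 4 * ‖x‖) • p) ∧ FlatF Q.f := by
  obtain ⟨G, hG, hF⟩ := exists_con_of_near (N := fun x : E => x + (1 / 4 * ‖x‖) • p)
    (fun x hx => contDiffAt_id.add ((contDiffAt_const.mul (contDiffAt_norm ℝ hx)).smul
      contDiffAt_const)) (fun t x ht => by
      rw [norm_smul, Real.norm_of_nonneg ht.le, smul_add, smul_smul]
      congr 2
      ring) (fun x hx => by
      have h0 : HasFDerivAt (fun x : E => ‖x‖) (fderiv ℝ (fun x : E => ‖x‖) x) x :=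
        ((contDiffAt_norm ℝ hx).differentiableAt (n := 1) one_ne_zero).hasFDerivAt
      have h1 : ‖fderiv ℝ (fun x : E => ‖x‖) x‖ ≤ 1 := by
        have := norm_fderiv_le_of_lipschitz ℝ (lipschitzWith_one_norm (E := E)) (x₀ := x)
        simpa using this
      have h2 : HasFDerivAt (fun x : E => x + (1 / 4 * ‖x‖) • p)
          (ContinuousLinearMap.id ℝ E +
            ((1 / 4 : ℝ) • fderiv ℝ (fun x : E => ‖x‖) x).smulRight p) x :=
        (hasFDerivAt_id x).add ((h0.const_mul (1 / 4 : ℝ)).smul_const p)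
      rw [h2.fderiv, add_sub_cancel_left, ContinuousLinearMap.norm_smulRight_apply, norm_smul, hp]
      norm_num
      linarith)
  exact ⟨G, fun x => by rw [hG], by rw [hG]; exact hF⟩

end mon

end Pool.Agent.H93.Exo
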