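import Mathlib
import Pool.Agent.H93.Exo.Flats

/-!
A homogeneous homeomorphism is, up to flat maps, the identity near a given ray.
-/

set_option linter.unusedSectionVars false

namespace Pool.Agent.H93.Exo

open Metric Set Filter Topology Function Module
open scoped ContDiff InnerProductSpace Manifold NNReal

variable {E : Type*} [NormedAddCommGroup E] [InnerProductSpace ℝ E] [FiniteDimensional ℝ E]

theorem hasFDerivAt_norm' {x : E} (hx : x ≠ 0) :
    HasFDerivAt (fun y : E => ‖y‖) (‖x‖⁻¹ • innerSL ℝ x) x := by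
  have hx' : 0 < ‖x‖ := norm_pos_iff.2 hx
  have h0 : HasFDerivAt (fun x : E => ‖x‖) (fderiv ℝ (fun x : E => ‖x‖) x) x :=
    ((contDiffAt_norm ℝ hx).differentiableAt (n := 1) one_ne_zero).hasFDerivAt
  have h1 : HasFDerivAt (fun x : E => ‖x‖ ^ 2) (2 • innerSL ℝ x) x :=
    (hasStrictFDerivAt_norm_sq x).hasFDerivAt
  have h2 : HasFDerivAt (fun x : E => ‖x‖ ^ 2)
      ((2 * ‖x‖) • fderiv ℝ (fun x : E => ‖x‖) x) x := by
    have := h0.pow 2
    simpa using this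
  have h3 := h2.unique h1
  have h4 : fderiv ℝ (fun x : E => ‖x‖) x = ‖x‖⁻¹ • innerSL ℝ x := by
    have h5 : (2 * ‖x‖) • fderiv ℝ (fun x : E => ‖x‖) x = (2 * ‖x‖) • (‖x‖⁻¹ • innerSL ℝ x) := by
      rw [h3, smul_smul, mul_assoc, mul_inv_cancel₀ hx'.ne', mul_one, ← Nat.cast_smul_eq_nsmul ℝ]
      norm_num
    exact smul_right_injective _ (by positivity) h5
  rw [← h4]
  exact h0

theorem hasFDerivAt_cos {x : E} (hx : ‖x‖ = 1) (p : E) :
    HasFDerivAt (fun y : E => ⟪p, y⟫_ℝ * ‖y‖⁻¹) (innerSL ℝ (p - ⟪p, x⟫_ℝ • x)) x := by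
  have hx0 : x ≠ 0 := by rw [← norm_ne_zero_iff, hx]; exact one_ne_zero
  have h1 : HasFDerivAt (fun y : E => ⟪p, y⟫_ℝ) (innerSL ℝ p) x := (innerSL ℝ p).hasFDerivAt
  have h2 := (hasDerivAt_inv (norm_ne_zero_iff.2 hx0)).comp_hasFDerivAt x (hasFDerivAt_norm' hx0)
  have h3 := h1.mul h2
  refine h3.congr_fderiv ?_
  ext v
  simp [hx]
  ring

variable {p : E} (hp : ‖p‖ = 1)

include hp in
theorem norm_sub_cos {x : E} (hx : ‖x‖ = 1) : ‖p - ⟪p, x⟫_ℝ • x‖ ≤ 2 * ‖x - p‖ := by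
  have h1 : ‖x - p‖ ^ 2 = 2 * (1 - ⟪p, x⟫_ℝ) := by
    rw [norm_sub_sq_real, hx, hp, real_inner_comm]; ring
  have h2 : ‖x - p‖ ≤ 2 := by
    calc _ ≤ ‖x‖ + ‖p‖ := norm_sub_le _ _
      _ = 2 := by rw [hx, hp]; norm_num
  have h3 : 0 ≤ 1 - ⟪p, x⟫_ℝ := by nlinarith [sq_nonneg ‖x - p‖]
  calc ‖p - ⟪p, x⟫_ℝ • x‖ = ‖(p - x) + (1 - ⟪p, x⟫_ℝ) • x‖ := by
        congr 1; rw [sub_smul, one_smul]; abel
    _ ≤ ‖p - x‖ + ‖(1 - ⟪p, x⟫_ℝ) • x‖ := norm_add_le _ _
    _ = ‖x - p‖ + (1 - ⟪p, x⟫_ℝ) := by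
        rw [norm_sub_rev, norm_smul, hx, Real.norm_of_nonneg h3, mul_one]
    _ ≤ 2 * ‖x - p‖ := by nlinarith [norm_nonneg (x - p)]

include hp in
/-- the cut-off construction -/
theorem exists_cut {w : E → E} (hw : ∀ x, x ≠ 0 → ContDiffAt ℝ ∞ w x)
    (hom : ∀ (t : ℝ) (x : E), 0 < t → w (t • x) = t • w x) (hwp : w p = 0)
    (hwd : fderiv ℝ w p = 0) :
    ∃ (K : Con E) (τ : ℝ), 0 < τ ∧ τ ≤ 1 ∧ FlatF K.f ∧
      ∀ x, (1 - τ) * ‖x‖ ≤ ⟪p, x⟫_ℝ → K.f x = x + w x := by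
  have hp0 : p ≠ 0 := by rw [← norm_ne_zero_iff, hp]; exact one_ne_zero
  have hw0 : w 0 = 0 := hom_zero hom
  obtain ⟨K, t, ht, hK⟩ := ((hw p hp0).fderiv_right (m := 1)
    (by norm_cast)).exists_lipschitzOnWith
  obtain ⟨r0, hr0, hrt⟩ := Metric.mem_nhds_iff.1 ht
  set K0 : ℝ := (K : ℝ) with hK0
  have hK00 : 0 ≤ K0 := K.2
  set r1 : ℝ := min r0 1 with hr1
  have hr1p : 0 < r1 := lt_min hr0 one_pos
  have hne : ∀ x, ‖x - p‖ < r1 → x ≠ 0 := by
    rintro x hx rfl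
    rw [zero_sub, norm_neg, hp] at hx
    have := hx.trans_le (min_le_right r0 1)
    exact lt_irrefl _ this
  have hd1 : ∀ x, ‖x - p‖ < r1 → ‖fderiv ℝ w x‖ ≤ K0 * ‖x - p‖ := by
    intro x hx
    have h1 : x ∈ t := hrt (by
      rw [mem_ball, dist_eq_norm]; exact hx.trans_le (min_le_left _ _))
    have h2 := hK.dist_le_mul x h1 p (mem_of_mem_nhds ht)
    rwa [dist_eq_norm, dist_eq_norm, hwd, sub_zero] at h2
  have hd0 : ∀ x, ‖x - p‖ < r1 → ‖w x‖ ≤ K0 * ‖x - p‖ * ‖x - p‖ := by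
    intro x hx
    have hmem : ∀ y ∈ closedBall p ‖x - p‖, ‖y - p‖ < r1 := fun y hy => by
      rw [mem_closedBall, dist_eq_norm] at hy
      exact hy.trans_lt hx
    have h3 := (convex_closedBall p ‖x - p‖).norm_image_sub_le_of_norm_fderiv_le (𝕜 := ℝ) (f := w)
      (C := K0 * ‖x - p‖) (fun y hy => (hw y (hne y (hmem y hy))).differentiableAt (by simp))
      (fun y hy => (hd1 y (hmem y hy)).trans (by
        rw [mem_closedBall, dist_eq_norm] at hy
        exact mul_le_mul_of_nonneg_left hy hK00))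
      (mem_closedBall_self (norm_nonneg _)) (by rw [mem_closedBall, dist_eq_norm])
    rwa [hwp, sub_zero] at h3
  obtain ⟨M, hM, hMb⟩ := exists_deriv_smoothTransition_le
  -- the small parameter
  obtain ⟨σ, hσ0, hσ1, hσ2, hσ3⟩ : ∃ σ : ℝ, 0 < σ ∧ σ ≤ 1 / 2 ∧ 2 * σ < r1 ∧
      (16 * M * K0 + 2 * K0) * σ ≤ 1 / 2 := by
    have hc : Continuous fun σ : ℝ => (16 * M * K0 + 2 * K0) * σ := by fun_prop
    have h1 : ∀ᶠ σ in 𝓝[>] (0 : ℝ), (16 * M * K0 + 2 * K0) * σ < 1 / 2 := by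
      refine (hc.continuousAt.eventually_lt_const ?_).filter_mono nhdsWithin_le_nhds
      simp
    have hc2 : Continuous fun σ : ℝ => 2 * σ := by fun_prop
    have h2 : ∀ᶠ σ in 𝓝[>] (0 : ℝ), 2 * σ < r1 := by
      refine (hc2.continuousAt.eventually_lt_const ?_).filter_mono nhdsWithin_le_nhds
      simpa using hr1p
    have h3 : ∀ᶠ σ in 𝓝[>] (0 : ℝ), σ < 1 / 2 :=
      (eventually_lt_nhds (by norm_num)).filter_mono nhdsWithin_le_nhds
    obtain ⟨σ, ⟨⟨h4, h5⟩, h6⟩, h7⟩ := (((h1.and h2).and h3).and self_mem_nhdsWithin).exists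
    exact ⟨σ, h7, h6.le, h5, h4.le⟩
  set τ : ℝ := σ ^ 2 with hτ
  have hτ0 : 0 < τ := by positivity
  have hτ1 : τ ≤ 1 := by nlinarith
  set cs : E → ℝ := fun x => ⟪p, x⟫_ℝ * ‖x‖⁻¹ with hcs
  have hcsd : ∀ (t : ℝ) (x : E), 0 < t → cs (t • x) = cs x := by
    intro t x ht
    simp only [hcs]
    rw [inner_smul_right, norm_smul, Real.norm_of_nonneg ht.le, mul_inv]
    field_simp
  have hcss : ∀ x, x ≠ 0 → ContDiffAt ℝ ∞ cs x := fun x hx =>
    ((innerSL ℝ p).contDiff.contDiffAt).mul ((contDiffAt_norm ℝ hx).inv (norm_ne_zero_iff.2 hx))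
  set θ : E → ℝ := fun x => Real.smoothTransition (2 - (1 - cs x) / τ) with hθ
  have hθd : ∀ (t : ℝ) (x : E), 0 < t → θ (t • x) = θ x := fun t x ht => by
    simp only [hθ, hcsd t x ht]
  have hθs : ∀ x, x ≠ 0 → ContDiffAt ℝ ∞ θ x := fun x hx =>
    Real.smoothTransition.contDiffAt.comp x (contDiffAt_const.sub
      ((contDiffAt_const.sub (hcss x hx)).div_const τ))
  set N : E → E := fun x => x + θ x • w x with hN
  have hNs : ∀ x, x ≠ 0 → ContDiffAt ℝ ∞ N x := fun x hx =>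
    contDiffAt_id.add ((hθs x hx).smul (hw x hx))
  have hNh : ∀ (t : ℝ) (x : E), 0 < t → N (t • x) = t • N x := fun t x ht => by
    simp only [hN, hθd t x ht, hom t x ht, smul_add]
    rw [smul_comm]
  have hunit : ∀ x : E, ‖x‖ = 1 → ‖fderiv ℝ N x - ContinuousLinearMap.id ℝ E‖ ≤ 1 / 2 := by
    intro x hx
    have hx0 : x ≠ 0 := by rw [← norm_ne_zero_iff, hx]; exact one_ne_zero
    have hcx : cs x = ⟪p, x⟫_ℝ := by simp only [hcs, hx, inv_one, mul_one]
    by_cases hx2 : 2 * τ < 1 - cs x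
    · have h1 : N =ᶠ[𝓝 x] id := by
        have h2 : ∀ᶠ y in 𝓝 x, 2 * τ < 1 - cs y :=
          (continuousAt_const.sub (hcss x hx0).continuousAt).eventually_const_lt hx2
        filter_upwards [h2] with y hy
        have h3 : θ y = 0 := by
          refine Real.smoothTransition.zero_of_nonpos ?_
          rw [sub_nonpos, le_div_iff₀ hτ0]
          exact hy.le
        simp only [hN, h3, zero_smul, add_zero, id]
      rw [h1.fderiv_eq, fderiv_id, sub_self, norm_zero]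
      norm_num
    · push Not at hx2
      have h1 : ‖x - p‖ ^ 2 = 2 * (1 - ⟪p, x⟫_ℝ) := by
        rw [norm_sub_sq_real, hx, hp, real_inner_comm]; ring
      rw [hcx] at hx2
      have h2 : ‖x - p‖ ≤ 2 * σ := by
        refine le_of_sq_le_sq ?_ (by positivity)
        rw [h1, mul_pow, ← hτ]; linarith
      have h3 : ‖x - p‖ < r1 := h2.trans_lt hσ2
      have e1 : HasFDerivAt cs (innerSL ℝ (p - ⟪p, x⟫_ℝ • x)) x := hasFDerivAt_cos hx p
      have e2 : HasDerivAt Real.smoothTransition (deriv Real.smoothTransition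
          (2 - (1 - cs x) / τ)) (2 - (1 - cs x) / τ) :=
        ((Real.smoothTransition.contDiffAt (n := 1)).differentiableAt one_ne_zero).hasDerivAt
      have e3 : HasFDerivAt (fun y => 2 - (1 - cs y) / τ)
          (τ⁻¹ • innerSL ℝ (p - ⟪p, x⟫_ℝ • x)) x := by
        have h4 : (fun y => 2 - (1 - cs y) / τ) = fun y => (2 - τ⁻¹) + τ⁻¹ * cs y := by
          ext y; field_simp; ring
        rw [h4]
        exact (e1.const_mul τ⁻¹).const_add _
      have e4 : HasFDerivAt θ ((deriv Real.smoothTransition (2 - (1 - cs x) / τ)) •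
          (τ⁻¹ • innerSL ℝ (p - ⟪p, x⟫_ℝ • x))) x := by
        have e2' : HasDerivAt Real.smoothTransition (deriv Real.smoothTransition
          (2 - (1 - cs x) / τ)) ((fun y => 2 - (1 - cs y) / τ) x) := e2
        exact e2'.comp_hasFDerivAt x e3
      have e5 : HasFDerivAt w (fderiv ℝ w x) x := ((hw x hx0).differentiableAt (by simp)).hasFDerivAt
      have e6 : HasFDerivAt N (ContinuousLinearMap.id ℝ E + (θ x • fderiv ℝ w x +
          ((deriv Real.smoothTransition (2 - (1 - cs x) / τ)) •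
          (τ⁻¹ • innerSL ℝ (p - ⟪p, x⟫_ℝ • x))).smulRight (w x))) x :=
        (hasFDerivAt_id x).add (e4.smul e5)
      rw [e6.fderiv, add_sub_cancel_left]
      have hθ1 : ‖θ x‖ ≤ 1 := by
        rw [Real.norm_of_nonneg (Real.smoothTransition.nonneg _)]
        exact Real.smoothTransition.le_one _
      have hnn := norm_nonneg (x - p)
      calc _ ≤ ‖θ x • fderiv ℝ w x‖ + ‖((deriv Real.smoothTransition (2 - (1 - cs x) / τ)) •
          (τ⁻¹ • innerSL ℝ (p - ⟪p, x⟫_ℝ • x))).smulRight (w x)‖ := norm_add_le _ _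
        _ ≤ 1 * (K0 * ‖x - p‖) + (M * (τ⁻¹ * (2 * ‖x - p‖))) * (K0 * ‖x - p‖ * ‖x - p‖) := by
            rw [norm_smul, ContinuousLinearMap.norm_smulRight_apply, norm_smul, norm_smul,
              innerSL_apply_norm, Real.norm_of_nonneg (inv_nonneg.2 hτ0.le)]
            gcongr
            · exact hd1 x h3
            · exact hMb _
            · exact norm_sub_cos hp hx
            · exact hd0 x h3
        _ ≤ 1 * (K0 * (2 * σ)) + (M * (τ⁻¹ * (2 * (2 * σ)))) * (K0 * (2 * σ) * (2 * σ)) := by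
            gcongr
        _ = (16 * M * K0 + 2 * K0) * σ := by rw [hτ]; field_simp; ring
        _ ≤ 1 / 2 := hσ3
  obtain ⟨G, hG, hF⟩ := exists_con_of_near hNs hNh fun x hx => by
    have hx' : 0 < ‖x‖ := norm_pos_iff.2 hx
    have h1 := ((homDeg_one_of hNh).fderiv fun x hx => (hNs x hx).differentiableAt (by simp))
      ‖x‖⁻¹ x (by positivity) hx
    rw [sub_self, zpow_zero, one_smul] at h1
    rw [← h1]
    refine hunit _ ?_
    rw [norm_smul, norm_inv, norm_norm, inv_mul_cancel₀ hx'.ne']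
  refine ⟨G, τ, hτ0, hτ1, by rw [hG]; exact hF, fun x hx => ?_⟩
  rw [hG]
  by_cases hx0 : x = 0
  · simp only [hN, hx0, hw0, smul_zero]
  have hx' : 0 < ‖x‖ := norm_pos_iff.2 hx0
  have h1 : θ x = 1 := by
    refine Real.smoothTransition.one_of_one_le ?_
    have h2 : 1 - τ ≤ cs x := by
      simp only [hcs]
      rw [← div_eq_mul_inv, le_div_iff₀ hx']
      exact hx
    have h3 : (1 - cs x) / τ ≤ 1 := by
      rw [div_le_one hτ0]; linarith
    linarith
  simp only [hN, h1, one_smul]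

include hp in
theorem exists_decomp (G : Con E) : ∃ (A : E ≃L[ℝ] E) (K α : Con E) (τ : ℝ), 0 < τ ∧ τ ≤ 1 ∧
    FlatF K.f ∧ (∀ x, G.f x = A (K.f (α.f x))) ∧
    ∀ x, (1 - τ) * ‖x‖ ≤ ⟪p, x⟫_ℝ → α.f x = x := by
  have hp0 : p ≠ 0 := by rw [← norm_ne_zero_iff, hp]; exact one_ne_zero
  have hGd : DifferentiableAt ℝ G.f p := (G.hf p hp0).differentiableAt (by simp)
  obtain ⟨A, hA⟩ := exists_equiv_of_left_inverse hGd.hasFDerivAt
    ((G.hg _ (G.f_ne hp0)).differentiableAt (by simp)).hasFDerivAt (Eventually.of_forall G.gf)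
  have hAp : A p = G.f p := by
    have := (homDeg_one_of G.hom).euler hp0 hGd
    rw [hA.fderiv] at this
    exact this
  set w : E → E := fun x => A.symm (G.f x) - x with hw
  obtain ⟨K, τ, h1, h2, h3, h4⟩ := exists_cut hp (w := w)
    (fun x hx => (A.symm.contDiff.contDiffAt.comp x (G.hf x hx)).sub contDiffAt_id)
    (fun t x ht => by simp only [hw, G.hom t x ht, map_smul, smul_sub])
    (by simp only [hw, ← hAp, ContinuousLinearEquiv.symm_apply_apply, sub_self])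
    (by
      have h5 : HasFDerivAt w ((A.symm : E →L[ℝ] E).comp (A : E →L[ℝ] E) -
          ContinuousLinearMap.id ℝ E) p :=
        ((A.symm : E →L[ℝ] E).hasFDerivAt.comp p hA).sub (hasFDerivAt_id p)
      rw [h5.fderiv]
      ext v
      simp)
  refine ⟨A, K, K.symm.comp ((Con.ofLin A.symm).comp G), τ, h1, h2, h3, fun x => ?_,
    fun x hx => ?_⟩
  · change G.f x = A (K.f (K.g (A.symm (G.f x))))
    rw [K.fg, A.apply_symm_apply]
  · change K.g (A.symm (G.f x)) = x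
    have h5 := h4 x hx
    simp only [hw, add_sub_cancel] at h5
    rw [← h5, K.gf]

end Pool.Agent.H93.Exo
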