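import Mathlib
import Pool.Agent.H93.Exo.Flats

/-!
A logarithmic profile.
-/

set_option linter.unusedSectionVars false

namespace Pool.Agent.H93.Exo

open Metric Set Filter Topology Function Module
open scoped ContDiff InnerProductSpace

theorem exists_deriv2_smoothTransition_le :
    ∃ M : ℝ, 0 < M ∧ ∀ t, |deriv (deriv Real.smoothTransition) t| ≤ M := by
  have hs : ContDiff ℝ ∞ Real.smoothTransition := Real.smoothTransition.contDiff
  have hs1 : ContDiff ℝ ∞ (deriv Real.smoothTransition) := by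
    have := hs.iterate_deriv 1
    simpa using this
  have hc : HasCompactSupport (deriv (deriv Real.smoothTransition)) := by
    refine HasCompactSupport.intro (isCompact_Icc (a := (0 : ℝ)) (b := 1)) fun x hx => ?_
    rw [mem_Icc, not_and_or, not_le, not_le] at hx
    rcases hx with hx | hx
    · have : deriv Real.smoothTransition =ᶠ[𝓝 x] fun _ => 0 := by
        filter_upwards [eventually_lt_nhds hx] with y hy
        have : Real.smoothTransition =ᶠ[𝓝 y] fun _ => 0 := by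
          filter_upwards [eventually_lt_nhds hy] with z hz
          exact Real.smoothTransition.zero_of_nonpos hz.le
        rw [this.deriv_eq, deriv_const]
      rw [this.deriv_eq, deriv_const]
    · have : deriv Real.smoothTransition =ᶠ[𝓝 x] fun _ => 0 := by
        filter_upwards [eventually_gt_nhds hx] with y hy
        have : Real.smoothTransition =ᶠ[𝓝 y] fun _ => 1 := by
          filter_upwards [eventually_gt_nhds hy] with z hz
          exact Real.smoothTransition.one_of_one_le hz.le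
        rw [this.deriv_eq, deriv_const]
      rw [this.deriv_eq, deriv_const]
  obtain ⟨C, hC⟩ := (hs1.continuous_deriv (by simp)).bounded_above_of_compact_support hc
  exact ⟨|C| + 1, by positivity, fun t => (hC t).trans (by linarith [le_abs_self C])⟩

/-- the logarithmic profile: `0` for `t ≤ δ² 4^(-J)`, `1` for `t ≥ δ²` -/
noncomputable def prf (J : ℕ) (δ : ℝ) (t : ℝ) : ℝ :=
  if t ≤ 0 then 0 else Real.smoothTransition (1 + (J : ℝ)⁻¹ * (Real.log t - Real.log (δ ^ 2)))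

variable {J : ℕ} (hJ : 1 ≤ J) {δ : ℝ} (hδ : 0 < δ)

theorem prf_of_pos {t : ℝ} (ht : 0 < t) : prf J δ t =
    Real.smoothTransition (1 + (J : ℝ)⁻¹ * (Real.log t - Real.log (δ ^ 2))) := by
  rw [prf, if_neg (not_le.2 ht)]

theorem prf_mem (t : ℝ) : 0 ≤ prf J δ t ∧ prf J δ t ≤ 1 := by
  rw [prf]
  split_ifs
  · exact ⟨le_rfl, zero_le_one⟩
  · exact ⟨Real.smoothTransition.nonneg _, Real.smoothTransition.le_one _⟩

include hδ in
theorem prf_one {t : ℝ} (ht : δ ^ 2 ≤ t) : prf J δ t = 1 := by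
  have h0 : 0 < δ ^ 2 := by positivity
  rw [prf_of_pos (h0.trans_le ht)]
  refine Real.smoothTransition.one_of_one_le ?_
  have h1 : Real.log (δ ^ 2) ≤ Real.log t := Real.log_le_log h0 ht
  have h2 : 0 ≤ (J : ℝ)⁻¹ * (Real.log t - Real.log (δ ^ 2)) := by
    apply mul_nonneg (by positivity); linarith
  linarith

include hJ hδ in
theorem prf_zero {t : ℝ} (ht : t ≤ ((2⁻¹ : ℝ) ^ J * δ) ^ 2) : prf J δ t = 0 := by
  rw [prf]
  split_ifs with h
  · rfl
  push Not at h
  refine Real.smoothTransition.zero_of_nonpos ?_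
  have hJ0 : (0 : ℝ) < J := by exact_mod_cast hJ
  have h1 : Real.log t ≤ Real.log (((2⁻¹ : ℝ) ^ J * δ) ^ 2) := Real.log_le_log h ht
  have h2 : Real.log (((2⁻¹ : ℝ) ^ J * δ) ^ 2) = Real.log (δ ^ 2) - 2 * J * Real.log 2 := by
    rw [mul_pow, Real.log_mul (by positivity) (by positivity), Real.log_pow, Real.log_pow,
      Real.log_inv]
    push_cast
    ring
  have h3 : (0.69 : ℝ) < Real.log 2 := lt_trans (by norm_num) Real.log_two_gt_d9
  have h4 : (J : ℝ)⁻¹ * (Real.log t - Real.log (δ ^ 2)) ≤ (J : ℝ)⁻¹ * (-(J : ℝ)) := by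
    apply mul_le_mul_of_nonneg_left _ (by positivity)
    nlinarith
  have h5 : (J : ℝ)⁻¹ * (-(J : ℝ)) = -1 := by field_simp
  linarith

include hJ hδ in
theorem contDiff_prf : ContDiff ℝ ∞ (prf J δ) := by
  rw [contDiff_iff_contDiffAt]
  intro t
  by_cases ht : t ≤ 0
  · refine (contDiffAt_const (c := (0 : ℝ))).congr_of_eventuallyEq ?_
    have h0 : 0 < ((2⁻¹ : ℝ) ^ J * δ) ^ 2 := by positivity
    filter_upwards [eventually_lt_nhds (ht.trans_lt h0)] with s hs
    exact prf_zero hJ hδ hs.le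
  · push Not at ht
    have h1 : ContDiffAt ℝ ∞ (fun t => Real.smoothTransition
        (1 + (J : ℝ)⁻¹ * (Real.log t - Real.log (δ ^ 2)))) t :=
      Real.smoothTransition.contDiffAt.comp t (contDiffAt_const.add
        (contDiffAt_const.mul ((contDiffAt_id.log ht.ne').sub contDiffAt_const)))
    refine h1.congr_of_eventuallyEq ?_
    filter_upwards [eventually_gt_nhds ht] with s hs
    exact prf_of_pos hs

theorem hasDerivAt_prf {t : ℝ} (ht : 0 < t) : HasDerivAt (prf J δ)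
    (deriv Real.smoothTransition (1 + (J : ℝ)⁻¹ * (Real.log t - Real.log (δ ^ 2))) *
      ((J : ℝ)⁻¹ * t⁻¹)) t := by
  have e2 : HasDerivAt Real.smoothTransition (deriv Real.smoothTransition
      (1 + (J : ℝ)⁻¹ * (Real.log t - Real.log (δ ^ 2))))
      ((fun t => 1 + (J : ℝ)⁻¹ * (Real.log t - Real.log (δ ^ 2))) t) :=
    ((Real.smoothTransition.contDiffAt (n := 1)).differentiableAt one_ne_zero).hasDerivAt
  have e3 : HasDerivAt (fun t => 1 + (J : ℝ)⁻¹ * (Real.log t - Real.log (δ ^ 2)))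
      ((J : ℝ)⁻¹ * t⁻¹) t :=
    (((Real.hasDerivAt_log ht.ne').sub_const _).const_mul _).const_add _
  have e4 := HasDerivAt.comp t e2 e3
  refine e4.congr_of_eventuallyEq ?_
  filter_upwards [eventually_gt_nhds ht] with s hs
  exact prf_of_pos hs

theorem deriv_prf {t : ℝ} (ht : 0 < t) : deriv (prf J δ) t =
    deriv Real.smoothTransition (1 + (J : ℝ)⁻¹ * (Real.log t - Real.log (δ ^ 2))) *
      ((J : ℝ)⁻¹ * t⁻¹) := (hasDerivAt_prf ht).deriv

theorem deriv_prf_nonneg {t : ℝ} (ht : 0 < t) : 0 ≤ deriv (prf J δ) t := by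
  rw [deriv_prf ht]
  have : 0 ≤ deriv Real.smoothTransition (1 + (J : ℝ)⁻¹ * (Real.log t - Real.log (δ ^ 2))) :=
    Real.smoothTransition.monotone.deriv_nonneg
  positivity

include hδ in
theorem deriv_prf_zero {t : ℝ} (ht : δ ^ 2 < t) : deriv (prf J δ) t = 0 := by
  have : prf J δ =ᶠ[𝓝 t] fun _ => 1 := by
    filter_upwards [eventually_gt_nhds ht] with s hs
    exact prf_one hδ hs.le
  rw [this.deriv_eq, deriv_const]

theorem deriv_prf_le {M : ℝ} (hM : ∀ t, |deriv Real.smoothTransition t| ≤ M) {t : ℝ} (ht : 0 < t) :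
    deriv (prf J δ) t * t ≤ M * (J : ℝ)⁻¹ := by
  rw [deriv_prf ht]
  have h1 := (le_abs_self _).trans
    (hM (1 + (J : ℝ)⁻¹ * (Real.log t - Real.log (δ ^ 2))))
  calc _ = deriv Real.smoothTransition (1 + (J : ℝ)⁻¹ * (Real.log t - Real.log (δ ^ 2))) *
        (J : ℝ)⁻¹ := by field_simp
    _ ≤ _ := by gcongr

include hJ in
theorem deriv2_prf_le {M M' : ℝ} (hM : ∀ t, |deriv Real.smoothTransition t| ≤ M)
    (hM' : ∀ t, |deriv (deriv Real.smoothTransition) t| ≤ M') {t : ℝ} (ht : 0 < t) :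
    |deriv (deriv (prf J δ)) t| * t ^ 2 ≤ (M + M') * (J : ℝ)⁻¹ := by
  have hJ0 : (1 : ℝ) ≤ J := by exact_mod_cast hJ
  have hJi : (J : ℝ)⁻¹ ≤ 1 := inv_le_one_of_one_le₀ hJ0
  have hJi0 : 0 < (J : ℝ)⁻¹ := by positivity
  set a : ℝ := 1 + (J : ℝ)⁻¹ * (Real.log t - Real.log (δ ^ 2)) with ha
  have hs0 : ContDiff ℝ ∞ Real.smoothTransition := Real.smoothTransition.contDiff
  have hs1 : ContDiff ℝ ∞ (deriv Real.smoothTransition) := by
    have := hs0.iterate_deriv 1
    simpa using this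
  have e2 : HasDerivAt (deriv Real.smoothTransition) (deriv (deriv Real.smoothTransition) a)
      ((fun t => 1 + (J : ℝ)⁻¹ * (Real.log t - Real.log (δ ^ 2))) t) :=
    (hs1.contDiffAt.differentiableAt (by simp)).hasDerivAt
  have e3 : HasDerivAt (fun t => 1 + (J : ℝ)⁻¹ * (Real.log t - Real.log (δ ^ 2)))
      ((J : ℝ)⁻¹ * t⁻¹) t :=
    (((Real.hasDerivAt_log ht.ne').sub_const _).const_mul _).const_add _
  have e4 := HasDerivAt.comp t e2 e3
  have e5 : HasDerivAt (fun t : ℝ => (J : ℝ)⁻¹ * t⁻¹) ((J : ℝ)⁻¹ * (-(t ^ 2)⁻¹)) t :=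
    (hasDerivAt_inv ht.ne').const_mul _
  have e6 := e4.mul e5
  have e7 : deriv (prf J δ) =ᶠ[𝓝 t] ((deriv Real.smoothTransition ∘
      fun t => 1 + (J : ℝ)⁻¹ * (Real.log t - Real.log (δ ^ 2))) * fun t => (J : ℝ)⁻¹ * t⁻¹) := by
    filter_upwards [eventually_gt_nhds ht] with s hs
    rw [deriv_prf hs]
    rfl
  rw [e7.deriv_eq, e6.deriv]
  have h1 := hM a
  have h2 := hM' a
  have hM0 : 0 ≤ M := (abs_nonneg _).trans h1
  have hM'0 : 0 ≤ M' := (abs_nonneg _).trans h2
  have h3 : (deriv (deriv Real.smoothTransition) a * ((J : ℝ)⁻¹ * t⁻¹) * ((J : ℝ)⁻¹ * t⁻¹) +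
      (deriv Real.smoothTransition ∘ fun t => 1 + (J : ℝ)⁻¹ * (Real.log t - Real.log (δ ^ 2))) t *
      ((J : ℝ)⁻¹ * (-(t ^ 2)⁻¹))) * t ^ 2 =
      (deriv (deriv Real.smoothTransition) a * (J : ℝ)⁻¹ - deriv Real.smoothTransition a) *
        (J : ℝ)⁻¹ := by
    simp only [comp_apply, ← ha]
    field_simp
    ring
  have h4 : |deriv (deriv Real.smoothTransition) a * ((J : ℝ)⁻¹ * t⁻¹) * ((J : ℝ)⁻¹ * t⁻¹) +
      (deriv Real.smoothTransition ∘ fun t => 1 + (J : ℝ)⁻¹ * (Real.log t - Real.log (δ ^ 2))) t *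
      ((J : ℝ)⁻¹ * (-(t ^ 2)⁻¹))| * t ^ 2 =
      |deriv (deriv Real.smoothTransition) a * (J : ℝ)⁻¹ - deriv Real.smoothTransition a| *
        (J : ℝ)⁻¹ := by
    have ht2 : 0 < t ^ 2 := by positivity
    rw [← abs_of_pos ht2, ← abs_mul, abs_of_pos ht2, h3, abs_mul, abs_of_pos hJi0]
  rw [h4]
  gcongr
  calc |deriv (deriv Real.smoothTransition) a * (J : ℝ)⁻¹ - deriv Real.smoothTransition a|
      ≤ |deriv (deriv Real.smoothTransition) a * (J : ℝ)⁻¹| +
        |deriv Real.smoothTransition a| := abs_sub _ _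
    _ ≤ M' * 1 + M := by
        rw [abs_mul, abs_of_pos hJi0]
        gcongr
    _ = M + M' := by ring

end Pool.Agent.H93.Exo
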