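import Mathlib
import Pool.Agent.H93.Exo.Prof
import Pool.Agent.H93.Exo.Chain
import Pool.Agent.H93.Exo.Decomp

/-!
Logarithmic squeezing maps along a line.
-/

set_option linter.unusedSectionVars false

namespace Pool.Agent.H93.Exo

open Metric Set Filter Topology Function Module
open scoped ContDiff InnerProductSpace

variable {E : Type*} [NormedAddCommGroup E] [InnerProductSpace ℝ E] [FiniteDimensional ℝ E]

/-- the squared sine of the angle with `p` -/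
noncomputable def tt (p x : E) : ℝ := ‖pr p x‖ ^ 2 * (‖x‖ ^ 2)⁻¹

variable {p : E} (hp : ‖p‖ = 1)

theorem tt_nonneg (x : E) : 0 ≤ tt p x := by unfold tt; positivity

theorem tt_smul (t : ℝ) (x : E) (ht : 0 < t) : tt p (t • x) = tt p x := by
  rw [tt, tt, map_smul, norm_smul, norm_smul, Real.norm_of_nonneg ht.le, mul_pow, mul_pow, mul_inv]
  have : t ^ 2 * ‖pr p x‖ ^ 2 * ((t ^ 2)⁻¹ * (‖x‖ ^ 2)⁻¹) =
      (t ^ 2 * (t ^ 2)⁻¹) * (‖pr p x‖ ^ 2 * (‖x‖ ^ 2)⁻¹) := by ring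
  rw [this, mul_inv_cancel₀ (by positivity), one_mul]

theorem contDiffAt_tt {x : E} (hx : x ≠ 0) : ContDiffAt ℝ ∞ (tt p) x := by
  unfold tt
  have h1 : ContDiffAt ℝ ∞ (fun x : E => ‖pr p x‖ ^ 2) x :=
    ((contDiff_norm_sq ℝ).comp (pr p).contDiff).contDiffAt
  exact h1.mul ((contDiff_norm_sq ℝ).contDiffAt.inv (by
    have := norm_pos_iff.2 hx; positivity))

include hp in
theorem inner_pr_left (x v : E) : ⟪pr p x, pr p v⟫_ℝ = ⟪pr p x, v⟫_ℝ := by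
  rw [pr_apply p v, inner_sub_right, inner_smul_right, inner_pr' hp]; ring

include hp in
theorem hasFDerivAt_tt {x : E} (hx : x ≠ 0) :
    HasFDerivAt (tt p) ((2 * (‖x‖ ^ 2)⁻¹) • innerSL ℝ (pr p x - tt p x • x)) x := by
  have hx' : 0 < ‖x‖ := norm_pos_iff.2 hx
  have h1 : HasFDerivAt (fun x : E => ‖pr p x‖ ^ 2) ((2 • innerSL ℝ (pr p x)).comp (pr p)) x :=
    (hasStrictFDerivAt_norm_sq (pr p x)).hasFDerivAt.comp x (pr p).hasFDerivAt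
  have h2 : HasFDerivAt (fun x : E => ‖x‖ ^ 2) (2 • innerSL ℝ x) x :=
    (hasStrictFDerivAt_norm_sq x).hasFDerivAt
  have h3 := (hasDerivAt_inv (show ‖x‖ ^ 2 ≠ 0 by positivity)).comp_hasFDerivAt x h2
  have h4 := h1.mul h3
  refine h4.congr_fderiv ?_
  ext v
  simp only [add_apply, smul_apply, ContinuousLinearMap.comp_apply, innerSL_apply_apply,
    smul_eq_mul, nsmul_eq_mul, inner_sub_left, inner_smul_left, conj_trivial, Nat.cast_ofNat,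
    comp_apply, inner_pr_left hp]
  unfold tt
  field_simp
  ring

theorem norm_pr_sq {x : E} (hx : x ≠ 0) : ‖pr p x‖ ^ 2 = tt p x * ‖x‖ ^ 2 := by
  have hx' : 0 < ‖x‖ := norm_pos_iff.2 hx
  rw [tt, mul_assoc, inv_mul_cancel₀ (by positivity), mul_one]

include hp in
theorem norm_fderiv_tt_le {x : E} (hx : x ≠ 0) :
    ‖fderiv ℝ (tt p) x‖ * ‖x‖ ^ 2 ≤ 4 * ‖pr p x‖ := by
  have hx' : 0 < ‖x‖ := norm_pos_iff.2 hx
  rw [(hasFDerivAt_tt hp hx).fderiv, norm_smul, innerSL_apply_norm, Real.norm_of_nonneg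
    (by positivity)]
  have h1 : tt p x * ‖x‖ ≤ ‖pr p x‖ := by
    have h2 := norm_pr_le hp x
    rw [tt]
    have h3 : ‖pr p x‖ ^ 2 * (‖x‖ ^ 2)⁻¹ * ‖x‖ = ‖pr p x‖ * (‖pr p x‖ / ‖x‖) := by field_simp
    rw [h3]
    exact mul_le_of_le_one_right (norm_nonneg _) ((div_le_one hx').2 h2)
  have h2 : ‖pr p x - tt p x • x‖ ≤ 2 * ‖pr p x‖ := by
    refine (norm_sub_le _ _).trans ?_
    rw [norm_smul, Real.norm_of_nonneg (tt_nonneg x)]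
    linarith
  calc 2 * (‖x‖ ^ 2)⁻¹ * ‖pr p x - tt p x • x‖ * ‖x‖ ^ 2
      = 2 * ‖pr p x - tt p x • x‖ := by field_simp
    _ ≤ _ := by linarith

variable (p) in
theorem exists_fderiv2_tt_le : ∃ C : ℝ, 0 ≤ C ∧ ∀ x : E, x ≠ 0 →
    ‖fderiv ℝ (fderiv ℝ (tt p)) x‖ * ‖x‖ ^ 2 ≤ C := by
  have h0 : HomDeg 0 (tt p) := fun t x ht _ => by rw [tt_smul t x ht, zpow_zero, one_smul]
  have h1 := h0.fderiv fun x hx => (contDiffAt_tt hx).differentiableAt (by simp)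
  have h2 := h1.fderiv fun x hx => ((contDiffAt_tt hx).fderiv_right (m := ∞)
    (by simp)).differentiableAt (by simp)
  obtain ⟨C, hC, hb⟩ := h2.bound fun x hx => (((contDiffAt_tt hx).fderiv_right (m := ∞)
    (by simp)).fderiv_right (m := ∞) (by simp)).continuousAt
  refine ⟨C, hC, fun x hx => ?_⟩
  have hx' : 0 < ‖x‖ := norm_pos_iff.2 hx
  have h3 := hb x hx
  calc _ ≤ C * ‖x‖ ^ ((0 : ℤ) - 1 - 1) * ‖x‖ ^ 2 := by gcongr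
    _ = C := by
        rw [mul_assoc, ← zpow_natCast, ← zpow_add₀ hx'.ne']
        norm_num

/-- the squeezing map -/
noncomputable def sqz (p : E) (J : ℕ) (δ ε : ℝ) (x : E) : E :=
  (ε + (1 - ε) * prf J δ (tt p x)) • pr p x + ⟪p, x⟫_ℝ • p

variable {J : ℕ} (hJ : 1 ≤ J) {δ ε : ℝ} (hδ : 0 < δ) (hε : 0 < ε) (hε1 : ε ≤ 1)

theorem sqz_smul (t : ℝ) (x : E) (ht : 0 < t) : sqz p J δ ε (t • x) = t • sqz p J δ ε x := by
  rw [sqz, sqz, tt_smul t x ht, map_smul, inner_smul_right, smul_add, smul_smul, smul_smul, smul_smul]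
  congr 2
  ring

include hJ hδ in
theorem contDiffAt_coef {x : E} (hx : x ≠ 0) :
    ContDiffAt ℝ ∞ (fun x => ε + (1 - ε) * prf J δ (tt p x)) x :=
  contDiffAt_const.add (contDiffAt_const.mul
    ((contDiff_prf hJ hδ).contDiffAt.comp x (contDiffAt_tt hx)))

include hJ hδ in
theorem contDiffAt_sqz {x : E} (hx : x ≠ 0) : ContDiffAt ℝ ∞ (sqz p J δ ε) x :=
  ((contDiffAt_coef hJ hδ hx).smul (pr p).contDiff.contDiffAt).add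
    ((innerSL ℝ p).contDiff.contDiffAt.smul contDiffAt_const)

include hε hε1 in
theorem coef_mem (t : ℝ) : ε ≤ ε + (1 - ε) * prf J δ t ∧ ε + (1 - ε) * prf J δ t ≤ 1 := by
  obtain ⟨h1, h2⟩ := prf_mem (J := J) (δ := δ) t
  have h3 : 0 ≤ 1 - ε := by linarith
  constructor
  · nlinarith
  · nlinarith

include hp hε hε1 in
theorem norm_sqz_le (x : E) : ‖sqz p J δ ε x‖ ≤ ‖x‖ := by
  obtain ⟨h1, h2⟩ := coef_mem (J := J) (δ := δ) hε hε1 (tt p x)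
  have h3 := norm_lk_le hp (hε.le.trans h1) h2 x
  rwa [lk_apply] at h3

include hJ hp hδ in
theorem hasFDerivAt_coef {x : E} (hx : x ≠ 0) :
    HasFDerivAt (fun x => ε + (1 - ε) * prf J δ (tt p x))
      ((1 - ε) • (deriv (prf J δ) (tt p x) •
        ((2 * (‖x‖ ^ 2)⁻¹) • innerSL ℝ (pr p x - tt p x • x)))) x := by
  have h1 : HasDerivAt (prf J δ) (deriv (prf J δ) (tt p x)) (tt p x) :=
    ((contDiff_prf hJ hδ).contDiffAt.differentiableAt (by simp)).hasDerivAt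
  exact ((h1.comp_hasFDerivAt x (hasFDerivAt_tt hp hx)).const_mul _).const_add _

include hJ hp hδ in
theorem hasFDerivAt_sqz {x : E} (hx : x ≠ 0) : HasFDerivAt (sqz p J δ ε)
    ((ε + (1 - ε) * prf J δ (tt p x)) • pr p + ((1 - ε) • (deriv (prf J δ) (tt p x) •
        ((2 * (‖x‖ ^ 2)⁻¹) • innerSL ℝ (pr p x - tt p x • x)))).smulRight (pr p x) +
      (innerSL ℝ p).smulRight p) x :=
  ((hasFDerivAt_coef hp hJ hδ hx).smul (pr p).hasFDerivAt).add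
    ((innerSL ℝ p).hasFDerivAt.smul_const p)

include hJ hp hδ hε hε1 in
theorem sqz_mon {M : ℝ} (hM : ∀ t, |deriv Real.smoothTransition t| ≤ M)
    (hsmall : (2 * M * δ) ^ 2 ≤ ε) {x : E} (hx : x ≠ 0) (v : E) :
    ε / 2 * ‖v‖ ^ 2 ≤ ⟪fderiv ℝ (sqz p J δ ε) x v, v⟫_ℝ := by
  have hx' : 0 < ‖x‖ := norm_pos_iff.2 hx
  have hM0 : 0 ≤ M := (abs_nonneg _).trans (hM 0)
  obtain ⟨h1, h2⟩ := coef_mem (J := J) (δ := δ) hε hε1 (tt p x)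
  set c : ℝ := ε + (1 - ε) * prf J δ (tt p x) with hc
  set D : ℝ := deriv (prf J δ) (tt p x) with hD
  set T : ℝ := tt p x with hT
  set a : ℝ := ⟪pr p x, v⟫_ℝ with ha
  have hxv : ⟪x, v⟫_ℝ = a + ⟪p, x⟫_ℝ * ⟪p, v⟫_ℝ := by
    rw [ha, pr_apply, inner_sub_left, inner_smul_left]; simp
  have hvv : ⟪pr p v, v⟫_ℝ = ‖pr p v‖ ^ 2 := by
    rw [← inner_pr_left hp, real_inner_self_eq_norm_sq]
  have e1 : ⟪fderiv ℝ (sqz p J δ ε) x v, v⟫_ℝ = c * ‖pr p v‖ ^ 2 + ⟪p, v⟫_ℝ ^ 2 +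
      (1 - ε) * (D * (2 * (‖x‖ ^ 2)⁻¹ * ((1 - T) * a - T * (⟪p, x⟫_ℝ * ⟪p, v⟫_ℝ)))) * a := by
    rw [(hasFDerivAt_sqz hp hJ hδ hx).fderiv]
    simp only [add_apply, smul_apply, ContinuousLinearMap.smulRight_apply, innerSL_apply_apply,
      smul_eq_mul, inner_add_left, inner_smul_left, conj_trivial, inner_sub_left, hxv, hvv,
      ← ha, ← hc, ← hD, ← hT]
    ring
  have hT1 : T ≤ 1 := by
    have h3 := norm_pr_sq (p := p) hx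
    have h4 := norm_pr_le hp x
    by_contra hcon
    push Not at hcon
    have h5 : ‖pr p x‖ ^ 2 ≤ ‖x‖ ^ 2 := by gcongr
    rw [h3, ← hT] at h5
    have h6 : 0 < ‖x‖ ^ 2 := by positivity
    nlinarith
  have hT0 : 0 ≤ T := tt_nonneg x
  -- the main error term
  have hDT : 0 ≤ D * T ∧ D * T * ‖pr p x‖ ≤ M * (δ * ‖x‖) ∧ 0 ≤ D * a ^ 2 := by
    rcases hT0.eq_or_lt with h0 | h0
    · have h3 := norm_pr_sq (p := p) hx
      rw [← hT, ← h0, zero_mul] at h3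
      have h4 : pr p x = 0 := norm_eq_zero.1 (pow_eq_zero_iff (two_ne_zero) |>.1 h3)
      rw [← h0, mul_zero]
      refine ⟨le_rfl, ?_, ?_⟩
      · rw [zero_mul]; positivity
      · rw [ha, h4, inner_zero_left]; simp
    · have h3 : 0 ≤ D := deriv_prf_nonneg h0
      refine ⟨mul_nonneg h3 hT0, ?_, mul_nonneg h3 (sq_nonneg a)⟩
      by_cases h4 : δ ^ 2 < T
      · have h5 : D = 0 := deriv_prf_zero hδ h4
        rw [h5, zero_mul, zero_mul]; positivity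
      · push Not at h4
        have h5 : D * T ≤ M * (J : ℝ)⁻¹ := deriv_prf_le hM h0
        have hJ0 : (1 : ℝ) ≤ J := by exact_mod_cast hJ
        have h6 : M * (J : ℝ)⁻¹ ≤ M * 1 := by
          gcongr
          exact inv_le_one_of_one_le₀ hJ0
        have h7 : ‖pr p x‖ ≤ δ * ‖x‖ := by
          refine le_of_sq_le_sq ?_ (by positivity)
          rw [norm_pr_sq (p := p) hx, mul_pow]
          gcongr
        have h8 : D * T ≤ M := by linarith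
        exact mul_le_mul h8 h7 (norm_nonneg _) hM0
  obtain ⟨hDT0, hDT1, hDa⟩ := hDT
  have hs := abs_inner_le hp x
  have haa : |a| ≤ ‖pr p x‖ * ‖pr p v‖ := by
    rw [ha, ← inner_pr_left hp]
    exact abs_real_inner_le_norm _ _
  have e2 : |D * T * (‖x‖ ^ 2)⁻¹ * (⟪p, x⟫_ℝ * ⟪p, v⟫_ℝ) * a| ≤
      M * δ * (|⟪p, v⟫_ℝ| * ‖pr p v‖) := by
    rw [abs_mul, abs_mul, abs_mul (⟪p, x⟫_ℝ), abs_of_nonneg (by positivity :
      0 ≤ D * T * (‖x‖ ^ 2)⁻¹)]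
    calc D * T * (‖x‖ ^ 2)⁻¹ * (|⟪p, x⟫_ℝ| * |⟪p, v⟫_ℝ|) * |a|
        ≤ D * T * (‖x‖ ^ 2)⁻¹ * (‖x‖ * |⟪p, v⟫_ℝ|) * (‖pr p x‖ * ‖pr p v‖) := by gcongr
      _ = (D * T * ‖pr p x‖) * (‖x‖⁻¹ * (|⟪p, v⟫_ℝ| * ‖pr p v‖)) := by field_simp
      _ ≤ (M * (δ * ‖x‖)) * (‖x‖⁻¹ * (|⟪p, v⟫_ℝ| * ‖pr p v‖)) := by gcongr
      _ = _ := by field_simp
  have e3 : 2 * (M * δ * (|⟪p, v⟫_ℝ| * ‖pr p v‖)) ≤ ε / 2 * ‖pr p v‖ ^ 2 + 1 / 2 * ⟪p, v⟫_ℝ ^ 2 := by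
    set k : ℝ := 2 * M * δ with hk
    have hk0 : 0 ≤ k := by positivity
    have h3 : 2 * (M * δ * (|⟪p, v⟫_ℝ| * ‖pr p v‖)) = |⟪p, v⟫_ℝ| * (k * ‖pr p v‖) := by
      rw [hk]; ring
    have h4 : (k * ‖pr p v‖) ^ 2 ≤ ε * ‖pr p v‖ ^ 2 := by
      rw [mul_pow]; gcongr
    rw [h3, ← sq_abs ⟪p, v⟫_ℝ]
    nlinarith [sq_nonneg (|⟪p, v⟫_ℝ| - k * ‖pr p v‖)]
  have e4 := neg_abs_le (D * T * (‖x‖ ^ 2)⁻¹ * (⟪p, x⟫_ℝ * ⟪p, v⟫_ℝ) * a)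
  have e5 := le_abs_self (D * T * (‖x‖ ^ 2)⁻¹ * (⟪p, x⟫_ℝ * ⟪p, v⟫_ℝ) * a)
  have e6 : (1 - ε) * (D * (2 * (‖x‖ ^ 2)⁻¹ * ((1 - T) * a - T * (⟪p, x⟫_ℝ * ⟪p, v⟫_ℝ)))) * a =
      (1 - ε) * (2 * (‖x‖ ^ 2)⁻¹ * (1 - T) * (D * a ^ 2)) -
      (1 - ε) * (2 * (D * T * (‖x‖ ^ 2)⁻¹ * (⟪p, x⟫_ℝ * ⟪p, v⟫_ℝ) * a)) := by ring
  have e7 : 0 ≤ (1 - ε) * (2 * (‖x‖ ^ 2)⁻¹ * (1 - T) * (D * a ^ 2)) := by
    have h3 : 0 ≤ 1 - ε := by linarith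
    have h4 : 0 ≤ 1 - T := by linarith
    positivity
  have e8 : (1 - ε) * (2 * (D * T * (‖x‖ ^ 2)⁻¹ * (⟪p, x⟫_ℝ * ⟪p, v⟫_ℝ) * a)) ≤
      ε / 2 * ‖pr p v‖ ^ 2 + 1 / 2 * ⟪p, v⟫_ℝ ^ 2 := by
    have h3 : (1 - ε) * (2 * (D * T * (‖x‖ ^ 2)⁻¹ * (⟪p, x⟫_ℝ * ⟪p, v⟫_ℝ) * a)) ≤
        (1 - ε) * (2 * (M * δ * (|⟪p, v⟫_ℝ| * ‖pr p v‖))) := by
      apply mul_le_mul_of_nonneg_left _ (by linarith)
      linarith
    have h4 : 0 ≤ 2 * (M * δ * (|⟪p, v⟫_ℝ| * ‖pr p v‖)) := by positivity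
    nlinarith
  rw [e1, e6, norm_sq_pr hp v]
  have h5 : ε * ‖pr p v‖ ^ 2 ≤ c * ‖pr p v‖ ^ 2 := by gcongr
  have h6 : 0 ≤ ⟪p, v⟫_ℝ ^ 2 := sq_nonneg _
  have h7 : ε / 2 * ⟪p, v⟫_ℝ ^ 2 ≤ 1 / 2 * ⟪p, v⟫_ℝ ^ 2 := by gcongr
  linarith

end Pool.Agent.H93.Exo
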