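import Mathlib
import Pool.Agent.H93.Exo.Squeeze

/-!
Bounds for the logarithmic squeezing maps.
-/

set_option linter.unusedSectionVars false

namespace Pool.Agent.H93.Exo

open Metric Set Filter Topology Function Module
open scoped ContDiff InnerProductSpace

variable {E : Type*} [NormedAddCommGroup E] [InnerProductSpace ℝ E] [FiniteDimensional ℝ E]

variable {p : E} (hp : ‖p‖ = 1)

variable {J : ℕ} (hJ : 1 ≤ J) {δ ε : ℝ} (hδ : 0 < δ) (hε : 0 < ε) (hε1 : ε ≤ 1)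

/-- the coefficient -/
noncomputable def coef (p : E) (J : ℕ) (δ ε : ℝ) (x : E) : ℝ := ε + (1 - ε) * prf J δ (tt p x)

theorem tt_pos {x : E} (hx : x ≠ 0) (hpx : pr p x ≠ 0) : 0 < tt p x := by
  have h1 := norm_pos_iff.2 hx
  have h2 := norm_pos_iff.2 hpx
  unfold tt
  positivity

include hJ hp hδ in
theorem fderiv_coef {x : E} (hx : x ≠ 0) : fderiv ℝ (coef p J δ ε) x =
    ((1 - ε) * deriv (prf J δ) (tt p x)) • fderiv ℝ (tt p) x := by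
  have h := (hasFDerivAt_coef (ε := ε) hp hJ hδ hx).fderiv
  rw [(hasFDerivAt_tt hp hx).fderiv, mul_smul]
  exact h

include hJ hp hδ hε hε1 in
theorem fderiv_coef_le {M : ℝ} (hM : ∀ t, |deriv Real.smoothTransition t| ≤ M) {x : E}
    (hx : x ≠ 0) : ‖fderiv ℝ (coef p J δ ε) x‖ * ‖pr p x‖ ≤ 4 * M * (J : ℝ)⁻¹ := by
  have hM0 : 0 ≤ M := (abs_nonneg _).trans (hM 0)
  have hx' : 0 < ‖x‖ := norm_pos_iff.2 hx
  by_cases hpx : pr p x = 0
  · rw [hpx, norm_zero, mul_zero]; positivity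
  have hT := tt_pos hx hpx
  have hD := deriv_prf_nonneg (J := J) (δ := δ) hT
  have hDT := deriv_prf_le (J := J) (δ := δ) hM hT
  rw [fderiv_coef hp hJ hδ hx, norm_smul, norm_mul, Real.norm_of_nonneg (by linarith),
    Real.norm_of_nonneg hD]
  have h1 := norm_fderiv_tt_le hp hx
  have h2 : ‖fderiv ℝ (tt p) x‖ ≤ 4 * ‖pr p x‖ * (‖x‖ ^ 2)⁻¹ := by
    rw [← div_eq_mul_inv, le_div_iff₀ (by positivity)]; exact h1
  calc (1 - ε) * deriv (prf J δ) (tt p x) * ‖fderiv ℝ (tt p) x‖ * ‖pr p x‖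
      ≤ 1 * deriv (prf J δ) (tt p x) * (4 * ‖pr p x‖ * (‖x‖ ^ 2)⁻¹) * ‖pr p x‖ := by
        gcongr
        linarith
    _ = 4 * (deriv (prf J δ) (tt p x) * (‖pr p x‖ ^ 2 * (‖x‖ ^ 2)⁻¹)) := by ring
    _ = 4 * (deriv (prf J δ) (tt p x) * tt p x) := rfl
    _ ≤ 4 * M * (J : ℝ)⁻¹ := by linarith

include hJ hp hδ hε hε1 in
theorem fderiv2_coef_le {M M' C : ℝ} (hM : ∀ t, |deriv Real.smoothTransition t| ≤ M)
    (hM' : ∀ t, |deriv (deriv Real.smoothTransition) t| ≤ M')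
    (hC : ∀ x : E, x ≠ 0 → ‖fderiv ℝ (fderiv ℝ (tt p)) x‖ * ‖x‖ ^ 2 ≤ C) {x : E}
    (hx : x ≠ 0) (hpx : pr p x ≠ 0) :
    ‖fderiv ℝ (fderiv ℝ (coef p J δ ε)) x‖ * ‖pr p x‖ ^ 2 ≤
      (16 * (M + M') + C * M) * (J : ℝ)⁻¹ := by
  have hM0 : 0 ≤ M := (abs_nonneg _).trans (hM 0)
  have hx' : 0 < ‖x‖ := norm_pos_iff.2 hx
  have hpx' : 0 < ‖pr p x‖ := norm_pos_iff.2 hpx
  have hT := tt_pos hx hpx
  have hD := deriv_prf_nonneg (J := J) (δ := δ) hT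
  have hDT := deriv_prf_le (J := J) (δ := δ) hM hT
  have hDT2 := deriv2_prf_le hJ (δ := δ) hM hM' hT
  set k : E → ℝ := fun y => (1 - ε) * deriv (prf J δ) (tt p y) with hk
  have hev : fderiv ℝ (coef p J δ ε) =ᶠ[𝓝 x] fun y => k y • fderiv ℝ (tt p) y := by
    filter_upwards [isOpen_compl_singleton.mem_nhds hx] with y hy
    exact fderiv_coef hp hJ hδ hy
  have hs1 : ContDiff ℝ ∞ (deriv (prf J δ)) := by
    have := (contDiff_prf hJ hδ).iterate_deriv 1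
    simpa using this
  have hd : HasDerivAt (deriv (prf J δ)) (deriv (deriv (prf J δ)) (tt p x)) (tt p x) :=
    (hs1.contDiffAt.differentiableAt (by simp)).hasDerivAt
  have hkd : HasFDerivAt k ((1 - ε) • (deriv (deriv (prf J δ)) (tt p x) •
      fderiv ℝ (tt p) x)) x :=
    (hd.comp_hasFDerivAt x ((contDiffAt_tt hx).differentiableAt (by simp)).hasFDerivAt).const_mul _
  have hw : DifferentiableAt ℝ (fderiv ℝ (tt p)) x :=
    ((contDiffAt_tt hx).fderiv_right (m := ∞) (by simp)).differentiableAt (by simp)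
  have h0 : 0 ≤ 1 - ε := by linarith
  have h1 := norm_fderiv_smul_le hkd.differentiableAt hw
  have h2 : ‖fderiv ℝ k x‖ ≤ |deriv (deriv (prf J δ)) (tt p x)| * ‖fderiv ℝ (tt p) x‖ := by
    rw [hkd.fderiv, norm_smul, norm_smul, Real.norm_of_nonneg h0, Real.norm_eq_abs]
    exact mul_le_of_le_one_left (by positivity) (by linarith)
  have h3 : |k x| ≤ deriv (prf J δ) (tt p x) := by
    simp only [hk]
    rw [abs_mul, abs_of_nonneg h0, abs_of_nonneg hD]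
    exact mul_le_of_le_one_left hD (by linarith)
  have h4 : ‖fderiv ℝ (tt p) x‖ ≤ 4 * ‖pr p x‖ * (‖x‖ ^ 2)⁻¹ := by
    rw [← div_eq_mul_inv, le_div_iff₀ (by positivity)]; exact norm_fderiv_tt_le hp hx
  have h5 : ‖fderiv ℝ (fderiv ℝ (tt p)) x‖ ≤ C * (‖x‖ ^ 2)⁻¹ := by
    rw [← div_eq_mul_inv, le_div_iff₀ (by positivity)]; exact hC x hx
  have hC0 : 0 ≤ C := le_trans (by positivity) (hC x hx)
  rw [hev.fderiv_eq]
  calc _ ≤ (|k x| * ‖fderiv ℝ (fderiv ℝ (tt p)) x‖ + ‖fderiv ℝ k x‖ * ‖fderiv ℝ (tt p) x‖) *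
        ‖pr p x‖ ^ 2 := by gcongr
    _ ≤ (deriv (prf J δ) (tt p x) * (C * (‖x‖ ^ 2)⁻¹) +
        (|deriv (deriv (prf J δ)) (tt p x)| * (4 * ‖pr p x‖ * (‖x‖ ^ 2)⁻¹)) *
        (4 * ‖pr p x‖ * (‖x‖ ^ 2)⁻¹)) * ‖pr p x‖ ^ 2 := by
        have h6 : ‖fderiv ℝ k x‖ ≤ |deriv (deriv (prf J δ)) (tt p x)| *
            (4 * ‖pr p x‖ * (‖x‖ ^ 2)⁻¹) := h2.trans (by gcongr)
        gcongr
    _ = C * (deriv (prf J δ) (tt p x) * (‖pr p x‖ ^ 2 * (‖x‖ ^ 2)⁻¹)) +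
        16 * (|deriv (deriv (prf J δ)) (tt p x)| * (‖pr p x‖ ^ 2 * (‖x‖ ^ 2)⁻¹) ^ 2) := by
        ring
    _ = C * (deriv (prf J δ) (tt p x) * tt p x) +
        16 * (|deriv (deriv (prf J δ)) (tt p x)| * tt p x ^ 2) := rfl
    _ ≤ C * (M * (J : ℝ)⁻¹) + 16 * ((M + M') * (J : ℝ)⁻¹) := by gcongr
    _ = _ := by ring

theorem fderiv2_clm {F : Type*} [NormedAddCommGroup F] [NormedSpace ℝ F] (L : E →L[ℝ] F) (x : E) :
    fderiv ℝ (fderiv ℝ (L : E → F)) x = 0 := by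
  have : fderiv ℝ (L : E → F) = fun _ => L := by ext1 y; exact L.fderiv
  rw [this]
  exact (hasFDerivAt_const L x).fderiv

theorem norm_fderiv2_add_clm {F : Type*} [NormedAddCommGroup F] [NormedSpace ℝ F] {f : E → F}
    {x : E} (hf : ContDiffAt ℝ 2 f x) (L : E →L[ℝ] F) :
    fderiv ℝ (fderiv ℝ (fun y => f y + L y)) x = fderiv ℝ (fderiv ℝ f) x := by
  obtain ⟨hf1, hf2⟩ := hasFDerivAt_two hf
  have h1 : fderiv ℝ (fun y => f y + L y) =ᶠ[𝓝 x] fun y => fderiv ℝ f y + L := by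
    filter_upwards [hf1] with y hy
    exact (hy.add L.hasFDerivAt).fderiv
  rw [h1.fderiv_eq]
  exact (hf2.add_const L).fderiv

include hp in
theorem exists_squeeze : ∃ C : ℝ, 0 < C ∧ ∀ J : ℕ, 1 ≤ J → ∀ ε : ℝ, 0 < ε → ε ≤ 1 → ∀ δ : ℝ,
    0 < δ → C * δ ^ 2 ≤ ε → ∃ ρ : Con E, FlatF ρ.f ∧ (∀ x, ‖ρ.f x‖ ≤ ‖x‖) ∧
      (∀ x, x ≠ 0 → ‖fderiv ℝ ρ.f x‖ ≤ C) ∧
      (∀ x, pr p x ≠ 0 → ‖fderiv ℝ (fderiv ℝ ρ.f) x‖ * ‖pr p x‖ ≤ C * (J : ℝ)⁻¹) ∧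
      (∀ x, δ * ‖x‖ ≤ ‖pr p x‖ → ρ.f x = x) ∧
      (∀ x, ‖pr p x‖ ≤ (2⁻¹ : ℝ) ^ J * δ * ‖x‖ → ρ.f x = lk p ε x) := by
  obtain ⟨M, hM0, hM⟩ := exists_deriv_smoothTransition_le
  obtain ⟨M', hM'0, hM'⟩ := exists_deriv2_smoothTransition_le
  obtain ⟨C, hC0, hC⟩ := exists_fderiv2_tt_le p
  set C1 : ℝ := 2 + 4 * M ^ 2 + 4 * M + (8 * M + (16 * (M + M') + C * M)) with hC1
  refine ⟨C1, by positivity, fun J hJ ε hε hε1 δ hδ hsmall => ?_⟩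
  have hJ0 : (1 : ℝ) ≤ J := by exact_mod_cast hJ
  have hJi : (J : ℝ)⁻¹ ≤ 1 := inv_le_one_of_one_le₀ hJ0
  have hsm : (2 * M * δ) ^ 2 ≤ ε := by
    refine le_trans ?_ hsmall
    have h1 : 4 * M ^ 2 ≤ C1 := by
      rw [hC1]
      have : 0 ≤ C * M := by positivity
      nlinarith
    calc (2 * M * δ) ^ 2 = 4 * M ^ 2 * δ ^ 2 := by ring
      _ ≤ C1 * δ ^ 2 := by gcongr
  obtain ⟨ρ, hρ, hF⟩ := exists_con_of_mon (N := sqz p J δ ε)
    (fun x hx => contDiffAt_sqz hJ hδ hx) (fun t x ht => sqz_smul t x ht) (half_pos hε)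
    (by linarith) (fun x hx v => sqz_mon hp hJ hδ hε hε1 hM hsm hx v)
  refine ⟨ρ, by rw [hρ]; exact hF, fun x => by rw [hρ]; exact norm_sqz_le hp hε hε1 x,
    fun x hx => ?_, fun x hpx => ?_, fun x hx => ?_, fun x hx => ?_⟩
  · rw [hρ, (hasFDerivAt_sqz hp hJ hδ hx).fderiv]
    have h1 : ‖(innerSL ℝ p).smulRight p‖ ≤ 1 := by
      rw [ContinuousLinearMap.norm_smulRight_apply, innerSL_apply_norm, hp, one_mul]
    obtain ⟨h2, h3⟩ := coef_mem (J := J) (δ := δ) hε hε1 (tt p x)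
    have h4 := fderiv_coef_le hp hJ hδ hε hε1 hM hx
    have h5 : fderiv ℝ (coef p J δ ε) x = (1 - ε) • (deriv (prf J δ) (tt p x) •
        ((2 * (‖x‖ ^ 2)⁻¹) • innerSL ℝ (pr p x - tt p x • x))) :=
      (hasFDerivAt_coef (ε := ε) hp hJ hδ hx).fderiv
    rw [← h5]
    have h6 : ‖(ε + (1 - ε) * prf J δ (tt p x)) • pr p‖ ≤ 1 := by
      rw [norm_smul, Real.norm_of_nonneg (hε.le.trans h2)]
      exact mul_le_one₀ h3 (norm_nonneg _) (norm_pr_op hp)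
    have h7 : ‖(fderiv ℝ (coef p J δ ε) x).smulRight (pr p x)‖ ≤ 4 * M := by
      rw [ContinuousLinearMap.norm_smulRight_apply]
      refine h4.trans ?_
      exact mul_le_of_le_one_right (by positivity) hJi
    have h8 : 2 + 4 * M ≤ C1 := by
      rw [hC1]
      have h9 : 0 ≤ C * M := by positivity
      nlinarith [sq_nonneg M]
    calc _ ≤ (1 + 4 * M) + 1 := norm_add_le_of_le (norm_add_le_of_le h6 h7) h1
      _ ≤ C1 := by linarith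
  · have hx : x ≠ 0 := by
      rintro rfl
      exact hpx (map_zero _)
    have hpx' : 0 < ‖pr p x‖ := norm_pos_iff.2 hpx
    have e1 : ContDiffAt ℝ ∞ (coef p J δ ε) x := contDiffAt_coef hJ hδ hx
    have e2 : ContDiffAt ℝ ∞ (fun y => coef p J δ ε y • pr p y) x :=
      e1.smul (pr p).contDiff.contDiffAt
    have e3 : ρ.f = fun y => (coef p J δ ε y • pr p y) + ((innerSL ℝ p).smulRight p) y := by
      rw [hρ]; rfl
    rw [e3, norm_fderiv2_add_clm (e2.of_le (by norm_cast))]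
    have e4 := norm_fderiv2_smul_le (e1.of_le (by norm_cast) : ContDiffAt ℝ 2 (coef p J δ ε) x)
      ((pr p).contDiff.contDiffAt (x := x) (n := 2))
    have e0 : ‖fderiv ℝ (fderiv ℝ (pr p)) x‖ = 0 := by
      rw [fderiv2_clm]; exact norm_zero (E := E →L[ℝ] E →L[ℝ] E)
    rw [e0, mul_zero, zero_add, (pr p).fderiv] at e4
    have e5 := fderiv_coef_le hp hJ hδ hε hε1 hM hx
    have e6 := fderiv2_coef_le hp hJ hδ hε hε1 hM hM' hC hx hpx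
    have e7 := norm_pr_op hp
    calc _ ≤ (2 * (‖fderiv ℝ (coef p J δ ε) x‖ * ‖pr p‖) +
          ‖fderiv ℝ (fderiv ℝ (coef p J δ ε)) x‖ * ‖pr p x‖) * ‖pr p x‖ := by gcongr
      _ ≤ (2 * (‖fderiv ℝ (coef p J δ ε) x‖ * 1) +
          ‖fderiv ℝ (fderiv ℝ (coef p J δ ε)) x‖ * ‖pr p x‖) * ‖pr p x‖ := by gcongr
      _ = 2 * (‖fderiv ℝ (coef p J δ ε) x‖ * ‖pr p x‖) +
          ‖fderiv ℝ (fderiv ℝ (coef p J δ ε)) x‖ * ‖pr p x‖ ^ 2 := by ring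
      _ ≤ 2 * (4 * M * (J : ℝ)⁻¹) + (16 * (M + M') + C * M) * (J : ℝ)⁻¹ := by gcongr
      _ = (8 * M + (16 * (M + M') + C * M)) * (J : ℝ)⁻¹ := by ring
      _ ≤ C1 * (J : ℝ)⁻¹ := by
          gcongr
          rw [hC1]
          have : 0 ≤ 2 + 4 * M ^ 2 + 4 * M := by positivity
          linarith
  · rw [hρ]
    by_cases hx0 : x = 0
    · rw [hx0]; simp [sqz]
    have hx' : 0 < ‖x‖ := norm_pos_iff.2 hx0
    have h1 : δ ^ 2 ≤ tt p x := by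
      rw [tt, ← div_eq_mul_inv, le_div_iff₀ (by positivity), ← mul_pow]
      gcongr
    rw [sqz, prf_one hδ h1, pr_apply]
    have : ε + (1 - ε) * 1 = 1 := by ring
    rw [this, one_smul]; abel
  · rw [hρ]
    by_cases hx0 : x = 0
    · rw [hx0]; simp [sqz]
    have hx' : 0 < ‖x‖ := norm_pos_iff.2 hx0
    have h1 : tt p x ≤ ((2⁻¹ : ℝ) ^ J * δ) ^ 2 := by
      rw [tt, ← div_eq_mul_inv, div_le_iff₀ (by positivity), ← mul_pow]
      gcongr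
    rw [sqz, prf_zero hJ hδ h1, lk_apply, mul_zero, add_zero]

end Pool.Agent.H93.Exo
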