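import Mathlib
import Pool.Agent.H93.Exo.Decomp

/-!
The twist along a ray which makes a homogeneous homeomorphism extendable.
-/

set_option linter.unusedSectionVars false

namespace Pool.Agent.H93.Exo

open Metric Set Filter Topology Function Module
open scoped ContDiff InnerProductSpace Manifold NNReal

variable {E : Type*} [NormedAddCommGroup E] [InnerProductSpace ℝ E] [FiniteDimensional ℝ E]

variable {p : E} (hp : ‖p‖ = 1)

include hp in
/-- a map conjugate to the inverse of `α`, supported in a cone about `-p` -/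
theorem exists_conj (α : Con E) {τ : ℝ} (hτ : 0 < τ) (hτ1 : τ ≤ 1)
    (hα : ∀ x, (1 - τ) * ‖x‖ ≤ ⟪p, x⟫_ℝ → α.f x = x) :
    ∃ N : Con E, FlatF N.f ∧ ∀ x, -(1 / 8 * ‖x‖) ≤ ⟪p, x⟫_ℝ → N.f (α.g (N.g x)) = x := by
  obtain ⟨Q1, hQ1, hQ1F⟩ := exists_push hp
  have hμ0 : 0 < τ / 8 := by positivity
  have hμ1 : τ / 8 ≤ 1 := by linarith
  set Q : Con E := (Lk hp hμ0.ne').comp Q1 with hQ
  have hQF : FlatF Q.f := (flatF_Lk hp hμ0 hμ1).comp Q1 hQ1F
  refine ⟨Q.symm, FlatF.symm hQF, fun x hx => ?_⟩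
  change Q.g (α.g (Q.f x)) = x
  have hQx : Q.f x = lk p (τ / 8) (x + (1 / 4 * ‖x‖) • p) := by
    rw [← hQ1]; rfl
  have h1 : α.f (Q.f x) = Q.f x := by
    refine hα _ ?_
    rw [hQx, inner_lk hp]
    set y : E := x + (1 / 4 * ‖x‖) • p with hy
    have h2 : ⟪p, y⟫_ℝ = ⟪p, x⟫_ℝ + 1 / 4 * ‖x‖ := by
      rw [hy, inner_add_right, inner_smul_right, real_inner_self_eq_norm_sq, hp]; ring
    have h3 : pr p y = pr p x := by
      rw [pr_apply, pr_apply, h2, hy, add_smul]; abel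
    have h4 : ‖lk p (τ / 8) y‖ ≤ τ / 8 * ‖x‖ + ⟪p, y⟫_ℝ := by
      rw [lk_apply, h3]
      refine (norm_add_le _ _).trans ?_
      rw [norm_smul, norm_smul, hp, Real.norm_of_nonneg hμ0.le, mul_one, Real.norm_of_nonneg (by
        rw [h2]; linarith [norm_nonneg x])]
      have := norm_pr_le hp x
      gcongr
    have h5 : (1 - τ) * ‖lk p (τ / 8) y‖ ≤ (1 - τ) * (τ / 8 * ‖x‖ + ⟪p, y⟫_ℝ) :=
      mul_le_mul_of_nonneg_left h4 (by linarith)
    have h6 : 1 / 8 * ‖x‖ ≤ ⟪p, y⟫_ℝ := by rw [h2]; linarith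
    have h7 : 0 ≤ ‖x‖ := norm_nonneg x
    nlinarith [mul_nonneg hτ.le h7, mul_nonneg (mul_nonneg hτ.le hτ.le) h7,
      mul_le_mul_of_nonneg_left h6 hτ.le]
  have h2 : α.g (Q.f x) = Q.f x := by
    nth_rewrite 1 [← h1]
    rw [α.gf]
  rw [h2, Q.gf]

include hp in
theorem exists_twist (G : Con E) : ∃ u : Con E,
    (∀ x, -(1 / 8 * ‖x‖) ≤ ⟪p, x⟫_ℝ → u.f x = x) ∧ (∀ x, ⟪p, u.f x⟫_ℝ = ⟪p, x⟫_ℝ) ∧
    ∀ κ : ℝ, 0 < κ → κ ≤ 1 → ExtF (fun x => G.f (lk p κ (u.f (lk p κ⁻¹ x)))) := by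
  obtain ⟨A, K, α, τ, hτ, hτ1, hKF, hG, hα⟩ := exists_decomp hp G
  obtain ⟨N, hNF, hN⟩ := exists_conj hp α hτ hτ1 hα
  set U : Con E := N.comp (α.symm.comp N.symm) with hU
  have hU1 : ∀ x, -(1 / 8 * ‖x‖) ≤ ⟪p, x⟫_ℝ → U.f x = x := hN
  have hU2 : ∀ x, ⟪p, x⟫_ℝ < -(1 / 8 * ‖x‖) → ⟪p, U.f x⟫_ℝ < -(1 / 8 * ‖U.f x‖) := by
    intro x hx
    by_contra hcon
    push Not at hcon
    have h1 := hU1 _ hcon
    have h2 : U.f x = x := by
      rw [← U.gf (U.f x), h1, U.gf]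
    rw [h2] at hcon
    linarith
  have hneg : ∀ x, ⟪p, x⟫_ℝ < 0 → ⟪p, U.f x⟫_ℝ < 0 := by
    intro x hx
    by_cases h1 : ⟪p, x⟫_ℝ < -(1 / 8 * ‖x‖)
    · have := hU2 x h1
      linarith [norm_nonneg (U.f x)]
    · push Not at h1
      rw [hU1 x h1]; exact hx
  set ν : E → ℝ := fun x => if ⟪p, x⟫_ℝ < 0 then ⟪p, x⟫_ℝ / ⟪p, U.f x⟫_ℝ else 1 with hν
  have hν1 : ∀ x, x ≠ 0 → -(1 / 8 * ‖x‖) ≤ ⟪p, x⟫_ℝ → ν x = 1 := by
    intro x _ hx
    simp only [hν]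
    split_ifs with h
    · rw [hU1 x hx, div_self h.ne]
    · rfl
  have hpos : ∀ x, x ≠ 0 → 0 < ν x := by
    intro x _
    simp only [hν]
    split_ifs with h
    · exact div_pos_of_neg_of_neg h (hneg x h)
    · exact one_pos
  have hdeg : ∀ (t : ℝ) (x : E), 0 < t → x ≠ 0 → ν (t • x) = ν x := by
    intro t x ht _
    simp only [hν, inner_smul_right, U.hom t x ht]
    have h1 : t * ⟪p, x⟫_ℝ < 0 ↔ ⟪p, x⟫_ℝ < 0 :=
      ⟨fun h => by by_contra hcon; push Not at hcon; linarith [mul_nonneg ht.le hcon],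
        fun h => mul_neg_of_pos_of_neg ht h⟩
    simp only [h1]
    rw [mul_div_mul_left _ _ ht.ne']
  have hsm : ∀ x, x ≠ 0 → ContDiffAt ℝ ∞ ν x := by
    intro x hx
    have hx' : 0 < ‖x‖ := norm_pos_iff.2 hx
    have hc : Continuous fun y : E => ⟪p, y⟫_ℝ := (innerSL ℝ p).continuous
    by_cases h : ⟪p, x⟫_ℝ < 0
    · have h1 : ContDiffAt ℝ ∞ (fun y => ⟪p, y⟫_ℝ / ⟪p, U.f y⟫_ℝ) x :=
        ((innerSL ℝ p).contDiff.contDiffAt).div
          ((innerSL ℝ p).contDiff.contDiffAt.comp x (U.hf x hx)) (hneg x h).ne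
      refine h1.congr_of_eventuallyEq ?_
      filter_upwards [hc.continuousAt.eventually_lt_const h] with y hy
      simp only [hν]
      rw [if_pos hy]
    · push Not at h
      refine (contDiffAt_const (c := (1 : ℝ))).congr_of_eventuallyEq ?_
      have h2 : ∀ᶠ y in 𝓝 x, 0 < ⟪p, y⟫_ℝ + 1 / 8 * ‖y‖ := by
        have hc2 : Continuous fun y : E => ⟪p, y⟫_ℝ + 1 / 8 * ‖y‖ := by fun_prop
        refine hc2.continuousAt.eventually_const_lt ?_
        positivity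
      filter_upwards [h2, isOpen_compl_singleton.mem_nhds hx] with y hy hy0
      exact hν1 y hy0 (by linarith)
  set D : Con E := Con.dil ν hpos hdeg hsm with hD
  have hDF : FlatF D.f := flatF_dil ν hpos hdeg hsm
  set u : Con E := U.comp D with hu
  have hux : ∀ x, u.f x = U.f (ν x • x) := fun x => rfl
  refine ⟨u, fun x hx => ?_, fun x => ?_, fun κ h0 h1 => ?_⟩
  · by_cases hx0 : x = 0
    · rw [hx0, u.f_zero]
    · rw [hux, hν1 x hx0 hx, one_smul, hU1 x hx]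
  · by_cases hx0 : x = 0
    · rw [hx0, u.f_zero]
    · rw [hux, U.hom _ _ (hpos x hx0), inner_smul_right]
      by_cases h : ⟪p, x⟫_ℝ < 0
      · have h2 : ν x = ⟪p, x⟫_ℝ / ⟪p, U.f x⟫_ℝ := by simp only [hν]; rw [if_pos h]
        rw [h2, div_mul_cancel₀ _ (hneg x h).ne]
      · push Not at h
        have h3 : -(1 / 8 * ‖x‖) ≤ ⟪p, x⟫_ℝ := by linarith [norm_nonneg x]
        rw [hν1 x hx0 h3, hU1 x h3, one_mul]
  · set L : Con E := Lk hp h0.ne' with hL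
    have hLF : FlatF L.f := flatF_Lk hp h0 h1
    set M : Con E := L.comp N with hM
    have hMF : FlatF M.f := hLF.comp N hNF
    set c : Con E := α.comp (M.comp (α.symm.comp M.symm)) with hc
    have hcE : ExtF c.f := extF_commutator α M hMF
    set D' : Con E := L.comp (D.comp L.symm) with hD'
    have hD'F : FlatF D'.f := hLF.comp _ (hDF.comp _ (FlatF.symm hLF))
    have e1 : ExtF (fun x => A (K.f x)) := (extF_ofLin A).comp K hKF.extF
    have e2 : ExtF (fun x => A (K.f (c.f x))) := e1.comp c hcE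
    have e3 : ExtF (fun x => A (K.f (c.f (D'.f x)))) := e2.comp D' hD'F.extF
    have e4 : (fun x => G.f (lk p κ (u.f (lk p κ⁻¹ x)))) =
        fun x => A (K.f (c.f (D'.f x))) := by
      ext1 x
      rw [hG]
      congr 2
      change α.f (lk p κ (N.f (α.g (N.g (D.f (lk p κ⁻¹ x)))))) =
        α.f (L.f (N.f (α.g (N.g (L.g (L.f (D.f (L.g x))))))))
      rw [L.gf]
      rfl
    rw [e4]
    exact e3

end Pool.Agent.H93.Exo
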