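import Mathlib
import Pool.Agent.H93.Exo.Squeeze2
import Pool.Agent.H93.Exo.Twist

/-!
The combination of the twist and the squeezing map, with bounds.
-/

set_option linter.unusedSectionVars false

namespace Pool.Agent.H93.Exo

open Metric Set Filter Topology Function Module
open scoped ContDiff InnerProductSpace

variable {E : Type*} [NormedAddCommGroup E] [InnerProductSpace ℝ E] [FiniteDimensional ℝ E]

variable {p : E} (hp : ‖p‖ = 1)

/-- bounds for `u - id` -/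
theorem exists_h_bounds (u : Con E) : ∃ H : ℝ, 0 < H ∧ (∀ x, ‖u.f x - x‖ ≤ H * ‖x‖) ∧
    (∀ x, ‖u.f x‖ ≤ H * ‖x‖) ∧
    (∀ x, x ≠ 0 → ‖fderiv ℝ (fun y => u.f y - y) x‖ ≤ H) ∧
    ∀ x, x ≠ 0 → ‖fderiv ℝ (fderiv ℝ (fun y => u.f y - y)) x‖ * ‖x‖ ≤ H := by
  set h : E → E := fun y => u.f y - y with hh
  have hs : ∀ x, x ≠ 0 → ContDiffAt ℝ ∞ h x := fun x hx => (u.hf x hx).sub contDiffAt_id
  have hom : ∀ (t : ℝ) (x : E), 0 < t → h (t • x) = t • h x := fun t x ht => by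
    simp only [hh, u.hom t x ht, smul_sub]
  obtain ⟨A, hA, hAb⟩ := hom_bound hom fun x hx => (hs x hx).continuousAt
  obtain ⟨B, hB, hBb⟩ := u.upper
  have h1 := (homDeg_one_of hom).fderiv fun x hx => (hs x hx).differentiableAt (by simp)
  obtain ⟨C, hC, hCb⟩ := h1.bound fun x hx => ((hs x hx).fderiv_right (m := ∞)
    (by simp)).continuousAt
  have h2 := h1.fderiv fun x hx => ((hs x hx).fderiv_right (m := ∞) (by simp)).differentiableAt
    (by simp)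
  obtain ⟨D, hD, hDb⟩ := h2.bound fun x hx => (((hs x hx).fderiv_right (m := ∞)
    (by simp)).fderiv_right (m := ∞) (by simp)).continuousAt
  refine ⟨A + B + C + D, by positivity, fun x => (hAb x).trans ?_, fun x => (hBb x).trans ?_,
    fun x hx => ?_, fun x hx => ?_⟩
  · gcongr; linarith
  · gcongr; linarith
  · have := hCb x hx
    rw [sub_self, zpow_zero, mul_one] at this
    linarith
  · have hx' : 0 < ‖x‖ := norm_pos_iff.2 hx
    have := hDb x hx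
    calc _ ≤ D * ‖x‖ ^ ((1 : ℤ) - 1 - 1) * ‖x‖ := by gcongr
      _ = D := by
          rw [mul_assoc]
          norm_num
          rw [inv_mul_cancel₀ hx'.ne', mul_one]
      _ ≤ _ := by linarith

include hp in
theorem exists_combo (G : Con E) : ∃ C : ℝ, 0 < C ∧ ∀ J : ℕ, 1 ≤ J → ∃ (δ : ℝ) (v : Con E),
    0 < δ ∧ δ ≤ (J : ℝ)⁻¹ ∧ ExtF (fun x => G.f (v.f x)) ∧ (∀ x, ‖v.f x‖ ≤ C * ‖x‖) ∧
    (∀ x, x ≠ 0 → ‖fderiv ℝ v.f x‖ ≤ C) ∧
    (∀ x, δ * ‖x‖ < ‖pr p x‖ → v.f =ᶠ[𝓝 x] id) ∧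
    (∀ x, (2⁻¹ : ℝ) ^ J * δ * ‖x‖ < ‖pr p x‖ →
      ‖fderiv ℝ (fderiv ℝ v.f) x‖ * ‖pr p x‖ ≤ C * (J : ℝ)⁻¹) ∧
    (∀ x, x ≠ 0 → ‖pr p x‖ ≤ (2⁻¹ : ℝ) ^ J * δ * ‖x‖ →
      ‖fderiv ℝ (fderiv ℝ v.f) x‖ * ((2⁻¹ : ℝ) ^ J * δ * ‖x‖) ≤ C * (J : ℝ)⁻¹) := by
  obtain ⟨u, hu1, hu2, hu3⟩ := exists_twist hp G
  obtain ⟨H, hH, hH0, hHu, hH1, hH2⟩ := exists_h_bounds u
  obtain ⟨Cs, hCs, hsq⟩ := exists_squeeze hp
  set C : ℝ := 1 + H + Cs + 16 * (H + 1) * H with hC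
  have hC0 : 0 < C := by positivity
  refine ⟨C, hC0, fun J hJ => ?_⟩
  have hJ0 : (1 : ℝ) ≤ J := by exact_mod_cast hJ
  have hJi : (J : ℝ)⁻¹ ≤ 1 := inv_le_one_of_one_le₀ hJ0
  have hJp : 0 < (J : ℝ)⁻¹ := by positivity
  set ε : ℝ := (J : ℝ)⁻¹ with hε
  set δ : ℝ := ε / (Cs + 1) with hδ
  have hδ0 : 0 < δ := by positivity
  have hδε : δ ≤ ε := div_le_self hJp.le (by linarith)
  have hδ1 : δ ≤ 1 := hδε.trans hJi
  have hsmall : Cs * δ ^ 2 ≤ ε := by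
    calc Cs * δ ^ 2 ≤ (Cs + 1) * δ * δ := by nlinarith [sq_nonneg δ]
      _ = ε * δ := by rw [hδ]; field_simp
      _ ≤ ε * 1 := by gcongr
      _ = ε := mul_one ε
  obtain ⟨ρ, hρF, hρ0, hρ1, hρ2, hρid, hρlk⟩ := hsq J hJ ε hJp hJi δ hδ0 hsmall
  set co : ℝ := (2⁻¹ : ℝ) ^ J * δ with hco
  have hco0 : 0 < co := by positivity
  have hcoδ : co ≤ δ := by
    rw [hco]
    exact mul_le_of_le_one_left hδ0.le (pow_le_one₀ (by norm_num) (by norm_num))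
  set κ : ℝ := co / (16 * (H + 1)) with hκ
  have hκ0 : 0 < κ := by positivity
  have hκc : 16 * κ * (H + 1) = co := by rw [hκ]; field_simp
  have hκ16 : 16 * κ ≤ co := by
    rw [← hκc]
    nlinarith [mul_pos hκ0 hH]
  have hκH : 16 * κ * H ≤ co := by
    rw [← hκc]; nlinarith
  have hκ1 : κ ≤ 1 := by linarith
  set uk : Con E := (Lk hp hκ0.ne').comp (u.comp (Lk hp hκ0.ne').symm) with huk
  have hukx : ∀ x, uk.f x = lk p κ (u.f (lk p κ⁻¹ x)) := fun x => rfl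
  set v : Con E := ρ.comp uk with hv
  have hvx : ∀ x, v.f x = ρ.f (uk.f x) := fun x => rfl
  -- the formula for `uk`
  have hform : ∀ (a : ℝ) (y : E), lk p a (u.f y) = lk p a y + a • (u.f y - y) := by
    intro a y
    have h1 : ⟪p, u.f y - y⟫_ℝ = 0 := by rw [inner_sub_right, hu2, sub_self]
    have h2 : u.f y = y + (u.f y - y) := by abel
    nth_rewrite 1 [h2]
    rw [map_add, lk_apply p a (u.f y - y), pr_apply, h1]
    simp
  have huk' : ∀ x, uk.f x = x + κ • (u.f (lk p κ⁻¹ x) - lk p κ⁻¹ x) := by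
    intro x
    rw [hukx, hform, lk_lk hp, mul_inv_cancel₀ hκ0.ne', lk_one hp]
  have hy0 : ∀ x, x ≠ 0 → lk p κ⁻¹ x ≠ 0 := by
    intro x hx h
    have := norm_lk_inv_ge hp hκ0 hκ1 x
    rw [h, norm_zero] at this
    exact hx (norm_le_zero_iff.1 this)
  have hlc : Continuous fun x : E => lk p κ⁻¹ x := (lk p κ⁻¹).continuous
  -- case I
  have hcase1 : ∀ x, -(1 / 8 * ‖lk p κ⁻¹ x‖) < ⟪p, lk p κ⁻¹ x⟫_ℝ → v.f =ᶠ[𝓝 x] ρ.f := by
    intro x hx
    have h1 : ∀ᶠ y in 𝓝 x, 0 < ⟪p, lk p κ⁻¹ y⟫_ℝ + 1 / 8 * ‖lk p κ⁻¹ y‖ := by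
      have hc : Continuous fun y : E => ⟪p, lk p κ⁻¹ y⟫_ℝ + 1 / 8 * ‖lk p κ⁻¹ y‖ := by fun_prop
      exact hc.continuousAt.eventually_const_lt (by linarith)
    filter_upwards [h1] with y hy
    rw [hvx, huk', hu1 _ (by linarith), sub_self, smul_zero, add_zero]
  -- case II
  have hII : ∀ x, ⟪p, lk p κ⁻¹ x⟫_ℝ < -(1 / 16 * ‖lk p κ⁻¹ x‖) →
      ‖pr p x‖ ≤ 16 * κ * ‖x‖ ∧ ‖pr p (uk.f x)‖ ≤ co * ‖uk.f x‖ := by
    intro x hx
    set y : E := lk p κ⁻¹ x with hy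
    have h1 : ⟪p, y⟫_ℝ = ⟪p, x⟫_ℝ := inner_lk hp _ _
    have h2 : ‖y‖ ≤ 16 * |⟪p, x⟫_ℝ| := by
      rw [h1] at hx
      rw [abs_of_neg (by linarith [norm_nonneg y])]
      linarith
    have h3 : pr p x = κ • pr p y := by
      rw [hy, pr_lk hp, smul_smul, mul_inv_cancel₀ hκ0.ne', one_smul]
    constructor
    · rw [h3, norm_smul, Real.norm_of_nonneg hκ0.le]
      calc κ * ‖pr p y‖ ≤ κ * (16 * |⟪p, x⟫_ℝ|) := by
            gcongr; exact (norm_pr_le hp y).trans h2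
        _ ≤ κ * (16 * ‖x‖) := by
            gcongr; exact abs_inner_le hp x
        _ = _ := by ring
    · rw [hukx, pr_lk hp, norm_smul, Real.norm_of_nonneg hκ0.le]
      have h4 : |⟪p, x⟫_ℝ| ≤ ‖lk p κ (u.f y)‖ := by
        have := abs_inner_le hp (lk p κ (u.f y))
        rwa [inner_lk hp, hu2, h1] at this
      calc κ * ‖pr p (u.f y)‖ ≤ κ * (H * (16 * |⟪p, x⟫_ℝ|)) := by
            gcongr
            exact (norm_pr_le hp _).trans ((hHu y).trans (by gcongr))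
        _ = 16 * κ * H * |⟪p, x⟫_ℝ| := by ring
        _ ≤ co * ‖lk p κ (u.f y)‖ := by gcongr
  have hcase2 : ∀ x, ⟪p, lk p κ⁻¹ x⟫_ℝ < -(1 / 16 * ‖lk p κ⁻¹ x‖) →
      v.f =ᶠ[𝓝 x] fun y => (ε * κ) • ((fun z => u.f z - z) (lk p κ⁻¹ y)) + lk p ε y := by
    intro x hx
    have h1 : ∀ᶠ y in 𝓝 x, ⟪p, lk p κ⁻¹ y⟫_ℝ + 1 / 16 * ‖lk p κ⁻¹ y‖ < 0 := by
      have hc : Continuous fun y : E => ⟪p, lk p κ⁻¹ y⟫_ℝ + 1 / 16 * ‖lk p κ⁻¹ y‖ := by fun_prop
      exact hc.continuousAt.eventually_lt_const (by linarith)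
    filter_upwards [h1] with y hy
    have h2 := (hII y (by linarith)).2
    rw [hvx, hρlk _ h2, hukx, lk_lk hp, hform, lk_lk hp, mul_assoc ε κ κ⁻¹,
      mul_inv_cancel₀ hκ0.ne', mul_one, add_comm]
  have hcases : ∀ x, x ≠ 0 → -(1 / 8 * ‖lk p κ⁻¹ x‖) < ⟪p, lk p κ⁻¹ x⟫_ℝ ∨
      ⟪p, lk p κ⁻¹ x⟫_ℝ < -(1 / 16 * ‖lk p κ⁻¹ x‖) := by
    intro x hx
    by_contra hcon
    push Not at hcon
    have := norm_pos_iff.2 (hy0 x hx)
    linarith [hcon.1, hcon.2]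
  have hnot2 : ∀ x, co * ‖x‖ < ‖pr p x‖ → -(1 / 8 * ‖lk p κ⁻¹ x‖) < ⟪p, lk p κ⁻¹ x⟫_ℝ := by
    intro x hx
    have hx0 : x ≠ 0 := by
      rintro rfl
      simp at hx
    rcases hcases x hx0 with h | h
    · exact h
    · exfalso
      have h1 := (hII x h).1
      have h2 : 16 * κ * ‖x‖ ≤ co * ‖x‖ := by gcongr
      linarith
  -- derivatives in case II
  have hs : ∀ x, x ≠ 0 → ContDiffAt ℝ ∞ (fun z => u.f z - z) x := fun x hx =>
    (u.hf x hx).sub contDiffAt_id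
  have hd1 : ∀ x, x ≠ 0 → ⟪p, lk p κ⁻¹ x⟫_ℝ < -(1 / 16 * ‖lk p κ⁻¹ x‖) →
      ‖fderiv ℝ v.f x‖ ≤ H + 1 := by
    intro x hx hx2
    have h1 : HasFDerivAt (fun y => (ε * κ) • ((fun z => u.f z - z) (lk p κ⁻¹ y)) + lk p ε y)
        ((ε * κ) • (fderiv ℝ (fun z => u.f z - z) (lk p κ⁻¹ x)).comp (lk p κ⁻¹) + lk p ε) x :=
      ((((hs _ (hy0 x hx)).differentiableAt (by simp)).hasFDerivAt.comp x
        (lk p κ⁻¹).hasFDerivAt).const_smul _).add (lk p ε).hasFDerivAt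
    rw [(hcase2 x hx2).fderiv_eq, h1.fderiv]
    refine norm_add_le_of_le ?_ (norm_lk_op hp hJp.le hJi)
    rw [norm_smul, Real.norm_of_nonneg (by positivity)]
    calc ε * κ * ‖(fderiv ℝ (fun z => u.f z - z) (lk p κ⁻¹ x)).comp (lk p κ⁻¹)‖
        ≤ ε * κ * (H * κ⁻¹) := by
          gcongr
          refine (ContinuousLinearMap.opNorm_comp_le _ _).trans ?_
          gcongr
          · exact hH1 _ (hy0 x hx)
          · exact norm_lk_inv_op hp hκ0 hκ1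
      _ = ε * H := by field_simp
      _ ≤ 1 * H := by gcongr
      _ = H := one_mul H
  have hd2 : ∀ x, x ≠ 0 → ⟪p, lk p κ⁻¹ x⟫_ℝ < -(1 / 16 * ‖lk p κ⁻¹ x‖) →
      ‖fderiv ℝ (fderiv ℝ v.f) x‖ * (co * ‖x‖) ≤ 16 * (H + 1) * H * ε := by
    intro x hx hx2
    have hyx := hy0 x hx
    have hyp : 0 < ‖lk p κ⁻¹ x‖ := norm_pos_iff.2 hyx
    have hxp : 0 < ‖x‖ := norm_pos_iff.2 hx
    have e1 : ContDiffAt ℝ ∞ (fun y => (fun z => u.f z - z) (lk p κ⁻¹ y)) x :=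
      (hs _ hyx).comp x (lk p κ⁻¹).contDiff.contDiffAt
    have e2 : ContDiffAt ℝ 2 (fun y => (fun z => u.f z - z) (lk p κ⁻¹ y)) x :=
      e1.of_le (by norm_cast)
    have e3 : ContDiffAt ℝ 2 (fun y => (ε * κ) • ((fun z => u.f z - z) (lk p κ⁻¹ y))) x :=
      contDiffAt_const.smul e2
    have e4 : fderiv ℝ (fderiv ℝ v.f) x = fderiv ℝ (fderiv ℝ
        (fun y => (ε * κ) • ((fun z => u.f z - z) (lk p κ⁻¹ y)))) x := by
      rw [← norm_fderiv2_add_clm e3 (lk p ε)]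
      exact (hcase2 x hx2).fderiv.fderiv_eq
    have e5 : fderiv ℝ (fun y => (ε * κ) • ((fun z => u.f z - z) (lk p κ⁻¹ y))) =ᶠ[𝓝 x]
        fun y => (ε * κ) • fderiv ℝ (fun y => (fun z => u.f z - z) (lk p κ⁻¹ y)) y := by
      filter_upwards [(hasFDerivAt_two e2).1] with y hy
      exact (hy.const_smul (ε * κ)).fderiv
    have e6 : fderiv ℝ (fderiv ℝ
        (fun y => (ε * κ) • ((fun z => u.f z - z) (lk p κ⁻¹ y)))) x =
        (ε * κ) • fderiv ℝ (fderiv ℝ (fun y => (fun z => u.f z - z) (lk p κ⁻¹ y))) x := by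
      rw [e5.fderiv_eq]
      exact ((hasFDerivAt_two e2).2.const_smul (ε * κ)).fderiv
    have e7 := norm_fderiv2_comp_le (f := fun y => lk p κ⁻¹ y) (g := fun z => u.f z - z) (x := x)
      (lk p κ⁻¹).contDiff.contDiffAt ((hs _ hyx).of_le (by norm_cast))
    have e8 : ‖fderiv ℝ (fderiv ℝ (fun y => lk p κ⁻¹ y)) x‖ = 0 := by
      rw [fderiv2_clm]; exact norm_zero (E := E →L[ℝ] E →L[ℝ] E)
    have e9 : fderiv ℝ (fun y => lk p κ⁻¹ y) x = lk p κ⁻¹ := (lk p κ⁻¹).fderiv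
    rw [e8, mul_zero, add_zero, e9] at e7
    have e10 : ‖fderiv ℝ (fderiv ℝ (fun z => u.f z - z)) (lk p κ⁻¹ x)‖ ≤ H * ‖x‖⁻¹ := by
      rw [← div_eq_mul_inv, le_div_iff₀ hxp]
      refine le_trans ?_ (hH2 _ hyx)
      gcongr
      exact norm_lk_inv_ge hp hκ0 hκ1 x
    have e11 : ‖fderiv ℝ (fderiv ℝ (fun y => (fun z => u.f z - z) (lk p κ⁻¹ y))) x‖ ≤
        H * ‖x‖⁻¹ * κ⁻¹ ^ 2 := by
      refine e7.trans ?_
      gcongr
      exact norm_lk_inv_op hp hκ0 hκ1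
    have e12 := ContinuousLinearMap.opNorm_smul_le (ε * κ)
      (fderiv ℝ (fderiv ℝ (fun y => (fun z => u.f z - z) (lk p κ⁻¹ y))) x)
    rw [Real.norm_of_nonneg (by positivity)] at e12
    rw [e4, e6]
    refine (mul_le_mul_of_nonneg_right e12 (by positivity)).trans ?_
    calc ε * κ * ‖fderiv ℝ (fderiv ℝ (fun y => (fun z => u.f z - z) (lk p κ⁻¹ y))) x‖ *
          (co * ‖x‖) ≤ ε * κ * (H * ‖x‖⁻¹ * κ⁻¹ ^ 2) * (co * ‖x‖) := by gcongr
      _ = ε * H * (co / κ) := by field_simp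
      _ = ε * H * (16 * (H + 1)) := by rw [← hκc]; field_simp
      _ = _ := by ring
  refine ⟨δ, v, hδ0, hδε, ?_, fun x => ?_, fun x hx => ?_, fun x hx => ?_, fun x hx => ?_,
    fun x hx hx2 => ?_⟩
  · -- extendability
    have h1 : ExtF (fun x => G.f (uk.f x)) := hu3 κ hκ0 hκ1
    set c : Con E := uk.symm.comp (ρ.comp (uk.symm.symm.comp ρ.symm)) with hc
    have hcE : ExtF c.f := extF_commutator uk.symm ρ hρF
    have h2 := (h1.comp c hcE).comp ρ hρF.extF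
    have h3 : (fun x => G.f (v.f x)) = fun x => G.f (uk.f (c.f (ρ.f x))) := by
      ext1 x
      change G.f (ρ.f (uk.f x)) = G.f (uk.f (uk.g (ρ.f (uk.f (ρ.g (ρ.f x))))))
      rw [uk.fg, ρ.gf]
    rw [h3]
    exact h2
  · rw [hvx]
    refine (hρ0 _).trans ?_
    rw [huk']
    calc _ ≤ ‖x‖ + κ * (H * (κ⁻¹ * ‖x‖)) := by
          refine norm_add_le_of_le le_rfl ?_
          rw [norm_smul, Real.norm_of_nonneg hκ0.le]
          gcongr
          exact (hH0 _).trans (by gcongr; exact norm_lk_inv_le hp hκ0 hκ1 x)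
      _ = (1 + H) * ‖x‖ := by field_simp
      _ ≤ C * ‖x‖ := by
          gcongr
          rw [hC]
          have : 0 ≤ 16 * (H + 1) * H := by positivity
          linarith
  · have h16 : 0 ≤ 16 * (H + 1) * H := by positivity
    rcases hcases x hx with h | h
    · rw [(hcase1 x h).fderiv_eq]
      refine (hρ1 x hx).trans ?_
      rw [hC]; linarith
    · refine (hd1 x hx h).trans ?_
      rw [hC]; linarith
  · have h1 : co * ‖x‖ < ‖pr p x‖ := lt_of_le_of_lt (by gcongr) hx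
    refine (hcase1 x (hnot2 x h1)).trans ?_
    have h2 : ∀ᶠ y in 𝓝 x, 0 < ‖pr p y‖ - δ * ‖y‖ := by
      have hc : Continuous fun y : E => ‖pr p y‖ - δ * ‖y‖ := by fun_prop
      exact hc.continuousAt.eventually_const_lt (by linarith)
    filter_upwards [h2] with y hy
    rw [hρid y (by linarith)]
    rfl
  · rw [(hcase1 x (hnot2 x hx)).fderiv.fderiv_eq]
    have hpx : pr p x ≠ 0 := by
      rw [← norm_pos_iff]
      exact lt_of_le_of_lt (by positivity) hx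
    refine (hρ2 x hpx).trans ?_
    gcongr
    rw [hC]
    have : 0 ≤ 16 * (H + 1) * H := by positivity
    linarith
  · rw [← hco] at hx2 ⊢
    have hxp : 0 < ‖x‖ := norm_pos_iff.2 hx
    have h16 : 0 ≤ 16 * (H + 1) * H := by positivity
    rcases hcases x hx with h | h
    · rw [(hcase1 x h).fderiv.fderiv_eq]
      rcases hx2.lt_or_eq with h3 | h3
      · have h4 : ρ.f =ᶠ[𝓝 x] lk p ε := by
          have h5 : ∀ᶠ y in 𝓝 x, 0 < co * ‖y‖ - ‖pr p y‖ := by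
            have hc : Continuous fun y : E => co * ‖y‖ - ‖pr p y‖ := by fun_prop
            exact hc.continuousAt.eventually_const_lt (by linarith)
          filter_upwards [h5] with y hy
          exact hρlk y (by linarith)
        have h6 : ‖fderiv ℝ (fderiv ℝ ρ.f) x‖ = 0 := by
          rw [h4.fderiv.fderiv_eq, fderiv2_clm]
          exact norm_zero (E := E →L[ℝ] E →L[ℝ] E)
        rw [h6, zero_mul]
        positivity
      · rw [← h3]
        have hpx : pr p x ≠ 0 := by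
          rw [← norm_pos_iff, h3]; positivity
        refine (hρ2 x hpx).trans ?_
        gcongr
        rw [hC]; linarith
    · refine (hd2 x hx h).trans ?_
      gcongr
      rw [hC]; linarith

end Pool.Agent.H93.Exo
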