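import Mathlib
import Pool.Agent.H93.Exo.Cone

/-!
Central projection of hyperplanes to spheres, and a slicing inequality.
-/

set_option linter.unusedSectionVars false

namespace Pool.Agent.H93.Exo

open MeasureTheory Metric Set Filter Topology Module Function
open scoped ENNReal ContDiff InnerProductSpace

variable {E : Type*} [NormedAddCommGroup E] [InnerProductSpace ℝ E] [FiniteDimensional ℝ E]

/-- central projection of the hyperplanes `⟪p, x⟫ = ρ` to the spheres `‖x‖ = ρ` -/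
noncomputable def gno (p x : E) : E := (⟪p, x⟫_ℝ / ‖x‖) • x

/-- the inverse of `gno` -/
noncomputable def gnoInv (p z : E) : E := (‖z‖ / ⟪p, z⟫_ℝ) • z

theorem ne_zero_of_inner_pos {p x : E} (h : 0 < ⟪p, x⟫_ℝ) : x ≠ 0 := by
  rintro rfl
  rw [inner_zero_right] at h
  exact lt_irrefl _ h

theorem norm_gno {p x : E} (h : 0 < ⟪p, x⟫_ℝ) : ‖gno p x‖ = ⟪p, x⟫_ℝ := by
  have hx : ‖x‖ ≠ 0 := norm_ne_zero_iff.2 (ne_zero_of_inner_pos h)
  rw [gno, norm_smul, norm_div, norm_norm, Real.norm_of_nonneg h.le, div_mul_cancel₀ _ hx]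

theorem inner_gno_pos {p x : E} (h : 0 < ⟪p, x⟫_ℝ) : 0 < ⟪p, gno p x⟫_ℝ := by
  have hx : 0 < ‖x‖ := norm_pos_iff.2 (ne_zero_of_inner_pos h)
  rw [gno, real_inner_smul_right]
  positivity

theorem gnoInv_gno {p x : E} (h : 0 < ⟪p, x⟫_ℝ) : gnoInv p (gno p x) = x := by
  have hx : ‖x‖ ≠ 0 := norm_ne_zero_iff.2 (ne_zero_of_inner_pos h)
  rw [gnoInv, norm_gno h]
  simp only [gno, real_inner_smul_right, smul_smul]
  have : ⟪p, x⟫_ℝ / (⟪p, x⟫_ℝ / ‖x‖ * ⟪p, x⟫_ℝ) * (⟪p, x⟫_ℝ / ‖x‖) = 1 := by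
    field_simp
  rw [this, one_smul]

theorem gno_gnoInv {p z : E} (h : 0 < ⟪p, z⟫_ℝ) : gno p (gnoInv p z) = z := by
  have hz : ‖z‖ ≠ 0 := norm_ne_zero_iff.2 (ne_zero_of_inner_pos h)
  have hz' : 0 < ‖z‖ := norm_pos_iff.2 (ne_zero_of_inner_pos h)
  have hn : ‖gnoInv p z‖ = ‖z‖ ^ 2 / ⟪p, z⟫_ℝ := by
    rw [gnoInv, norm_smul, Real.norm_of_nonneg (by positivity)]; ring
  rw [gno, hn]
  simp only [gnoInv, real_inner_smul_right, smul_smul]
  have : ‖z‖ / ⟪p, z⟫_ℝ * ⟪p, z⟫_ℝ / (‖z‖ ^ 2 / ⟪p, z⟫_ℝ) * (‖z‖ / ⟪p, z⟫_ℝ) = 1 := by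
    field_simp
  rw [this, one_smul]

theorem contDiffAt_gno {p x : E} (hx : x ≠ 0) : ContDiffAt ℝ ∞ (gno p) x := by
  have h1 : ContDiffAt ℝ ∞ (fun x : E => ⟪p, x⟫_ℝ) x := contDiffAt_const.inner ℝ contDiffAt_id
  have h2 : ContDiffAt ℝ ∞ (fun x : E => ‖x‖) x := contDiffAt_norm ℝ hx
  exact (h1.div h2 (norm_ne_zero_iff.2 hx)).smul contDiffAt_id

theorem contDiffAt_gnoInv {p z : E} (h : 0 < ⟪p, z⟫_ℝ) : ContDiffAt ℝ ∞ (gnoInv p) z := by
  have h1 : ContDiffAt ℝ ∞ (fun x : E => ⟪p, x⟫_ℝ) z := contDiffAt_const.inner ℝ contDiffAt_id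
  have h2 : ContDiffAt ℝ ∞ (fun x : E => ‖x‖) z := contDiffAt_norm ℝ (ne_zero_of_inner_pos h)
  exact (h2.div h1 h.ne').smul contDiffAt_id

theorem isOpen_halfspace (p : E) : IsOpen {x : E | 0 < ⟪p, x⟫_ℝ} :=
  isOpen_lt continuous_const (continuous_const.inner continuous_id)

theorem gno_exists_equiv {p x : E} (h : 0 < ⟪p, x⟫_ℝ) :
    ∃ e : E ≃L[ℝ] E, HasFDerivAt (gno p) (e : E →L[ℝ] E) x := by
  refine exists_equiv_of_left_inverse (h := gnoInv p)
    ((contDiffAt_gno (ne_zero_of_inner_pos h)).differentiableAt (by simp)).hasFDerivAt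
    ((contDiffAt_gnoInv (inner_gno_pos h)).differentiableAt (by simp)).hasFDerivAt ?_
  filter_upwards [(isOpen_halfspace p).mem_nhds h] with y hy using gnoInv_gno hy

theorem gno_injOn (p : E) : InjOn (gno p) {x : E | 0 < ⟪p, x⟫_ℝ} := fun x hx y hy hxy => by
  rw [← gnoInv_gno hx, hxy, gnoInv_gno hy]

/-- change of variables for `gno` on a set contained in a compact part of the half space -/
theorem lintegral_comp_gno_le [MeasurableSpace E] [BorelSpace E] (μ : Measure E)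
    [μ.IsAddHaarMeasure] (p : E) {K B : Set E} (hK : IsCompact K)
    (hKp : ∀ x ∈ K, 0 < ⟪p, x⟫_ℝ) (hB : MeasurableSet B) (hBK : B ⊆ K) :
    ∃ C : ℝ≥0∞, C ≠ ⊤ ∧ ∀ h : E → ℝ≥0∞,
      ∫⁻ x in B, h (gno p x) ∂μ ≤ C * ∫⁻ z in gno p '' B, h z ∂μ := by
  have hcont : ContinuousOn (fun x => |(fderiv ℝ (gno p) x).det|) K := by
    intro x hx
    have h1 : ContinuousAt (fderiv ℝ (gno p)) x :=
      ((contDiffAt_gno (p := p) (ne_zero_of_inner_pos (hKp x hx))).fderiv_right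
        (m := 0) (by simp)).continuousAt
    have h2 : ContinuousAt (fun x => (fderiv ℝ (gno p) x).det) x :=
      ContinuousLinearMap.continuous_det.continuousAt.comp h1
    exact h2.abs.continuousWithinAt
  have hpos : ∀ x ∈ K, 0 < |(fderiv ℝ (gno p) x).det| := by
    intro x hx
    obtain ⟨e, he⟩ := gno_exists_equiv (hKp x hx)
    rw [he.fderiv, abs_pos]
    have := LinearEquiv.isUnit_det' e.toLinearEquiv
    exact this.ne_zero
  obtain ⟨c, hc, hcK⟩ : ∃ c : ℝ, 0 < c ∧ ∀ x ∈ K, c ≤ |(fderiv ℝ (gno p) x).det| := by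
    rcases K.eq_empty_or_nonempty with hK0 | hne
    · exact ⟨1, one_pos, by simp [hK0]⟩
    · obtain ⟨x₀, hx₀, hmin⟩ := hK.exists_isMinOn hne hcont
      exact ⟨_, hpos x₀ hx₀, fun x hx => hmin hx⟩
  refine ⟨(ENNReal.ofReal c)⁻¹, ENNReal.inv_ne_top.2 (ENNReal.ofReal_pos.2 hc).ne', fun h => ?_⟩
  have hder : ∀ x ∈ B, HasFDerivWithinAt (gno p) (fderiv ℝ (gno p) x) B x := fun x hx =>
    (((contDiffAt_gno (ne_zero_of_inner_pos (hKp x (hBK hx)))).differentiableAt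
      (by simp)).hasFDerivAt).hasFDerivWithinAt
  have hinj : InjOn (gno p) B := (gno_injOn p).mono fun x hx => hKp x (hBK hx)
  rw [lintegral_image_eq_lintegral_abs_det_fderiv_mul μ hB hder hinj]
  have hc0 : ENNReal.ofReal c ≠ 0 := (ENNReal.ofReal_pos.2 hc).ne'
  calc ∫⁻ x in B, h (gno p x) ∂μ
      = (ENNReal.ofReal c)⁻¹ * (ENNReal.ofReal c * ∫⁻ x in B, h (gno p x) ∂μ) := by
        rw [← mul_assoc, ENNReal.inv_mul_cancel hc0 ENNReal.ofReal_ne_top, one_mul]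
    _ = (ENNReal.ofReal c)⁻¹ * ∫⁻ x in B, ENNReal.ofReal c * h (gno p x) ∂μ := by
        rw [lintegral_const_mul' _ _ ENNReal.ofReal_ne_top]
    _ ≤ _ := by
        gcongr (ENNReal.ofReal c)⁻¹ * ?_
        refine setLIntegral_mono' hB fun x hx => ?_
        gcongr
        exact hcK x (hBK hx)

/-- the orthogonal complement of `p` -/
noncomputable abbrev Perp (p : E) : Submodule ℝ E := (ℝ ∙ p)ᗮ

theorem inner_perp {p : E} (y : Perp p) : ⟪p, (y : E)⟫_ℝ = 0 :=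
  Submodule.mem_orthogonal_singleton_iff_inner_right.1 y.2

theorem sub_mem_perp {p : E} (hp : ‖p‖ = 1) (x : E) : x - ⟪p, x⟫_ℝ • p ∈ Perp p := by
  rw [Submodule.mem_orthogonal_singleton_iff_inner_right, inner_sub_right, real_inner_smul_right,
    real_inner_self_eq_norm_sq, hp]
  ring

/-- `(ρ, y) ↦ ρ p + y` -/
noncomputable def perpEquiv {p : E} (hp : ‖p‖ = 1) : (ℝ × Perp p) ≃L[ℝ] E :=
  LinearEquiv.toContinuousLinearEquiv
    { toFun := fun z => z.1 • p + (z.2 : E)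
      map_add' := fun z w => by simp only [Prod.fst_add, Prod.snd_add, add_smul]; push_cast; abel
      map_smul' := fun c z => by simp [smul_smul]
      invFun := fun x => (⟪p, x⟫_ℝ, ⟨x - ⟪p, x⟫_ℝ • p, sub_mem_perp hp x⟩)
      left_inv := fun z => by
        have h1 : ⟪p, z.1 • p + (z.2 : E)⟫_ℝ = z.1 := by
          rw [inner_add_right, inner_perp, real_inner_smul_right, real_inner_self_eq_norm_sq, hp]
          ring
        ext
        · exact h1
        · simp only [h1]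
          simp
      right_inv := fun x => by simp }

theorem perpEquiv_apply {p : E} (hp : ‖p‖ = 1) (z : ℝ × Perp p) :
    perpEquiv hp z = z.1 • p + (z.2 : E) := rfl

theorem inner_perpEquiv {p : E} (hp : ‖p‖ = 1) (z : ℝ × Perp p) :
    ⟪p, perpEquiv hp z⟫_ℝ = z.1 := by
  rw [perpEquiv_apply, inner_add_right, inner_perp, real_inner_smul_right,
    real_inner_self_eq_norm_sq, hp]
  ring

/-- slicing inequality -/
theorem slice_le [MeasurableSpace E] [BorelSpace E] (μ : Measure E)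
    [μ.IsAddHaarMeasure] {p : E} (hp : ‖p‖ = 1) {a b s : ℝ} (ha : 0 < a) :
    ∃ C : ℝ≥0∞, C ≠ ⊤ ∧ ∀ h : E → ℝ≥0∞, Measurable h →
      ∫⁻ ρ in Ioo a b, ∫⁻ y in ball (0 : Perp p) s, h (gno p (ρ • p + (y : E))) ≤
        C * ∫⁻ z in ball (0 : E) b, h z ∂μ := by
  set L := perpEquiv hp with hL
  set B : Set E := L '' (Ioo a b ×ˢ ball (0 : Perp p) s) with hB
  set K : Set E := L '' (Icc a b ×ˢ closedBall (0 : Perp p) s) with hK
  have hKc : IsCompact K := (isCompact_Icc.prod (isCompact_closedBall _ _)).image L.continuous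
  have hKp : ∀ x ∈ K, 0 < ⟪p, x⟫_ℝ := by
    rintro _ ⟨z, hz, rfl⟩
    rw [inner_perpEquiv]
    exact ha.trans_le hz.1.1
  have hBo : IsOpen B := L.toHomeomorph.isOpenMap _ (isOpen_Ioo.prod isOpen_ball)
  have hBK : B ⊆ K := image_mono (prod_mono Ioo_subset_Icc_self ball_subset_closedBall)
  obtain ⟨C1, hC1, h1⟩ := lintegral_comp_gno_le μ p hKc hKp hBo.measurableSet hBK
  set ν : Measure (ℝ × Perp p) := (volume : Measure ℝ).prod (volume : Measure (Perp p)) with hν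
  have hmap : ∃ c : NNReal, Measure.map L ν = c • μ :=
    ⟨_, Measure.isAddLeftInvariant_eq_smul (Measure.map L ν) μ⟩
  obtain ⟨c, hc⟩ := hmap
  refine ⟨c * C1, ENNReal.mul_ne_top ENNReal.coe_ne_top hC1, fun h hh => ?_⟩
  have hmeas : Measurable fun z : ℝ × Perp p => h (gno p (L z)) := by
    have h2 : Measurable fun x : E => ⟪p, x⟫_ℝ / ‖x‖ :=
      (continuous_const.inner continuous_id).measurable.div continuous_norm.measurable
    have h3 : Measurable (gno p) := h2.smul measurable_id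
    exact hh.comp (h3.comp L.continuous.measurable)
  have e1 : ∫⁻ ρ in Ioo a b, ∫⁻ y in ball (0 : Perp p) s, h (gno p (ρ • p + (y : E))) =
      ∫⁻ z in Ioo a b ×ˢ ball (0 : Perp p) s, h (gno p (L z)) ∂ν := by
    rw [hν, ← Measure.prod_restrict, lintegral_prod _ hmeas.aemeasurable]
    rfl
  have e2 : ∫⁻ z in Ioo a b ×ˢ ball (0 : Perp p) s, h (gno p (L z)) ∂ν =
      ∫⁻ x in B, h (gno p x) ∂(Measure.map L ν) := by
    have hpre : L ⁻¹' B = Ioo a b ×ˢ ball (0 : Perp p) s := by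
      rw [hB]; exact preimage_image_eq _ L.injective
    have hLm : MeasurableEmbedding L := L.toHomeomorph.measurableEmbedding
    rw [hLm.restrict_map, hLm.lintegral_map, hpre]
  have himg : gno p '' B ⊆ ball (0 : E) b := by
    rintro _ ⟨x, hx, rfl⟩
    rw [mem_ball_zero_iff, norm_gno (hKp x (hBK hx))]
    obtain ⟨z, hz, rfl⟩ := hx
    rw [inner_perpEquiv]
    exact hz.1.2
  rw [e1, e2, hc, Measure.restrict_smul, lintegral_smul_measure]
  calc c • ∫⁻ x in B, h (gno p x) ∂μ = (c : ℝ≥0∞) * ∫⁻ x in B, h (gno p x) ∂μ := rfl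
    _ ≤ (c : ℝ≥0∞) * (C1 * ∫⁻ z in gno p '' B, h z ∂μ) := by gcongr; exact h1 h
    _ ≤ (c : ℝ≥0∞) * (C1 * ∫⁻ z in ball (0 : E) b, h z ∂μ) := by
        gcongr (c : ℝ≥0∞) * (C1 * ?_)
        exact lintegral_mono_set himg
    _ = c * C1 * ∫⁻ z in ball (0 : E) b, h z ∂μ := by rw [mul_assoc]

end Pool.Agent.H93.Exo
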