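import Mathlib
import Pool.Agent.H93.Exo.Gnom
import Pool.Agent.H93.Exo.Morrey

/-!
`W^{2,q}` convergence to zero with `q > n - 1` gives `C^1` convergence on some sphere.
-/

set_option linter.unusedSectionVars false

namespace Pool.Agent.H93.Exo

open MeasureTheory Metric Set Filter Topology Module Function
open scoped ENNReal InnerProductSpace

variable {E : Type*} [NormedAddCommGroup E] [InnerProductSpace ℝ E] [FiniteDimensional ℝ E]
  [MeasurableSpace E] [BorelSpace E]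
  {F : Type*} [NormedAddCommGroup F] [NormedSpace ℝ F] [CompleteSpace F]

theorem eLpNorm_ofReal_eq {X G : Type*} [MeasurableSpace X] [NormedAddCommGroup G]
    {ν : Measure X} {q : ℝ} (hq : 0 < q) (w : X → G) :
    eLpNorm w (ENNReal.ofReal q) ν = (∫⁻ x, ‖w x‖ₑ ^ q ∂ν) ^ (1 / q) := by
  rw [eLpNorm_eq_lintegral_rpow_enorm_toReal (by simpa using hq) ENNReal.ofReal_ne_top,
    ENNReal.toReal_ofReal hq.le]

/-- open annulus -/
def ann (a b : ℝ) : Set E := {x : E | a < ‖x‖ ∧ ‖x‖ < b}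

theorem isOpen_ann (a b : ℝ) : IsOpen (ann a b : Set E) :=
  (isOpen_lt continuous_const continuous_norm).inter (isOpen_lt continuous_norm continuous_const)

theorem cap_bound {p : E} (hp : ‖p‖ = 1) {q : ℝ} (hq : (finrank ℝ (Perp p) : ℝ) < q)
    (hq1 : 1 ≤ q) {a b : ℝ} (ha : 0 < a) :
    ∃ C : ℝ≥0∞, C ≠ ⊤ ∧ ∀ v : E → F, (∀ x ∈ ann a b, ContDiffAt ℝ 1 v x) →
      ∀ ρ ∈ Ioo a b, ∀ y₀ : Perp p, ‖y₀‖ < 1 / 2 →
        ‖v (gno p (ρ • p + (y₀ : E)))‖ₑ ≤ C * (∫⁻ y in ball (0 : Perp p) 1,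
          (‖v (gno p (ρ • p + (y : E)))‖ₑ ^ q +
            ‖fderiv ℝ v (gno p (ρ • p + (y : E)))‖ₑ ^ q)) ^ (1 / q) := by
  have hq0 : 0 < q := by linarith
  obtain ⟨CM, hCM, hM⟩ := morrey (F := F) (volume : Measure (Perp p)) hq hq1
    (r := 1 / 2) (by norm_num)
  -- bound for the derivative of the projection
  set K : Set E := perpEquiv hp '' (Icc a b ×ˢ closedBall (0 : Perp p) 1) with hK
  have hKc : IsCompact K :=
    (isCompact_Icc.prod (isCompact_closedBall _ _)).image (perpEquiv hp).continuous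
  have hKp : ∀ x ∈ K, 0 < ⟪p, x⟫_ℝ := by
    rintro _ ⟨z, hz, rfl⟩
    rw [inner_perpEquiv]
    exact ha.trans_le hz.1.1
  have hcont : ContinuousOn (fderiv ℝ (gno p)) K := fun x hx =>
    ((contDiffAt_gno (p := p) (ne_zero_of_inner_pos (hKp x hx))).fderiv_right
        (m := 0) (by simp)).continuousAt.continuousWithinAt
  obtain ⟨D, hD⟩ := hKc.exists_bound_of_continuousOn hcont
  refine ⟨CM * (1 + ENNReal.ofReal |D|), ENNReal.mul_ne_top hCM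
    (ENNReal.add_ne_top.2 ⟨ENNReal.one_ne_top, ENNReal.ofReal_ne_top⟩), ?_⟩
  intro v hv ρ hρ y₀ hy₀
  have hρ0 : 0 < ρ := ha.trans hρ.1
  have hmem : ∀ y ∈ ball (0 : Perp p) 1, ρ • p + (y : E) ∈ K := fun y hy =>
    ⟨(ρ, y), ⟨⟨hρ.1.le, hρ.2.le⟩, ball_subset_closedBall hy⟩, rfl⟩
  have hinn : ∀ y : Perp p, ⟪p, ρ • p + (y : E)⟫_ℝ = ρ := fun y => inner_perpEquiv hp (ρ, y)
  have hball : ∀ y : Perp p, gno p (ρ • p + (y : E)) ∈ ann a b := fun y => by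
    have : ‖gno p (ρ • p + (y : E))‖ = ρ := by
      rw [norm_gno (by rw [hinn]; exact hρ0), hinn]
    exact ⟨by rw [this]; exact hρ.1, by rw [this]; exact hρ.2⟩
  have hsub : ball y₀ (1 / 2) ⊆ ball (0 : Perp p) 1 := by
    intro y hy
    rw [mem_ball_zero_iff]
    rw [mem_ball, dist_eq_norm] at hy
    calc ‖y‖ = ‖(y - y₀) + y₀‖ := by congr 1; abel
      _ ≤ ‖y - y₀‖ + ‖y₀‖ := norm_add_le _ _
      _ < 1 := by linarith
  set w : Perp p → F := fun y => v (gno p (ρ • p + (y : E))) with hw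
  have hincl : ∀ y : Perp p, HasFDerivAt (fun y : Perp p => ρ • p + (y : E))
      (Perp p).subtypeL y := fun y => ((Perp p).subtypeL.hasFDerivAt).const_add _
  have hg : ∀ y : Perp p, HasFDerivAt (fun y : Perp p => gno p (ρ • p + (y : E)))
      ((fderiv ℝ (gno p) (ρ • p + (y : E))).comp (Perp p).subtypeL) y := fun y =>
    (((contDiffAt_gno (ne_zero_of_inner_pos (by rw [hinn y]; exact hρ0))).differentiableAt
      (by simp)).hasFDerivAt).comp y (hincl y)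
  have hwd : ∀ y : Perp p, HasFDerivAt w ((fderiv ℝ v (gno p (ρ • p + (y : E)))).comp
      ((fderiv ℝ (gno p) (ρ • p + (y : E))).comp (Perp p).subtypeL)) y := fun y =>
    (((hv _ (hball y)).differentiableAt one_ne_zero).hasFDerivAt).comp y (hg y)
  have hwc : ∀ y ∈ ball y₀ (1 / 2), ContDiffAt ℝ 1 w y := by
    intro y _
    have h1 : ContDiffAt ℝ 1 (fun y : Perp p => ρ • p + (y : E)) y :=
      contDiffAt_const.add (Perp p).subtypeL.contDiff.contDiffAt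
    have h2 : ContDiffAt ℝ 1 (gno p) (ρ • p + (y : E)) :=
      (contDiffAt_gno (ne_zero_of_inner_pos (by rw [hinn y]; exact hρ0))).of_le
        (by norm_cast)
    have h3 : ContDiffAt ℝ 1 v (gno p (ρ • p + (y : E))) := hv _ (hball y)
    exact ContDiffAt.comp (g := v) (f := fun y : Perp p => gno p (ρ • p + (y : E))) y h3
      (ContDiffAt.comp (g := gno p) (f := fun y : Perp p => ρ • p + (y : E)) y h2 h1)
  have key := hM w y₀ hwc
  rw [eLpNorm_ofReal_eq hq0, eLpNorm_ofReal_eq hq0] at key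
  set I : ℝ≥0∞ := ∫⁻ y in ball (0 : Perp p) 1, (‖v (gno p (ρ • p + (y : E)))‖ₑ ^ q +
            ‖fderiv ℝ v (gno p (ρ • p + (y : E)))‖ₑ ^ q) with hI
  have hI1 : ∫⁻ y in ball y₀ (1 / 2), ‖w y‖ₑ ^ q ≤ I := by
    refine (lintegral_mono_set hsub).trans (lintegral_mono fun y => ?_)
    exact le_self_add
  have hI2 : ∫⁻ y in ball y₀ (1 / 2), ‖fderiv ℝ w y‖ₑ ^ q ≤ ENNReal.ofReal |D| ^ q * I := by
    rw [hI, ← lintegral_const_mul' _ _ (ENNReal.rpow_ne_top_of_nonneg hq0.le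
      ENNReal.ofReal_ne_top)]
    refine (lintegral_mono_set hsub).trans (setLIntegral_mono' measurableSet_ball fun y hy => ?_)
    have h4 : ‖fderiv ℝ w y‖ ≤ |D| * ‖fderiv ℝ v (gno p (ρ • p + (y : E)))‖ := by
      rw [(hwd y).fderiv]
      refine (ContinuousLinearMap.opNorm_comp_le _ _).trans ?_
      rw [mul_comm]
      gcongr
      refine (ContinuousLinearMap.opNorm_comp_le _ _).trans ?_
      calc ‖fderiv ℝ (gno p) (ρ • p + (y : E))‖ * ‖(Perp p).subtypeL‖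
          ≤ |D| * 1 := by
            gcongr
            · exact (hD _ (hmem y hy)).trans (le_abs_self D)
            · exact Submodule.norm_subtypeL_le _
        _ = |D| := mul_one _
    have h5 : ‖fderiv ℝ w y‖ₑ ≤ ENNReal.ofReal |D| *
        ‖fderiv ℝ v (gno p (ρ • p + (y : E)))‖ₑ := by
      rw [← ofReal_norm, ← ofReal_norm, ← ENNReal.ofReal_mul (abs_nonneg D)]
      exact ENNReal.ofReal_le_ofReal h4
    calc ‖fderiv ℝ w y‖ₑ ^ q ≤ (ENNReal.ofReal |D| *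
        ‖fderiv ℝ v (gno p (ρ • p + (y : E)))‖ₑ) ^ q := by gcongr
      _ = ENNReal.ofReal |D| ^ q * ‖fderiv ℝ v (gno p (ρ • p + (y : E)))‖ₑ ^ q :=
          ENNReal.mul_rpow_of_nonneg _ _ hq0.le
      _ ≤ _ := by gcongr; exact le_add_self
  calc ‖v (gno p (ρ • p + (y₀ : E)))‖ₑ
      ≤ CM * ((∫⁻ y in ball y₀ (1 / 2), ‖w y‖ₑ ^ q) ^ (1 / q) +
          (∫⁻ y in ball y₀ (1 / 2), ‖fderiv ℝ w y‖ₑ ^ q) ^ (1 / q)) := key
    _ ≤ CM * (I ^ (1 / q) + (ENNReal.ofReal |D| ^ q * I) ^ (1 / q)) := by gcongr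
    _ = CM * (1 + ENNReal.ofReal |D|) * I ^ (1 / q) := by
        rw [ENNReal.mul_rpow_of_nonneg _ _ (by positivity), ← ENNReal.rpow_mul,
          mul_one_div_cancel hq0.ne', ENNReal.rpow_one]
        ring

theorem exists_finite_caps (b : ℝ) : ∃ T : Finset E, (∀ p ∈ T, ‖p‖ = 1) ∧
    ∀ x : E, 0 < ‖x‖ → ‖x‖ < b → ∃ p ∈ T, 0 < ⟪p, x⟫_ℝ ∧
      ‖(‖x‖ / ⟪p, x⟫_ℝ) • x - ‖x‖ • p‖ < 1 / 2 := by
  have hU : ∀ p ∈ sphere (0 : E) 1,
      {x : E | 0 < ⟪p, x⟫_ℝ ∧ b * ‖(⟪p, x⟫_ℝ)⁻¹ • x - p‖ < 1 / 2} ∈ 𝓝 p := by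
    intro p hp
    have hp1 : ‖p‖ = 1 := by simpa using hp
    have hpp : ⟪p, p⟫_ℝ = 1 := by rw [real_inner_self_eq_norm_sq, hp1]; norm_num
    have hc : ContinuousAt (fun x : E => ⟪p, x⟫_ℝ) p :=
      (continuous_const.inner continuous_id).continuousAt
    have h1 : ∀ᶠ x in 𝓝 p, 0 < ⟪p, x⟫_ℝ := by
      refine hc.eventually_const_lt ?_
      change 0 < ⟪p, p⟫_ℝ
      rw [hpp]; exact one_pos
    have h2 : ContinuousAt (fun x : E => b * ‖(⟪p, x⟫_ℝ)⁻¹ • x - p‖) p := by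
      refine continuousAt_const.mul (ContinuousAt.norm ?_)
      exact ((hc.inv₀ (by rw [hpp]; exact one_ne_zero)).smul continuousAt_id).sub
        continuousAt_const
    have h3 : ∀ᶠ x in 𝓝 p, b * ‖(⟪p, x⟫_ℝ)⁻¹ • x - p‖ < 1 / 2 := by
      refine h2.eventually_lt_const ?_
      change b * ‖(⟪p, p⟫_ℝ)⁻¹ • p - p‖ < 1 / 2
      rw [hpp]; simp
    exact h1.and h3
  obtain ⟨T, hT, hcov⟩ := (isCompact_sphere (0 : E) 1).elim_nhds_subcover _ hU
  refine ⟨T, fun p hp => by simpa using hT p hp, fun x hx hxb => ?_⟩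
  have hω : ‖x‖⁻¹ • x ∈ sphere (0 : E) 1 := by
    rw [mem_sphere_zero_iff_norm, norm_smul, norm_inv, norm_norm, inv_mul_cancel₀ hx.ne']
  obtain ⟨p, hp, hpx⟩ := mem_iUnion₂.1 (hcov hω)
  refine ⟨p, hp, ?_, ?_⟩
  · have := hpx.1
    rw [real_inner_smul_right] at this
    exact (mul_pos_iff_of_pos_left (by positivity)).1 this
  · have h1 := hpx.1
    have h2 := hpx.2
    rw [real_inner_smul_right] at h1 h2
    have hpos : 0 < ⟪p, x⟫_ℝ := (mul_pos_iff_of_pos_left (by positivity)).1 h1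
    have e1 : (‖x‖⁻¹ * ⟪p, x⟫_ℝ)⁻¹ • ‖x‖⁻¹ • x = (⟪p, x⟫_ℝ)⁻¹ • x := by
      rw [smul_smul]
      congr 1
      field_simp
    rw [e1] at h2
    have e2 : (‖x‖ / ⟪p, x⟫_ℝ) • x - ‖x‖ • p = ‖x‖ • ((⟪p, x⟫_ℝ)⁻¹ • x - p) := by
      rw [smul_sub, smul_smul]; rfl
    rw [e2, norm_smul, norm_norm]
    refine lt_of_le_of_lt ?_ h2
    gcongr

theorem finrank_perp {p : E} (hp : ‖p‖ = 1) {m : ℕ} (hm : finrank ℝ E = m + 1) :
    finrank ℝ (Perp p) = m := by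
  have hp0 : p ≠ 0 := by
    rintro rfl
    simp at hp
  have : Fact (finrank ℝ E = m + 1) := ⟨hm⟩
  exact Submodule.finrank_orthogonal_span_singleton hp0

/-- sum of the cap integrals -/
noncomputable def capSum (T : Finset E) (h : E → ℝ≥0∞) (ρ : ℝ) : ℝ≥0∞ :=
  ∑ p ∈ T, ∫⁻ y in ball (0 : Perp p) 1, h (gno p (ρ • p + (y : E)))

theorem measurable_cap {p : E} (hp : ‖p‖ = 1) {h : E → ℝ≥0∞} (hh : Measurable h) :
    Measurable fun ρ : ℝ => ∫⁻ y in ball (0 : Perp p) 1, h (gno p (ρ • p + (y : E))) := by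
  have h2 : Measurable fun x : E => ⟪p, x⟫_ℝ / ‖x‖ :=
    (continuous_const.inner continuous_id).measurable.div continuous_norm.measurable
  have h3 : Measurable (gno p) := h2.smul measurable_id
  have h4 : Measurable fun z : ℝ × Perp p => h (gno p (perpEquiv hp z)) :=
    hh.comp (h3.comp (perpEquiv hp).continuous.measurable)
  exact h4.lintegral_prod_right' (ν := (volume : Measure (Perp p)).restrict (ball 0 1))

theorem measurable_capSum {T : Finset E} (hT : ∀ p ∈ T, ‖p‖ = 1) {h : E → ℝ≥0∞}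
    (hh : Measurable h) : Measurable (capSum T h) := by
  unfold capSum
  exact Finset.measurable_sum _ fun p hp => measurable_cap (hT p hp) hh

theorem le_capSum {T : Finset E} {p : E} (hp : p ∈ T) (h : E → ℝ≥0∞) (ρ : ℝ) :
    ∫⁻ y in ball (0 : Perp p) 1, h (gno p (ρ • p + (y : E))) ≤ capSum T h ρ := by
  unfold capSum
  exact Finset.single_le_sum (f := fun p : E =>
    ∫⁻ y in ball (0 : Perp p) 1, h (gno p (ρ • p + (y : E)))) (fun _ _ => zero_le) hp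

theorem lintegral_capSum_le (μ : Measure E) [μ.IsAddHaarMeasure] {T : Finset E}
    (hT : ∀ p ∈ T, ‖p‖ = 1) {a b : ℝ} (ha : 0 < a) :
    ∃ C : ℝ≥0∞, C ≠ ⊤ ∧ ∀ h : E → ℝ≥0∞, Measurable h →
      ∫⁻ ρ in Ioo a b, capSum T h ρ ≤ C * ∫⁻ z in ball (0 : E) b, h z ∂μ := by
  classical
  have hslice : ∀ p : E, ∃ C : ℝ≥0∞, C ≠ ⊤ ∧ (‖p‖ = 1 → ∀ h : E → ℝ≥0∞, Measurable h →
      ∫⁻ ρ in Ioo a b, ∫⁻ y in ball (0 : Perp p) 1, h (gno p (ρ • p + (y : E))) ≤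
        C * ∫⁻ z in ball (0 : E) b, h z ∂μ) := by
    intro p
    by_cases hp : ‖p‖ = 1
    · obtain ⟨C, hC, h⟩ := slice_le μ hp (b := b) (s := 1) ha
      exact ⟨C, hC, fun _ => h⟩
    · exact ⟨0, ENNReal.zero_ne_top, fun h => absurd h hp⟩
  choose C hC hCs using hslice
  refine ⟨∑ p ∈ T, C p, ?_, fun h hh => ?_⟩
  · rw [Ne, ENNReal.sum_eq_top]
    push Not
    exact fun p _ => hC p
  · unfold capSum
    rw [lintegral_finsetSum _ fun p hp => measurable_cap (hT p hp) hh, Finset.sum_mul]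
    exact Finset.sum_le_sum fun p hp => hCs p (hT p hp) h hh

/-- Fatou: if the integrals of `h k` tend to zero, then on some sphere the cap sums are
frequently small -/
theorem exists_capSum_small (μ : Measure E) [μ.IsAddHaarMeasure] {T : Finset E}
    (hT : ∀ p ∈ T, ‖p‖ = 1) {a b : ℝ} (ha : 0 < a) (hab : a < b) {h : ℕ → E → ℝ≥0∞}
    (hh : ∀ k, Measurable (h k))
    (hlim : Tendsto (fun k => ∫⁻ x in ball (0 : E) b, h k x ∂μ) atTop (𝓝 0)) :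
    ∃ ρ ∈ Ioo a b, ∀ δ : ℝ≥0∞, 0 < δ → ∃ᶠ k in atTop, capSum T (h k) ρ < δ := by
  obtain ⟨C, hC, hCi⟩ := lintegral_capSum_le μ hT (b := b) ha
  have hAlim : Tendsto (fun k => ∫⁻ ρ in Ioo a b, capSum T (h k) ρ) atTop (𝓝 0) := by
    refine tendsto_of_tendsto_of_tendsto_of_le_of_le tendsto_const_nhds ?_
      (fun k => zero_le) (fun k => hCi (h k) (hh k))
    have := ENNReal.Tendsto.const_mul (a := C) hlim (Or.inr hC)
    rwa [mul_zero] at this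
  have hAm : ∀ k, Measurable (capSum T (h k)) := fun k => measurable_capSum hT (hh k)
  have hF : ∫⁻ ρ in Ioo a b, liminf (fun k => capSum T (h k) ρ) atTop = 0 := by
    refine le_antisymm ((lintegral_liminf_le hAm).trans ?_) zero_le
    rw [hAlim.liminf_eq]
  rw [lintegral_eq_zero_iff (Measurable.liminf hAm)] at hF
  obtain ⟨ρ, hρ, hρA⟩ : ∃ ρ ∈ Ioo a b, liminf (fun k => capSum T (h k) ρ) atTop = 0 := by
    have h1 : (volume.restrict (Ioo a b)) ≠ 0 := by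
      rw [Ne, Measure.restrict_eq_zero, Real.volume_Ioo, ENNReal.ofReal_eq_zero]
      push Not
      linarith
    have : NeZero (volume.restrict (Ioo a b)) := ⟨h1⟩
    obtain ⟨ρ, h2, h3⟩ := (hF.and (ae_restrict_mem measurableSet_Ioo)).exists
    exact ⟨ρ, h3, h2⟩
  refine ⟨ρ, hρ, fun δ hδ => ?_⟩
  refine frequently_lt_of_liminf_lt (by isBoundedDefault) ?_
  rw [hρA]; exact hδ

/-- all cap bounds at once -/
theorem caps_bound {T : Finset E} (hT : ∀ p ∈ T, ‖p‖ = 1) {q : ℝ} {m : ℕ}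
    (hm : finrank ℝ E = m + 1) (hq : (m : ℝ) < q)
    (hq1 : 1 ≤ q) {a b : ℝ} (ha : 0 < a) :
    ∃ C : ℝ≥0∞, C ≠ ⊤ ∧ ∀ v : E → F, (∀ x ∈ ann a b, ContDiffAt ℝ 1 v x) →
      ∀ ρ ∈ Ioo a b, ∀ p ∈ T, ∀ y₀ : Perp p, ‖y₀‖ < 1 / 2 →
        ‖v (gno p (ρ • p + (y₀ : E)))‖ₑ ≤ C * (∫⁻ y in ball (0 : Perp p) 1,
          (‖v (gno p (ρ • p + (y : E)))‖ₑ ^ q +
            ‖fderiv ℝ v (gno p (ρ • p + (y : E)))‖ₑ ^ q)) ^ (1 / q) := by
  classical
  have hcap : ∀ p : E, ∃ C : ℝ≥0∞, C ≠ ⊤ ∧ (‖p‖ = 1 → ∀ v : E → F,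
      (∀ x ∈ ann a b, ContDiffAt ℝ 1 v x) →
      ∀ ρ ∈ Ioo a b, ∀ y₀ : Perp p, ‖y₀‖ < 1 / 2 →
        ‖v (gno p (ρ • p + (y₀ : E)))‖ₑ ≤ C * (∫⁻ y in ball (0 : Perp p) 1,
          (‖v (gno p (ρ • p + (y : E)))‖ₑ ^ q +
            ‖fderiv ℝ v (gno p (ρ • p + (y : E)))‖ₑ ^ q)) ^ (1 / q)) := by
    intro p
    by_cases hp : ‖p‖ = 1
    · obtain ⟨C, hC, h⟩ := cap_bound (F := F) hp (by rw [finrank_perp hp hm]; exact hq) hq1
        (b := b) ha
      exact ⟨C, hC, fun _ => h⟩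
    · exact ⟨0, ENNReal.zero_ne_top, fun h => absurd h hp⟩
  choose C hC hCs using hcap
  refine ⟨∑ p ∈ T, C p, ?_, fun v hv ρ hρ p hp y₀ hy₀ => ?_⟩
  · rw [Ne, ENNReal.sum_eq_top]
    push Not
    exact fun p _ => hC p
  · refine (hCs p (hT p hp) v hv ρ hρ y₀ hy₀).trans ?_
    gcongr
    exact Finset.single_le_sum (f := C) (fun _ _ => zero_le) hp

theorem continuousOn_enorm_rpow {X G : Type*} [TopologicalSpace X] [NormedAddCommGroup G]
    {q : ℝ} {s : Set X} {w : X → G} (hw : ContinuousOn w s) :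
    ContinuousOn (fun x => ‖w x‖ₑ ^ q) s :=
  ENNReal.continuous_rpow_const.comp_continuousOn hw.enorm

theorem measurable_indicator_of_continuousOn {X : Type*} [TopologicalSpace X]
    [MeasurableSpace X] [BorelSpace X] {s : Set X} {g : X → ℝ≥0∞} (hs : IsOpen s)
    (hg : ContinuousOn g s) : Measurable (s.indicator g) := by
  classical
  have h := ContinuousOn.measurable_piecewise (g := fun _ : X => (0 : ℝ≥0∞)) hg
    continuousOn_const hs.measurableSet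
  have e : s.indicator g = s.piecewise g (fun _ => 0) := by
    ext x
    by_cases hx : x ∈ s
    · rw [indicator_of_mem hx, piecewise_eq_of_mem _ _ _ hx]
    · rw [indicator_of_notMem hx, piecewise_eq_of_notMem _ _ _ hx]
  rw [e]
  exact h

/-- the jet density of `u`, cut off outside the annulus -/
noncomputable def jetDens (q a b : ℝ) (u : E → F) : E → ℝ≥0∞ :=
  (ann a b : Set E).indicator
    (fun x => ‖u x‖ₑ ^ q + ‖fderiv ℝ u x‖ₑ ^ q + ‖fderiv ℝ (fderiv ℝ u) x‖ₑ ^ q)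

theorem jetDens_of_mem {q a b : ℝ} {u : E → F} {x : E} (hx : x ∈ (ann a b : Set E)) :
    jetDens q a b u x =
      ‖u x‖ₑ ^ q + ‖fderiv ℝ u x‖ₑ ^ q + ‖fderiv ℝ (fderiv ℝ u) x‖ₑ ^ q :=
  indicator_of_mem hx _

theorem continuousOn_jet_aux {q : ℝ} {s : Set E} {u : E → F} {v : E → E →L[ℝ] F}
    {w : E → E →L[ℝ] E →L[ℝ] F} (c0 : ContinuousOn u s) (c1 : ContinuousOn v s)
    (c2 : ContinuousOn w s) :
    ContinuousOn (fun x => ‖u x‖ₑ ^ q + ‖v x‖ₑ ^ q + ‖w x‖ₑ ^ q) s := by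
  have h0 := continuousOn_enorm_rpow (q := q) c0
  have h1 := continuousOn_enorm_rpow (X := E) (G := E →L[ℝ] F) (q := q) c1
  have h2 := continuousOn_enorm_rpow (X := E) (G := E →L[ℝ] E →L[ℝ] F) (q := q) c2
  exact (h0.add h1).add h2

theorem continuousOn_jetDens {q : ℝ} {s : Set E} {u : E → F}
    (hu : ∀ x ∈ s, ContDiffAt ℝ 2 u x) :
    ContinuousOn (fun x => ‖u x‖ₑ ^ q + ‖fderiv ℝ u x‖ₑ ^ q +
      ‖fderiv ℝ (fderiv ℝ u) x‖ₑ ^ q) s := by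
  have c0 : ContinuousOn u s := fun x hx =>
    (hu x hx).continuousAt.continuousWithinAt
  have d1 : ∀ x ∈ s, ContDiffAt ℝ 1 (fderiv ℝ u) x := fun x hx =>
    (hu x hx).fderiv_right (m := 1) (by norm_num)
  have c1 : ContinuousOn (fderiv ℝ u) s := fun x hx =>
    (d1 x hx).continuousAt.continuousWithinAt
  have c2 : ContinuousOn (fderiv ℝ (fderiv ℝ u)) s := fun x hx =>
    ((d1 x hx).fderiv_right (m := 0) (by norm_num)).continuousAt.continuousWithinAt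
  exact continuousOn_jet_aux c0 c1 c2

theorem measurable_jetDens {q a b : ℝ} {u : E → F}
    (hu : ∀ x ∈ (ann a b : Set E), ContDiffAt ℝ 2 u x) : Measurable (jetDens q a b u) :=
  measurable_indicator_of_continuousOn (isOpen_ann a b) (continuousOn_jetDens hu)

/-- pointwise bound of `u` and `Du` on the sphere by the cap sum -/
theorem sphere_bound {T : Finset E} (hT : ∀ p ∈ T, ‖p‖ = 1) {q : ℝ} {m : ℕ}
    (hm : finrank ℝ E = m + 1) (hq : (m : ℝ) < q)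
    (hq1 : 1 ≤ q) {a b : ℝ} (ha : 0 < a)
    (hcov : ∀ x : E, 0 < ‖x‖ → ‖x‖ < b → ∃ p ∈ T, 0 < ⟪p, x⟫_ℝ ∧
      ‖(‖x‖ / ⟪p, x⟫_ℝ) • x - ‖x‖ • p‖ < 1 / 2) :
    ∃ C : ℝ≥0∞, C ≠ ⊤ ∧ ∀ u : E → F, (∀ x ∈ ann a b, ContDiffAt ℝ 2 u x) →
      ∀ ρ ∈ Ioo a b, ∀ x : E, ‖x‖ = ρ →
        ‖u x‖ₑ ≤ C * (capSum T (jetDens q a b u) ρ) ^ (1 / q) ∧
        ‖fderiv ℝ u x‖ₑ ≤ C * (capSum T (jetDens q a b u) ρ) ^ (1 / q) := by
  have hq0 : 0 < q := by linarith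
  obtain ⟨C0, hC0, hC0s⟩ := caps_bound (F := F) hT hm hq hq1 (b := b) ha
  obtain ⟨C1, hC1, hC1s⟩ := caps_bound (F := E →L[ℝ] F) hT hm hq hq1 (b := b) ha
  refine ⟨C0 + C1, ENNReal.add_ne_top.2 ⟨hC0, hC1⟩, fun u hu ρ hρ x hx => ?_⟩
  have hρ0 : 0 < ρ := ha.trans hρ.1
  obtain ⟨p, hp, hpx, hpb⟩ := hcov x (by rw [hx]; exact hρ0) (by rw [hx]; exact hρ.2)
  have hp1 := hT p hp
  have hpp : ⟪p, p⟫_ℝ = 1 := by rw [real_inner_self_eq_norm_sq, hp1]; norm_num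
  obtain ⟨y₀, hy₀⟩ : ∃ y₀ : Perp p, (y₀ : E) = (‖x‖ / ⟪p, x⟫_ℝ) • x - ‖x‖ • p := by
    refine ⟨⟨(‖x‖ / ⟪p, x⟫_ℝ) • x - ‖x‖ • p, ?_⟩, rfl⟩
    rw [Submodule.mem_orthogonal_singleton_iff_inner_right, inner_sub_right,
      real_inner_smul_right, real_inner_smul_right, hpp]
    field_simp
    ring
  have hy₀n : ‖y₀‖ < 1 / 2 := by
    have : ‖(y₀ : E)‖ < 1 / 2 := by rw [hy₀]; exact hpb
    exact this
  have hxe : gno p (ρ • p + (y₀ : E)) = x := by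
    have e1 : ρ • p + (y₀ : E) = gnoInv p x := by
      rw [hy₀, hx, gnoInv, hx]
      abel
    rw [e1, gno_gnoInv hpx]
  have hinn : ∀ y : Perp p, ⟪p, ρ • p + (y : E)⟫_ℝ = ρ := fun y => inner_perpEquiv hp1 (ρ, y)
  have hball : ∀ y : Perp p, gno p (ρ • p + (y : E)) ∈ ann a b := fun y => by
    have : ‖gno p (ρ • p + (y : E))‖ = ρ := by
      rw [norm_gno (by rw [hinn]; exact hρ0), hinn]
    exact ⟨by rw [this]; exact hρ.1, by rw [this]; exact hρ.2⟩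
  have hAk : ∀ (w : Perp p → ℝ≥0∞), (∀ y, w y ≤ jetDens q a b u (gno p (ρ • p + (y : E)))) →
      ∫⁻ y in ball (0 : Perp p) 1, w y ≤ capSum T (jetDens q a b u) ρ := fun w hw =>
    (lintegral_mono hw).trans (le_capSum hp _ ρ)
  constructor
  · have h1 := hC0s u (fun x hx => (hu x hx).of_le (by norm_num)) ρ hρ p hp y₀ hy₀n
    rw [hxe] at h1
    refine h1.trans ?_
    gcongr
    · exact le_self_add
    refine hAk _ fun y => ?_
    rw [jetDens_of_mem (hball y)]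
    exact le_self_add
  · have h1 := hC1s (fderiv ℝ u) (fun x hx =>
      (hu x hx).fderiv_right (m := 1) (by norm_num)) ρ hρ p hp y₀ hy₀n
    rw [hxe] at h1
    refine h1.trans ?_
    gcongr
    · exact le_add_self
    refine hAk _ fun y => ?_
    rw [jetDens_of_mem (hball y), add_assoc]
    exact le_add_self

theorem exists_good_sphere₀ (μ : Measure E) [μ.IsAddHaarMeasure] {q : ℝ} {m : ℕ}
    (hm : finrank ℝ E = m + 1) (hq : (m : ℝ) < q) (hq1 : 1 ≤ q) {a b : ℝ} (ha : 0 < a)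
    (hab : a < b) (u : ℕ → E → F) (hu : ∀ k, ∀ x ∈ ann a b, ContDiffAt ℝ 2 (u k) x)
    (hlim : Tendsto (fun k => ∫⁻ x in ann a b, (‖u k x‖ₑ ^ q + ‖fderiv ℝ (u k) x‖ₑ ^ q +
      ‖fderiv ℝ (fderiv ℝ (u k)) x‖ₑ ^ q) ∂μ) atTop (𝓝 0)) :
    ∃ ρ ∈ Ioo a b, ∀ η > 0, ∃ᶠ k in atTop, ∀ x : E, ‖x‖ = ρ →
      ‖u k x‖ < η ∧ ‖fderiv ℝ (u k) x‖ < η := by
  have hq0 : 0 < q := by linarith
  obtain ⟨T, hT, hcov⟩ := exists_finite_caps (E := E) b
  obtain ⟨C, hC, hCb⟩ := sphere_bound (F := F) hT hm hq hq1 ha hcov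
  have hsub : (ann a b : Set E) ⊆ ball 0 b := fun x hx => by
    rw [mem_ball_zero_iff]; exact hx.2
  have hlim' : Tendsto (fun k => ∫⁻ x in ball (0 : E) b, jetDens q a b (u k) x ∂μ)
      atTop (𝓝 0) := by
    refine hlim.congr fun k => ?_
    unfold jetDens
    rw [lintegral_indicator (isOpen_ann a b).measurableSet, Measure.restrict_restrict
      (isOpen_ann a b).measurableSet, inter_eq_left.2 hsub]
  obtain ⟨ρ, hρ, hfr⟩ := exists_capSum_small μ hT ha hab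
    (fun k => measurable_jetDens (q := q) (hu k)) hlim'
  refine ⟨ρ, hρ, fun η hη => ?_⟩
  obtain ⟨δ, hδ, hδD⟩ : ∃ δ : ℝ≥0∞, 0 < δ ∧ ∀ t : ℝ≥0∞, t < δ →
      C * t ^ (1 / q) < ENNReal.ofReal η := by
    have h1 : Tendsto (fun t : ℝ≥0∞ => C * t ^ (1 / q)) (𝓝 0) (𝓝 0) := by
      have h2 : Tendsto (fun t : ℝ≥0∞ => t ^ (1 / q)) (𝓝 0) (𝓝 0) := by
        have := (ENNReal.continuous_rpow_const (y := 1 / q)).tendsto (0 : ℝ≥0∞)
        rwa [ENNReal.zero_rpow_of_pos (by positivity)] at this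
      have h3 := ENNReal.Tendsto.const_mul (a := C) h2 (Or.inr hC)
      rwa [mul_zero] at h3
    have h4 := h1.eventually_lt_const (ENNReal.ofReal_pos.2 hη)
    obtain ⟨δ, hδ, h5⟩ := (ENNReal.nhds_zero_basis.eventually_iff).1 h4
    exact ⟨δ, hδ, fun t ht => h5 ht⟩
  refine (hfr δ hδ).mono fun k hk x hx => ?_
  obtain ⟨h1, h2⟩ := hCb (u k) (hu k) ρ hρ x hx
  have h3 := h1.trans_lt (hδD _ hk)
  have h4 := h2.trans_lt (hδD _ hk)
  rw [← ofReal_norm] at h3 h4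
  exact ⟨(ENNReal.ofReal_lt_ofReal_iff hη).1 h3, (ENNReal.ofReal_lt_ofReal_iff hη).1 h4⟩

/-- Good spheres about an arbitrary centre. -/
theorem exists_good_sphere (μ : Measure E) [μ.IsAddHaarMeasure] {q : ℝ} {m : ℕ}
    (hm : finrank ℝ E = m + 1) (hq : (m : ℝ) < q) (hq1 : 1 ≤ q) (z : E) {a b : ℝ} (ha : 0 < a)
    (hab : a < b) (u : ℕ → E → F)
    (hu : ∀ k, ∀ x : E, a < ‖x - z‖ → ‖x - z‖ < b → ContDiffAt ℝ 2 (u k) x)
    (hlim : Tendsto (fun k => ∫⁻ x in {x : E | a < ‖x - z‖ ∧ ‖x - z‖ < b},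
      (‖u k x‖ₑ ^ q + ‖fderiv ℝ (u k) x‖ₑ ^ q +
      ‖fderiv ℝ (fderiv ℝ (u k)) x‖ₑ ^ q) ∂μ) atTop (𝓝 0)) :
    ∃ ρ ∈ Ioo a b, ∀ η > 0, ∃ᶠ k in atTop, ∀ x : E, ‖x - z‖ = ρ →
      ‖u k x‖ < η ∧ ‖fderiv ℝ (u k) x‖ < η := by
  have hf1 : ∀ k, fderiv ℝ (fun x => u k (z + x)) = fun x => fderiv ℝ (u k) (z + x) := fun k => by
    ext1 x
    exact fderiv_comp_add_left z
  have hf2 : ∀ k, fderiv ℝ (fderiv ℝ (fun x => u k (z + x))) =
      fun x => fderiv ℝ (fderiv ℝ (u k)) (z + x) := fun k => by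
    rw [hf1]
    ext1 x
    exact fderiv_comp_add_left (f := fderiv ℝ (u k)) z
  have hyp1 : ∀ k, ∀ x ∈ (ann a b : Set E), ContDiffAt ℝ 2 (fun x => u k (z + x)) x := by
    intro k x hx
    have h1 : ContDiffAt ℝ 2 (u k) (z + x) := by
      refine hu k _ ?_ ?_
      · rw [add_sub_cancel_left]; exact hx.1
      · rw [add_sub_cancel_left]; exact hx.2
    exact h1.comp x (contDiffAt_const.add contDiffAt_id)
  have hyp2 : Tendsto (fun k => ∫⁻ x in ann a b, (‖(fun x => u k (z + x)) x‖ₑ ^ q +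
      ‖fderiv ℝ (fun x => u k (z + x)) x‖ₑ ^ q +
      ‖fderiv ℝ (fderiv ℝ (fun x => u k (z + x))) x‖ₑ ^ q) ∂μ) atTop (𝓝 0) := by
    refine hlim.congr fun k => ?_
    rw [hf2 k, hf1 k]
    have hmp : MeasurePreserving (fun x : E => z + x) μ μ := measurePreserving_add_left μ z
    have hpre : (fun x : E => z + x) ⁻¹' {x : E | a < ‖x - z‖ ∧ ‖x - z‖ < b} = ann a b := by
      ext x
      simp [ann]
    rw [← hpre]
    exact (hmp.setLIntegral_comp_preimage_emb (Homeomorph.addLeft z).measurableEmbedding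
      (fun x => ‖u k x‖ₑ ^ q + ‖fderiv ℝ (u k) x‖ₑ ^ q +
        ‖fderiv ℝ (fderiv ℝ (u k)) x‖ₑ ^ q) _).symm
  obtain ⟨ρ, hρ, h⟩ := exists_good_sphere₀ μ hm hq hq1 ha hab (fun k x => u k (z + x)) hyp1 hyp2
  refine ⟨ρ, hρ, fun η hη => (h η hη).mono fun k hk x hx => ?_⟩
  have h1 := hk (x - z) hx
  rw [hf1] at h1
  simpa using h1

end Pool.Agent.H93.Exo
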