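import Mathlib
import Pool.Agent.H93.Exo.Radial
import Pool.Agent.H93.Exo.Flats

/-!
The volume of a thin cone.
-/

set_option linter.unusedSectionVars false

namespace Pool.Agent.H93.Exo

open MeasureTheory Metric Set Filter Topology Function Module
open scoped ENNReal ContDiff InnerProductSpace

variable {m : ℕ}

/-- the first unit vector -/
noncomputable def e0 (m : ℕ) : Euc (m + 1) := EuclideanSpace.single 0 1

theorem norm_e0 : ‖e0 m‖ = 1 := by simp [e0]

theorem inner_e0 (x : Euc (m + 1)) : ⟪e0 m, x⟫_ℝ = x 0 := by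
  simp [e0, EuclideanSpace.inner_single_left]

theorem pr_e0_apply (x : Euc (m + 1)) (i : Fin m) : (pr (e0 m) x) i.succ = x i.succ := by
  rw [pr_apply, inner_e0]
  simp [e0]

theorem volume_thin_le {t R : ℝ} (ht : 0 ≤ t) (hR : 0 ≤ R) :
    volume {x : Euc (m + 1) | ‖pr (e0 m) x‖ ≤ t * ‖x‖ ∧ ‖x‖ ≤ R} ≤
      ENNReal.ofReal (2 * R * (2 * (t * R)) ^ m) := by
  set B : Set (Fin (m + 1) → ℝ) := Set.pi univ
    (Fin.cons (Icc (-R) R) fun _ : Fin m => Icc (-(t * R)) (t * R)) with hB
  have hBm : MeasurableSet B := by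
    refine MeasurableSet.univ_pi fun i => ?_
    refine Fin.cases ?_ (fun i => ?_) i
    · simp only [Fin.cons_zero]; exact measurableSet_Icc
    · simp only [Fin.cons_succ]; exact measurableSet_Icc
  have hsub : {x : Euc (m + 1) | ‖pr (e0 m) x‖ ≤ t * ‖x‖ ∧ ‖x‖ ≤ R} ⊆
      (WithLp.ofLp : Euc (m + 1) → (Fin (m + 1) → ℝ)) ⁻¹' B := by
    rintro x ⟨hx1, hx2⟩
    rw [mem_preimage, hB, mem_univ_pi]
    intro i
    refine Fin.cases ?_ (fun i => ?_) i
    · simp only [Fin.cons_zero]
      have := (PiLp.norm_apply_le x 0).trans hx2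
      rw [Real.norm_eq_abs, abs_le] at this
      exact this
    · simp only [Fin.cons_succ]
      have h1 := PiLp.norm_apply_le (pr (e0 m) x) i.succ
      rw [pr_e0_apply] at h1
      have h2 : ‖x i.succ‖ ≤ t * R := h1.trans (hx1.trans (by gcongr))
      rw [Real.norm_eq_abs, abs_le] at h2
      exact h2
  calc _ ≤ volume ((WithLp.ofLp : Euc (m + 1) → (Fin (m + 1) → ℝ)) ⁻¹' B) := measure_mono hsub
    _ = volume B := (PiLp.volume_preserving_ofLp (Fin (m + 1))).measure_preimage
        hBm.nullMeasurableSet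
    _ = ENNReal.ofReal (2 * R) * ENNReal.ofReal (2 * (t * R)) ^ m := by
        rw [hB, volume_pi_pi, Fin.prod_univ_succ]
        simp only [Fin.cons_zero, Fin.cons_succ, Real.volume_Icc, Finset.prod_const,
          Finset.card_univ, Fintype.card_fin]
        congr 2
        · ring_nf
        · ring_nf
    _ = _ := by
        rw [ENNReal.ofReal_mul (p := 2 * R) (by positivity), ENNReal.ofReal_pow (by positivity)]

end Pool.Agent.H93.Exo
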