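import Mathlib
import Pool.Agent.H93.Exo.Vol
import Pool.Agent.H93.Exo.Sphere

/-!
An integral estimate over dyadic cones.
-/

set_option linter.unusedSectionVars false

namespace Pool.Agent.H93.Exo

open MeasureTheory Metric Set Filter Topology Function Module
open scoped ENNReal ContDiff InnerProductSpace

variable {m : ℕ} {F : Type*} [NormedAddCommGroup F]

/-- the thin cone -/
def thin (m : ℕ) (R t : ℝ) : Set (Euc (m + 1)) := {x | ‖pr (e0 m) x‖ ≤ t * ‖x‖ ∧ ‖x‖ ≤ R}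

theorem measurableSet_thin (R t : ℝ) : MeasurableSet (thin m R t) := by
  have h1 : IsClosed {x : Euc (m + 1) | ‖pr (e0 m) x‖ ≤ t * ‖x‖} :=
    isClosed_le (by fun_prop) (by fun_prop)
  have h2 : IsClosed {x : Euc (m + 1) | ‖x‖ ≤ R} := isClosed_le (by fun_prop) (by fun_prop)
  exact (h1.inter h2).measurableSet

theorem shell_lintegral (hm : 1 ≤ m) {R K : ℝ} (hR : 0 ≤ R) (hK : 0 ≤ K) {J : ℕ} (hJ : 1 ≤ J)
    {δ : ℝ} (hδ : 0 < δ) {Ω : Set (Euc (m + 1))} (hΩ : MeasurableSet Ω) (hb : ∀ x ∈ Ω, ‖x‖ ≤ R)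
    {g : Euc (m + 1) → F} (hg : ∀ x, x ≠ 0 → ‖x‖ ≤ R → g x = 0 ∨ ∃ j ≤ J,
      ‖pr (e0 m) x‖ ≤ (2⁻¹ : ℝ) ^ j * δ * ‖x‖ ∧ ‖g x‖ ≤ K * (J : ℝ)⁻¹ / ((2⁻¹ : ℝ) ^ j * δ)) :
    ∫⁻ x in Ω, ‖g x‖ₑ ^ (m : ℝ) ≤
      ENNReal.ofReal (((J : ℝ) + 1) * (2 * R * (2 * R * K) ^ m) * ((J : ℝ)⁻¹) ^ m) := by
  set t : ℕ → ℝ := fun j => (2⁻¹ : ℝ) ^ j * δ with ht
  have ht0 : ∀ j, 0 < t j := fun j => by simp only [ht]; positivity
  have hm0 : (0 : ℝ) < m := by exact_mod_cast hm
  have hJi : 0 ≤ (J : ℝ)⁻¹ := by positivity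
  set a : ℕ → ℝ≥0∞ := fun j => ENNReal.ofReal ((K * (J : ℝ)⁻¹ / t j) ^ m) with ha
  have hpt : ∀ᵐ x ∂(volume.restrict Ω), ‖g x‖ₑ ^ (m : ℝ) ≤
      ∑ j ∈ Finset.range (J + 1), (thin m R (t j)).indicator (fun _ => a j) x := by
    have h0 : ∀ᵐ x : Euc (m + 1) ∂(volume.restrict Ω), x ≠ 0 := by
      refine ae_restrict_of_ae ?_
      have : (volume : Measure (Euc (m + 1))) {0} = 0 := by
        haveI : Nontrivial (Euc (m + 1)) := inferInstance
        exact measure_singleton 0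
      exact compl_mem_ae_iff.2 this
    filter_upwards [h0, ae_restrict_mem hΩ] with x hx hxΩ
    rcases hg x hx (hb x hxΩ) with h1 | ⟨j, hj, h1, h2⟩
    · rw [h1, enorm_zero, ENNReal.zero_rpow_of_pos hm0]
      exact zero_le
    · have h3 : ‖g x‖ₑ ^ (m : ℝ) ≤ a j := by
        rw [ENNReal.rpow_natCast]
        simp only [ha]
        rw [ENNReal.ofReal_pow (by have := ht0 j; positivity)]
        gcongr
        rw [← ofReal_norm_eq_enorm]
        exact ENNReal.ofReal_le_ofReal h2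
      have h4 : (thin m R (t j)).indicator (fun _ => a j) x = a j :=
        indicator_of_mem (show x ∈ thin m R (t j) from ⟨h1, hb x hxΩ⟩) _
      calc _ ≤ (thin m R (t j)).indicator (fun _ => a j) x := by rw [h4]; exact h3
        _ ≤ _ := Finset.single_le_sum (f := fun j => (thin m R (t j)).indicator (fun _ => a j) x)
            (fun _ _ => zero_le) (Finset.mem_range.2 (by omega))
  calc ∫⁻ x in Ω, ‖g x‖ₑ ^ (m : ℝ)
      ≤ ∫⁻ x in Ω, ∑ j ∈ Finset.range (J + 1), (thin m R (t j)).indicator (fun _ => a j) x :=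
        lintegral_mono_ae hpt
    _ ≤ ∫⁻ x, ∑ j ∈ Finset.range (J + 1), (thin m R (t j)).indicator (fun _ => a j) x :=
        setLIntegral_le_lintegral _ _
    _ = ∑ j ∈ Finset.range (J + 1), a j * volume (thin m R (t j)) := by
        rw [lintegral_finsetSum _ fun j _ => measurable_const.indicator (measurableSet_thin _ _)]
        refine Finset.sum_congr rfl fun j _ => ?_
        rw [lintegral_indicator (measurableSet_thin _ _), setLIntegral_const]
    _ ≤ ∑ _j ∈ Finset.range (J + 1),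
          ENNReal.ofReal ((2 * R * (2 * R * K) ^ m) * ((J : ℝ)⁻¹) ^ m) := by
        refine Finset.sum_le_sum fun j _ => ?_
        have h1 : volume (thin m R (t j)) ≤ ENNReal.ofReal (2 * R * (2 * (t j * R)) ^ m) :=
          volume_thin_le (ht0 j).le hR
        calc _ ≤ a j * ENNReal.ofReal (2 * R * (2 * (t j * R)) ^ m) := by gcongr
          _ = _ := by
              simp only [ha]
              rw [← ENNReal.ofReal_mul (by have := ht0 j; positivity)]
              congr 1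
              have h2 := (ht0 j).ne'
              rw [div_pow, mul_pow K, mul_pow 2 (t j * R), mul_pow (t j), mul_pow (2 * R),
                mul_pow 2 R]
              field_simp
    _ = _ := by
        rw [Finset.sum_const, Finset.card_range, nsmul_eq_mul, mul_assoc ((J : ℝ) + 1),
          ENNReal.ofReal_mul (p := (J : ℝ) + 1) (by positivity)]
        congr 1
        rw [ENNReal.ofReal_add (by positivity) zero_le_one, ENNReal.ofReal_natCast,
          ENNReal.ofReal_one]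
        push_cast
        rfl

/-- the bound tends to zero for `m ≥ 2` -/
theorem tendsto_shell_bound (hm : 2 ≤ m) (A : ℝ) :
    Tendsto (fun J : ℕ => ENNReal.ofReal (((J : ℝ) + 1) * A * ((J : ℝ)⁻¹) ^ m)) atTop (𝓝 0) := by
  have h1 : Tendsto (fun J : ℕ => ((J : ℝ) + 1) * A * ((J : ℝ)⁻¹) ^ m) atTop (𝓝 0) := by
    have h2 : Tendsto (fun J : ℕ => ((J : ℝ))⁻¹) atTop (𝓝 0) := tendsto_inv_atTop_nhds_zero_nat
    have h3 : Tendsto (fun J : ℕ => (1 + (J : ℝ)⁻¹) * A * ((J : ℝ)⁻¹) ^ (m - 1)) atTop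
        (𝓝 ((1 + 0) * A * 0 ^ (m - 1))) :=
      (((tendsto_const_nhds.add h2).mul_const A).mul (h2.pow _))
    rw [zero_pow (by omega), mul_zero] at h3
    refine h3.congr' ?_
    filter_upwards [eventually_ge_atTop 1] with J hJ
    have hJ0 : (J : ℝ) ≠ 0 := by
      have : (1 : ℝ) ≤ J := by exact_mod_cast hJ
      linarith
    obtain ⟨k, rfl⟩ : ∃ k, m = k + 1 := ⟨m - 1, by omega⟩
    rw [Nat.add_sub_cancel, pow_succ]
    field_simp
  have h2 := ENNReal.tendsto_ofReal h1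
  rwa [ENNReal.ofReal_zero] at h2

end Pool.Agent.H93.Exo
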