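import Mathlib
import Pool.Agent.H93.Exo.Approx
import Pool.Agent.H93.Exo.Combo
import Pool.Agent.H93.Exo.ShellEst

/-!
For `1 ≤ q ≤ n - 1` and `n ≥ 3`, every homeomorphism `‖x‖^3 φ(x/‖x‖)` is a `W^{2,q}` limit of
diffeomorphisms.
-/

set_option linter.unusedSectionVars false

namespace Pool.Agent.H93.Exo

open MeasureTheory Metric Set Filter Topology Function Module
open scoped ENNReal ContDiff InnerProductSpace Manifold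

theorem exists_switch {P : ℕ → Prop} {J : ℕ} (h0 : P 0) (hJ : ¬ P J) :
    ∃ j < J, P j ∧ ¬ P (j + 1) := by
  induction J with
  | zero => exact absurd h0 hJ
  | succ J ih =>
    by_cases h : P J
    · exact ⟨J, Nat.lt_succ_self J, h, hJ⟩
    · obtain ⟨j, hj, h1⟩ := ih h
      exact ⟨j, hj.trans (Nat.lt_succ_self J), h1⟩

variable {m : ℕ}

/-- the homogeneous extension of degree one as a `Con` -/
noncomputable def coneCon (φ : SphDiffeo m) : Con (Euc (m + 1)) where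
  f := homExt 1 φ
  g := homExt 1 φ.symm
  gf := homExt_symm_left φ
  fg := homExt_symm_right φ
  hom := fun t x ht => by rw [homExt_smul 1 _ t x ht, pow_one]
  hf := fun _ hx => contDiffAt_homExt 1 φ.contMDiff hx
  hg := fun _ hx => contDiffAt_homExt 1 φ.symm.contMDiff hx

theorem cone_bounds (φ : SphDiffeo m) : ∃ C : ℝ, 0 ≤ C ∧
    (∀ x, ‖homExt 3 φ x‖ ≤ C * ‖x‖ ^ 3) ∧
    (∀ x, x ≠ 0 → ‖fderiv ℝ (homExt 3 φ) x‖ ≤ C * ‖x‖ ^ 2) ∧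
    (∀ x, x ≠ 0 → ‖fderiv ℝ (fderiv ℝ (homExt 3 φ)) x‖ ≤ C * ‖x‖) := by
  have hs : ∀ x, x ≠ 0 → ContDiffAt ℝ ∞ (homExt 3 φ) x := fun x hx =>
    contDiffAt_homExt 3 φ.contMDiff hx
  have h0 : HomDeg 3 (homExt 3 φ) := fun t x ht _ => homExt_smul 3 φ t x ht
  have h1 := h0.fderiv fun x hx => (hs x hx).differentiableAt (by simp)
  obtain ⟨C, hC, hCb⟩ := h1.bound fun x hx => ((hs x hx).fderiv_right (m := ∞)
    (by simp)).continuousAt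
  have h2 := h1.fderiv fun x hx => ((hs x hx).fderiv_right (m := ∞) (by simp)).differentiableAt
    (by simp)
  obtain ⟨D, hD, hDb⟩ := h2.bound fun x hx => (((hs x hx).fderiv_right (m := ∞)
    (by simp)).fderiv_right (m := ∞) (by simp)).continuousAt
  refine ⟨1 + C + D, by positivity, fun x => ?_, fun x hx => ?_, fun x hx => ?_⟩
  · have : ‖homExt 3 φ x‖ = ‖x‖ ^ 3 := norm_homExt 2 φ x
    rw [this]
    exact le_mul_of_one_le_left (by positivity) (by linarith)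
  · refine (hCb x hx).trans ?_
    have : ‖x‖ ^ ((3 : ℤ) - 1) = ‖x‖ ^ 2 := by norm_cast
    rw [this]
    gcongr
    linarith
  · refine (hDb x hx).trans ?_
    have : ‖x‖ ^ ((3 : ℤ) - 1 - 1) = ‖x‖ := by norm_num
    rw [this]
    gcongr
    linarith

theorem fderiv_sub_eq_zero {f g : Euc (m + 1) → Euc (m + 1)} {x : Euc (m + 1)} (h : g =ᶠ[𝓝 x] f) :
    (g - f) x = 0 ∧ (fderiv ℝ g - fderiv ℝ f) x = 0 ∧
      (fderiv ℝ (fderiv ℝ g) - fderiv ℝ (fderiv ℝ f)) x = 0 := by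
  refine ⟨?_, ?_, ?_⟩
  · rw [Pi.sub_apply, h.eq_of_nhds, sub_self]
  · rw [Pi.sub_apply, h.fderiv_eq, sub_self]
  · rw [Pi.sub_apply, h.fderiv.fderiv_eq]
    exact sub_self (G := Euc (m + 1) →L[ℝ] Euc (m + 1) →L[ℝ] Euc (m + 1)) _

theorem cone_pointwise (φ : SphDiffeo m) {C : ℝ} (hC : 0 < C) {R : ℝ} (hR : 0 ≤ R) :
    ∃ K : ℝ, 0 ≤ K ∧ ∀ (J : ℕ) (_ : 1 ≤ J) (δ : ℝ) (v : Con (Euc (m + 1))), 0 < δ →
      δ ≤ (J : ℝ)⁻¹ → (∀ x, ‖v.f x‖ ≤ C * ‖x‖) →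
      (∀ x, x ≠ 0 → ‖fderiv ℝ v.f x‖ ≤ C) →
      (∀ x, δ * ‖x‖ < ‖pr (e0 m) x‖ → v.f =ᶠ[𝓝 x] id) →
      (∀ x, (2⁻¹ : ℝ) ^ J * δ * ‖x‖ < ‖pr (e0 m) x‖ →
        ‖fderiv ℝ (fderiv ℝ v.f) x‖ * ‖pr (e0 m) x‖ ≤ C * (J : ℝ)⁻¹) →
      (∀ x, x ≠ 0 → ‖pr (e0 m) x‖ ≤ (2⁻¹ : ℝ) ^ J * δ * ‖x‖ →
        ‖fderiv ℝ (fderiv ℝ v.f) x‖ * ((2⁻¹ : ℝ) ^ J * δ * ‖x‖) ≤ C * (J : ℝ)⁻¹) →
      ∀ x, x ≠ 0 → ‖x‖ ≤ R →
        ((homExt 3 φ ∘ v.f - homExt 3 φ) x = 0 ∧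
          (fderiv ℝ (homExt 3 φ ∘ v.f) - fderiv ℝ (homExt 3 φ)) x = 0 ∧
          (fderiv ℝ (fderiv ℝ (homExt 3 φ ∘ v.f)) - fderiv ℝ (fderiv ℝ (homExt 3 φ))) x = 0) ∨
        ∃ j ≤ J, ‖pr (e0 m) x‖ ≤ (2⁻¹ : ℝ) ^ j * δ * ‖x‖ ∧
          ‖(homExt 3 φ ∘ v.f - homExt 3 φ) x‖ ≤ K * (J : ℝ)⁻¹ / ((2⁻¹ : ℝ) ^ j * δ) ∧
          ‖(fderiv ℝ (homExt 3 φ ∘ v.f) - fderiv ℝ (homExt 3 φ)) x‖ ≤
            K * (J : ℝ)⁻¹ / ((2⁻¹ : ℝ) ^ j * δ) ∧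
          ‖(fderiv ℝ (fderiv ℝ (homExt 3 φ ∘ v.f)) - fderiv ℝ (fderiv ℝ (homExt 3 φ))) x‖ ≤
            K * (J : ℝ)⁻¹ / ((2⁻¹ : ℝ) ^ j * δ) := by
  obtain ⟨B, hB, hB0, hB1, hB2⟩ := cone_bounds φ
  set K : ℝ := B * (C ^ 3 + 1) * (R ^ 3 + R ^ 2 + R) + 2 * B * C ^ 3 * R with hK
  refine ⟨K, by positivity, ?_⟩
  intro J hJ δ v hδ hδJ hv0 hv1 hvid hv2 hv3 x hx hxR
  by_cases hcase : δ * ‖x‖ < ‖pr (e0 m) x‖
  · left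
    have h1 : (homExt 3 φ ∘ v.f) =ᶠ[𝓝 x] homExt 3 φ := by
      filter_upwards [hvid x hcase] with y hy
      rw [comp_apply, hy, id]
    exact fderiv_sub_eq_zero h1
  right
  push Not at hcase
  have hx' : 0 < ‖x‖ := norm_pos_iff.2 hx
  have hJi : 0 < (J : ℝ)⁻¹ := by
    have : (1 : ℝ) ≤ J := by exact_mod_cast hJ
    positivity
  obtain ⟨j, hj, hj1, hj2⟩ : ∃ j ≤ J, ‖pr (e0 m) x‖ ≤ (2⁻¹ : ℝ) ^ j * δ * ‖x‖ ∧
      ‖fderiv ℝ (fderiv ℝ v.f) x‖ * ((2⁻¹ : ℝ) ^ j * δ * ‖x‖) ≤ 2 * C * (J : ℝ)⁻¹ := by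
    by_cases h1 : ‖pr (e0 m) x‖ ≤ (2⁻¹ : ℝ) ^ J * δ * ‖x‖
    · refine ⟨J, le_rfl, h1, (hv3 x hx h1).trans ?_⟩
      have : 0 ≤ C * (J : ℝ)⁻¹ := by positivity
      linarith
    · obtain ⟨j, hj, h2, h3⟩ := exists_switch
        (P := fun j => ‖pr (e0 m) x‖ ≤ (2⁻¹ : ℝ) ^ j * δ * ‖x‖) (by simpa using hcase) h1
      refine ⟨j, hj.le, h2, ?_⟩
      push Not at h1 h3
      have h4 := hv2 x h1
      have h5 : ‖fderiv ℝ (fderiv ℝ v.f) x‖ * ((2⁻¹ : ℝ) ^ (j + 1) * δ * ‖x‖) ≤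
          ‖fderiv ℝ (fderiv ℝ v.f) x‖ * ‖pr (e0 m) x‖ := by
        gcongr
      rw [pow_succ] at h5
      linarith
  set t : ℝ := (2⁻¹ : ℝ) ^ j * δ with ht
  have ht0 : 0 < t := by positivity
  have htJ : t ≤ (J : ℝ)⁻¹ := by
    refine le_trans ?_ hδJ
    exact mul_le_of_le_one_left hδ.le (pow_le_one₀ (by norm_num) (by norm_num))
  set s : ℝ := (J : ℝ)⁻¹ / t with hs
  have hs1 : 1 ≤ s := (one_le_div ht0).2 htJ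
  have hD2 : ‖fderiv ℝ (fderiv ℝ v.f) x‖ * ‖x‖ ≤ 2 * C * s := by
    rw [hs, mul_div_assoc', le_div_iff₀ ht0]
    calc _ = ‖fderiv ℝ (fderiv ℝ v.f) x‖ * (t * ‖x‖) := by ring
      _ ≤ _ := hj2
  have hvx : v.f x ≠ 0 := v.f_ne hx
  have hvd : ContDiffAt ℝ 2 v.f x := (v.hf x hx).of_le (by norm_cast)
  have hFd : ContDiffAt ℝ 2 (homExt 3 φ) (v.f x) := (contDiff_cone φ).contDiffAt
  have hx2 : ‖x‖ ^ 2 ≤ R ^ 2 := by gcongr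
  have hx3 : ‖x‖ ^ 3 ≤ R ^ 3 := by gcongr
  have hKs : ∀ a : ℝ, a ≤ B * (C ^ 3 + 1) * (R ^ 3 + R ^ 2 + R) + 2 * B * C ^ 3 * R * s →
      a ≤ K * (J : ℝ)⁻¹ / t := by
    intro a ha
    rw [mul_div_assoc, ← hs, hK]
    have h1 : 0 ≤ B * (C ^ 3 + 1) * (R ^ 3 + R ^ 2 + R) := by positivity
    nlinarith
  have hpos : 0 ≤ 2 * B * C ^ 3 * R * s := by positivity
  refine ⟨j, hj, hj1, hKs _ ?_, hKs _ ?_, hKs _ ?_⟩
  · rw [Pi.sub_apply, comp_apply]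
    calc _ ≤ ‖homExt 3 φ (v.f x)‖ + ‖homExt 3 φ x‖ := norm_sub_le _ _
      _ ≤ B * (C * ‖x‖) ^ 3 + B * ‖x‖ ^ 3 := by
          have h1 := hB0 (v.f x)
          have h2 : B * ‖v.f x‖ ^ 3 ≤ B * (C * ‖x‖) ^ 3 := by gcongr; exact hv0 x
          exact add_le_add (h1.trans h2) (hB0 x)
      _ = B * (C ^ 3 + 1) * ‖x‖ ^ 3 := by ring
      _ ≤ B * (C ^ 3 + 1) * (R ^ 3 + R ^ 2 + R) := by
          gcongr
          have : 0 ≤ R ^ 2 + R := by positivity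
          linarith
      _ ≤ _ := le_add_of_nonneg_right hpos
  · rw [Pi.sub_apply]
    have h0 : ‖fderiv ℝ (homExt 3 φ) (v.f x)‖ ≤ B * (C * ‖x‖) ^ 2 :=
      (hB1 _ hvx).trans (by gcongr; exact hv0 x)
    calc _ ≤ ‖fderiv ℝ (homExt 3 φ ∘ v.f) x‖ + ‖fderiv ℝ (homExt 3 φ) x‖ := norm_sub_le _ _
      _ ≤ B * (C * ‖x‖) ^ 2 * C + B * ‖x‖ ^ 2 := by
          refine add_le_add ?_ (hB1 x hx)
          refine (norm_fderiv_comp_le (hvd.differentiableAt (by norm_num))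
            (hFd.differentiableAt (by norm_num))).trans ?_
          gcongr
          exact hv1 x hx
      _ = B * (C ^ 3 + 1) * ‖x‖ ^ 2 := by ring
      _ ≤ B * (C ^ 3 + 1) * (R ^ 3 + R ^ 2 + R) := by
          gcongr
          have : 0 ≤ R ^ 3 + R := by positivity
          linarith
      _ ≤ _ := le_add_of_nonneg_right hpos
  · rw [Pi.sub_apply]
    have h0 : ‖fderiv ℝ (homExt 3 φ) (v.f x)‖ ≤ B * (C * ‖x‖) ^ 2 :=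
      (hB1 _ hvx).trans (by gcongr; exact hv0 x)
    have h1 : ‖fderiv ℝ (fderiv ℝ (homExt 3 φ)) (v.f x)‖ ≤ B * (C * ‖x‖) :=
      (hB2 _ hvx).trans (by gcongr; exact hv0 x)
    have h2 : ‖fderiv ℝ (fderiv ℝ (homExt 3 φ ∘ v.f)) x‖ ≤ B * (C * ‖x‖) * C ^ 2 +
        B * (C * ‖x‖) ^ 2 * ‖fderiv ℝ (fderiv ℝ v.f) x‖ := by
      refine (norm_fderiv2_comp_le hvd hFd).trans ?_
      gcongr
      exact hv1 x hx
    have h3 : B * (C * ‖x‖) ^ 2 * ‖fderiv ℝ (fderiv ℝ v.f) x‖ ≤ 2 * B * C ^ 3 * R * s := by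
      calc _ = B * C ^ 2 * ‖x‖ * (‖fderiv ℝ (fderiv ℝ v.f) x‖ * ‖x‖) := by ring
        _ ≤ B * C ^ 2 * R * (2 * C * s) := by gcongr
        _ = _ := by ring
    have h4 := hB2 x hx
    have h5 : ‖(fderiv ℝ (fderiv ℝ (homExt 3 φ ∘ v.f)) x - fderiv ℝ (fderiv ℝ (homExt 3 φ)) x)‖ ≤
        ‖fderiv ℝ (fderiv ℝ (homExt 3 φ ∘ v.f)) x‖ + ‖fderiv ℝ (fderiv ℝ (homExt 3 φ)) x‖ :=
      norm_sub_le (E := Euc (m + 1) →L[ℝ] Euc (m + 1) →L[ℝ] Euc (m + 1)) _ _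
    have h6 : B * (C * ‖x‖) * C ^ 2 + B * ‖x‖ ≤ B * (C ^ 3 + 1) * (R ^ 3 + R ^ 2 + R) := by
      calc _ = B * (C ^ 3 + 1) * ‖x‖ := by ring
        _ ≤ _ := by
          gcongr
          have : 0 ≤ R ^ 3 + R ^ 2 := by positivity
          linarith
    linarith

end Pool.Agent.H93.Exo
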