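import Mathlib
import Pool.Agent.H93.Exo.Sob
import Pool.Agent.H93.Exo.Sphere

/-!
Restriction of weak derivatives to open subsets, and the integrals of the jets of `g k - f`.
-/

set_option linter.unusedSectionVars false

namespace Pool.Agent.H93.Exo

open MeasureTheory Metric Set Filter Topology Module Function
open scoped ENNReal ContDiff

variable {E : Type*} [NormedAddCommGroup E] [NormedSpace ℝ E] [FiniteDimensional ℝ E]
  [MeasureSpace E] [BorelSpace E] [(volume : Measure E).IsAddHaarMeasure]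

theorem IsWeakDeriv.mono {F : Type*} [NormedAddCommGroup F] [NormedSpace ℝ F]
    {Ω V : Set E} (hΩ : IsOpen Ω) (hVΩ : V ⊆ Ω) {u : E → F} {u1 : E → E →L[ℝ] F}
    (h : IsWeakDeriv Ω u u1) : IsWeakDeriv V u u1 := by
  intro ψ hψ hc hs v
  have h1 := h ψ hψ hc (hs.trans hVΩ) v
  have e1 : ∫ x in V, fderiv ℝ ψ x v • u x = ∫ x in Ω, fderiv ℝ ψ x v • u x := by
    refine (setIntegral_eq_of_subset_of_forall_sdiff_eq_zero hΩ.measurableSet hVΩ ?_).symm
    intro x hx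
    have : x ∉ tsupport (fderiv ℝ ψ) := fun hx' => hx.2 (hs (tsupport_fderiv_subset ℝ hx'))
    rw [image_eq_zero_of_notMem_tsupport this]
    simp
  have e2 : ∫ x in V, ψ x • u1 x v = ∫ x in Ω, ψ x • u1 x v := by
    refine (setIntegral_eq_of_subset_of_forall_sdiff_eq_zero hΩ.measurableSet hVΩ ?_).symm
    intro x hx
    have : x ∉ tsupport ψ := fun hx' => hx.2 (hs hx')
    rw [image_eq_zero_of_notMem_tsupport this]
    simp
  rw [e1, e2]
  exact h1

theorem InLq.mono {F : Type*} [NormedAddCommGroup F] [NormedSpace ℝ F] {q : ℝ}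
    {Ω V : Set E} (hVΩ : V ⊆ Ω) {u : E → F} (h : InLq q Ω u) : InLq q V u :=
  MemLp.mono_measure (Measure.restrict_mono hVΩ le_rfl) h

theorem IsJet.mono {q : ℝ} {Ω V : Set E} (hΩ : IsOpen Ω) (hVΩ : V ⊆ Ω)
    {f : E → E} {f1 : E → E →L[ℝ] E} {f2 : E → E →L[ℝ] E →L[ℝ] E} (h : IsJet q Ω f f1 f2) :
    IsJet q V f f1 f2 :=
  ⟨⟨h.1.1.mono hVΩ, h.1.2.1.mono hVΩ, h.1.2.2.mono hVΩ⟩, h.2.1.mono hΩ hVΩ, h.2.2.mono hΩ hVΩ⟩

theorem lintegral_tendsto_of_lqNorm {G : Type*} [NormedAddCommGroup G] [NormedSpace ℝ G] {q : ℝ}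
    (hq : 0 < q) {V : Set E} {w : ℕ → E → G}
    (h : Tendsto (fun k => lqNorm q V (w k)) atTop (𝓝 0)) :
    Tendsto (fun k => ∫⁻ x in V, ‖w k x‖ₑ ^ q) atTop (𝓝 0) := by
  have h1 : Tendsto (fun t : ℝ≥0∞ => t ^ q) (𝓝 0) (𝓝 0) := by
    have := (ENNReal.continuous_rpow_const (y := q)).tendsto (0 : ℝ≥0∞)
    rwa [ENNReal.zero_rpow_of_pos hq] at this
  refine (h1.comp h).congr fun k => ?_
  simp only [comp_apply, lqNorm]
  rw [eLpNorm_eq_lintegral_rpow_enorm_toReal (by simpa using hq) ENNReal.ofReal_ne_top,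
    ENNReal.toReal_ofReal hq.le, ← ENNReal.rpow_mul, one_div, inv_mul_cancel₀ hq.ne',
    ENNReal.rpow_one]

/-- the integrals of the jets of the differences tend to zero on open sets where the limit is
`C^2` -/
theorem jets_tendsto {q : ℝ} (hq1 : 1 ≤ q) {Ω V : Set E} (hΩ : IsOpen Ω) (hV : IsOpen V)
    (hVΩ : V ⊆ Ω) {f : E → E} {f1 : E → E →L[ℝ] E} {f2 : E → E →L[ℝ] E →L[ℝ] E}
    (hfj : IsJet q Ω f f1 f2) (hf2 : ContDiffOn ℝ 2 f V)
    {g : ℕ → E → E} {g1 : ℕ → E → E →L[ℝ] E} {g2 : ℕ → E → E →L[ℝ] E →L[ℝ] E}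
    (hg : ∀ k, IsDiffeoOn Ω (g k) ∧ IsJet q Ω (g k) (g1 k) (g2 k))
    (hlim : Tendsto (fun k => lqNorm q Ω (g k - f) + lqNorm q Ω (g1 k - f1) +
      lqNorm q Ω (g2 k - f2)) atTop (𝓝 0)) :
    Tendsto (fun k => ∫⁻ x in V, (‖(g k - f) x‖ₑ ^ q + ‖fderiv ℝ (g k - f) x‖ₑ ^ q +
      ‖fderiv ℝ (fderiv ℝ (g k - f)) x‖ₑ ^ q)) atTop (𝓝 0) := by
  have hq0 : 0 < q := by linarith
  have hmono : ∀ {G : Type _} [NormedAddCommGroup G] [NormedSpace ℝ G] (w : E → G),
      lqNorm q V w ≤ lqNorm q Ω w := fun w =>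
    eLpNorm_mono_measure _ (Measure.restrict_mono hVΩ le_rfl)
  have hfjV : IsJet q V f f1 f2 := hfj.mono hΩ hVΩ
  have hgV : ∀ k, IsJet q V (g k) (g1 k) (g2 k) := fun k => (hg k).2.mono hΩ hVΩ
  have hg2 : ∀ k, ContDiffOn ℝ 2 (g k) V := fun k => ((hg k).1.1.of_le (by norm_cast)).mono hVΩ
  have hfa : ∀ x ∈ V, ContDiffAt ℝ 2 f x := fun x hx => hf2.contDiffAt (hV.mem_nhds hx)
  have hga : ∀ k, ∀ x ∈ V, ContDiffAt ℝ 2 (g k) x := fun k x hx =>
    (hg2 k).contDiffAt (hV.mem_nhds hx)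
  -- derivatives of the difference
  have hd1 : ∀ k, ∀ x ∈ V, fderiv ℝ (g k - f) x = fderiv ℝ (g k) x - fderiv ℝ f x :=
    fun k x hx => fderiv_sub ((hga k x hx).differentiableAt (by simp))
      ((hfa x hx).differentiableAt (by simp))
  have hd2 : ∀ k, ∀ x ∈ V, fderiv ℝ (fderiv ℝ (g k - f)) x =
      fderiv ℝ (fderiv ℝ (g k)) x - fderiv ℝ (fderiv ℝ f) x := by
    intro k x hx
    have e1 : fderiv ℝ (g k - f) =ᶠ[𝓝 x] fun y => fderiv ℝ (g k) y - fderiv ℝ f y := by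
      filter_upwards [hV.mem_nhds hx] with y hy using hd1 k y hy
    rw [e1.fderiv_eq]
    exact fderiv_sub (((hga k x hx).fderiv_right (m := 1) (by norm_num)).differentiableAt
      one_ne_zero) (((hfa x hx).fderiv_right (m := 1) (by norm_num)).differentiableAt one_ne_zero)
  have ae1 : ∀ k, fderiv ℝ (g k - f) =ᵐ[volume.restrict V] g1 k - f1 := by
    intro k
    filter_upwards [(hgV k).ae_eq1 hq1 hV (hg2 k), hfjV.ae_eq1 hq1 hV hf2,
      ae_restrict_mem hV.measurableSet] with x h1 h2 hx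
    rw [hd1 k x hx, Pi.sub_apply, h1, h2]
  have ae2 : ∀ k, fderiv ℝ (fderiv ℝ (g k - f)) =ᵐ[volume.restrict V] g2 k - f2 := by
    intro k
    filter_upwards [(hgV k).ae_eq2 hq1 hV (hg2 k), hfjV.ae_eq2 hq1 hV hf2,
      ae_restrict_mem hV.measurableSet] with x h1 h2 hx
    rw [hd2 k x hx, Pi.sub_apply, h1, h2]
  have t0 : Tendsto (fun k => lqNorm q V (g k - f)) atTop (𝓝 0) :=
    tendsto_of_tendsto_of_tendsto_of_le_of_le tendsto_const_nhds hlim (fun _ => zero_le)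
      (fun k => (hmono _).trans (by simp only [add_assoc]; exact le_self_add))
  have t1 : Tendsto (fun k => lqNorm q V (fderiv ℝ (g k - f))) atTop (𝓝 0) := by
    refine tendsto_of_tendsto_of_tendsto_of_le_of_le tendsto_const_nhds hlim (fun _ => zero_le)
      (fun k => ?_)
    have : lqNorm q V (fderiv ℝ (g k - f)) = lqNorm q V (g1 k - f1) := eLpNorm_congr_ae (ae1 k)
    simp only
    rw [this, add_comm (lqNorm q Ω (g k - f)) _, add_assoc]
    exact (hmono _).trans le_self_add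
  have t2 : Tendsto (fun k => lqNorm q V (fderiv ℝ (fderiv ℝ (g k - f)))) atTop (𝓝 0) := by
    refine tendsto_of_tendsto_of_tendsto_of_le_of_le tendsto_const_nhds hlim (fun _ => zero_le)
      (fun k => ?_)
    have : lqNorm q V (fderiv ℝ (fderiv ℝ (g k - f))) = lqNorm q V (g2 k - f2) :=
      eLpNorm_congr_ae (ae2 k)
    simp only
    rw [this]
    exact (hmono _).trans le_add_self
  have s0 := lintegral_tendsto_of_lqNorm hq0 t0
  have s1 := lintegral_tendsto_of_lqNorm hq0 t1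
  have s2 := lintegral_tendsto_of_lqNorm hq0 t2
  have s := (s0.add s1).add s2
  simp only [add_zero] at s
  refine s.congr fun k => ?_
  have hu : ∀ x ∈ V, ContDiffAt ℝ 2 (g k - f) x := fun x hx => (hga k x hx).sub (hfa x hx)
  have m0 : AEMeasurable (fun x => ‖(g k - f) x‖ₑ ^ q) (volume.restrict V) := by
    have : ContinuousOn (g k - f) V := fun x hx => (hu x hx).continuousAt.continuousWithinAt
    exact (continuousOn_enorm_rpow this).aemeasurable hV.measurableSet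
  have d1 : ∀ x ∈ V, ContDiffAt ℝ 1 (fderiv ℝ (g k - f)) x := fun x hx =>
    (hu x hx).fderiv_right (m := 1) (by norm_num)
  have m1 : AEMeasurable (fun x => ‖fderiv ℝ (g k - f) x‖ₑ ^ q) (volume.restrict V) := by
    have : ContinuousOn (fderiv ℝ (g k - f)) V := fun x hx =>
      (d1 x hx).continuousAt.continuousWithinAt
    exact (continuousOn_enorm_rpow (X := E) (G := E →L[ℝ] E) this).aemeasurable hV.measurableSet
  have m01 : AEMeasurable (fun x => ‖(g k - f) x‖ₑ ^ q + ‖fderiv ℝ (g k - f) x‖ₑ ^ q)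
      (volume.restrict V) := m0.add m1
  rw [lintegral_add_left' m01, lintegral_add_left' m0]

end Pool.Agent.H93.Exo
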