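import Mathlib
import Pool.Agent.H93.Exo.Obst

/-!
Radial retractions onto thin shells, with derivative bounds independent of the thickness.
-/

set_option linter.unusedSectionVars false

namespace Pool.Agent.H93.Exo

open Metric Set Filter Topology Module Function
open scoped ContDiff InnerProductSpace

/-- a fixed bump function on the line -/
noncomputable def bet : ContDiffBump (0 : ℝ) := ⟨1, 2, one_pos, one_lt_two⟩

/-- `t ↦ t β(t)` -/
noncomputable def gam (t : ℝ) : ℝ := t * bet t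

theorem contDiff_gam : ContDiff ℝ ∞ gam := contDiff_id.mul bet.contDiff

theorem gam_of_le {t : ℝ} (ht : |t| ≤ 1) : gam t = t := by
  have : bet t = 1 := bet.one_of_mem_closedBall (by simpa [bet, Real.norm_eq_abs] using ht)
  rw [gam, this, mul_one]

theorem gam_of_ge {t : ℝ} (ht : 2 ≤ |t|) : gam t = 0 := by
  have : bet t = 0 := bet.zero_of_le_dist (by simpa [bet, dist_eq_norm, Real.norm_eq_abs] using ht)
  rw [gam, this, mul_zero]

theorem abs_gam_le (t : ℝ) : |gam t| ≤ 2 := by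
  rcases le_total 2 |t| with h | h
  · rw [gam_of_ge h, abs_zero]; norm_num
  · rw [gam, abs_mul, abs_of_nonneg (bet.nonneg)]
    calc |t| * bet t ≤ 2 * 1 := mul_le_mul h bet.le_one bet.nonneg (by norm_num)
      _ = 2 := by norm_num

theorem exists_deriv_gam_le : ∃ C : ℝ, 0 ≤ C ∧ ∀ t, |deriv gam t| ≤ C := by
  have hc : HasCompactSupport gam := by
    refine HasCompactSupport.intro (isCompact_closedBall (0 : ℝ) 2) fun x hx => ?_
    rw [mem_closedBall_zero_iff, not_le, Real.norm_eq_abs] at hx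
    exact gam_of_ge hx.le
  have hd : Continuous (deriv gam) := contDiff_gam.continuous_deriv (by simp)
  obtain ⟨C, hC⟩ := hd.bounded_above_of_compact_support hc.deriv
  exact ⟨|C|, abs_nonneg C, fun t => (hC t).trans (le_abs_self C)⟩

/-- retraction of the line to the interval of radius `2τ` about `ρ` -/
noncomputable def kap (ρ τ s : ℝ) : ℝ := ρ + τ * gam ((s - ρ) / τ)

theorem contDiff_kap (ρ τ : ℝ) : ContDiff ℝ ∞ (kap ρ τ) :=
  contDiff_const.add (contDiff_const.mul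
    (contDiff_gam.comp ((contDiff_id.sub contDiff_const).div_const τ)))

theorem kap_of_le {ρ τ s : ℝ} (hτ : 0 < τ) (h : |s - ρ| ≤ τ) : kap ρ τ s = s := by
  rw [kap, gam_of_le, mul_div_cancel₀ _ hτ.ne']
  · ring
  · rw [abs_div, abs_of_pos hτ, div_le_one hτ]
    exact h

theorem abs_kap_sub_le {ρ τ : ℝ} (hτ : 0 < τ) (s : ℝ) : |kap ρ τ s - ρ| ≤ 2 * τ := by
  have : kap ρ τ s - ρ = τ * gam ((s - ρ) / τ) := by rw [kap]; ring
  rw [this, abs_mul, abs_of_pos hτ, mul_comm]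
  exact mul_le_mul_of_nonneg_right (abs_gam_le _) hτ.le

theorem hasDerivAt_kap {ρ τ : ℝ} (hτ : 0 < τ) (s : ℝ) :
    HasDerivAt (kap ρ τ) (deriv gam ((s - ρ) / τ)) s := by
  have h1 : HasDerivAt (fun s : ℝ => (s - ρ) / τ) (1 / τ) s :=
    ((hasDerivAt_id s).sub_const ρ).div_const τ
  have h2 : HasDerivAt gam (deriv gam ((s - ρ) / τ)) ((s - ρ) / τ) :=
    (contDiff_gam.contDiffAt.differentiableAt (by simp)).hasDerivAt
  have h3 := ((h2.comp s h1).const_mul τ).const_add ρ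
  have e : τ * (deriv gam ((s - ρ) / τ) * (1 / τ)) = deriv gam ((s - ρ) / τ) := by
    field_simp
  rw [e] at h3
  exact h3

variable {E : Type*} [NormedAddCommGroup E] [InnerProductSpace ℝ E] [FiniteDimensional ℝ E]

/-- radial retraction to a shell about the sphere of radius `ρ` centred at `z` -/
noncomputable def shell (z : E) (ρ τ : ℝ) (x : E) : E :=
  z + kap ρ τ ‖x - z‖ • (‖x - z‖⁻¹ • (x - z))

theorem norm_shell_sub {z : E} {ρ τ : ℝ} {x : E} (hx : x ≠ z) (hτ : 0 < τ) (hρτ : 2 * τ ≤ ρ) :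
    ‖shell z ρ τ x - z‖ = kap ρ τ ‖x - z‖ := by
  have hpos : 0 < ‖x - z‖ := norm_pos_iff.2 (sub_ne_zero.2 hx)
  have h1 := abs_le.1 (abs_kap_sub_le (ρ := ρ) hτ ‖x - z‖)
  rw [shell, add_sub_cancel_left, norm_smul, norm_smul, norm_inv, norm_norm,
    inv_mul_cancel₀ hpos.ne', mul_one, Real.norm_of_nonneg (by linarith)]

theorem shell_of_le {z : E} {ρ τ : ℝ} {x : E} (hx : x ≠ z) (hτ : 0 < τ)
    (h : |‖x - z‖ - ρ| ≤ τ) : shell z ρ τ x = x := by
  have hpos : 0 < ‖x - z‖ := norm_pos_iff.2 (sub_ne_zero.2 hx)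
  rw [shell, kap_of_le hτ h, smul_smul, mul_inv_cancel₀ hpos.ne', one_smul]
  abel

theorem contDiffAt_shell {z : E} {ρ τ : ℝ} {x : E} (hx : x ≠ z) :
    ContDiffAt ℝ ∞ (shell z ρ τ) x := by
  have hne : x - z ≠ 0 := sub_ne_zero.2 hx
  have h0 : ContDiffAt ℝ ∞ (fun x : E => x - z) x := contDiffAt_id.sub contDiffAt_const
  have h1 : ContDiffAt ℝ ∞ (fun x : E => ‖x - z‖) x := h0.norm ℝ hne
  have h2 : ContDiffAt ℝ ∞ (fun x : E => kap ρ τ ‖x - z‖) x :=
    (contDiff_kap ρ τ).contDiffAt.comp x h1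
  exact contDiffAt_const.add (h2.smul ((h1.inv (norm_ne_zero_iff.2 hne)).smul h0))

theorem exists_norm_fderiv_shell_le : ∃ C : ℝ, 0 ≤ C ∧ ∀ (z : E) (ρ τ : ℝ), 0 < τ → 2 * τ ≤ ρ →
    ∀ x : E, ρ / 2 ≤ ‖x - z‖ → 0 < ρ → ‖fderiv ℝ (shell z ρ τ) x‖ ≤ C := by
  obtain ⟨C, hC0, hC⟩ := exists_deriv_gam_le
  refine ⟨C + 8, by positivity, fun z ρ τ hτ hρτ x hx hρ => ?_⟩
  have hpos : 0 < ‖x - z‖ := lt_of_lt_of_le (by positivity) hx
  have hne : x - z ≠ 0 := norm_pos_iff.1 hpos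
  set r := ‖x - z‖ with hr
  -- the norm
  have h0 : ContDiffAt ℝ ∞ (fun x : E => x - z) x := contDiffAt_id.sub contDiffAt_const
  have h1 : ContDiffAt ℝ ∞ (fun x : E => ‖x - z‖) x := h0.norm ℝ hne
  set N' := fderiv ℝ (fun x : E => ‖x - z‖) x with hN'
  have hN : HasFDerivAt (fun x : E => ‖x - z‖) N' x :=
    (h1.differentiableAt (by simp)).hasFDerivAt
  have hN1 : ‖N'‖ ≤ 1 := by
    have hl : LipschitzWith 1 (fun x : E => ‖x - z‖) := by
      refine LipschitzWith.of_dist_le_mul fun a b => ?_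
      rw [NNReal.coe_one, one_mul, Real.dist_eq, dist_eq_norm]
      calc |‖a - z‖ - ‖b - z‖| ≤ ‖(a - z) - (b - z)‖ := abs_norm_sub_norm_le _ _
        _ = ‖a - b‖ := by congr 1; abel
    have := norm_fderiv_le_of_lipschitz ℝ hl (x₀ := x)
    simpa using this
  have hk0 : HasFDerivAt (kap ρ τ ∘ fun x : E => ‖x - z‖) (deriv gam ((r - ρ) / τ) • N') x :=
    (hasDerivAt_kap hτ r).comp_hasFDerivAt x hN
  have hk : HasFDerivAt (fun x : E => kap ρ τ ‖x - z‖) (deriv gam ((r - ρ) / τ) • N') x := hk0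
  have hi : HasFDerivAt (fun x : E => ‖x - z‖⁻¹) ((-(r ^ 2)⁻¹) • N') x :=
    (hasDerivAt_inv hpos.ne').comp_hasFDerivAt x hN
  have hid : HasFDerivAt (fun x : E => x - z) (ContinuousLinearMap.id ℝ E) x :=
    (hasFDerivAt_id x).sub_const z
  have hu : HasFDerivAt (fun x : E => ‖x - z‖⁻¹ • (x - z))
      (r⁻¹ • ContinuousLinearMap.id ℝ E + ((-(r ^ 2)⁻¹) • N').smulRight (x - z)) x :=
    hi.smul hid
  have hs : HasFDerivAt (shell z ρ τ)
      (kap ρ τ r • (r⁻¹ • ContinuousLinearMap.id ℝ E + ((-(r ^ 2)⁻¹) • N').smulRight (x - z)) +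
        (deriv gam ((r - ρ) / τ) • N').smulRight (r⁻¹ • (x - z))) x :=
    (hk.smul hu).const_add z
  rw [hs.fderiv]
  have hkb := abs_le.1 (abs_kap_sub_le (ρ := ρ) hτ r)
  have hk0 : 0 ≤ kap ρ τ r := by linarith
  have hk2 : kap ρ τ r ≤ 2 * ρ := by linarith
  have e1 : ‖r⁻¹ • ContinuousLinearMap.id ℝ E + ((-(r ^ 2)⁻¹) • N').smulRight (x - z)‖ ≤
      2 * r⁻¹ := by
    calc _ ≤ ‖r⁻¹ • ContinuousLinearMap.id ℝ E‖ + ‖((-(r ^ 2)⁻¹) • N').smulRight (x - z)‖ :=
          norm_add_le _ _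
      _ ≤ r⁻¹ * 1 + (r ^ 2)⁻¹ * 1 * r := by
          gcongr
          · rw [norm_smul, Real.norm_of_nonneg (by positivity)]
            gcongr
            exact ContinuousLinearMap.norm_id_le
          · rw [ContinuousLinearMap.norm_smulRight_apply, norm_smul, norm_neg,
              Real.norm_of_nonneg (by positivity)]
            gcongr
      _ = 2 * r⁻¹ := by field_simp; ring
  have e2 : ‖(deriv gam ((r - ρ) / τ) • N').smulRight (r⁻¹ • (x - z))‖ ≤ C := by
    rw [ContinuousLinearMap.norm_smulRight_apply, norm_smul, norm_smul, norm_inv,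
      Real.norm_of_nonneg hpos.le, ← hr, inv_mul_cancel₀ hpos.ne', mul_one]
    calc ‖deriv gam ((r - ρ) / τ)‖ * ‖N'‖ ≤ C * 1 := by
          gcongr
          exact hC _
      _ = C := mul_one C
  calc _ ≤ ‖kap ρ τ r • (r⁻¹ • ContinuousLinearMap.id ℝ E +
        ((-(r ^ 2)⁻¹) • N').smulRight (x - z))‖ +
        ‖(deriv gam ((r - ρ) / τ) • N').smulRight (r⁻¹ • (x - z))‖ := norm_add_le _ _
    _ ≤ (2 * ρ) * (2 * r⁻¹) + C := by
        gcongr
        rw [norm_smul, Real.norm_of_nonneg hk0]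
        gcongr
    _ ≤ C + 8 := by
        have : ρ * r⁻¹ ≤ 2 := by
          rw [← div_eq_mul_inv, div_le_iff₀ hpos]; linarith
        nlinarith

end Pool.Agent.H93.Exo
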