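import Mathlib
import Pool.Agent.H93.Exo.Obst

/-!
Stability of injectivity and invertibility of the derivative on compact sets; the gluing lemma.
-/

set_option linter.unusedSectionVars false

namespace Pool.Agent.H93.Exo

open Metric Set Filter Topology Module Function
open scoped ContDiff

variable {E : Type*} [NormedAddCommGroup E] [NormedSpace ℝ E] [FiniteDimensional ℝ E]

/-- On a compact set, a `C^1` injective map with invertible derivatives stays injective with
invertible derivatives after small `C^1` perturbations. -/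
theorem stable_compact {f : E → E} {O A : Set E} (hO : IsOpen O) (hfO : ContDiffOn ℝ 1 f O)
    (hfi : InjOn f O) (hfe : ∀ x ∈ O, ∃ e : E ≃L[ℝ] E, HasFDerivAt f (e : E →L[ℝ] E) x)
    (hA : IsCompact A) (hAO : A ⊆ O) {W : ℕ → E → E}
    (hW : ∀ k, ∀ y ∈ O, DifferentiableAt ℝ (W k) y)
    (hW0 : ∀ K ⊆ O, IsCompact K → ∀ ε > 0, ∀ᶠ k in atTop, ∀ y ∈ K, ‖W k y‖ ≤ ε)
    (hW' : ∀ K ⊆ O, IsCompact K → ∀ ε > 0, ∀ᶠ k in atTop, ∀ y ∈ K, ‖fderiv ℝ (W k) y‖ ≤ ε) :
    ∀ᶠ k in atTop, InjOn (fun y => f y + W k y) A ∧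
      ∀ y ∈ A, ∃ e' : E ≃L[ℝ] E, HasFDerivAt (fun y => f y + W k y) (e' : E →L[ℝ] E) y := by
  have hlocal : ∀ x ∈ O, ∃ V ∈ 𝓝 x, ∀ᶠ k in atTop, InjOn (fun y => f y + W k y) V ∧
      ∀ y ∈ V, ∃ e' : E ≃L[ℝ] E, HasFDerivAt (fun y => f y + W k y) (e' : E →L[ℝ] E) y := by
    intro x hx
    obtain ⟨e, he⟩ := hfe x hx
    exact local_stable hO hfO hx he hW hW'
  have hder : ∀ᶠ k in atTop, ∀ y ∈ A, ∃ e' : E ≃L[ℝ] E,
      HasFDerivAt (fun y => f y + W k y) (e' : E →L[ℝ] E) y :=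
    eventually_forall_of_isCompact hA fun x hx => by
      obtain ⟨V, hV, hk⟩ := hlocal x (hAO hx)
      exact ⟨V, hV, hk.mono fun k hk => hk.2⟩
  have hpair : ∀ᶠ k in atTop, ∀ p ∈ A ×ˢ A, p.1 ∈ A → p.2 ∈ A →
      f p.1 + W k p.1 = f p.2 + W k p.2 → p.1 = p.2 := by
    refine eventually_forall_of_isCompact (hA.prod hA) ?_
    rintro ⟨a, b⟩ ⟨ha, hb⟩
    simp only at ha hb
    by_cases hab : a = b
    · subst hab
      obtain ⟨V, hV, hk⟩ := hlocal a (hAO ha)
      refine ⟨V ×ˢ V, prod_mem_nhds hV hV, hk.mono fun k hk => ?_⟩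
      rintro ⟨a', b'⟩ ⟨ha', hb'⟩ - - h
      exact hk.1 ha' hb' h
    · have haO := hAO ha
      have hbO := hAO hb
      have hne : f a ≠ f b := fun h => hab (hfi haO hbO h)
      set η : ℝ := dist (f a) (f b) / 5 with hη
      have hη0 : 0 < η := by have := dist_pos.2 hne; positivity
      have hca : ContinuousAt f a := hfO.continuousOn.continuousAt (hO.mem_nhds haO)
      have hcb : ContinuousAt f b := hfO.continuousOn.continuousAt (hO.mem_nhds hbO)
      refine ⟨(f ⁻¹' ball (f a) η) ×ˢ (f ⁻¹' ball (f b) η),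
        prod_mem_nhds (hca (ball_mem_nhds _ hη0)) (hcb (ball_mem_nhds _ hη0)), ?_⟩
      filter_upwards [hW0 A hAO hA η hη0] with k hk
      rintro ⟨a', b'⟩ ⟨ha', hb'⟩ ha3 hb3 h
      exfalso
      simp only [mem_preimage, mem_ball] at ha' hb' ha3 hb3 h
      have e1 := hk a' ha3
      have e2 := hk b' hb3
      have e3 : f a' - f b' = W k b' - W k a' := by
        have : f a' = f b' + W k b' - W k a' := by rw [← h]; abel
        rw [this]; abel
      have e4 : dist (f a') (f b') ≤ 2 * η := by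
        rw [dist_eq_norm, e3]
        calc ‖W k b' - W k a'‖ ≤ ‖W k b'‖ + ‖W k a'‖ := norm_sub_le _ _
          _ ≤ 2 * η := by linarith
      have e5 : dist (f a) (f b) ≤ dist (f a) (f a') + dist (f a') (f b') + dist (f b') (f b) :=
        dist_triangle4 _ _ _ _
      rw [dist_comm] at ha'
      have : dist (f a) (f b) = 5 * η := by rw [hη]; ring
      linarith
  filter_upwards [hder, hpair] with k h1 h2
  exact ⟨fun a ha b hb hab => h2 (a, b) ⟨ha, hb⟩ ha hb hab, h1⟩

/-- an open ball and the complement of the closed ball are mapped to open sets -/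
theorem isPreconnected_annulus (h : 1 < Module.rank ℝ E) (z : E) {s t : ℝ} (hs : 0 ≤ s) :
    IsPreconnected {x : E | s < ‖x - z‖ ∧ ‖x - z‖ < t} := by
  have h1 : IsPreconnected (Ioo s t ×ˢ sphere (0 : E) 1) :=
    isPreconnected_Ioo.prod (isPreconnected_sphere h 0 1)
  have h2 : {x : E | s < ‖x - z‖ ∧ ‖x - z‖ < t} =
      (fun p : ℝ × E => z + p.1 • p.2) '' (Ioo s t ×ˢ sphere (0 : E) 1) := by
    ext x
    constructor
    · rintro ⟨hx1, hx2⟩
      have hpos : 0 < ‖x - z‖ := hs.trans_lt hx1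
      refine ⟨(‖x - z‖, ‖x - z‖⁻¹ • (x - z)), ⟨⟨hx1, hx2⟩, ?_⟩, ?_⟩
      · rw [mem_sphere_zero_iff_norm, norm_smul, norm_inv, norm_norm,
          inv_mul_cancel₀ hpos.ne']
      · simp only
        rw [smul_smul, mul_inv_cancel₀ hpos.ne', one_smul]
        abel
    · rintro ⟨⟨r, v⟩, ⟨hr, hv⟩, rfl⟩
      simp only at hr hv
      rw [mem_sphere_zero_iff_norm] at hv
      have : ‖z + r • v - z‖ = r := by
        rw [add_sub_cancel_left, norm_smul, hv, mul_one,
          Real.norm_of_nonneg (hs.trans hr.1.le)]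
      simp only [mem_ofPred_eq, this]
      exact hr
  rw [h2]
  exact h1.image _ (by fun_prop)

theorem isOpen_image_of_equiv {Ω : Set E} {h : E → E} (hs : ∀ x ∈ Ω, ContDiffAt ℝ ∞ h x)
    (hd : ∀ x ∈ Ω, ∃ e : E ≃L[ℝ] E, HasFDerivAt h (e : E →L[ℝ] E) x) {V : Set E} (hV : IsOpen V)
    (hVΩ : V ⊆ Ω) : IsOpen (h '' V) := by
  rw [isOpen_iff_mem_nhds]
  rintro _ ⟨x, hx, rfl⟩
  obtain ⟨e, he⟩ := hd x (hVΩ hx)
  have h1 : ContDiffAt ℝ 1 h x := (hs x (hVΩ hx)).of_le (by norm_cast)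
  have h2 : HasStrictFDerivAt h (e : E →L[ℝ] E) x := by
    have := h1.hasStrictFDerivAt (by norm_num)
    rwa [he.fderiv] at this
  rw [← h2.map_nhds_eq_of_equiv]
  exact image_mem_map (hV.mem_nhds hx)

/-- Gluing: inside the sphere of radius `ρ` use `g`, outside use `F`, which is a small perturbation
of `f` and agrees with `g` near the sphere. -/
theorem glue (hrk : 1 < Module.rank ℝ E) {Ω : Set E} (hΩ : IsOpen Ω) {z : E} {ρ r1 r2 : ℝ}
    (hρ : 0 < ρ) (h1 : ρ < r1) (h2 : r1 < r2) (hΩb : closedBall z r2 ⊆ Ω)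
    {f g F : E → E} (hf : IsHomeoOn Ω f) (hg : IsDiffeoOn Ω g)
    (hFs : ∀ x ∈ Ω, ρ ≤ ‖x - z‖ → ContDiffAt ℝ ∞ F x)
    (hFd : ∀ x ∈ Ω, ρ ≤ ‖x - z‖ → ∃ e : E ≃L[ℝ] E, HasFDerivAt F (e : E →L[ℝ] E) x)
    (hFi : InjOn F {x | ρ ≤ ‖x - z‖ ∧ ‖x - z‖ ≤ r2})
    (hFf : ∀ x ∈ Ω, r1 ≤ ‖x - z‖ → F x = f x)
    (hFg : ∀ x, ‖x - z‖ = ρ → F =ᶠ[𝓝 x] g)
    {x' : E} (hx1 : ρ < ‖x' - z‖) (hx2 : ‖x' - z‖ < r2) (hx' : F x' ∉ g '' closedBall z ρ) :
    ∃ H : E → E, IsDiffeoOn Ω H ∧ H '' Ω = f '' Ω ∧ ∀ x ∈ Ω, r1 ≤ ‖x - z‖ → H x = f x := by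
  classical
  have hρr2 : ρ < r2 := h1.trans h2
  have hcbρ : closedBall z ρ ⊆ Ω := (closedBall_subset_closedBall hρr2.le).trans hΩb
  have hbr2 : ball z r2 ⊆ Ω := ball_subset_closedBall.trans hΩb
  have hcont : Continuous fun x : E => ‖x - z‖ := by fun_prop
  set H : E → E := fun x => if ‖x - z‖ < ρ then g x else F x with hH
  have hHg : ∀ x, ‖x - z‖ < ρ → H x = g x := fun x hx => by simp [hH, hx]
  have hHF : ∀ x, ρ ≤ ‖x - z‖ → H x = F x := fun x hx => by simp [hH, not_lt.2 hx]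
  have hgF : ∀ x, ‖x - z‖ = ρ → F x = g x := fun x hx => (hFg x hx).self_of_nhds
  have hHg' : ∀ x, ‖x - z‖ ≤ ρ → H x = g x := fun x hx => by
    rcases hx.lt_or_eq with h | h
    · exact hHg x h
    · rw [hHF x h.ge, hgF x h]
  have hnear : ∀ x, (‖x - z‖ < ρ ∧ H =ᶠ[𝓝 x] g) ∨ (ρ ≤ ‖x - z‖ ∧ H =ᶠ[𝓝 x] F) := by
    intro x
    rcases lt_trichotomy (‖x - z‖) ρ with h | h | h
    · left
      refine ⟨h, ?_⟩
      filter_upwards [hcont.continuousAt.eventually_lt_const h] with y hy using hHg y hy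
    · right
      refine ⟨h.ge, ?_⟩
      filter_upwards [hFg x h] with y hy
      by_cases hy' : ‖y - z‖ < ρ
      · rw [hHg y hy', hy]
      · rw [hHF y (not_lt.1 hy')]
    · right
      refine ⟨h.le, ?_⟩
      filter_upwards [hcont.continuousAt.eventually_const_lt h] with y hy using hHF y hy.le
  have hHs : ∀ x ∈ Ω, ContDiffAt ℝ ∞ H x := by
    intro x hx
    rcases hnear x with ⟨_, h⟩ | ⟨h', h⟩
    · exact (hg.1.contDiffAt (hΩ.mem_nhds hx)).congr_of_eventuallyEq h
    · exact (hFs x hx h').congr_of_eventuallyEq h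
  have hHd : ∀ x ∈ Ω, ∃ e : E ≃L[ℝ] E, HasFDerivAt H (e : E →L[ℝ] E) x := by
    intro x hx
    rcases hnear x with ⟨_, h⟩ | ⟨h', h⟩
    · obtain ⟨e, he⟩ := hg.exists_equiv hΩ hx
      exact ⟨e, he.congr_of_eventuallyEq h⟩
    · obtain ⟨e, he⟩ := hFd x hx h'
      exact ⟨e, he.congr_of_eventuallyEq h⟩
  have hgc : ContinuousOn g Ω := hg.1.continuousOn
  have hfc : ContinuousOn f Ω := hf.1
  have hHc : ContinuousOn H Ω := fun x hx => (hHs x hx).continuousAt.continuousWithinAt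
  -- the images of the ball and of the shell are disjoint
  have hgb : IsOpen (g '' ball z ρ) :=
    hg.isHomeoOn.isOpen_image hΩ isOpen_ball (ball_subset_closedBall.trans hcbρ)
  have hgcb : IsClosed (g '' closedBall z ρ) :=
    ((isCompact_closedBall z ρ).image_of_continuousOn (hgc.mono hcbρ)).isClosed
  have hshell : ∀ x, ρ < ‖x - z‖ → ‖x - z‖ < r2 → F x ∉ g '' closedBall z ρ := by
    set A : Set E := {x : E | ρ < ‖x - z‖ ∧ ‖x - z‖ < r2} with hA
    have hAc : IsPreconnected (F '' A) := by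
      refine (isPreconnected_annulus hrk z hρ.le).image F fun x hx => ?_
      exact (hFs x (hbr2 (by rw [mem_ball, dist_eq_norm]; exact hx.2))
        hx.1.le).continuousAt.continuousWithinAt
    have hsub : F '' A ⊆ (g '' closedBall z ρ)ᶜ ∪ g '' ball z ρ := by
      rintro _ ⟨x, hx, rfl⟩
      by_cases hxg : F x ∈ g '' closedBall z ρ
      · right
        obtain ⟨y, hy, hyx⟩ := hxg
        rw [mem_closedBall, dist_eq_norm] at hy
        rcases hy.lt_or_eq with h | h
        · exact ⟨y, by rw [mem_ball, dist_eq_norm]; exact h, hyx⟩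
        · exfalso
          have : F y = F x := by rw [hgF y h, hyx]
          have hyx' := hFi ⟨h.ge, by rw [h]; exact hρr2.le⟩ ⟨hx.1.le, hx.2.le⟩ this
          rw [hyx'] at h
          exact hx.1.ne' h
      · exact Or.inl hxg
    have hne : (F '' A ∩ (g '' closedBall z ρ)ᶜ).Nonempty :=
      ⟨F x', mem_image_of_mem F ⟨hx1, hx2⟩, hx'⟩
    have hdis : Disjoint (g '' closedBall z ρ)ᶜ (g '' ball z ρ) := by
      rw [disjoint_left]
      intro y hy hy'
      exact hy (image_mono ball_subset_closedBall hy')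
    have := hAc.subset_left_of_subset_union hgcb.isOpen_compl hgb hdis hsub hne
    intro x hx hx'
    exact this (mem_image_of_mem F ⟨hx, hx'⟩)
  -- injectivity on the closed ball of radius `r1`, and slightly beyond
  have hcross : ∀ x y, ‖x - z‖ < ρ → ρ ≤ ‖y - z‖ → ‖y - z‖ < r2 → H x ≠ H y := by
    intro x y hx hy hy2 hxy
    rw [hHg x hx, hHF y hy] at hxy
    have hxΩ : x ∈ Ω := hcbρ (by rw [mem_closedBall, dist_eq_norm]; exact hx.le)
    rcases hy.lt_or_eq with h | h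
    · refine hshell y h hy2 ⟨x, ?_, hxy⟩
      rw [mem_closedBall, dist_eq_norm]; exact hx.le
    · rw [hgF y h.symm] at hxy
      have hyΩ : y ∈ Ω := hcbρ (by rw [mem_closedBall, dist_eq_norm]; exact h.ge)
      have := hg.2.1 hxΩ hyΩ hxy
      rw [this] at hx
      exact hx.ne h.symm
  have hinj2 : InjOn H (ball z r2) := by
    intro x hx y hy hxy
    rw [mem_ball, dist_eq_norm] at hx hy
    rcases lt_or_ge (‖x - z‖) ρ with h | h
    · rcases lt_or_ge (‖y - z‖) ρ with h' | h'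
      · rw [hHg x h, hHg y h'] at hxy
        exact hg.2.1 (hcbρ (by rw [mem_closedBall, dist_eq_norm]; exact h.le))
          (hcbρ (by rw [mem_closedBall, dist_eq_norm]; exact h'.le)) hxy
      · exact absurd hxy (hcross x y h h' hy)
    · rcases lt_or_ge (‖y - z‖) ρ with h' | h'
      · exact absurd hxy.symm (hcross y x h' h hx)
      · rw [hHF x h, hHF y h'] at hxy
        exact hFi ⟨h, hx.le⟩ ⟨h', hy.le⟩ hxy
  have hHf : ∀ x ∈ Ω, r1 ≤ ‖x - z‖ → H x = f x := fun x hx hx' => by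
    rw [hHF x (h1.le.trans hx'), hFf x hx hx']
  -- the image of the closed ball of radius `r1`
  set K : Set E := f '' closedBall z r1 with hK
  set L : Set E := H '' closedBall z r1 with hL
  have hcb1 : closedBall z r1 ⊆ ball z r2 := closedBall_subset_ball h2
  have hcb1Ω : closedBall z r1 ⊆ Ω := hcb1.trans hbr2
  have hKc : IsCompact K := (isCompact_closedBall z r1).image_of_continuousOn (hfc.mono hcb1Ω)
  have hLc : IsCompact L := (isCompact_closedBall z r1).image_of_continuousOn (hHc.mono hcb1Ω)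
  have hKp : IsPreconnected K := (convex_closedBall z r1).isPreconnected.image f (hfc.mono hcb1Ω)
  have hLp : IsPreconnected L := (convex_closedBall z r1).isPreconnected.image H (hHc.mono hcb1Ω)
  have hfo : IsOpen (f '' ball z r2) := hf.isOpen_image hΩ isOpen_ball hbr2
  have hHo : IsOpen (H '' ball z r2) := isOpen_image_of_equiv hHs hHd isOpen_ball hbr2
  obtain ⟨v, hv⟩ : ∃ v : E, ‖v‖ = r1 := by
    have : Nontrivial E := (rank_pos_iff_nontrivial (R := ℝ)).1 (zero_lt_one.trans hrk)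
    exact exists_norm_eq E (hρ.le.trans h1.le)
  set x₁ : E := z + v with hx₁
  have hx₁n : ‖x₁ - z‖ = r1 := by rw [hx₁, add_sub_cancel_left, hv]
  have hx₁c : x₁ ∈ closedBall z r1 := by rw [mem_closedBall, dist_eq_norm, hx₁n]
  have hx₁H : H x₁ = f x₁ := hHf x₁ (hcb1Ω hx₁c) hx₁n.ge
  have hmid : ∀ x ∈ ball z r2, x ∉ closedBall z r1 → H x = f x := by
    intro x hx hx'
    rw [mem_closedBall, dist_eq_norm, not_le] at hx'
    exact hHf x (hbr2 hx) hx'.le
  have hKL : K = L := by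
    apply Subset.antisymm
    · -- `K ⊆ H '' ball z r2`
      have hdis : ∀ y ∈ K, y ∈ H '' ball z r2 → y ∈ L := by
        rintro _ ⟨a, ha, rfl⟩ ⟨x, hx, hxa⟩
        by_cases hxc : x ∈ closedBall z r1
        · exact ⟨x, hxc, hxa⟩
        · exfalso
          rw [hmid x hx hxc] at hxa
          exact hxc (by rw [hf.2.1 (hbr2 hx) (hcb1Ω ha) hxa]; exact ha)
      have := hKp.subset_left_of_subset_union hHo hLc.isClosed.isOpen_compl
        (u := H '' ball z r2) (v := Lᶜ)
      by_contra hcon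
      obtain ⟨y, hyK, hyL⟩ := not_subset.1 hcon
      obtain ⟨w, hw, hw1, hw2⟩ := hKp (H '' ball z r2) Lᶜ hHo hLc.isClosed.isOpen_compl
        (fun y hy => by
          by_cases hyL : y ∈ L
          · exact Or.inl (image_mono hcb1 hyL)
          · exact Or.inr hyL)
        ⟨f x₁, mem_image_of_mem f hx₁c, by
          rw [← hx₁H]; exact mem_image_of_mem H (hcb1 hx₁c)⟩
        ⟨y, hyK, hyL⟩
      exact hw2 (hdis w hw hw1)
    · have hdis : ∀ y ∈ L, y ∈ f '' ball z r2 → y ∈ K := by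
        rintro _ ⟨a, ha, rfl⟩ ⟨x, hx, hxa⟩
        by_cases hxc : x ∈ closedBall z r1
        · exact ⟨x, hxc, hxa⟩
        · exfalso
          rw [← hmid x hx hxc] at hxa
          exact hxc (by rw [hinj2 hx (hcb1 ha) hxa]; exact ha)
      by_contra hcon
      obtain ⟨y, hyL, hyK⟩ := not_subset.1 hcon
      obtain ⟨w, hw, hw1, hw2⟩ := hLp (f '' ball z r2) Kᶜ hfo hKc.isClosed.isOpen_compl
        (fun y hy => by
          by_cases hyK : y ∈ K
          · exact Or.inl (image_mono hcb1 hyK)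
          · exact Or.inr hyK)
        ⟨f x₁, by rw [← hx₁H]; exact mem_image_of_mem H hx₁c,
          mem_image_of_mem f (hcb1 hx₁c)⟩
        ⟨y, hyL, hyK⟩
      exact hw2 (hdis w hw hw1)
  -- injectivity on `Ω`
  have hout : ∀ x ∈ Ω, x ∉ closedBall z r1 → H x = f x := by
    intro x hx hx'
    rw [mem_closedBall, dist_eq_norm, not_le] at hx'
    exact hHf x hx hx'.le
  have hfar : ∀ x ∈ Ω, x ∉ closedBall z r1 → H x ∉ L := by
    intro x hx hx' hxL
    rw [← hKL, hout x hx hx'] at hxL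
    obtain ⟨a, ha, hax⟩ := hxL
    exact hx' (by rw [← hf.2.1 (hcb1Ω ha) hx hax]; exact ha)
  have hinj : InjOn H Ω := by
    intro x hx y hy hxy
    by_cases hxc : x ∈ closedBall z r1
    · by_cases hyc : y ∈ closedBall z r1
      · exact hinj2 (hcb1 hxc) (hcb1 hyc) hxy
      · exact absurd (by rw [← hxy]; exact mem_image_of_mem H hxc) (hfar y hy hyc)
    · by_cases hyc : y ∈ closedBall z r1
      · exact absurd (by rw [hxy]; exact mem_image_of_mem H hyc) (hfar x hx hxc)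
      · rw [hout x hx hxc, hout y hy hyc] at hxy
        exact hf.2.1 hx hy hxy
  refine ⟨H, isDiffeoOn_of hΩ (fun x hx => (hHs x hx).contDiffWithinAt) hinj hHd, ?_, hHf⟩
  apply Subset.antisymm
  · rintro _ ⟨x, hx, rfl⟩
    by_cases hxc : x ∈ closedBall z r1
    · have : H x ∈ K := by rw [hKL]; exact mem_image_of_mem H hxc
      exact image_mono hcb1Ω this
    · rw [hout x hx hxc]; exact mem_image_of_mem f hx
  · rintro _ ⟨x, hx, rfl⟩
    by_cases hxc : x ∈ closedBall z r1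
    · have : f x ∈ L := by rw [← hKL]; exact mem_image_of_mem f hxc
      exact image_mono hcb1Ω this
    · exact ⟨x, hx, hout x hx hxc⟩

end Pool.Agent.H93.Exo
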