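import Mathlib
import Pool.Agent.H93.Exo.JetLim
import Pool.Agent.H93.Exo.Shell
import Pool.Agent.H93.Exo.Stable

/-!
Isolated singularities: the obstruction for `W^{2,q}` limits of diffeomorphisms, `q > n - 1`.
-/

set_option linter.unusedSectionVars false

namespace Pool.Agent.H93.Exo

open MeasureTheory Metric Set Filter Topology Module Function
open scoped ENNReal ContDiff

variable {E : Type*} [NormedAddCommGroup E] [InnerProductSpace ℝ E] [FiniteDimensional ℝ E]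

/-- If `u` and `Du` are small on a sphere inside an open annulus where `u` is `C^∞`, they are small
on a thin shell. -/
theorem exists_tau {z : E} {a b ρ η : ℝ} (ha : 0 < a) (hρ : ρ ∈ Ioo a b) {u : E → E}
    (hu : ∀ x : E, a < ‖x - z‖ → ‖x - z‖ < b → ContDiffAt ℝ ∞ u x)
    (hs : ∀ x : E, ‖x - z‖ = ρ → ‖u x‖ < η ∧ ‖fderiv ℝ u x‖ < η) :
    ∃ τ > 0, 2 * τ ≤ ρ ∧ ∀ x : E, |‖x - z‖ - ρ| ≤ 2 * τ →
      a < ‖x - z‖ ∧ ‖x - z‖ < b ∧ ‖u x‖ < η ∧ ‖fderiv ℝ u x‖ < η := by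
  have hcont : Continuous fun x : E => ‖x - z‖ := by fun_prop
  set A : Set E := {x : E | a < ‖x - z‖ ∧ ‖x - z‖ < b} with hA
  have hAo : IsOpen A := (isOpen_lt continuous_const hcont).inter (isOpen_lt hcont continuous_const)
  have c0 : ContinuousOn (fun x => ‖u x‖) A := fun x hx =>
    (hu x hx.1 hx.2).continuousAt.norm.continuousWithinAt
  have c1 : ContinuousOn (fun x => ‖fderiv ℝ u x‖) A := fun x hx =>
    ((hu x hx.1 hx.2).fderiv_right (m := 0) (by simp)).continuousAt.norm.continuousWithinAt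
  have hO : IsOpen ((A ∩ (fun x => ‖u x‖) ⁻¹' Iio η) ∩ (A ∩ (fun x => ‖fderiv ℝ u x‖) ⁻¹' Iio η)) :=
    (c0.isOpen_inter_preimage hAo isOpen_Iio).inter (c1.isOpen_inter_preimage hAo isOpen_Iio)
  have hSO : sphere z ρ ⊆
      (A ∩ (fun x => ‖u x‖) ⁻¹' Iio η) ∩ (A ∩ (fun x => ‖fderiv ℝ u x‖) ⁻¹' Iio η) := by
    intro x hx
    rw [mem_sphere, dist_eq_norm] at hx
    have hxA : x ∈ A := ⟨by rw [hx]; exact hρ.1, by rw [hx]; exact hρ.2⟩
    exact ⟨⟨hxA, (hs x hx).1⟩, ⟨hxA, (hs x hx).2⟩⟩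
  obtain ⟨δ, hδ, hδO⟩ := (isCompact_sphere z ρ).exists_thickening_subset_open hO hSO
  have hρ0 : 0 < ρ := ha.trans hρ.1
  refine ⟨min (δ / 4) (ρ / 4), by positivity, ?_, fun x hx => ?_⟩
  · have := min_le_right (δ / 4) (ρ / 4)
    linarith
  · have h1 : min (δ / 4) (ρ / 4) ≤ δ / 4 := min_le_left _ _
    have h2 : min (δ / 4) (ρ / 4) ≤ ρ / 4 := min_le_right _ _
    have h3 := abs_le.1 hx
    have hpos : 0 < ‖x - z‖ := by linarith
    have hmem : x ∈ thickening δ (sphere z ρ) := by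
      rw [mem_thickening_iff]
      refine ⟨z + (ρ * ‖x - z‖⁻¹) • (x - z), ?_, ?_⟩
      · rw [mem_sphere, dist_eq_norm, add_sub_cancel_left, norm_smul, norm_mul, norm_inv,
          norm_norm, Real.norm_of_nonneg hρ0.le, mul_assoc, inv_mul_cancel₀ hpos.ne', mul_one]
      · rw [dist_eq_norm]
        have e : x - (z + (ρ * ‖x - z‖⁻¹) • (x - z)) = ((‖x - z‖ - ρ) * ‖x - z‖⁻¹) • (x - z) := by
          rw [sub_mul, mul_inv_cancel₀ hpos.ne', sub_smul, one_smul]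
          abel
        rw [e, norm_smul, norm_mul, norm_inv, norm_norm, mul_assoc, inv_mul_cancel₀ hpos.ne',
          mul_one, Real.norm_eq_abs]
        linarith
    have h4 := hδO hmem
    exact ⟨h4.1.1.1, h4.1.1.2, h4.1.2, h4.2.2⟩

/-- the cut-off extension of `u` from a thin shell -/
noncomputable def shellExt (χ : E → ℝ) (z : E) (ρ τ : ℝ) (u : E → E) (x : E) : E :=
  χ x • u (shell z ρ τ x)

theorem shell_mem {z : E} {ρ τ : ℝ} {x : E} (hx : x ≠ z) (hτ : 0 < τ) (hρτ : 2 * τ ≤ ρ) :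
    |‖shell z ρ τ x - z‖ - ρ| ≤ 2 * τ := by
  rw [norm_shell_sub hx hτ hρτ]
  exact abs_kap_sub_le hτ _

theorem shellExt_props {χ : E → ℝ} (hχ : ContDiff ℝ ∞ χ) {z : E} {a b ρ τ η : ℝ}
    (hτ : 0 < τ) (hρτ : 2 * τ ≤ ρ) {u : E → E}
    (hu : ∀ x : E, a < ‖x - z‖ → ‖x - z‖ < b → ContDiffAt ℝ ∞ u x)
    (hsh : ∀ x : E, |‖x - z‖ - ρ| ≤ 2 * τ →
      a < ‖x - z‖ ∧ ‖x - z‖ < b ∧ ‖u x‖ < η ∧ ‖fderiv ℝ u x‖ < η) {x : E} (hx : x ≠ z) :
    ContDiffAt ℝ ∞ (shellExt χ z ρ τ u) x ∧ ‖shellExt χ z ρ τ u x‖ ≤ ‖χ x‖ * η ∧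
    ‖fderiv ℝ (shellExt χ z ρ τ u) x‖ ≤
      ‖χ x‖ * (η * ‖fderiv ℝ (shell z ρ τ) x‖) + ‖fderiv ℝ χ x‖ * η := by
  have hm := shell_mem (ρ := ρ) hx hτ hρτ
  obtain ⟨h1, h2, h3, h4⟩ := hsh _ hm
  have hus : ContDiffAt ℝ ∞ u (shell z ρ τ x) := hu _ h1 h2
  have hss : ContDiffAt ℝ ∞ (shell z ρ τ) x := contDiffAt_shell hx
  have hcomp : ContDiffAt ℝ ∞ (fun x => u (shell z ρ τ x)) x := hus.comp x hss
  have hη : 0 ≤ η := (norm_nonneg _).trans h3.le
  refine ⟨hχ.contDiffAt.smul hcomp, ?_, ?_⟩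
  · rw [shellExt, norm_smul]
    gcongr
  · have d1 : HasFDerivAt (fun x => u (shell z ρ τ x))
        ((fderiv ℝ u (shell z ρ τ x)).comp (fderiv ℝ (shell z ρ τ) x)) x :=
      ((hus.differentiableAt (by simp)).hasFDerivAt).comp x
        (hss.differentiableAt (by simp)).hasFDerivAt
    have d2 : HasFDerivAt (shellExt χ z ρ τ u)
        (χ x • ((fderiv ℝ u (shell z ρ τ x)).comp (fderiv ℝ (shell z ρ τ) x)) +
          (fderiv ℝ χ x).smulRight (u (shell z ρ τ x))) x :=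
      ((hχ.contDiffAt.differentiableAt (by simp)).hasFDerivAt).smul d1
    rw [d2.fderiv]
    refine (norm_add_le _ _).trans ?_
    rw [norm_smul, ContinuousLinearMap.norm_smulRight_apply]
    gcongr
    refine (ContinuousLinearMap.opNorm_comp_le _ _).trans ?_
    gcongr

/-- A point outside the closed ball, where `g` is close to `f`, shows that nearby values are
not attained by `g` on the closed ball. -/
theorem notMem_image_of_close {Ω : Set E} (hΩ : IsOpen Ω) {g : E → E} (hg : IsDiffeoOn Ω g)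
    {z : E} {ρ : ℝ} (hρΩ : closedBall z ρ ⊆ Ω) {y₀ v : E} {δ : ℝ}
    (hS : ∀ x : E, ‖x - z‖ = ρ → g x ∉ ball y₀ δ) {x' : E} (hx'Ω : x' ∈ Ω) (hx' : ρ < ‖x' - z‖)
    (h1 : g x' ∈ ball y₀ δ) (hv : v ∈ ball y₀ δ) : v ∉ g '' closedBall z ρ := by
  have hgb : IsOpen (g '' ball z ρ) :=
    hg.isHomeoOn.isOpen_image hΩ isOpen_ball (ball_subset_closedBall.trans hρΩ)
  have hgcb : IsClosed (g '' closedBall z ρ) :=
    ((isCompact_closedBall z ρ).image_of_continuousOn (hg.1.continuousOn.mono hρΩ)).isClosed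
  have hsub : ball y₀ δ ⊆ (g '' closedBall z ρ)ᶜ ∪ g '' ball z ρ := by
    intro y hy
    by_cases hyg : y ∈ g '' closedBall z ρ
    · right
      obtain ⟨x, hx, rfl⟩ := hyg
      rw [mem_closedBall, dist_eq_norm] at hx
      rcases hx.lt_or_eq with h | h
      · exact mem_image_of_mem g (by rw [mem_ball, dist_eq_norm]; exact h)
      · exact absurd hy (hS x h)
    · exact Or.inl hyg
  have hdis : Disjoint (g '' closedBall z ρ)ᶜ (g '' ball z ρ) := by
    rw [disjoint_left]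
    intro y hy hy'
    exact hy (image_mono ball_subset_closedBall hy')
  have hne : (ball y₀ δ ∩ (g '' closedBall z ρ)ᶜ).Nonempty := by
    refine ⟨g x', h1, ?_⟩
    rintro ⟨x, hx, hxx⟩
    have := hg.2.1 (hρΩ hx) hx'Ω hxx
    rw [this, mem_closedBall, dist_eq_norm] at hx
    exact absurd hx (not_le.2 hx')
  exact ((convex_ball y₀ δ).isPreconnected.subset_left_of_subset_union hgcb.isOpen_compl hgb
    hdis hsub hne) hv

theorem glue_of_sphere_conv (hrk : 1 < Module.rank ℝ E) {Ω : Set E} (hΩ : IsOpen Ω) {z : E}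
    {b : ℝ} (hb : 0 < b) (hbΩ : closedBall z b ⊆ Ω) {f : E → E} (hf : IsHomeoOn Ω f)
    (hfz : IsDiffeoOn (Ω \ {z}) f) {g : ℕ → E → E} (hg : ∀ j, IsDiffeoOn Ω (g j))
    {ρ : ℝ} (hρ : ρ ∈ Ioo (b / 4) (b / 2)) {η : ℕ → ℝ} (hη : Tendsto η atTop (𝓝 0))
    (hs : ∀ j, ∀ x : E, ‖x - z‖ = ρ → ‖(g j - f) x‖ < η j ∧ ‖fderiv ℝ (g j - f) x‖ < η j)
    {x' : E} (hx1 : b / 2 < ‖x' - z‖) (hx2 : ‖x' - z‖ < 3 * b / 4)
    (hx' : Tendsto (fun j => g j x') atTop (𝓝 (f x'))) :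
    ∃ H : E → E, IsDiffeoOn Ω H ∧ H '' Ω = f '' Ω ∧
      ∀ x ∈ Ω, 3 * b / 4 ≤ ‖x - z‖ → H x = f x := by
  have hρ0 : 0 < ρ := by have := hρ.1; linarith
  have hΩz : IsOpen (Ω \ {z}) := hΩ.sdiff isClosed_singleton
  have hcont : Continuous fun x : E => ‖x - z‖ := by fun_prop
  have hnez : ∀ x : E, 0 < ‖x - z‖ → x ≠ z := fun x hx h => by
    rw [h, sub_self, norm_zero] at hx; exact lt_irrefl _ hx
  have hmemΩ : ∀ x : E, ‖x - z‖ ≤ b → x ∈ Ω := fun x hx =>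
    hbΩ (by rw [mem_closedBall, dist_eq_norm]; exact hx)
  have hu : ∀ j, ∀ x : E, b / 4 < ‖x - z‖ → ‖x - z‖ < b / 2 → ContDiffAt ℝ ∞ (g j - f) x := by
    intro j x h1 h2
    have hxΩ : x ∈ Ω := hmemΩ x (by linarith)
    have hxz : x ≠ z := hnez x (by linarith)
    exact ((hg j).1.contDiffAt (hΩ.mem_nhds hxΩ)).sub
      (hfz.1.contDiffAt (hΩz.mem_nhds ⟨hxΩ, hxz⟩))
  have htau : ∀ j, ∃ τ > 0, 2 * τ ≤ ρ ∧ ∀ x : E, |‖x - z‖ - ρ| ≤ 2 * τ →
      b / 4 < ‖x - z‖ ∧ ‖x - z‖ < b / 2 ∧ ‖(g j - f) x‖ < η j ∧ ‖fderiv ℝ (g j - f) x‖ < η j :=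
    fun j => exists_tau (by positivity) hρ (hu j) (hs j)
  choose τ hτ0 hτρ hτ using htau
  have hη0 : ∀ j, 0 ≤ η j := by
    intro j
    have : Nontrivial E := (rank_pos_iff_nontrivial (R := ℝ)).1 (zero_lt_one.trans hrk)
    obtain ⟨v, hv⟩ := exists_norm_eq E hρ0.le
    have := (hs j (z + v) (by rw [add_sub_cancel_left, hv])).1
    exact (norm_nonneg _).trans this.le
  -- cut-off
  let χ0 : ContDiffBump z := ⟨b / 2, 5 * b / 8, by positivity, by linarith⟩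
  set χ : E → ℝ := fun x => χ0 x with hχ
  have hχs : ContDiff ℝ ∞ χ := χ0.contDiff
  have hχ1 : ∀ x, ‖x - z‖ ≤ b / 2 → χ x = 1 := fun x hx =>
    χ0.one_of_mem_closedBall (by rw [mem_closedBall, dist_eq_norm]; exact hx)
  have hχ0 : ∀ x, 5 * b / 8 ≤ ‖x - z‖ → χ x = 0 := fun x hx =>
    χ0.zero_of_le_dist (by rw [dist_eq_norm]; exact hx)
  have hχn : ∀ x, ‖χ x‖ ≤ 1 := fun x => by
    rw [hχ, Real.norm_of_nonneg χ0.nonneg]; exact χ0.le_one
  obtain ⟨M, hM⟩ : ∃ M : ℝ, ∀ x, ‖fderiv ℝ χ x‖ ≤ M :=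
    (hχs.continuous_fderiv (by simp)).bounded_above_of_compact_support
      (χ0.hasCompactSupport.fderiv ℝ)
  have hM0 : 0 ≤ M := (norm_nonneg _).trans (hM z)
  obtain ⟨C, hC0, hC⟩ := exists_norm_fderiv_shell_le (E := E)
  set W : ℕ → E → E := fun j => shellExt χ z ρ (τ j) (g j - f) with hW
  set O : Set E := {x : E | ρ / 2 < ‖x - z‖ ∧ ‖x - z‖ < b} with hO
  have hOo : IsOpen O :=
    (isOpen_lt continuous_const hcont).inter (isOpen_lt hcont continuous_const)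
  have hprops : ∀ j, ∀ x : E, x ≠ z → ContDiffAt ℝ ∞ (W j) x ∧ ‖W j x‖ ≤ ‖χ x‖ * η j ∧
      ‖fderiv ℝ (W j) x‖ ≤
        ‖χ x‖ * (η j * ‖fderiv ℝ (shell z ρ (τ j)) x‖) + ‖fderiv ℝ χ x‖ * η j := fun j x hx =>
    shellExt_props hχs (hτ0 j) (hτρ j) (hu j) (hτ j) hx
  have hOz : ∀ x ∈ O, x ≠ z := fun x hx => hnez x (by have := hx.1; linarith)
  have hOΩ : ∀ x ∈ O, x ∈ Ω \ {z} := fun x hx => ⟨hmemΩ x hx.2.le, hOz x hx⟩
  have hW0 : ∀ K ⊆ O, IsCompact K → ∀ ε > 0, ∀ᶠ j in atTop, ∀ y ∈ K, ‖W j y‖ ≤ ε := by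
    intro K hK _ ε hε
    filter_upwards [hη.eventually_le_const hε] with j hj y hy
    calc ‖W j y‖ ≤ ‖χ y‖ * η j := (hprops j y (hOz y (hK hy))).2.1
      _ ≤ 1 * ε := mul_le_mul (hχn y) hj (hη0 j) zero_le_one
      _ = ε := one_mul ε
  have hW1 : ∀ K ⊆ O, IsCompact K → ∀ ε > 0, ∀ᶠ j in atTop, ∀ y ∈ K,
      ‖fderiv ℝ (W j) y‖ ≤ ε := by
    intro K hK _ ε hε
    have hε' : 0 < ε / (C + M + 1) := by positivity
    filter_upwards [hη.eventually_le_const hε'] with j hj y hy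
    have hy' := hK hy
    calc ‖fderiv ℝ (W j) y‖
        ≤ ‖χ y‖ * (η j * ‖fderiv ℝ (shell z ρ (τ j)) y‖) + ‖fderiv ℝ χ y‖ * η j :=
          (hprops j y (hOz y hy')).2.2
      _ ≤ 1 * (η j * C) + M * η j := by
          have hη' := hη0 j
          gcongr
          · exact hχn y
          · exact hC z ρ (τ j) (hτ0 j) (hτρ j) y hy'.1.le hρ0
          · exact hM y
      _ = (C + M) * η j := by ring
      _ ≤ (C + M + 1) * (ε / (C + M + 1)) :=
          mul_le_mul (by linarith) hj (hη0 j) (by positivity)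
      _ = ε := by field_simp
  -- stability on the closed annulus
  set A : Set E := {x : E | ρ ≤ ‖x - z‖ ∧ ‖x - z‖ ≤ 7 * b / 8} with hA
  have hAc : IsCompact A := by
    refine (isCompact_closedBall z (7 * b / 8)).of_isClosed_subset
      ((isClosed_le continuous_const hcont).inter (isClosed_le hcont continuous_const)) ?_
    intro x hx
    rw [mem_closedBall, dist_eq_norm]; exact hx.2
  have hAO : A ⊆ O := fun x hx => ⟨by have := hx.1; linarith, by have := hx.2; linarith⟩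
  have hstab := stable_compact hOo (f := f)
    ((hfz.1.of_le (by norm_cast)).mono fun x hx => hOΩ x hx)
    (hfz.2.1.mono fun x hx => hOΩ x hx)
    (fun x hx => hfz.exists_equiv hΩz (hOΩ x hx)) hAc hAO (W := W)
    (fun j y hy => (hprops j y (hOz y hy)).1.differentiableAt (by simp)) hW0 hW1
  -- the point `x'`
  have hx'Ω : x' ∈ Ω := hmemΩ x' (by linarith)
  have hx'O : x' ∈ O := ⟨by have := hρ.2; linarith, by linarith⟩
  have hSK : IsCompact (f '' sphere z ρ) := (isCompact_sphere z ρ).image_of_continuousOn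
    (hf.1.mono fun x hx => hmemΩ x (by
      rw [mem_sphere, dist_eq_norm] at hx; rw [hx]; have := hρ.2; linarith))
  have hfx' : f x' ∉ f '' sphere z ρ := by
    rintro ⟨x, hx, hxx⟩
    rw [mem_sphere, dist_eq_norm] at hx
    have := hf.2.1 (hmemΩ x (by rw [hx]; have := hρ.2; linarith)) hx'Ω hxx
    rw [this] at hx
    have := hρ.2
    linarith
  obtain ⟨δ, hδ, hδb⟩ := Metric.isOpen_iff.1 hSK.isClosed.isOpen_compl (f x') hfx'
  have hδ4 : 0 < δ / 4 := by positivity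
  have hev1 : ∀ᶠ j in atTop, η j ≤ δ / 4 := hη.eventually_le_const hδ4
  have hev2 : ∀ᶠ j in atTop, g j x' ∈ ball (f x') (δ / 4) := hx'.eventually_mem (ball_mem_nhds _ hδ4)
  obtain ⟨j, ⟨hFi, hFd⟩, hj1, hj2⟩ := (hstab.and (hev1.and hev2)).exists
  -- the map outside
  set F : E → E := fun y => f y + W j y with hF
  have hWfar : ∀ x, 5 * b / 8 ≤ ‖x - z‖ → W j x = 0 := fun x hx => by
    simp only [hW, shellExt, hχ0 x hx, zero_smul]
  have hFf : ∀ x, 5 * b / 8 ≤ ‖x - z‖ → F x = f x := fun x hx => by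
    simp only [hF, hWfar x hx, add_zero]
  have hball2 : ∀ x : E, ‖x - z‖ = ρ → g j x ∉ ball (f x') (δ / 2) := by
    intro x hx hxb
    have h1 := (hs j x hx).1
    have h2 : f x ∉ ball (f x') δ := fun h =>
      hδb h (mem_image_of_mem f (by rw [mem_sphere, dist_eq_norm]; exact hx))
    rw [mem_ball] at hxb h2
    have h3 : dist (f x) (g j x) < δ / 4 := by
      rw [dist_comm, dist_eq_norm]
      exact lt_of_lt_of_le h1 hj1
    have h4 := dist_triangle (f x) (g j x) (f x')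
    exact h2 (by linarith)
  have hFx' : F x' ∈ ball (f x') (δ / 2) := by
    rw [mem_ball, dist_eq_norm]
    have e : F x' - f x' = W j x' := by simp [hF]
    rw [e]
    calc ‖W j x'‖ ≤ ‖χ x'‖ * η j := (hprops j x' (hOz x' hx'O)).2.1
      _ ≤ 1 * (δ / 4) := mul_le_mul (hχn x') hj1 (hη0 j) zero_le_one
      _ < δ / 2 := by linarith
  have hnot : F x' ∉ g j '' closedBall z ρ :=
    notMem_image_of_close hΩ (hg j) (fun x hx => hmemΩ x (by
      rw [mem_closedBall, dist_eq_norm] at hx; have := hρ.2; linarith)) hball2 hx'Ω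
      (by have := hρ.2; linarith) (ball_subset_ball (by linarith) hj2) hFx'
  have hρb := hρ.2
  have q1 : ∀ x ∈ Ω, ρ ≤ ‖x - z‖ → ContDiffAt ℝ ∞ F x := by
    intro x hx hxρ
    have hxz : x ≠ z := hnez x (by linarith)
    exact (hfz.1.contDiffAt (hΩz.mem_nhds ⟨hx, hxz⟩)).add (hprops j x hxz).1
  have q2 : ∀ x ∈ Ω, ρ ≤ ‖x - z‖ → ∃ e : E ≃L[ℝ] E, HasFDerivAt F (e : E →L[ℝ] E) x := by
    intro x hx hxρ
    rcases le_or_gt (‖x - z‖) (7 * b / 8) with h | h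
    · exact hFd x ⟨hxρ, h⟩
    · have hxz : x ≠ z := hnez x (by linarith)
      obtain ⟨e, he⟩ := hfz.exists_equiv hΩz (x := x) ⟨hx, hxz⟩
      refine ⟨e, he.congr_of_eventuallyEq ?_⟩
      filter_upwards [hcont.continuousAt.eventually_const_lt h] with y hy
      exact hFf y (by linarith)
  have q3 : ∀ x ∈ Ω, 3 * b / 4 ≤ ‖x - z‖ → F x = f x := by
    intro x _ hx
    exact hFf x (by linarith)
  have q4 : ∀ x, ‖x - z‖ = ρ → F =ᶠ[𝓝 x] g j := by
    intro x hx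
    have h1 : ∀ᶠ y in 𝓝 x, |‖y - z‖ - ρ| < τ j := by
      have hc : ContinuousAt (fun y : E => |‖y - z‖ - ρ|) x :=
        ((hcont.sub continuous_const).abs).continuousAt
      refine hc.eventually_lt_const ?_
      simp only [hx, sub_self, abs_zero]
      exact hτ0 j
    have h2 : ∀ᶠ y in 𝓝 x, ‖y - z‖ < b / 2 :=
      hcont.continuousAt.eventually_lt_const (by change ‖x - z‖ < b / 2; rw [hx]; exact hρ.2)
    have h3 : ∀ᶠ y in 𝓝 x, 0 < ‖y - z‖ :=
      hcont.continuousAt.eventually_const_lt (by change 0 < ‖x - z‖; rw [hx]; exact hρ0)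
    filter_upwards [h1, h2, h3] with y hy1 hy2 hy3
    simp only [hF, hW, shellExt, hχ1 y hy2.le, one_smul,
      shell_of_le (hnez y hy3) (hτ0 j) hy1.le, Pi.sub_apply]
    abel
  exact glue hrk hΩ (z := z) (ρ := ρ) (r1 := 3 * b / 4) (r2 := 7 * b / 8)
    hρ0 (by linarith) (by linarith) ((closedBall_subset_closedBall (by linarith)).trans hbΩ)
    hf (hg j) (F := F) q1 q2 hFi q3 q4 (x' := x') (by linarith) (by linarith) hnot

section sobolev

variable [MeasureSpace E] [BorelSpace E] [(volume : Measure E).IsAddHaarMeasure]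

/-- A `W^{2,q}` homeomorphism, `q > n - 1`, which is a diffeomorphism off one point and a `W^{2,q}`
limit of diffeomorphisms, can be changed near the point to a diffeomorphism. -/
theorem IsW2Limit.isolated_aux {m : ℕ} (hm : finrank ℝ E = m + 1) (hm1 : 1 ≤ m) {q : ℝ}
    (hq : (m : ℝ) < q) {Ω : Set E} (hΩ : IsOpen Ω) {z : E} {b : ℝ} (hb : 0 < b)
    (hbΩ : closedBall z b ⊆ Ω) {f : E → E} (hf : IsHomeoOn Ω f)
    (hfz : IsDiffeoOn (Ω \ {z}) f) (h : IsW2Limit q Ω f) :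
    ∃ H : E → E, IsDiffeoOn Ω H ∧ H '' Ω = f '' Ω ∧
      ∀ x ∈ Ω, 3 * b / 4 ≤ ‖x - z‖ → H x = f x := by
  have hm1' : (1 : ℝ) ≤ m := by exact_mod_cast hm1
  have hq1 : 1 ≤ q := by linarith
  have hq0 : 0 < q := by linarith
  have hrk : 1 < Module.rank ℝ E := by
    have := lt_rank_of_lt_finrank (R := ℝ) (M := E) (n := 1) (by rw [hm]; omega)
    exact_mod_cast this
  have hcont : Continuous fun x : E => ‖x - z‖ := by fun_prop
  have hΩz : IsOpen (Ω \ {z}) := hΩ.sdiff isClosed_singleton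
  obtain ⟨f1, f2, hfj, g, g1, g2, hg, hlim⟩ := h
  have hmemΩ : ∀ x : E, ‖x - z‖ ≤ b → x ∈ Ω := fun x hx =>
    hbΩ (by rw [mem_closedBall, dist_eq_norm]; exact hx)
  -- a subsequence converging almost everywhere
  have h0 : Tendsto (fun k => eLpNorm (g k - f) (ENNReal.ofReal q) (volume.restrict Ω))
      atTop (𝓝 0) :=
    tendsto_of_tendsto_of_tendsto_of_le_of_le tendsto_const_nhds hlim (fun _ => zero_le)
      (fun k => by simp only [lqNorm, add_assoc]; exact le_self_add)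
  have hgm : ∀ k, AEStronglyMeasurable (g k) (volume.restrict Ω) := fun k =>
    (hg k).1.1.continuousOn.aestronglyMeasurable hΩ.measurableSet
  have hfm : AEStronglyMeasurable f (volume.restrict Ω) :=
    hf.1.aestronglyMeasurable hΩ.measurableSet
  obtain ⟨ns, hns, hae⟩ := (tendstoInMeasure_of_tendsto_eLpNorm
    (by rw [Ne, ENNReal.ofReal_eq_zero]; linarith) hgm hfm h0).exists_seq_tendsto_ae
  -- the point `x'`
  obtain ⟨x', hx1, hx2, hx'⟩ : ∃ x' : E, b / 2 < ‖x' - z‖ ∧ ‖x' - z‖ < 3 * b / 4 ∧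
      Tendsto (fun i => g (ns i) x') atTop (𝓝 (f x')) := by
    set V : Set E := {x : E | b / 2 < ‖x - z‖ ∧ ‖x - z‖ < 3 * b / 4} with hV
    have hVo : IsOpen V :=
      (isOpen_lt continuous_const hcont).inter (isOpen_lt hcont continuous_const)
    have hVne : V.Nonempty := by
      have : Nontrivial E := (rank_pos_iff_nontrivial (R := ℝ)).1 (zero_lt_one.trans hrk)
      obtain ⟨v, hv⟩ := exists_norm_eq E (c := 5 * b / 8) (by positivity)
      refine ⟨z + v, ?_, ?_⟩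
      · rw [add_sub_cancel_left, hv]; linarith
      · rw [add_sub_cancel_left, hv]; linarith
    have hVΩ : V ⊆ Ω := fun x hx => hmemΩ x (by have := hx.2; linarith)
    have h1 : NeZero (volume.restrict V) := ⟨by
      rw [Ne, Measure.restrict_eq_zero]
      exact (hVo.measure_pos volume hVne).ne'⟩
    have h2 : ∀ᵐ x ∂(volume.restrict V), Tendsto (fun i => g (ns i) x) atTop (𝓝 (f x)) :=
      ae_restrict_of_ae_restrict_of_subset hVΩ hae
    obtain ⟨x, h3, h4⟩ := (h2.and (ae_restrict_mem hVo.measurableSet)).exists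
    exact ⟨x, h4.1, h4.2, h3⟩
  -- good sphere
  set V : Set E := {x : E | b / 4 < ‖x - z‖ ∧ ‖x - z‖ < b / 2} with hV
  have hVo : IsOpen V :=
    (isOpen_lt continuous_const hcont).inter (isOpen_lt hcont continuous_const)
  have hVΩ : V ⊆ Ω \ {z} := by
    intro x hx
    refine ⟨hmemΩ x (by have := hx.2; linarith), fun h => ?_⟩
    have h1 := hx.1
    rw [mem_singleton_iff.1 h, sub_self, norm_zero] at h1
    linarith
  have hfV : ContDiffOn ℝ 2 f V := (hfz.1.of_le (by norm_cast)).mono hVΩ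
  have hjets := (jets_tendsto hq1 hΩ hVo (hVΩ.trans sdiff_subset) hfj hfV hg hlim).comp
    hns.tendsto_atTop
  have hu : ∀ i, ∀ x : E, b / 4 < ‖x - z‖ → ‖x - z‖ < b / 2 →
      ContDiffAt ℝ 2 (g (ns i) - f) x := by
    intro i x h1 h2
    have hxV : x ∈ V := ⟨h1, h2⟩
    have hg2 : ContDiffOn ℝ 2 (g (ns i)) Ω := (hg (ns i)).1.1.of_le (by norm_cast)
    exact (hg2.contDiffAt (hΩ.mem_nhds (hVΩ hxV).1)).sub (hfV.contDiffAt (hVo.mem_nhds hxV))
  obtain ⟨ρ, hρ, hgood⟩ := exists_good_sphere volume hm hq hq1 z (a := b / 4) (b := b / 2)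
    (by positivity) (by linarith) (fun i => g (ns i) - f) hu hjets
  -- extract
  have hex : ∀ j : ℕ, ∃ i, j ≤ i ∧ ∀ x : E, ‖x - z‖ = ρ →
      ‖(g (ns i) - f) x‖ < 1 / ((j : ℝ) + 1) ∧
      ‖fderiv ℝ (g (ns i) - f) x‖ < 1 / ((j : ℝ) + 1) := by
    intro j
    obtain ⟨i, hi, h1⟩ := (hgood (1 / ((j : ℝ) + 1)) (by positivity)).forall_exists_of_atTop j
    exact ⟨i, hi, h1⟩
  choose is his hsm using hex
  have hist : Tendsto is atTop atTop := tendsto_atTop_mono his tendsto_id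
  exact glue_of_sphere_conv hrk hΩ hb hbΩ hf hfz (g := fun j => g (ns (is j)))
    (fun j => (hg _).1) hρ (η := fun j => 1 / ((j : ℝ) + 1))
    tendsto_one_div_add_atTop_nhds_zero_nat hsm hx1 hx2 (hx'.comp hist)

theorem IsW2Limit.isolated {m : ℕ} (hm : finrank ℝ E = m + 1) (hm1 : 1 ≤ m) {q : ℝ}
    (hq : (m : ℝ) < q) {Ω U : Set E} (hΩ : IsOpen Ω) (hU : IsOpen U) (hUΩ : U ⊆ Ω) {z : E}
    (hz : z ∈ U) {f : E → E} (hf : IsHomeoOn Ω f) (hfz : IsDiffeoOn (Ω \ {z}) f)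
    (h : IsW2Limit q Ω f) :
    ∃ H : E → E, IsDiffeoOn Ω H ∧ H '' Ω = f '' Ω ∧ ∀ x ∈ Ω \ U, H x = f x := by
  obtain ⟨r, hr, hrU⟩ := Metric.isOpen_iff.1 hU z hz
  have hb : 0 < r / 2 := by positivity
  have hbU : closedBall z (r / 2) ⊆ U := (closedBall_subset_ball (by linarith)).trans hrU
  obtain ⟨H, h1, h2, h3⟩ := h.isolated_aux hm hm1 hq hΩ hb (hbU.trans hUΩ) hf hfz
  refine ⟨H, h1, h2, fun x hx => h3 x hx.1 ?_⟩
  by_contra hcon
  push Not at hcon
  exact hx.2 (hbU (by rw [mem_closedBall, dist_eq_norm]; linarith))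

end sobolev

end Pool.Agent.H93.Exo
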