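import Mathlib
import Pool.Agent.H93.Exo.Main
import Pool.Agent.H93.Exo.Isolated

/-!
The criterion for cones with the exponent `q > n - 1`.
-/

set_option linter.unusedSectionVars false

namespace Pool.Agent.H93.Exo

open MeasureTheory Metric Set Filter Topology Module Function
open scoped ENNReal ContDiff Manifold

variable {m : ℕ}

/-- a modification of the cone near the origin gives an extension -/
theorem extends_of_modification (φ : Sph m ≃ₘ⟮𝓡 m, 𝓡 m⟯ Sph m) {Ω : Set (Euc (m + 1))}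
    (hΩ : IsOpen Ω) (h0 : (0 : Euc (m + 1)) ∈ Ω) {ρ : ℝ} (hρ0 : 0 < ρ)
    (hρΩ : closedBall (0 : Euc (m + 1)) ρ ⊆ Ω) {H : Euc (m + 1) → Euc (m + 1)}
    (hH : IsDiffeoOn Ω H) (hHim : H '' Ω = homExt 3 φ '' Ω)
    (hHf : ∀ x ∈ Ω, ρ ≤ ‖x‖ → H x = homExt 3 φ x) : Extends φ := by
  set f := homExt 3 φ with hf
  have hbΩ : ball (0 : Euc (m + 1)) ρ ⊆ Ω := ball_subset_closedBall.trans hρΩ
  have hge : ∀ x : Euc (m + 1), x ∉ ball (0 : Euc (m + 1)) ρ → ρ ≤ ‖x‖ := fun x hx => by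
    rw [mem_ball_zero_iff, not_lt] at hx; exact hx
  classical
  -- extend `H` by `f`
  set Φ₁ : Euc (m + 1) → Euc (m + 1) := fun x => if x ∈ Ω then H x else f x with hΦ₁
  have hin : ∀ x ∈ Ω, Φ₁ x = H x := fun x hx => by simp [hΦ₁, hx]
  have hout : ∀ x, x ∉ ball (0 : Euc (m + 1)) ρ → Φ₁ x = f x := fun x hx => by
    by_cases hxΩ : x ∈ Ω
    · rw [hin x hxΩ, hHf x hxΩ (hge x hx)]
    · simp [hΦ₁, hxΩ]
  have hloc : ∀ x, (∀ᶠ y in 𝓝 x, Φ₁ y = H y) ∧ x ∈ Ω ∨ (∀ᶠ y in 𝓝 x, Φ₁ y = f y) ∧ x ≠ 0 := by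
    intro x
    by_cases hx : x ∈ Ω
    · left
      exact ⟨by filter_upwards [hΩ.mem_nhds hx] with y hy using hin y hy, hx⟩
    · right
      have hx' : x ∈ (closedBall (0 : Euc (m + 1)) ρ)ᶜ := fun h => hx (hρΩ h)
      refine ⟨?_, fun h => hx (by rw [h]; exact h0)⟩
      filter_upwards [isClosed_closedBall.isOpen_compl.mem_nhds hx'] with y hy
      exact hout y fun h => hy (ball_subset_closedBall h)
  have hbij := cone_bijective φ
  have hinj : Injective Φ₁ := by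
    have haux : ∀ x y, x ∈ Ω → y ∉ Ω → Φ₁ x ≠ Φ₁ y := by
      intro x y hx hy hxy
      have h1 : Φ₁ x ∈ f '' Ω := by
        rw [← hHim, hin x hx]; exact mem_image_of_mem H hx
      have h2 : Φ₁ y = f y := hout y fun h => hy (hbΩ h)
      rw [hxy, h2] at h1
      obtain ⟨z, hz, hzy⟩ := h1
      rw [hbij.1 hzy] at hz
      exact hy hz
    intro x y hxy
    by_cases hx : x ∈ Ω
    · by_cases hy : y ∈ Ω
      · rw [hin x hx, hin y hy] at hxy
        exact hH.2.1 hx hy hxy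
      · exact absurd hxy (haux x y hx hy)
    · by_cases hy : y ∈ Ω
      · exact absurd hxy.symm (haux y x hy hx)
      · rw [hout x fun h => hx (hbΩ h), hout y fun h => hy (hbΩ h)] at hxy
        exact hbij.1 hxy
  have hsurj : Surjective Φ₁ := by
    intro z
    obtain ⟨x, rfl⟩ := hbij.2 z
    by_cases hx : x ∈ Ω
    · have : f x ∈ H '' Ω := by rw [hHim]; exact mem_image_of_mem f hx
      obtain ⟨y, hy, hyx⟩ := this
      exact ⟨y, by rw [hin y hy, hyx]⟩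
    · exact ⟨x, hout x fun h => hx (hbΩ h)⟩
  have hΦ₁d : IsDiffeoOn univ Φ₁ := by
    refine isDiffeoOn_of isOpen_univ (fun x _ => ?_) hinj.injOn fun x _ => ?_
    · rcases hloc x with ⟨h1, h2⟩ | ⟨h1, h2⟩
      · exact ((hH.1.contDiffAt (hΩ.mem_nhds h2)).congr_of_eventuallyEq h1).contDiffWithinAt
      · exact ((contDiffAt_homExt 3 φ.contMDiff h2).congr_of_eventuallyEq h1).contDiffWithinAt
    · rcases hloc x with ⟨h1, h2⟩ | ⟨h1, h2⟩
      · obtain ⟨e, he⟩ := hH.exists_equiv hΩ h2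
        exact ⟨e, he.congr_of_eventuallyEq h1⟩
      · obtain ⟨e, he⟩ := cone_exists_equiv φ h2
        exact ⟨e, he.congr_of_eventuallyEq h1⟩
  -- rescale and straighten
  have hρ3 : (ρ ^ 3)⁻¹ ≠ 0 := by positivity
  set Φ := (((scaleDiffeo ρ hρ0.ne').trans (toDiffeomorph hΦ₁d hsurj)).trans
    (scaleDiffeo (ρ ^ 3)⁻¹ hρ3)).trans strDiffeo.symm with hΦ
  refine ⟨Φ, isDiffeoOn_of_diffeomorph Φ isOpen_univ, Φ.surjective, fun x hx => ?_⟩
  have e1 : Φ₁ (ρ • x) = ρ ^ 3 • f x := by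
    rw [hout _ (fun h => ?_)]
    · exact homExt_smul 3 φ ρ x hρ0
    · rw [mem_ball_zero_iff, norm_smul, Real.norm_of_nonneg hρ0.le] at h
      nlinarith
  have e2 : str (homExt 1 φ x) = f x := by
    have h1 : ‖homExt 1 φ x‖ = ‖x‖ := by simpa using norm_homExt 0 φ x
    rw [str_of_ge (by rw [h1]; exact hx), h1, hf, homExt_three]
  change strDiffeo.symm ((ρ ^ 3)⁻¹ • Φ₁ (ρ • x)) = homExt 1 φ x
  rw [e1, smul_smul, inv_mul_cancel₀ (by positivity), one_smul, ← e2, ← strDiffeo_apply]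
  exact strDiffeo.symm_apply_apply _

theorem extends_of_isW2Limit (φ : Sph m ≃ₘ⟮𝓡 m, 𝓡 m⟯ Sph m) (hm : 1 ≤ m) {q : ℝ}
    (hq : (m : ℝ) < q) {Ω : Set (Euc (m + 1))} (hΩ : IsOpen Ω) (h0 : (0 : Euc (m + 1)) ∈ Ω)
    (h : IsW2Limit q Ω (homExt 3 φ)) : Extends φ := by
  obtain ⟨r, hr, hrΩ⟩ := Metric.isOpen_iff.1 hΩ 0 h0
  have hb : 0 < r / 2 := by positivity
  have hbΩ : closedBall (0 : Euc (m + 1)) (r / 2) ⊆ Ω :=
    (closedBall_subset_ball (by linarith)).trans hrΩ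
  obtain ⟨H, h1, h2, h3⟩ := h.isolated_aux (finrank_euclideanSpace_fin) hm hq hΩ hb hbΩ
    (cone_isHomeoOn φ hΩ) (cone_isDiffeoOn φ hΩ)
  refine extends_of_modification φ hΩ h0 (ρ := 3 * (r / 2) / 4) (by positivity)
    ((closedBall_subset_closedBall (by linarith)).trans hbΩ) h1 h2 fun x hx hxn => h3 x hx ?_
  rw [sub_zero]; exact hxn

theorem cone_tfae' (φ : SphDiffeo m) (hm : 1 ≤ m) {Ω : Set (Euc (m + 1))} (hΩ : IsOpen Ω)
    (hb : Bornology.IsBounded Ω) (h0 : (0 : Euc (m + 1)) ∈ Ω) :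
    (∀ q : ℝ, 1 ≤ q → IsW2Homeo q Ω (homExt 3 φ)) ∧
    List.TFAE [Extends φ,
      ∀ q : ℝ, 1 ≤ q → IsW2Limit q Ω (homExt 3 φ),
      ∃ q : ℝ, (m : ℝ) < q ∧ IsW2Limit q Ω (homExt 3 φ),
      IsC1Limit Ω (homExt 3 φ)] := by
  have hm1 : (1 : ℝ) ≤ m := by exact_mod_cast hm
  constructor
  · intro q _
    exact ⟨cone_isHomeoOn φ hΩ, _, _, isJet_of_contDiff hΩ hb (contDiff_cone φ)⟩
  · tfae_have 1 → 2 := fun h q _ => isW2Limit_of_extends φ h hΩ hb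
    tfae_have 2 → 3 := fun h => ⟨m + 1, by linarith, h _ (by linarith)⟩
    tfae_have 3 → 1 := fun ⟨q, hq, h⟩ => extends_of_isW2Limit φ hm hq hΩ h0 h
    tfae_have 2 → 4 := fun h => (h (m + 2) (by linarith)).isC1Limit (by
      rw [finrank_euclideanSpace_fin]; push_cast; linarith) (by linarith) hΩ
      (contDiff_cone φ).continuous.continuousOn
    tfae_have 4 → 1 := fun h => extends_of_isC1Limit φ hΩ h0 h
    tfae_finish

theorem criterion' {φ : Sph m → Sph m} (hm : 1 ≤ m) (hφ : IsSphDiffeo φ)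
    {Ω : Set (Euc (m + 1))} (hΩ : IsBddNhd Ω) :
    (∀ q : ℝ, 1 ≤ q → W2Homeo q Ω (cone φ)) ∧
    List.TFAE [Extends φ, ∀ q : ℝ, 1 ≤ q → W2Limit q Ω (cone φ),
      ∃ q : ℝ, (m : ℝ) < q ∧ W2Limit q Ω (cone φ), C1Limit Ω (cone φ)] := by
  obtain ⟨h1, ψ, h2, h3, h4⟩ := hφ
  let Φ : SphDiffeo m :=
    { toEquiv := ⟨φ, ψ, h3, h4⟩
      contMDiff_toFun := h1
      contMDiff_invFun := h2 }
  exact cone_tfae' Φ hm hΩ.1 hΩ.2.1 hΩ.2.2

end Pool.Agent.H93.Exo
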