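import Mathlib
import Pool.Agent.H93.Exo.ConeLim
import Pool.Agent.H93.Exo.Thresh

/-!
The approximation theorem for cones and the sharp threshold.
-/

set_option linter.unusedSectionVars false

namespace Pool.Agent.H93.Exo

open MeasureTheory Metric Set Filter Topology Function Module
open scoped ENNReal ContDiff InnerProductSpace Manifold

variable {m : ℕ}

theorem eLpNorm_shell {F : Type*} [NormedAddCommGroup F] (hm : 1 ≤ m) {q : ℝ}
    (hqm : q ≤ m) {Ω : Set (Euc (m + 1))} {g : Euc (m + 1) → F}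
    (hg : AEStronglyMeasurable g (volume.restrict Ω)) {b : ℝ≥0∞}
    (h : ∫⁻ x in Ω, ‖g x‖ₑ ^ (m : ℝ) ≤ b) :
    eLpNorm g (ENNReal.ofReal q) (volume.restrict Ω) ≤ b ^ (1 / (m : ℝ)) *
      (volume.restrict Ω) univ ^ (1 / (ENNReal.ofReal q).toReal -
        1 / (ENNReal.ofReal (m : ℝ)).toReal) := by
  have hm0 : (0 : ℝ) < m := by exact_mod_cast hm
  refine (eLpNorm_le_eLpNorm_mul_rpow_measure_univ (ENNReal.ofReal_le_ofReal hqm) hg).trans ?_
  gcongr
  rw [eLpNorm_ofReal_eq hm0]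
  gcongr

theorem aesm_sub {X : Type*} [NormedAddCommGroup X] {a b : Euc (m + 1) → X} (ha : Continuous a)
    (hb : Continuous b) (Ω : Set (Euc (m + 1))) :
    AEStronglyMeasurable (a - b) (volume.restrict Ω) := (ha.sub hb).aestronglyMeasurable

theorem isW2Limit_cone_low (φ : SphDiffeo m) (hm : 2 ≤ m) {q : ℝ} (hq : 1 ≤ q) (hqm : q ≤ m)
    {Ω : Set (Euc (m + 1))} (hΩ : IsOpen Ω) (hb : Bornology.IsBounded Ω) :
    IsW2Limit q Ω (homExt 3 φ) := by
  have hm1 : 1 ≤ m := by omega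
  have hm0 : (0 : ℝ) < m := by exact_mod_cast hm1
  obtain ⟨R', hR'⟩ := hb.subset_closedBall 0
  set R : ℝ := max R' 0 with hRdef
  have hR : 0 ≤ R := le_max_right _ _
  have hbR : ∀ x ∈ Ω, ‖x‖ ≤ R := fun x hx => by
    have := hR' hx
    rw [mem_closedBall_zero_iff] at this
    exact this.trans (le_max_left _ _)
  obtain ⟨C, hC, hcombo⟩ := exists_combo norm_e0 (coneCon φ)
  obtain ⟨K, hK, hpw⟩ := cone_pointwise φ hC hR
  refine isW2Limit_of_approx hΩ hb (contDiff_cone φ) fun η hη => ?_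
  set c : ℝ≥0∞ := (volume.restrict Ω) univ ^ (1 / (ENNReal.ofReal q).toReal -
        1 / (ENNReal.ofReal (m : ℝ)).toReal) with hc
  have hct : c ≠ ⊤ := by
    refine ENNReal.rpow_ne_top_of_nonneg ?_ ?_
    · rw [ENNReal.toReal_ofReal (by linarith), ENNReal.toReal_ofReal hm0.le, sub_nonneg]
      exact one_div_le_one_div_of_le (by linarith) hqm
    · rw [Measure.restrict_apply_univ]; exact hb.measure_lt_top.ne
  set b : ℕ → ℝ≥0∞ := fun J => ENNReal.ofReal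
    (((J : ℝ) + 1) * (2 * R * (2 * R * K) ^ m) * ((J : ℝ)⁻¹) ^ m) with hbdef
  have hlim : Tendsto (fun J => 3 * ((b J) ^ (1 / (m : ℝ)) * c)) atTop (𝓝 0) := by
    have h1 : Tendsto b atTop (𝓝 0) := tendsto_shell_bound hm _
    have h2 : Tendsto (fun J => (b J) ^ (1 / (m : ℝ))) atTop (𝓝 0) := by
      have := (ENNReal.continuous_rpow_const (y := 1 / (m : ℝ))).tendsto 0
      rw [ENNReal.zero_rpow_of_pos (by positivity)] at this
      exact this.comp h1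
    have h3 : Tendsto (fun J => (b J) ^ (1 / (m : ℝ)) * c) atTop (𝓝 0) := by
      have := ENNReal.Tendsto.mul_const h2 (Or.inr hct)
      rwa [zero_mul] at this
    have h4 := ENNReal.Tendsto.const_mul h3 (Or.inr (show (3 : ℝ≥0∞) ≠ ⊤ by simp))
    rwa [mul_zero] at h4
  have hη2 : 0 < η / 2 := ENNReal.half_pos hη.ne'
  obtain ⟨J, hJη, hJ⟩ := ((hlim.eventually_lt_const hη2).and (eventually_ge_atTop 1)).exists
  obtain ⟨δ, v, hδ, hδJ, hExt, hv0, hv1, hvid, hv2, hv3⟩ := hcombo J hJ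
  obtain ⟨Φ, R0, hΦ⟩ := hExt
  obtain ⟨cv, hcv, hvlow⟩ := v.lower
  set H : Euc (m + 1) → Euc (m + 1) := homExt 3 φ ∘ v.f with hH
  have hHhom : ∀ (t : ℝ) (x : Euc (m + 1)), 0 < t → H (t • x) = t ^ 3 • H x := fun t x ht => by
    rw [hH, comp_apply, comp_apply, v.hom t x ht, homExt_smul 3 φ t _ ht]
  have hHs : ∀ x, x ≠ 0 → ContDiffAt ℝ ∞ H x := fun x hx =>
    (contDiffAt_homExt 3 φ.contMDiff (v.f_ne hx)).comp x (v.hf x hx)
  have hH2 : ContDiff ℝ 2 H := homogeneous_contDiff 2 hHs hHhom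
  set Ψ : Dif (Euc (m + 1)) := (strDif (Euc (m + 1))).comp Φ with hΨ
  have hΨH : ∀ x, max R0 (1 / cv) ≤ ‖x‖ → Ψ.f x = H x := by
    intro x hx
    have h1 : Φ.f x = homExt 1 φ (v.f x) := hΦ x ((le_max_left _ _).trans hx)
    have h2 : 1 ≤ ‖v.f x‖ := by
      refine le_trans ?_ (hvlow x)
      have := (le_max_right R0 (1 / cv)).trans hx
      rwa [div_le_iff₀' hcv] at this
    have h3 : ‖homExt 1 φ (v.f x)‖ = ‖v.f x‖ := by simpa using norm_homExt 0 φ (v.f x)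
    change str (Φ.f x) = homExt 3 φ (v.f x)
    rw [h1, str_of_ge (by rw [h3]; exact h2), h3, homExt_three]
  have hF2 : ContDiff ℝ 2 (homExt 3 φ) := contDiff_cone φ
  have hH1 : ContDiff ℝ 1 (fderiv ℝ H) := hH2.fderiv_right (by norm_num)
  have hF1 : ContDiff ℝ 1 (fderiv ℝ (homExt 3 φ)) := hF2.fderiv_right (by norm_num)
  have hpt := hpw J hJ δ v hδ hδJ hv0 hv1 hvid hv2 hv3
  have k0 : eLpNorm (H - homExt 3 φ) (ENNReal.ofReal q) (volume.restrict Ω) ≤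
      (b J) ^ (1 / (m : ℝ)) * c := by
    refine eLpNorm_shell hm1 hqm
      (hH2.continuous.sub hF2.continuous).aestronglyMeasurable ?_
    refine shell_lintegral hm1 hR hK hJ hδ hΩ.measurableSet hbR fun x hx hxR => ?_
    rcases hpt x hx hxR with h | ⟨j, hj, h1, h2, _, _⟩
    · exact Or.inl h.1
    · exact Or.inr ⟨j, hj, h1, h2⟩
  have k1 : eLpNorm (fderiv ℝ H - fderiv ℝ (homExt 3 φ)) (ENNReal.ofReal q)
      (volume.restrict Ω) ≤ (b J) ^ (1 / (m : ℝ)) * c := by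
    refine eLpNorm_shell hm1 hqm
      (hH1.continuous.sub hF1.continuous).aestronglyMeasurable ?_
    refine shell_lintegral hm1 hR hK hJ hδ hΩ.measurableSet hbR fun x hx hxR => ?_
    rcases hpt x hx hxR with h | ⟨j, hj, h1, _, h2, _⟩
    · exact Or.inl h.2.1
    · exact Or.inr ⟨j, hj, h1, h2⟩
  have k2 : eLpNorm (fderiv ℝ (fderiv ℝ H) - fderiv ℝ (fderiv ℝ (homExt 3 φ)))
      (ENNReal.ofReal q) (volume.restrict Ω) ≤ (b J) ^ (1 / (m : ℝ)) * c := by
    have hc1 : Continuous (fderiv ℝ (fderiv ℝ H)) := hH1.continuous_fderiv one_ne_zero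
    have hc2 : Continuous (fderiv ℝ (fderiv ℝ (homExt 3 φ))) := hF1.continuous_fderiv one_ne_zero
    refine eLpNorm_shell (F := Euc (m + 1) →L[ℝ] Euc (m + 1) →L[ℝ] Euc (m + 1)) hm1 hqm
      (aesm_sub (X := Euc (m + 1) →L[ℝ] Euc (m + 1) →L[ℝ] Euc (m + 1)) hc1 hc2 Ω) ?_
    refine shell_lintegral (F := Euc (m + 1) →L[ℝ] Euc (m + 1) →L[ℝ] Euc (m + 1))
      hm1 hR hK hJ hδ hΩ.measurableSet hbR fun x hx hxR => ?_
    rcases hpt x hx hxR with h | ⟨j, hj, h1, _, _, h2⟩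
    · exact Or.inl h.2.2
    · exact Or.inr ⟨j, hj, h1, h2⟩
  have hnrm : nrm q Ω H (homExt 3 φ) < η / 2 := by
    refine lt_of_le_of_lt ?_ hJη
    unfold nrm
    calc _ ≤ (b J) ^ (1 / (m : ℝ)) * c + (b J) ^ (1 / (m : ℝ)) * c +
        (b J) ^ (1 / (m : ℝ)) * c := add_le_add (add_le_add k0 k1) k2
      _ = _ := by ring
  obtain ⟨A, hA⟩ := nrm_tendsto_scaled (q := q) hb hH2 hHhom Ψ hΨH hη2
  refine ⟨A, ?_⟩
  calc nrm q Ω A.f (homExt 3 φ) ≤ nrm q Ω A.f H + nrm q Ω H (homExt 3 φ) :=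
        nrm_triangle hq (A.hf.of_le (by norm_cast)) hH2 hF2
    _ < η / 2 + η / 2 := ENNReal.add_lt_add hA hnrm
    _ = η := ENNReal.add_halves η

/-- The sharp threshold: for `n = m + 1 ≥ 3` the cone is a `W^{2,q}` limit of diffeomorphisms iff
`q ≤ n - 1` or `φ` extends over the ball. -/
theorem isW2Limit_cone_iff (φ : SphDiffeo m) (hm : 2 ≤ m) {q : ℝ} (hq : 1 ≤ q)
    {Ω : Set (Euc (m + 1))} (hΩ : IsOpen Ω) (hb : Bornology.IsBounded Ω)
    (h0 : (0 : Euc (m + 1)) ∈ Ω) :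
    IsW2Limit q Ω (homExt 3 φ) ↔ q ≤ m ∨ Extends φ := by
  constructor
  · intro h
    by_cases hqm : q ≤ m
    · exact Or.inl hqm
    · exact Or.inr (extends_of_isW2Limit φ (by omega) (not_le.1 hqm) hΩ h0 h)
  · rintro (h | h)
    · exact isW2Limit_cone_low φ hm hq h hΩ hb
    · exact isW2Limit_of_extends φ h hΩ hb

end Pool.Agent.H93.Exo
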